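import Mathlib
import Pool.Agent.Lib.RG.QDefs
import Pool.Agent.Lib.RGK.QKDefs

/-!
RGM: rank gradient zero for mild groups with generic cup rank. Definitions.

Paper proof: /team-store/dbd2c3_generic_h45.md (helper45). Letters `α`, relations `κ`; `FA F α` is the free
algebra (basis of words `wd w`, letters `X a`), see `RG/QDefs.lean`.
-/

set_option autoImplicit false

namespace Pool.Agent.RGM

open scoped Classical
open Pool.Agent.RG (GA dl Ef Exact NpSeries IsDer LocConst GenBy)
open Pool.Agent.RG.Q (FA wd X KD qd ex)
open Pool.Agent.RGK (H1 KL cupG)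

section algebra

variable {F : Type} [Field F] {α κ : Type}

/-- the length of a word -/
def len (w : FreeMonoid α) : ℕ := (FreeMonoid.toList w).length

/-- the span of the words of length at least `n` -/
noncomputable def Lge (F : Type) [Field F] (α : Type) (n : ℤ) : Submodule F (FA F α) :=
  Submodule.span F {x | ∃ w : FreeMonoid α, n ≤ len w ∧ x = wd w}

/-- the two-sided ideal generated by the `f j` and by the words of length larger than `n` (it is defined
as a left ideal) -/
noncomputable def I (f : κ → FA F α) (n : ℤ) : Ideal (FA F α) :=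
  Ideal.span ({x | ∃ j w, x = f j * wd w} ∪ {x | ∃ w : FreeMonoid α, n < len w ∧ x = wd w})

/-- the dimension of the algebra modulo `I f n` -/
noncomputable def hd (f : κ → FA F α) (n : ℤ) : ℕ := Module.finrank F (FA F α ⧸ I f n)

/-- the quadratic forms `∑ a b, c j a b X_a X_b` -/
noncomputable def quad [Fintype α] (c : κ → α → α → F) (j : κ) : FA F α :=
  ∑ a, ∑ b, c j a b • (X a * X b)

/-- The quadratic algebra with the relations `∑ a b, c j a b X_a X_b = 0` (`j : κ`) has Hilbert series
`1 / (1 - d t + r t²)`, `d` = number of letters, `r` = number of relations. In terms of the dimensions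
`hd n` of the truncated algebras (all words of length larger than `n` are zero), the coefficients of
`1 / ((1 - t) (1 - d t + r t²))`. -/
def Mild [Fintype α] [Fintype κ] (c : κ → α → α → F) : Prop :=
  ∀ n : ℕ, hd (quad c) ((n : ℤ) + 2) + Fintype.card κ * hd (quad c) n =
    1 + Fintype.card α * hd (quad c) ((n : ℤ) + 1)

/-- the commutative quotient of the free algebra -/
noncomputable def ab (F : Type) [Field F] (α : Type) : FA F α →ₐ[F] MvPolynomial α F :=
  MonoidAlgebra.lift F (MvPolynomial α F) (FreeMonoid α) (FreeMonoid.lift fun a => MvPolynomial.X a)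

/-- The value of a word in the `v`-filtration: `N * length - (sum of the δ)`. -/
def val (N : ℕ) (δ : α → ℕ) (w : FreeMonoid α) : ℤ :=
  (N : ℤ) * len w - (((FreeMonoid.toList w).map δ).sum : ℕ)

/-- The `v`-filtration of the free algebra: words have value `N * length - (sum of the δ)`, the elements
`u (X a X b - X b X a) v` have value `N * length - 1`. -/
noncomputable def Vge (F : Type) [Field F] (N : ℕ) (δ : α → ℕ) (μ : ℤ) : Submodule F (FA F α) :=
  Submodule.span F ({x | ∃ w : FreeMonoid α, μ ≤ val N δ w ∧ x = wd w} ∪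
    {x | ∃ (u v : FreeMonoid α) (a b : α), μ ≤ (N : ℤ) * (len u + len v + 2) - 1 ∧
      x = wd u * (X a * X b - X b * X a) * wd v})

/-- the matrix of linear forms -/
noncomputable def linM {ι ι' : Type} [Fintype α] (M : ι → ι' → α → F) :
    Matrix ι ι' (MvPolynomial α F) :=
  Matrix.of fun i b => ∑ a, MvPolynomial.C (M i b a) * MvPolynomial.X a

/-- the property (M): if `y` in `I f n` starts in degree `r ≤ n` then its part of degree `r` is zero in
the commutative polynomial ring -/
def PropM (f : κ → FA F α) (n : ℕ) : Prop :=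
  ∀ r : ℕ, r ≤ n → ∀ y ∈ Lge F α r, y ∈ I f n → ∀ e : α →₀ ℕ, (e.sum fun _ k => k) = r →
    MvPolynomial.coeff e (ab F α y) = 0

end algebra

/-- bound for the order of the finite quotient -/
noncomputable def MNbd (p : ℕ) (α : Type) (n : ℕ) : ℕ :=
  p ^ Nat.card {w : FreeMonoid α // len w ≤ n}

/-- The minor: a column `b₀` and rows `R b` (`b ≠ b₀`) such that the determinant of the matrix of the linear
forms `∑ a, c (R b') a b x_a` is not zero. -/
def Minor {F : Type} [Field F] {α κ : Type} [Fintype α] (c : κ → α → α → F) : Prop :=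
  ∃ (b₀ : α) (R : {b // b ≠ b₀} → κ),
    (linM (fun (i b : {b // b ≠ b₀}) (a : α) => c (R i) a b)).det ≠ 0

section crit

variable {p : ℕ} {H : Type} [AddCommGroup H] [Module (ZMod p) H] {κ : Type}

/-- mild, for a bilinear map `c : H × H → (κ → ZMod p)` (`H = H¹`): with respect to some basis -/
def MildC [Fact p.Prime] [Fintype κ] (c : H → H → κ → ZMod p) : Prop :=
  ∃ (α : Type) (_ : Fintype α) (f : Module.Basis α (ZMod p) H), Mild fun j a b => c (f a) (f b) j

/-- `H = U ⊕ V`, the cup product is zero on `V` and `U ∪ V` spans -/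
def UVC (c : H → H → κ → ZMod p) : Prop :=
  ∃ U V : Submodule (ZMod p) H, IsCompl U V ∧ (∀ f ∈ V, ∀ g ∈ V, c f g = 0) ∧
    Submodule.span (ZMod p) {x | ∃ f ∈ U, ∃ g ∈ V, x = c f g} = ⊤

/-- generic cup rank: `H` is not zero and for some `f = ∑ i, t i ⊗ h i` in `F ⊗ H`, `F` an extension
field, the space spanned by the `f ∪ g`, `g ∈ H`, has dimension at least `dim H - 1` -/
def GenC (c : H → H → κ → ZMod p) [Fact p.Prime] : Prop :=
  0 < Module.finrank (ZMod p) H ∧ ∃ (F : Type) (_ : Field F) (_ : Algebra (ZMod p) F) (m : ℕ) (t : Fin m → F) (h : Fin m → H),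
    Module.finrank (ZMod p) H ≤ Module.finrank F (Submodule.span F
      (Set.range fun (g : H) (j : κ) => ∑ i, t i * algebraMap (ZMod p) F (c (h i) g j))) + 1

end crit

end Pool.Agent.RGM
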