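import Mathlib
import Pool.Agent.Lib.RG.QCrit
import Pool.Agent.Lib.RGM.Defs

/-!
RGM: the criterion `RG.Q.Criterion` implies the conditions `UVC` and `GenC`: with `u`, `v` as in the
criterion take the generic element `X u + v` over the field of rational functions.
-/

set_option autoImplicit false

namespace Pool.Agent.RGM

open scoped Classical
open Pool.Agent.RG (Q.cup Q.Criterion)

/-- vectors of polynomials which are linearly independent at `0` are linearly independent over the field
of fractions -/
theorem li_of_eval {k : Type} [Field k] {ι κ : Type} (b : ι → κ → k)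
    (hb : LinearIndependent k b) (P : ι → κ → Polynomial k)
    (hP : ∀ i j, (P i j).eval 0 = b i j) :
    LinearIndependent (RatFunc k) (fun i j => algebraMap (Polynomial k) (RatFunc k) (P i j)) := by
  have hLI : LinearIndependent (Polynomial k)
      (fun i j => algebraMap (Polynomial k) (RatFunc k) (P i j)) := by
    rw [linearIndependent_iff']
    intro s a hs
    have h0 : ∀ j, ∑ i ∈ s, a i * P i j = 0 := by
      intro j
      have := congrFun hs j
      simp only [Finset.sum_apply, Pi.zero_apply, Algebra.smul_def] at this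
      apply IsFractionRing.injective (Polynomial k) (RatFunc k)
      rw [map_sum, map_zero, ← this]
      exact Finset.sum_congr rfl fun i _ => map_mul _ _ _
    have h1 : ∀ n : ℕ, ∀ i ∈ s, (Polynomial.X : Polynomial k) ^ n ∣ a i := by
      intro n
      induction n with
      | zero => intro i _; simp
      | succ n ih =>
        choose a' ha' using ih
        let a'' : ι → Polynomial k := fun i => if h : i ∈ s then a' i h else 0
        have ha'' : ∀ i ∈ s, a i = Polynomial.X ^ n * a'' i := by
          intro i hi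
          simp only [a'', dif_pos hi]
          exact ha' i hi
        have h2 : ∀ j, ∑ i ∈ s, a'' i * P i j = 0 := by
          intro j
          have h3 := h0 j
          rw [Finset.sum_congr rfl fun i hi => by rw [ha'' i hi, mul_assoc], ← Finset.mul_sum] at h3
          rcases mul_eq_zero.1 h3 with h4 | h4
          · exact absurd h4 (pow_ne_zero _ Polynomial.X_ne_zero)
          · exact h4
        have h5 : ∑ i ∈ s, (a'' i).eval 0 • b i = 0 := by
          funext j
          have h6 := congrArg (Polynomial.eval 0) (h2 j)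
          rw [Polynomial.eval_finsetSum, Polynomial.eval_zero] at h6
          rw [Finset.sum_apply, Pi.zero_apply]
          refine Eq.trans (Finset.sum_congr rfl fun i _ => ?_) h6
          rw [Polynomial.eval_mul, hP, Pi.smul_apply, smul_eq_mul]
        have h7 := linearIndependent_iff'.1 hb s _ h5
        intro i hi
        rw [ha'' i hi, pow_succ]
        refine mul_dvd_mul_left _ (Polynomial.X_dvd_iff.2 ?_)
        rw [Polynomial.coeff_zero_eq_eval_zero]
        exact h7 i hi
    intro i hi
    by_contra hne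
    refine hne (Polynomial.eq_zero_of_dvd_of_natDegree_lt (h1 ((a i).natDegree + 1) i hi) ?_)
    rw [Polynomial.natDegree_X_pow]
    exact Nat.lt_succ_self _
  exact (LinearIndependent.iff_fractionRing (Polynomial k) (RatFunc k)).1 hLI

/-- the generic cup products with `X u + v` -/
noncomputable def W {p : ℕ} [Fact p.Prime] {ι : Type} [Fintype ι] (ℓ : ι → ι → ZMod p)
    (u v : ι → ZMod p) (g : ι → ZMod p) (j : ι) : RatFunc (ZMod p) :=
  ∑ i, (![RatFunc.X, 1] : Fin 2 → RatFunc (ZMod p)) i *
    algebraMap (ZMod p) (RatFunc (ZMod p)) (Q.cup ℓ ((![u, v] : Fin 2 → (ι → ZMod p)) i) g j)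

theorem W_eq {p : ℕ} [Fact p.Prime] {ι : Type} [Fintype ι] (ℓ : ι → ι → ZMod p)
    (u v : ι → ZMod p) (g : ι → ZMod p) (j : ι) : W ℓ u v g j =
      RatFunc.X * algebraMap (Polynomial (ZMod p)) (RatFunc (ZMod p)) (Polynomial.C (Q.cup ℓ u g j)) +
        algebraMap (Polynomial (ZMod p)) (RatFunc (ZMod p)) (Polynomial.C (Q.cup ℓ v g j)) := by
  unfold W
  rw [Fin.sum_univ_two]
  simp only [Matrix.cons_val_zero, Matrix.cons_val_one, one_mul]
  have h : ∀ c : ZMod p, algebraMap (ZMod p) (RatFunc (ZMod p)) c =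
      algebraMap (Polynomial (ZMod p)) (RatFunc (ZMod p)) (Polynomial.C c) := fun c => by
    rw [← Polynomial.algebraMap_eq, ← IsScalarTower.algebraMap_apply]
  rw [h, h]

theorem criterion_le {p : ℕ} [Fact p.Prime] {ι : Type} [Fintype ι] [Nonempty ι] (ℓ : ι → ι → ZMod p)
    (h : Q.Criterion ℓ) : UVC (Q.cup ℓ) ∧ GenC (Q.cup ℓ) := by
  obtain ⟨U, V, hUV, hVV, hs, u, hu, v, hv, hr⟩ := h
  refine ⟨⟨U, V, hUV, hVV, hs⟩, ?_, RatFunc (ZMod p), inferInstance, inferInstance, 2,
    ![RatFunc.X, 1], ![u, v], ?_⟩
  · rw [Module.finrank_fintype_fun_eq_card]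
    exact Fintype.card_pos
  rw [Module.finrank_fintype_fun_eq_card]
  refine hr.trans (Nat.add_le_add_right ?_ 1)
  set B : Set (ι → ZMod p) := {c | (∃ g ∈ V, c = Q.cup ℓ u g) ∨ ∃ f ∈ U, c = Q.cup ℓ f v} with hB
  obtain ⟨b, hbB, hbs, hbl⟩ := exists_linearIndependent (ZMod p) B
  rw [← hbs]
  have hswap : ∀ f g : ι → ZMod p, Q.cup ℓ f g = - Q.cup ℓ g f := by
    intro f g
    funext q
    simp only [Q.cup, Pi.neg_apply]
    ring
  have key : ∀ c : b, ∃ P : ι → Polynomial (ZMod p), (∀ j, (P j).eval 0 = (c : ι → ZMod p) j) ∧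
      (fun j => algebraMap (Polynomial (ZMod p)) (RatFunc (ZMod p)) (P j)) ∈
        Submodule.span (RatFunc (ZMod p)) (Set.range (W ℓ u v)) := by
    rintro ⟨c, hc⟩
    rcases hbB hc with ⟨g, hg, hcg⟩ | ⟨f, hf, hcf⟩
    · refine ⟨fun j => Polynomial.C (c j), fun j => Polynomial.eval_C, ?_⟩
      have h1 := Submodule.smul_mem _ (RatFunc.X : RatFunc (ZMod p))⁻¹
        (Submodule.subset_span ⟨g, rfl⟩ : W ℓ u v g ∈
          Submodule.span (RatFunc (ZMod p)) (Set.range (W ℓ u v)))
      refine (congrArg (· ∈ Submodule.span (RatFunc (ZMod p)) (Set.range (W ℓ u v))) ?_).mpr h1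
      funext j
      rw [Pi.smul_apply, W_eq]
      have h2 : Q.cup ℓ v g j = 0 := by rw [hVV v hv g hg]; rfl
      rw [h2, Polynomial.C_0, map_zero, add_zero, smul_eq_mul, ← mul_assoc,
        inv_mul_cancel₀ RatFunc.X_ne_zero, one_mul, ← hcg]
    · refine ⟨fun j => Polynomial.C (c j) - Polynomial.X * Polynomial.C (Q.cup ℓ u f j),
        fun j => by simp, ?_⟩
      have h1 := Submodule.smul_mem _ (-1 : RatFunc (ZMod p))
        (Submodule.subset_span ⟨f, rfl⟩ : W ℓ u v f ∈
          Submodule.span (RatFunc (ZMod p)) (Set.range (W ℓ u v)))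
      refine (congrArg (· ∈ Submodule.span (RatFunc (ZMod p)) (Set.range (W ℓ u v))) ?_).mpr h1
      funext j
      rw [Pi.smul_apply, W_eq]
      have h2 : Q.cup ℓ v f j = - c j := by rw [hswap v f, ← hcf]; rfl
      rw [h2, smul_eq_mul, map_sub, map_mul, RatFunc.algebraMap_X, map_neg, map_neg]
      ring
  choose P hP hPs using key
  have hli := li_of_eval (fun c : b => (c : ι → ZMod p)) hbl P hP
  have : Fintype b := (hbl.setFinite).fintype
  have h1 := finrank_span_eq_card hbl
  have h2 := finrank_span_eq_card hli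
  rw [Subtype.range_coe] at h1
  rw [h1, ← h2]
  refine Submodule.finrank_mono (Submodule.span_le.2 ?_)
  rintro _ ⟨c, rfl⟩
  exact hPs c

end Pool.Agent.RGM
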