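import Mathlib
import Pool.Agent.Lib.RGM.Defs
import Pool.Agent.Lib.RGK.G03

/-!
RGM: the cup product of the group `G_{K,p,T}` at given inertia generators and Frobenius elements.
-/

set_option autoImplicit false

namespace Pool.Agent.RGM

open Pool.Agent.RGK (H1)

/-- The cup products of two continuous homomorphisms `f, g : G → ℤ/p` at the pairs `(x t, y t)`:
`f(x_t) g(y_t) - g(x_t) f(y_t)`. -/
def cupXY {p : ℕ} {G R : Type} [Group G] [TopologicalSpace G] [IsTopologicalGroup G]
    (x y : R → G) (f g : H1 p G) (t : R) : ZMod p :=
  (f : G → ZMod p) (x t) * (g : G → ZMod p) (y t) - (g : G → ZMod p) (x t) * (f : G → ZMod p) (y t)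

/-- Every element of `K` all of whose valuations are divisible by `p` and which is a `p`-th power in the
completions at the primes of `T` is a `p`-th power (the primes of `T` do not lie above `p`). -/
def VTriv {K : Type} [Field K] [NumberField K] (p : ℕ)
    (T : Set (IsDedekindDomain.HeightOneSpectrum (NumberField.RingOfIntegers K))) : Prop :=
  ∀ a : K, a ≠ 0 → (∀ v : IsDedekindDomain.HeightOneSpectrum (NumberField.RingOfIntegers K),
      ∃ n : ℤ, v.valuation K a = WithZero.exp (p * n)) →
    (∀ t ∈ T, ∃ b : K, t.valuation K (a * b ^ p - 1) < 1) → ∃ b : K, b ^ p = a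

end Pool.Agent.RGM
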