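import Mathlib
import Pool.Agent.Lib.RGJ.Defs

/-!
RGM: persistent sets of primes with a condition on the additional primes, definitions.
-/

set_option autoImplicit false

namespace Pool.Agent.RGM

open NumberField IsDedekindDomain
open Pool.Agent.RG (Above IsDec IsInert IsFrob Lies UnrP GP rankGradient)
open Pool.Agent.RG.H (Pr below)
open Pool.Agent.RGJ (RamAt)

variable {K : Type} [Field K] [NumberField K]

/-- The prime `v` of `K` does not split completely in some Galois extension `F / K` of degree `p`
unramified outside `T`. -/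
def NSplitP (p : ℕ) (T : Set (HeightOneSpectrum (𝓞 K))) (v : HeightOneSpectrum (𝓞 K)) : Prop :=
  ∃ (F : Type) (_ : Field F) (_ : NumberField F) (_ : Algebra K F) (_ : IsGalois K F),
    Module.finrank K F = p ∧ UnrP T F ∧
    ∃ (w : HeightOneSpectrum (𝓞 F)) (σ : F ≃ₐ[K] F), Lies (algebraMap K F) w v ∧ IsDec w σ ∧ σ ≠ 1

/-- The set `T` of primes of `K` is persistent for the condition `C` on primes: for all fields
`K ⊆ L ⊆ M` with `M / K` finite Galois of `p`-power degree, unramified above `p`, and every finite set
`S` of primes of `L` with norms congruent to `1` modulo `p` which contains the primes above `T`, such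
that all primes of `K` outside `T` which lie below `S` or ramify in `M` have the property `C`, the group
`G_{L,p,S}` is infinite and has rank gradient zero. -/
def Pers (p : ℕ) (T : Set (HeightOneSpectrum (𝓞 K))) (C : HeightOneSpectrum (𝓞 K) → Prop) : Prop :=
  ∀ (L M : Type) [Field L] [NumberField L] [Field M] [NumberField M] [Algebra K L] [Algebra K M]
    [IsGalois K M], Nonempty (L →ₐ[K] M) → (∃ n, Module.finrank K M = p ^ n) →
    (∀ v : HeightOneSpectrum (𝓞 K), Above v p → ¬ RamAt v M) →
    ∀ S : Set (HeightOneSpectrum (𝓞 L)), S.Finite →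
      (∀ w ∈ S, Ideal.absNorm w.asIdeal % p = 1) →
      (∀ w : HeightOneSpectrum (𝓞 L), ∀ v ∈ T, Lies (algebraMap K L) w v → w ∈ S) →
      (∀ v : HeightOneSpectrum (𝓞 K), v ∉ T →
        ((∃ w ∈ S, Lies (algebraMap K L) w v) ∨ RamAt v M) → C v) →
      Infinite (GP p S) ∧ rankGradient (GP p S) = 0

end Pool.Agent.RGM
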