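import Mathlib
import Pool.Agent.Lib.RG.M1
import Pool.Agent.Lib.RG.R1
import Pool.Agent.Lib.RG.R3
import Pool.Agent.Lib.RG.G14
import Pool.Agent.Lib.RGK.QKDefs
import Pool.Agent.Lib.RGK.MK2
import Pool.Agent.Lib.RGK.MK3
import Pool.Agent.Lib.RGK.MK5
import Pool.Agent.Lib.RGJ.J1
import Pool.Agent.Lib.RGJ.J4
import Pool.Agent.Lib.RGJ.J5
import Pool.Agent.Lib.RGJ.J6
import Pool.Agent.Lib.RGJ.J7
import Pool.Agent.Lib.RGM.PersDefs

/-!
RGM: persistence with a condition on the additional primes (port of RGJ/J8, where only the infinite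
order of the Frobenius elements of the additional primes is used).
-/

set_option autoImplicit false

namespace Pool.Agent.RGM

open NumberField IsDedekindDomain
open Pool.Agent.RG (Above IsDec IsInert IsFrob Lies UnrP GenBy rankGradient maxExtP GP)
open Pool.Agent.RG.H (Pr below)
open Pool.Agent.RGK (nm MaxExtK InFrK UnrOutK H1)
open Pool.Agent.RGJ

/-- the Frobenius elements of `v` have infinite order -/
def InfFr {K : Type} [Field K] [NumberField K] (p : ℕ) (T : Set (Pr K)) (v : Pr K) : Prop :=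
  ∀ x y : GP p T, InFrK v x y → ∀ n : ℕ, 0 < n → y ^ n ≠ 1

private theorem mono' {K : Type} [Field K] [NumberField K] {p : ℕ} [Fact p.Prime]
    {T S : Set (Pr K)} (hsub : T ⊆ S) (hSf : S.Finite) (hS : ∀ q ∈ S, nm q % p = 1)
    (hG : Infinite (GP p T))
    (h : ∀ ε : ℝ, 0 < ε → ∃ (U : Subgroup (GP p T)) (n : ℕ),
      IsOpen (U : Set (GP p T)) ∧ GenBy U n ∧ ((n : ℝ) - 1) ≤ ε * U.index)
    (hns : ∀ q ∈ S, q ∉ T → InfFr p T q) :
    ∃ (i : maxExtP p T →ₐ[K] maxExtP p S) (π : GP p S →* GP p T),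
      Continuous π ∧ Function.Surjective π ∧ (∀ g x, g (i x) = i (π g x)) ∧
      ∀ ε : ℝ, 0 < ε → ∃ (V : Subgroup (GP p S)) (n : ℕ),
        IsOpen (V : Set (GP p S)) ∧ π.ker ≤ V ∧ GenBy V n ∧ (n : ℝ) ≤ ε * V.index := by
  classical
  have hp : p.Prime := Fact.out
  have hX₁ := RGK.maxExtK_maxExtP (K := K) p T
  have hX := RGK.maxExtK_maxExtP (K := K) p S
  have hgal₁ := hX₁.gal
  have hgal := hX.gal
  obtain ⟨i, hi⟩ : ∃ i : maxExtP p T →ₐ[K] maxExtP p S,
      i = IntermediateField.inclusion (RGK.maxExtP_monoK (K := K) p hsub) := ⟨_, rfl⟩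
  obtain ⟨π, hc, hs, hπ⟩ := RGK.exists_restrMaxK i
  refine ⟨i, π, hc, hs, hπ, fun ε hε => ?_⟩
  have hfin : Finite {q : Pr K // q ∈ S ∧ q ∉ T} :=
    Set.Finite.to_subtype (hSf.subset fun q hq => hq.1)
  have hft : Fintype {q : Pr K // q ∈ S ∧ q ∉ T} := Fintype.ofFinite _
  choose z g hzg hrel using fun q : {q : Pr K // q ∈ S ∧ q ∉ T} =>
    RGK.exists_inFrK hX (RGK.not_above_of_nm hp (hS q q.2.1))
  have hker := RGK.ker_restrK hsub hX₁ hX hc hπ
    (fun q : {q : Pr K // q ∈ S ∧ q ∉ T} => (q : Pr K)) (fun q => q.2)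
    (fun r hr hr1 => ⟨⟨r, hr, hr1⟩, rfl⟩) z g hzg
  exact RG.M1c_group (fun U hN hU => hX.pro_p U hN hU) hG h π hc hs z g
    (fun q => nm (q : Pr K)) (fun q => hS q q.2.1) hrel hker
    (fun q n hn => hns q q.2.1 q.2.2 _ _ ((hzg q).restr hπ) n hn) ε hε

theorem pers_of {K : Type} [Field K] [NumberField K] {p : ℕ} [Fact p.Prime]
    {T : Set (Pr K)} (hTf : T.Finite) (hT : ∀ v ∈ T, nm v % p = 1) (hG : Infinite (GP p T))
    (h : ∀ ε : ℝ, 0 < ε → ∃ (U : Subgroup (GP p T)) (n : ℕ),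
      IsOpen (U : Set (GP p T)) ∧ GenBy U n ∧ ((n : ℝ) - 1) ≤ ε * U.index)
    (C : Pr K → Prop) (hC : ∀ v, v ∉ T → nm v % p = 1 → C v → InfFr p T v) : Pers p T C := by
  classical
  intro L M _ _ _ _ _ _ _ hj hd ht S' hfin hN hcont hns
  obtain ⟨j⟩ := hj
  obtain ⟨hR1, hR2, hR3⟩ := ramified_setK hd ht
  obtain ⟨S, hSd⟩ : ∃ S : Set (Pr K), S = T ∪ ((fun w : Pr L => (below w : Pr K)) '' S' ∪
    {v | RamAt v M}) := ⟨_, rfl⟩
  have hsub : T ⊆ S := by rw [hSd]; exact Set.subset_union_left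
  have hSf : S.Finite := by rw [hSd]; exact hTf.union ((hfin.image _).union hR1)
  have hbel : ∀ w ∈ S', (below w : Pr K) ∈ S := fun w hw => by
    rw [hSd]; exact Or.inr (Or.inl ⟨w, hw, rfl⟩)
  have hSp : ∀ v ∈ S, nm v % p = 1 := by
    intro v hv
    rw [hSd] at hv
    rcases hv with h1 | ⟨w, hw, rfl⟩ | h1
    · exact hT v h1
    · exact nm_modK hd j w (hN w hw)
    · exact hR2 v h1
  have hnsS : ∀ v ∈ S, v ∉ T → C v := by
    intro v hv hvT
    rw [hSd] at hv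
    rcases hv with h1 | ⟨w, hw, rfl⟩ | h1
    · exact absurd h1 hvT
    · exact hns _ hvT (Or.inl ⟨w, hw, (RGK.lies_iff_below w _).2 rfl⟩)
    · exact hns v hvT (Or.inr h1)
  obtain ⟨i, π, hπc, hπs, hπi, hV⟩ := mono' hsub hSf hSp hG h
    (fun q hq hqT => hC q hqT (hSp q hq) (hnsS q hq hqT))
  -- the base field
  have hX₁ := RGK.maxExtK_maxExtP (K := K) p T
  have hX := RGK.maxExtK_maxExtP (K := K) p S
  have hgal₁ := hX₁.gal
  have hgal := hX.gal
  have huM : UnrOutK S M := fun w hw σ hσ => hR3 w (fun hr => hw (by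
    rw [hSd]; exact Or.inr (Or.inr hr))) σ hσ
  obtain ⟨g⟩ := hX.max M hd huM
  let _ : Algebra L (maxExtP p S) := (g.comp j).toRingHom.toAlgebra
  have hst : IsScalarTower K L (maxExtP p S) := IsScalarTower.of_algebraMap_eq fun a =>
    ((g.comp j).commutes a).symm
  obtain ⟨e⟩ := exists_isoK (K := L) hX
  obtain ⟨hgY, Φ, hΦc, hΦi, hΦo, hΦv⟩ := exists_embedding_valK (k := K) e
  have hle : maxExtP p S' ≤ maxExtP p (upS S L) := RGK.maxExtP_monoK p fun w hw => hbel w hw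
  have hgP := RG.isGalois_maxExtP p S'
  obtain ⟨ρ, hρc, hρs, hρk⟩ := RG.exists_quot hle
  have hcont' : ∀ w : Pr L, (below w : Pr K) ∈ T → w ∈ S' := fun w hw =>
    hcont w _ hw ((RGK.lies_iff_below w _).2 rfl)
  have hk : ∀ h, ρ h = 1 → π (Φ h) = 1 := by
    intro h hh
    refine AlgEquiv.ext fun x => i.toRingHom.injective ?_
    change i (π (Φ h) x) = i x
    rw [← hπi, hΦv]
    have h1 : (maxExtP p (upS S L)).val (e (i x)) ∈ maxExtP p S' :=
      mem_maxExtPK hcont' hX₁ i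
        ((maxExtP p (upS S L)).val.comp (e : maxExtP p S →ₐ[L] maxExtP p (upS S L))) x
    have h2 := hρk h hh _ h1
    have h3 : h (e (i x)) = e (i x) := Subtype.ext h2
    rw [h3, e.symm_apply_apply]
  obtain ⟨h1, h2⟩ := RG.R3_group π hπc hπs hG hV Φ hΦc hΦi hΦo ρ hρc hρs hk
  exact ⟨h1, RG.rankGradient_eq_zero h1 h2⟩

/-- a prime which is inert in a cyclic extension of degree `p` unramified outside `T`: some homomorphism
does not vanish at the Frobenius elements -/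
theorem exists_h1_frob {K : Type} [Field K] [NumberField K] {p : ℕ} [Fact p.Prime]
    {T : Set (Pr K)} {v : Pr K} (hv : v ∉ T) (hns : NSplitP p T v) {x y : GP p T}
    (h : InFrK v x y) : ∃ f : H1 p (GP p T), (f : GP p T → ZMod p) y ≠ 0 := by
  have hX := RGK.maxExtK_maxExtP (K := K) p T
  obtain ⟨F, i1, i2, i3, i4, hdeg, hunr, w, σ, hw, hdec, hσ⟩ := hns
  haveI := hX.gal
  rw [RGK.unrP_iff] at hunr
  obtain ⟨e⟩ := hX.max F ⟨1, by rw [hdeg, pow_one]⟩ hunr
  obtain ⟨r, hrc, _, hr⟩ := RGK.exists_restrictK e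
  obtain ⟨w', hw', _, hfr⟩ := RGK.inFr_transport e hr h
  have hbw : (below w : Pr K) = v := (RGK.lies_iff_below w v).1 hw
  have hry : r y ≠ 1 := by
    intro hr1
    rw [hr1] at hfr
    obtain ⟨τ, hτ⟩ := RGK.exists_conjK (K := K) (w := w') (w' := w) (hw'.trans hbw.symm)
    have h1 := RGK.IsFrob.conj_toK hτ hfr
    rw [mul_one, mul_inv_cancel, ← hbw] at h1
    obtain ⟨k, hk⟩ := RGK.dec_frob h1 hdec
    rw [one_pow, mul_one] at hk
    apply hσ
    have h2 := hunr w (by rw [hbw]; exact hv) _ hk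
    exact inv_eq_one.1 h2
  -- the group of order `p`
  have hfdF : FiniteDimensional K F := Module.Finite.of_restrictScalars_finite ℚ K F
  have hcard : Nat.card (F ≃ₐ[K] F) = p := by rw [IsGalois.card_aut_eq_finrank, hdeg]
  have hcyc : IsCyclic (F ≃ₐ[K] F) := isCyclic_of_prime_card hcard
  have hcardZ : Nat.card (Multiplicative (ZMod p)) = p := by
    rw [Nat.card_congr Multiplicative.toAdd, Nat.card_zmod]
  let θ : (F ≃ₐ[K] F) ≃* Multiplicative (ZMod p) := mulEquivOfCyclicCardEq (hcard.trans hcardZ.symm)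
  refine ⟨⟨fun g => Multiplicative.toAdd (θ (r g)), ⟨fun a b => ?_, r.ker, hrc, fun g hg => ?_⟩⟩, ?_⟩
  · show Multiplicative.toAdd (θ (r (a * b))) = _
    rw [map_mul, map_mul, toAdd_mul]
  · show Multiplicative.toAdd (θ (r g)) = 0
    rw [MonoidHom.mem_ker.1 hg, map_one, toAdd_one]
  · show Multiplicative.toAdd (θ (r y)) ≠ 0
    intro h0
    apply hry
    have h1 : θ (r y) = 1 := by
      have h2 := congrArg Multiplicative.ofAdd h0
      rwa [ofAdd_toAdd, ofAdd_zero] at h2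
    exact (MulEquiv.map_eq_one_iff θ).1 h1

end Pool.Agent.RGM
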