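import Mathlib
import Pool.Agent.Lib.RG.G14
import Pool.Agent.Lib.RG.RDefs
import Pool.Agent.Lib.RG.R1
import Pool.Agent.Lib.RGK.BDefs
import Pool.Agent.Lib.RGK.B1
import Pool.Agent.Lib.RGK.G01
import Pool.Agent.Lib.RGK.G02
import Pool.Agent.Lib.RGK.G03
import Pool.Agent.Lib.RGK.G04
import Pool.Agent.Lib.RGK.G07
import Pool.Agent.Lib.RGK.OG4
import Pool.Agent.Lib.RGK.OG7
import Pool.Agent.Lib.RGK.MK6
import Pool.Agent.Lib.RGJ.J1
import Pool.Agent.Lib.RGM.Pers
import Pool.Agent.Lib.RGM.Rows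
import Pool.Agent.Lib.RGM.KDefs

/-!
RGM, row J: mild sets of primes of a number field with generic cup rank.
-/

set_option autoImplicit false

namespace Pool.Agent.RGM

open NumberField IsDedekindDomain
open Pool.Agent.RG (Above IsDec IsInert IsFrob Lies GenBy rankGradient maxExtP GP)
open Pool.Agent.RG.H (Pr vl UU PP SU ev below nrm emb NS)
open Pool.Agent.RGK
open Pool.Agent.RGJ

variable {K : Type} [Field K] [NumberField K]

/-- the tame relation -/
theorem tame_of_inFrK {X : Type} [Field X] [Algebra K X] {p : ℕ} [Fact p.Prime] {T : Set (Pr K)}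
    (hX : MaxExtK p T X) {v : Pr K} (hv : ¬ Above v p) {x y : X ≃ₐ[K] X} (h : InFrK v x y) :
    y * x * y⁻¹ = x ^ nm v := by
  have := hX.gal
  apply eq_of_layersK
  intro L _ _
  obtain ⟨w, hw, hin, hfr⟩ := h L
  obtain ⟨k, hk⟩ := hX.deg L
  rw [map_mul, map_mul, map_inv, map_pow]
  have hwp : ¬ Above w p := G03aux.not_above hv hw
  rw [← hw] at hfr ⊢
  exact tame_relationK (p := p) hk hwp ((hin _).2 (Subgroup.mem_zpowers _)) hfr

theorem main_K (hGRP : RGRP) {p : ℕ} [Fact p.Prime] (hp : p ≠ 2) {T : Finset (Pr K)}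
    (hT : ∀ t ∈ T, (nm t).Prime ∧ nm t % p = 1) (hV : VT p (T : Set (Pr K)) ≤ PP K p)
    {R : Finset (Pr K)}
    (hR : R = T ∨ (∃ ζ : K, IsPrimitiveRoot ζ p) ∧ ∃ o ∈ T, ∀ t, t ∈ R ↔ t ∈ T ∧ t ≠ o)
    (x y : R → GP p (T : Set (Pr K))) (hxy : ∀ t : R, InFrK (t : Pr K) (x t) (y t))
    (hg : GenC (cupXY (p := p) x y)) (hm : MildC (cupXY (p := p) x y) ∨ UVC (cupXY (p := p) x y)) :
    (Infinite (GP p (T : Set (Pr K))) ∧ rankGradient (GP p (T : Set (Pr K))) = 0) ∧
      Pers p (T : Set (Pr K)) (NSplitP p (T : Set (Pr K))) ∧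
      (UVC (cupXY (p := p) x y) → Pers p (T : Set (Pr K)) (NSplit p (T : Set (Pr K)))) := by
  classical
  have hpp : p.Prime := Fact.out
  have hgal : IsGalois K (maxExtP p (T : Set (Pr K))) := RG.isGalois_maxExtP p _
  have hX := maxExtK_maxExtP p (T : Set (Pr K))
  have hab : ∀ v ∈ (T : Set (Pr K)), ¬ Above v p := fun v hv => not_above_of_nm hpp (hT v hv).2
  have hcyc : CycExt p (T : Set (Pr K)) :=
    cycExt_of_VT hp T.finite_toSet (fun v hv => (hT v hv).2) hV
  have hRT : ∀ t ∈ R, t ∈ T := by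
    intro t ht
    rcases hR with h | ⟨-, o, -, h⟩
    · rwa [h] at ht
    · exact ((h t).1 ht).1
  obtain ⟨e, -⟩ := exists_equivE hp T.finite_toSet hab hX
  have hfin : Finite (GC p (T : Set (Pr K))) := finite_GC T.finite_toSet
  have hfin2 : Finite (H1 p (GP p (T : Set (Pr K)))) := Finite.of_equiv _ e.symm.toEquiv
  -- the local data
  obtain ⟨k, hkx, hky⟩ : ∃ k : KL p R (GP p (T : Set (Pr K))), k.x = x ∧ k.y = y := by
    rcases hR with h | ⟨⟨ζ, hζ⟩, o, ho, h⟩
    · subst h
      exact ⟨{ x := x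
               y := y
               q := fun t => nm (t : Pr K)
               hq := fun t => (hT t t.2).2
               tame := fun t => tame_of_inFrK hX (hab t t.2) (hxy t)
               lift := fun E H _ _ _ _ π hπ hker hcard φ hφ hφs ex ey hx hy hr =>
                 lift_propertyK hp (T := (R : Set (Pr K))) hT hcyc hX x y hxy E H π hπ hker hcard
                   φ hφ hφs ex ey hx hy hr }, rfl, rfl⟩
    · let i : {t // t ∈ T ∧ t ≠ o} → R := fun t => ⟨t.1, (h t.1).2 t.2⟩
      exact ⟨{ x := x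
               y := y
               q := fun t => nm (t : Pr K)
               hq := fun t => (hT t (hRT t t.2)).2
               tame := fun t => tame_of_inFrK hX (hab t (hRT t t.2)) (hxy t)
               lift := fun E H _ _ _ _ π hπ hker hcard φ hφ hφs ex ey hx hy hr =>
                 lift_propertyO hp hζ (T := (T : Set (Pr K))) ho hT hcyc hX (fun t => x (i t))
                   (fun t => y (i t)) (fun t => hxy (i t)) E H π hπ hker hcard
                   φ hφ hφs (fun t => ex (i t)) (fun t => ey (i t)) (fun t => hx (i t))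
                   (fun t => hy (i t)) (fun t => hr (i t)) }, rfl, rfl⟩
  have hc : (cupG k : H1 p (GP p (T : Set (Pr K))) → H1 p (GP p (T : Set (Pr K))) → R → ZMod p) =
      cupXY x y := by
    funext f g t
    show (f : GP p (T : Set (Pr K)) → ZMod p) (k.x t) * _ - _ = _
    unfold cupXY
    rw [hkx, hky]
  obtain ⟨⟨h1, h2⟩, h3, h4⟩ := hGRP p hp (GP p (T : Set (Pr K)))
    (fun U hN hU => hX.pro_p U hN hU) k (by rw [hc]; exact hg) (by rw [hc]; exact hm)
  refine ⟨⟨h1, RG.rankGradient_eq_zero h1 h2⟩, ?_, fun h => ?_⟩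
  · refine pers_of T.finite_toSet (fun v hv => (hT v hv).2) h1 h2 _ fun v hv _ hns x' y' hxy' => ?_
    obtain ⟨f, hf⟩ := exists_h1_frob hv hns hxy'
    exact h4 f y' hf
  · refine pers_of T.finite_toSet (fun v hv => (hT v hv).2) h1 h2 _ fun v hv _ hns x' y' hxy' => ?_
    exact h3 (by rw [hc]; exact h) _ (frob_ne_one hX hv hns hxy')

/-- The final statement: `T` is persistent for the primes which do not split completely in an extension of
degree `p` unramified outside `T`, and, if the cup product criterion `UVC` holds, for the primes which do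
not split completely in the maximal `p`-extension unramified outside `T`. -/
theorem pers_K (hGRP : RGRP) {p : ℕ} [Fact p.Prime] (hp : p ≠ 2) {T : Finset (Pr K)}
    (hT : ∀ t ∈ T, (nm t).Prime ∧ nm t % p = 1) (hV : VT p (T : Set (Pr K)) ≤ PP K p)
    {R : Finset (Pr K)}
    (hR : R = T ∨ (∃ ζ : K, IsPrimitiveRoot ζ p) ∧ ∃ o ∈ T, ∀ t, t ∈ R ↔ t ∈ T ∧ t ≠ o)
    (x y : R → GP p (T : Set (Pr K))) (hxy : ∀ t : R, InFrK (t : Pr K) (x t) (y t))
    (hg : GenC (cupXY (p := p) x y)) (hm : MildC (cupXY (p := p) x y) ∨ UVC (cupXY (p := p) x y)) :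
    Pers p (T : Set (Pr K)) fun v => NSplitP p (T : Set (Pr K)) v ∨
      (UVC (cupXY (p := p) x y) ∧ NSplit p (T : Set (Pr K)) v) := by
  classical
  obtain ⟨-, h2, h3⟩ := main_K hGRP hp hT hV hR x y hxy hg hm
  by_cases h : UVC (cupXY (p := p) x y)
  · intro L M _ _ _ _ _ _ _ hj hd ht S' hfin hN hcont hns
    refine h3 h L M hj hd ht S' hfin hN hcont fun v hv hv' => ?_
    rcases hns v hv hv' with ⟨F, _, _, _, _, hF1, hF2, hF3⟩ | ⟨-, hF⟩
    · exact ⟨F, _, _, _, ‹_›, ⟨1, by rw [hF1, pow_one]⟩, hF2, hF3⟩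
    · exact hF
  · intro L M _ _ _ _ _ _ _ hj hd ht S' hfin hN hcont hns
    refine h2 L M hj hd ht S' hfin hN hcont fun v hv hv' => ?_
    rcases hns v hv hv' with hF | ⟨hF, -⟩
    · exact hF
    · exact absurd hF h

end Pool.Agent.RGM
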