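import Mathlib
import Pool.Agent.Lib.RGM.Defs

/-!
RGM: the rows, as exact propositions. Row `X` is to be proved as `theorem rowX : RX` in
`Pool/Agent/Lib/RGM/RowX.lean` (namespace `Pool.Agent.RGM`, import `Rows` and whatever you need from
`RG`, `RGK`).
-/

set_option autoImplicit false

namespace Pool.Agent.RGM

open scoped Classical
open Pool.Agent.RG (GA dl Ef Exact NpSeries IsDer LocConst GenBy Kr)
open Pool.Agent.RG.Q (FA wd X KD qd ex LD Lead)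
open Pool.Agent.RGK (H1 KL cupG cupL)

/-- A1: Vinberg's inequality (adapt `Q01_kernel`, `Q02_vinberg`: all weights one). -/
def RA1 : Prop :=
  ∀ {F : Type} [Field F] {α κ : Type} [Fintype α] [Fintype κ] (f : κ → FA F α),
    (∀ j, f j ∈ Lge F α 2) → ∀ n : ℤ, 0 ≤ n →
      1 + Fintype.card α * hd f (n - 1) ≤ hd f n + Fintype.card κ * hd f (n - 2)

/-- A2: initial forms. -/
def RA2 : Prop :=
  ∀ {F : Type} [Field F] {α κ : Type} [Fintype α] (c : κ → α → α → F) (f : κ → FA F α),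
    (∀ j, f j - quad c j ∈ Lge F α 3) → ∀ (n : ℤ) (y : FA F α), y ∈ Lge F α n → y ∈ I (quad c) n →
      y ∈ I f n

/-- A3: a mild sequence has the property (M). From A1, A2: `hd f n = hd (quad c) n` for all `n`
(induction), so `Lge n ⊓ I f n = Lge n ⊓ I (quad c) n`, and `ab` kills the quadratic forms. -/
def RA3 : Prop :=
  ∀ {F : Type} [Field F] {α κ : Type} [Fintype α] [Fintype κ] (c : κ → α → α → F),
    (∀ j, ab F α (quad c j) = 0) → Mild c → ∀ f : κ → FA F α,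
    (∀ j, f j - quad c j ∈ Lge F α 3) → ∀ n : ℕ, PropM f n

/-- B1: the `v`-filtration is multiplicative. -/
def RB1 : Prop :=
  ∀ {F : Type} [Field F] {α : Type} (N : ℕ) (δ : α → ℕ),
    (∀ μ ν : ℤ, μ ≤ ν → Vge F N δ ν ≤ Vge F N δ μ) ∧
    (∀ (μ ν : ℤ) (x y : FA F α), x ∈ Vge F N δ μ → y ∈ Vge F N δ ν → x * y ∈ Vge F N δ (μ + ν)) ∧
    ((∀ a, δ a ≤ N) → ∀ x, x ∈ Vge F N δ 0) ∧
    (∀ a, (X a : FA F α) ∈ Vge F N δ ((N : ℤ) - δ a)) ∧
    (∀ a b, (X a * X b - X b * X a : FA F α) ∈ Vge F N δ (2 * N - 1)) ∧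
    (∀ n : ℕ, 1 ≤ n → 1 ≤ N → (∀ a, 1 ≤ δ a) → Vge F N δ ((N : ℤ) * n) ≤ Lge F α ((n : ℤ) + 1))

/-- B2: exactness of the letters. `y` is in `Lge r`; the coefficient of `x_a ^ r` in
`ab (X a ^ r - y)` is one. -/
def RB2 : Prop :=
  ∀ {F : Type} [Field F] {α κ : Type} (f : κ → FA F α) (n : ℕ), PropM f n →
    ∀ (N : ℕ) (δ : α → ℕ), (∀ a, 1 ≤ δ a) → (∀ a, (n + 1) * δ a < N) →
    ∀ (a : α) (r : ℕ), 1 ≤ r → r ≤ n →
    ∀ y ∈ Vge F N δ ((r : ℤ) * ((N : ℤ) - δ a) + 1), (X a : FA F α) ^ r - y ∉ I f n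

/-- C1: the tame relations as elements of the free algebra (adapt `Q06_word`, `Q07_rel`; simpler). -/
def RC1 : Prop :=
  ∀ (p : ℕ) [Fact p.Prime], p ≠ 2 → ∀ {α κ : Type} [Fintype α] [Fintype κ]
    (cx cy : κ → α → ZMod p) (wx wy : κ → FreeGroup α) (q : κ → ℕ), (∀ j, q j % p = 1) →
    (∀ j a, ex p a (wx j) = Multiplicative.ofAdd (cx j a)) →
    (∀ j a, ex p a (wy j) = Multiplicative.ofAdd (cy j a)) → ∀ n : ℕ,
    ∃ f : κ → FA (ZMod p) α, (∀ j, f j - quad (qd cx cy) j ∈ Lge (ZMod p) α 3) ∧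
      ∀ (A : Type) [Ring A] (θ : FA (ZMod p) α →+* A), (∀ x ∈ I f n, θ x = 0) →
        ∀ u : α → Aˣ, (∀ a, (u a : A) = 1 + θ (X a)) →
          ∀ j, FreeGroup.lift u (wy j) * FreeGroup.lift u (wx j) * (FreeGroup.lift u (wy j))⁻¹ =
            FreeGroup.lift u (wx j) ^ q j

/-- C2: the finite quotients with the `v`-series (adapt `Q08_series`: the filtration `Q08_I a` is the
image of `Vge`); uses A3, B1, B2, C1. Last part (added 14:55Z): the value of `w` is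
`1 + ∑ c a X_a + g`, `g ∈ Lge 2` (Q06_word); the coefficient of `x_a ^ (p ^ k)` in
`ab ((∑ c a X_a + g) ^ (p ^ k))` is `c a ^ (p ^ k) ≠ 0`; property (M) with `r = p ^ k`. -/
def RC2 : Prop :=
  ∀ (p : ℕ) [Fact p.Prime], p ≠ 2 → ∀ {α κ : Type} [Fintype α] [Fintype κ] [Nonempty α]
    (cx cy : κ → α → ZMod p), Mild (qd cx cy) →
    ∀ (wx wy : κ → FreeGroup α) (q : κ → ℕ), (∀ j, q j % p = 1) →
    (∀ j a, ex p a (wx j) = Multiplicative.ofAdd (cx j a)) →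
    (∀ j a, ex p a (wy j) = Multiplicative.ofAdd (cy j a)) →
    ∀ δ : α → ℕ, (∀ a, 1 ≤ δ a) → ∀ n N : ℕ, 1 ≤ n → (∀ a, (n + 1) * δ a < N) →
    ∃ (Q : Type) (_ : Group Q) (_ : Finite Q) (ξ : α → Q) (D : ℕ → Subgroup Q),
      IsPGroup p Q ∧ Nat.card Q ≤ MNbd p α n ∧ Subgroup.closure (Set.range ξ) = ⊤ ∧
      (∀ j, FreeGroup.lift ξ (wy j) * FreeGroup.lift ξ (wx j) * (FreeGroup.lift ξ (wy j))⁻¹ =
        FreeGroup.lift ξ (wx j) ^ q j) ∧
      NpSeries p Q (N * n - 1) D ∧ (∀ a, Exact p (N * n - 1) (N - δ a) D (ξ a)) ∧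
      (∀ a b, ξ a * ξ b * (ξ a)⁻¹ * (ξ b)⁻¹ ∈ D (2 * N - 1)) ∧
      ∀ w : FreeGroup α, (∃ a, ex p a w ≠ 1) → ∀ k, p ^ k ≤ n → FreeGroup.lift ξ w ^ p ^ k ≠ 1

/-- D: the leading form of the relations on derivations (extract from the proof of `Q15_relation`,
`hj`, with `Q15_word`, `V15_tame`). -/
def RD : Prop :=
  ∀ (p : ℕ) [Fact p.Prime], p ≠ 2 → ∀ {α κ : Type} [Fintype α] [Fintype κ] (G : Type) [Group G]
    [TopologicalSpace G] [IsTopologicalGroup G] (K : KD p α κ G)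
    {Q : Type} [Group Q] [Finite Q] (n : ℕ) (D : ℕ → Subgroup Q), NpSeries p Q n D →
    ∀ W : ℕ, D W = ⊤ → ∀ φ : G →* Q, IsOpen (φ.ker : Set G) → ∀ δ : G → GA p Q,
    IsDer p φ δ → LocConst δ → ∀ t : ℤ, (∀ a, δ (K.z a) ∈ Ef p D (t + W)) → ∀ j : κ,
    ∑ a, ∑ b, qd (fun j a => Multiplicative.toAdd (K.χ a (K.x j)))
      (fun j a => Multiplicative.toAdd (K.χ a (K.y j))) j a b •
        (dl p (φ (K.z a)) * δ (K.z b)) ∈ Ef p D (t + 3 * W)

/-- E1: total kernel dimension of a product (abstract linear algebra). -/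
def RE1 : Prop :=
  ∀ {F V α : Type} [Field F] [AddCommGroup V] [Module F V] [FiniteDimensional F V]
    (E : ℤ → Submodule F V), (∀ a b, a ≤ b → E b ≤ E a) →
    ∀ (T : α → Module.End F V) (v : α → ℕ), (∀ a (k : ℤ), ∀ x ∈ E k, T a x ∈ E (k + v a)) →
    ∀ B : ℕ, (∀ a (W : ℕ), ∑ k ∈ Finset.range W,
      (Module.finrank F (E k ⊓ (E ((k : ℤ) + v a + 1)).comap (T a) : Submodule F V) -
        Module.finrank F (E ((k : ℤ) + 1))) ≤ B) →
    ∀ (l : List α) (W : ℕ), ∑ k ∈ Finset.range W,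
      (Module.finrank F (E k ⊓ (E ((k : ℤ) + ((l.map v).sum : ℕ) + 1)).comap ((l.map T).prod) :
        Submodule F V) - Module.finrank F (E ((k : ℤ) + 1))) ≤ l.length * B

/-- E2: dimension count for the derivations (abstract linear algebra; style of `Q13_linalg`). -/
def RE2 : Prop :=
  ∀ {F V α : Type} [Field F] [AddCommGroup V] [Module F V] [FiniteDimensional F V] [Fintype α]
    (E : ℤ → Submodule F V), (∀ a b, a ≤ b → E b ≤ E a) → (∀ a, a ≤ 0 → E a = ⊤) →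
    ∀ W₀ : ℕ, E W₀ = ⊥ → ∀ (T : Module.End F V) (w : ℕ), (∀ k : ℤ, ∀ x ∈ E k, T x ∈ E (k + w)) →
    ∀ B : ℕ, (∀ W : ℕ, ∑ k ∈ Finset.range W,
      (Module.finrank F (E k ⊓ (E ((k : ℤ) + w + 1)).comap T : Submodule F V) -
        Module.finrank F (E ((k : ℤ) + 1))) ≤ B) →
    ∀ (b₀ : α) (S : Submodule F (α → V)),
      (∀ v ∈ S, v b₀ = 0 → ∀ k : ℤ, (∀ b, v b ∈ E k) → ∀ b, T (v b) ∈ E (k + w + 1)) →
      Module.finrank F S ≤ Module.finrank F V + (Fintype.card α - 1) * B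

/-- E3: the adjugate argument in a filtered algebra in which the `ξ a` commute up to higher terms.
Lift the adjugate of `linM M` to the free algebra (sorted words); an element of the span of the words of
length `m` which is killed by `ab` is a combination of the `u (X a X b - X b X a) v` of length `m`
(permutations are products of adjacent transpositions). `l` = the word of `e₀`. -/
def RE3 : Prop :=
  ∀ {F : Type} [Field F] {α ι A : Type} [Fintype α] [Fintype ι] [Ring A] [Algebra F A]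
    (E : ℤ → Submodule F A), (∀ a b, a ≤ b → E b ≤ E a) →
    (∀ (i j : ℤ) (x y : A), x ∈ E i → y ∈ E j → x * y ∈ E (i + j)) → (∀ x, x ∈ E 0) →
    ∀ (N : ℕ) (δ : α → ℕ) (Δ : ℕ), (∀ a, δ a ≤ Δ) →
    ∀ ξ : α → A, (∀ a, ξ a ∈ E ((N : ℤ) - δ a)) → (∀ a b, ξ a * ξ b - ξ b * ξ a ∈ E (2 * N - 1)) →
    ∀ (M : ι → ι → α → F) (e₀ : α →₀ ℕ), MvPolynomial.coeff e₀ (linM M).det ≠ 0 →
    (∀ e, MvPolynomial.coeff e (linM M).det ≠ 0 → e ≠ e₀ → ∑ a, e a * δ a < ∑ a, e₀ a * δ a) →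
    (2 ≤ Fintype.card ι → (Fintype.card ι - 2) * Δ + 2 ≤ ∑ a, e₀ a * δ a) →
    (Fintype.card ι + 1) * Δ + 1 ≤ N →
    ∃ l : List α, l.length = Fintype.card ι ∧ ∀ (k : ℤ) (w : ι → A), (∀ b, w b ∈ E k) →
      (∀ i, ∑ b, (∑ a, M i b a • ξ a) * w b ∈ E (k + 2 * ((N : ℤ) - Δ))) →
      ∀ b, (l.map ξ).prod * w b ∈ E (k + ((l.map fun a => N - δ a).sum : ℕ) + 1)

/-- E4: generic weights `δ a = L + B ^ i(a)`, `B = m + 1`, `L` large; the determinant of a matrix of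
linear forms is homogeneous. -/
def RE4 : Prop :=
  ∀ {F : Type} [Field F] {α ι : Type} [Fintype α] [Fintype ι] (M : ι → ι → α → F),
    (linM M).det ≠ 0 → ∃ (δ : α → ℕ) (Δ : ℕ) (e₀ : α →₀ ℕ), (∀ a, 1 ≤ δ a) ∧ (∀ a, δ a ≤ Δ) ∧
      MvPolynomial.coeff e₀ (linM M).det ≠ 0 ∧
      (∀ e, MvPolynomial.coeff e (linM M).det ≠ 0 → e ≠ e₀ →
        ∑ a, e a * δ a < ∑ a, e₀ a * δ a) ∧
      (2 ≤ Fintype.card ι → (Fintype.card ι - 2) * Δ + 2 ≤ ∑ a, e₀ a * δ a)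

/-- F1: the level theorem (port of `QMain.level`), from C2, D, E1 - E4, `P12_kernel`, `P12_order`. -/
def RF1 : Prop :=
  ∀ (p : ℕ) [Fact p.Prime], p ≠ 2 → ∀ {α κ : Type} [Fintype α] [Fintype κ]
    (G : Type) [Group G] [TopologicalSpace G] [IsTopologicalGroup G] [CompactSpace G] [T2Space G]
    [TotallyDisconnectedSpace G],
    (∀ U : Subgroup G, U.Normal → IsOpen (U : Set G) → ∃ k, U.index = p ^ k) →
    ∀ K : KD p α κ G,
    Mild (qd (fun j a => Multiplicative.toAdd (K.χ a (K.x j)))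
      (fun j a => Multiplicative.toAdd (K.χ a (K.y j)))) →
    Minor (qd (fun j a => Multiplicative.toAdd (K.χ a (K.x j)))
      (fun j a => Multiplicative.toAdd (K.χ a (K.y j)))) →
    ∃ C : ℕ, ∀ n : ℕ, 1 ≤ n → ∃ (U : Subgroup G) (r : ℕ), U.Normal ∧ IsOpen (U : Set G) ∧
      GenBy U r ∧ n ≤ C * U.index ∧ n * (r - 1) ≤ C * U.index ∧
      ∀ g : G, (∃ a, K.χ a g ≠ 1) → ∀ k, p ^ k ≤ n → g ^ p ^ k ∉ U

/-- G1: leading data from `U ⊕ V` (adapt `QK1b`, `greedy`; no connectedness), for all large `W`. The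
field `conn` has been dropped from `LD.Ok`. -/
def RG1 : Prop :=
  ∀ {p : ℕ} [Fact p.Prime] {H : Type} [AddCommGroup H] [Module (ZMod p) H] [Finite H]
    {κ : Type} [Fintype κ] (X Y : κ → H →ₗ[ZMod p] ZMod p), UVC (cupL X Y) →
    ∃ (α ε : Type) (_ : Fintype α) (_ : Fintype ε) (s t : ε → α) (δ : α → ℕ)
      (f : Module.Basis α (ZMod p) H) (B : ε → κ → ZMod p),
      ∀ W : ℕ, (∀ a, 2 * δ a < W) → Lead (⟨W, fun a => W + δ a, s, t⟩ : LD α ε)
        (fun j a => X j (f a)) (fun j a => Y j (f a)) B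

/-- G2: such data are mild. Words of length `≤ n` = words of weight `< (n + 1) W` for large `W`;
`Q05_dim`, `Q04_count`; `card ε = card κ` from `inv`, `lead`, `van`. -/
def RG2 : Prop :=
  ∀ {p : ℕ} [Fact p.Prime] {α ε κ : Type} [Fintype α] [Fintype ε] [Fintype κ] (s t : ε → α)
    (δ : α → ℕ) (cx cy : κ → α → ZMod p) (B : ε → κ → ZMod p),
    (∀ W : ℕ, (∀ a, 2 * δ a < W) → Lead (⟨W, fun a => W + δ a, s, t⟩ : LD α ε) cx cy B) →
    Mild (qd cx cy)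

/-- H: the minor from the generic cup rank, for any basis. -/
def RH : Prop :=
  ∀ {p : ℕ} [Fact p.Prime] {H : Type} [AddCommGroup H] [Module (ZMod p) H] {κ α : Type}
    [Fintype κ] [Fintype α] (c : H →ₗ[ZMod p] H →ₗ[ZMod p] (κ → ZMod p))
    (f : Module.Basis α (ZMod p) H), GenC (fun g h => (c g h : κ → ZMod p)) →
    Minor fun j a b => c (f a) (f b) j

/-- SGN: signs. -/
def RSGN : Prop :=
  ∀ {F : Type} [Field F] {α κ : Type} [Fintype α] [Fintype κ] (c : κ → α → α → F),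
    (Mild c → Mild fun j a b => -c j a b) ∧ (Minor c → Minor fun j a b => -c j a b)

/-- GRP: the theorem for groups with local data (port of `rank_gradientK`). -/
def RGRP : Prop :=
  ∀ (p : ℕ) [Fact p.Prime], p ≠ 2 → ∀ {κ : Type} [Fintype κ] (G : Type)
    [Group G] [TopologicalSpace G] [IsTopologicalGroup G] [CompactSpace G] [T2Space G]
    [TotallyDisconnectedSpace G],
    (∀ U : Subgroup G, U.Normal → IsOpen (U : Set G) → ∃ k, U.index = p ^ k) →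
    ∀ (K : KL p κ G) [Finite (H1 p G)], GenC (cupG K) → (MildC (cupG K) ∨ UVC (cupG K)) →
    (Infinite G ∧ ∀ e : ℝ, 0 < e → ∃ (U : Subgroup G) (n : ℕ), IsOpen (U : Set G) ∧
      GenBy U n ∧ ((n : ℝ) - 1) ≤ e * U.index) ∧
    (UVC (cupG K) → ∀ g : G, g ≠ 1 → ∀ n : ℕ, 0 < n → g ^ n ≠ 1) ∧
    ∀ (f : H1 p G) (g : G), (f : G → ZMod p) g ≠ 0 → ∀ n : ℕ, 0 < n → g ^ n ≠ 1

end Pool.Agent.RGM
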