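import Mathlib
import Pool.Agent.Lib.RG.RMain
import Pool.Agent.Lib.RG.GX2
import Pool.Agent.Lib.RG.M1
import Pool.Agent.Lib.RG.M2
import Pool.Agent.Lib.RG.M3
import Pool.Agent.Lib.RG.M4
import Pool.Agent.Lib.RG.QCrit
import Pool.Agent.Lib.RGK.QK3
import Pool.Agent.Lib.RGM.Rows

/-!
RGM, row Q: mild sets of rational primes with generic cup rank, explicit linking numbers (port of
RG/M5, RG/RMain, RG/QTop).
-/

set_option autoImplicit false

namespace Pool.Agent.RGM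

open NumberField IsDedekindDomain
open Pool.Agent.RG
open Pool.Agent.RGK (H1 KL cupG)

/-! ### transfer of the criteria -/

section transfer

variable {p : ℕ} [Fact p.Prime] {H H' : Type} [AddCommGroup H] [Module (ZMod p) H]
  [AddCommGroup H'] [Module (ZMod p) H'] {κ : Type} (c : H → H → κ → ZMod p)
  (c' : H' → H' → κ → ZMod p) (e : H ≃ₗ[ZMod p] H') (hc : ∀ f g, c' (e f) (e g) = c f g)

include hc

theorem genC_transfer (h : GenC c) : GenC c' := by
  obtain ⟨h0, F, i1, i2, m, t, x, hx⟩ := h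
  have hfr : Module.finrank (ZMod p) H = Module.finrank (ZMod p) H' := e.finrank_eq
  refine ⟨hfr ▸ h0, F, i1, i2, m, t, fun i => e (x i), ?_⟩
  rw [← hfr]
  have hr : (Set.range fun (g : H') (j : κ) => ∑ i, t i * algebraMap (ZMod p) F (c' (e (x i)) g j)) =
      Set.range fun (g : H) (j : κ) => ∑ i, t i * algebraMap (ZMod p) F (c (x i) g j) := by
    ext v
    constructor
    · rintro ⟨g, rfl⟩
      refine ⟨e.symm g, ?_⟩
      funext j
      simp only [← hc, LinearEquiv.apply_symm_apply]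
    · rintro ⟨g, rfl⟩
      refine ⟨e g, ?_⟩
      funext j
      simp only [hc]
  rw [hr]
  exact hx

theorem mildC_transfer [Fintype κ] (h : MildC c) : MildC c' := by
  obtain ⟨α, i1, f, hf⟩ := h
  refine ⟨α, i1, f.map e, ?_⟩
  have : (fun (j : κ) (a b : α) => c' ((f.map e) a) ((f.map e) b) j) =
      fun j a b => c (f a) (f b) j := by
    funext j a b
    simp only [Module.Basis.map_apply, hc]
  rw [this]
  exact hf

theorem uvC_transfer (h : UVC c) : UVC c' := by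
  obtain ⟨U, V, hUV, hV, hs⟩ := h
  refine ⟨U.map (e : H →ₗ[ZMod p] H'), V.map (e : H →ₗ[ZMod p] H'), ?_, ?_, ?_⟩
  · exact hUV.map (Submodule.orderIsoMapComap e)
  · rintro _ ⟨f, hf, rfl⟩ _ ⟨g, hg, rfl⟩
    show c' (e f) (e g) = 0
    rw [hc]
    exact hV f hf g hg
  · rw [← hs]
    congr 1
    ext x
    constructor
    · rintro ⟨_, ⟨f, hf, rfl⟩, _, ⟨g, hg, rfl⟩, rfl⟩
      exact ⟨f, hf, g, hg, hc f g⟩
    · rintro ⟨f, hf, g, hg, rfl⟩
      exact ⟨e f, ⟨f, hf, rfl⟩, e g, ⟨g, hg, rfl⟩, (hc f g).symm⟩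

end transfer

/-! ### the group part -/

section group

variable {p : ℕ} [Fact p.Prime] {ι : Type} [Fintype ι] {G : Type} [Group G] [TopologicalSpace G]
  [IsTopologicalGroup G]

/-- a continuous character as an element of `H1` -/
def toH1 (χ : G →* Multiplicative (ZMod p)) (h : IsOpen (χ.ker : Set G)) : H1 p G :=
  ⟨fun g => Multiplicative.toAdd (χ g), fun g h => by
      show Multiplicative.toAdd (χ (g * h)) = _
      rw [map_mul, toAdd_mul], χ.ker, h,
    fun g hg => by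
      show Multiplicative.toAdd (χ g) = 0
      rw [MonoidHom.mem_ker.1 hg, toAdd_one]⟩

/-- the continuous homomorphisms are the combinations of the dual characters -/
noncomputable def eqH1 (K : Q.KD p ι ι G) : (ι → ZMod p) ≃ₗ[ZMod p] H1 p G := by
  classical
  let φ : (ι → ZMod p) →ₗ[ZMod p] H1 p G :=
    Fintype.linearCombination (ZMod p) (fun r => toH1 (K.χ r) (K.cont r))
  have hφ : ∀ (f : ι → ZMod p) (g : G), (φ f : G → ZMod p) g =
      ∑ r, f r * Multiplicative.toAdd (K.χ r g) := by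
    intro f g
    have h1 : φ f = ∑ r, f r • toH1 (K.χ r) (K.cont r) := Fintype.linearCombination_apply _ _ _
    rw [h1]
    have h2 : ((∑ r, f r • toH1 (K.χ r) (K.cont r) : H1 p G) : G → ZMod p) =
        ∑ r, f r • (toH1 (K.χ r) (K.cont r) : G → ZMod p) := by
      rw [Submodule.coe_sum]
      rfl
    rw [h2, Finset.sum_apply]
    rfl
  have hz : ∀ (f : ι → ZMod p) (a : ι), (φ f : G → ZMod p) (K.z a) = f a := by
    intro f a
    rw [hφ, Finset.sum_eq_single a]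
    · rw [K.dual, if_pos rfl, toAdd_ofAdd, mul_one]
    · intro b _ hb
      rw [K.dual, if_neg (Ne.symm hb), toAdd_ofAdd, mul_zero]
    · intro h
      exact absurd (Finset.mem_univ _) h
  refine LinearEquiv.ofBijective φ ⟨?_, ?_⟩
  · intro f f' hff
    funext a
    rw [← hz f a, ← hz f' a, hff]
  · intro h
    refine ⟨fun a => (h : G → ZMod p) (K.z a), ?_⟩
    apply Subtype.ext
    funext g
    -- both are continuous homomorphisms which agree on the generators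
    obtain ⟨N, hN, hN0⟩ := h.2.2
    obtain ⟨N', hN', hN0'⟩ := (φ fun a => (h : G → ZMod p) (K.z a)).2.2
    have hmulh : ∀ a b, (h : G → ZMod p) (a * b) = (h : G → ZMod p) a + (h : G → ZMod p) b := h.2.1
    have hmulφ := (φ fun a => (h : G → ZMod p) (K.z a)).2.1
    let θ : G →* Multiplicative (ZMod p) := Pool.Agent.RGK.H1.hom h
    let θ' : G →* Multiplicative (ZMod p) :=
      Pool.Agent.RGK.H1.hom (φ fun a => (h : G → ZMod p) (K.z a))
    obtain ⟨w, hw⟩ := Q.Q19_dense G K.z K.gen (N ⊓ N') (by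
      rw [Subgroup.coe_inf]
      exact hN.inter hN') g
    have h1 : ∀ (k : H1 p G) (hk : ∀ x ∈ N ⊓ N', (k : G → ZMod p) x = 0),
        (k : G → ZMod p) g = (k : G → ZMod p) (FreeGroup.lift K.z w) := by
      intro k hk
      have h2 : g = FreeGroup.lift K.z w * ((FreeGroup.lift K.z w)⁻¹ * g) := by group
      conv_lhs => rw [h2]
      rw [k.2.1, hk _ hw, add_zero]
    rw [h1 h (fun x hx => hN0 x hx.1), h1 _ (fun x hx => hN0' x hx.2)]
    have h3 : θ'.comp (FreeGroup.lift K.z) = θ.comp (FreeGroup.lift K.z) := by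
      apply FreeGroup.ext_hom
      intro a
      rw [MonoidHom.comp_apply, MonoidHom.comp_apply, FreeGroup.lift_apply_of]
      show Multiplicative.ofAdd ((φ fun a => (h : G → ZMod p) (K.z a) : G → ZMod p) (K.z a)) =
        Multiplicative.ofAdd ((h : G → ZMod p) (K.z a))
      rw [hz]
    exact congrArg Multiplicative.toAdd (DFunLike.congr_fun h3 w)


theorem eqH1_apply (K : Q.KD p ι ι G) (f : ι → ZMod p) (g : G) :
    (eqH1 K f : G → ZMod p) g = ∑ r, f r * Multiplicative.toAdd (K.χ r g) := by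
  have h1 : eqH1 K f = ∑ r, f r • toH1 (K.χ r) (K.cont r) := Fintype.linearCombination_apply _ _ _
  rw [h1]
  have h2 : ((∑ r, f r • toH1 (K.χ r) (K.cont r) : H1 p G) : G → ZMod p) =
      ∑ r, f r • (toH1 (K.χ r) (K.cont r) : G → ZMod p) := by
    rw [Submodule.coe_sum]
    rfl
  rw [h2, Finset.sum_apply]
  rfl

/-- the local data without the generators -/
def toKL (K : Q.KD p ι ι G) : KL p ι G where
  x := K.x
  y := K.y
  q := K.q
  hq := K.hq
  tame := K.tame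
  lift := K.lift

theorem cupG_eqH1 (K : Q.KD p ι ι G) (hK : K.z = K.x) (ℓ : ι → ι → ZMod p)
    (hℓ : ∀ q r, K.χ r (K.y q) = Multiplicative.ofAdd (ℓ q r)) (f g : ι → ZMod p) :
    cupG (toKL K) (eqH1 K f) (eqH1 K g) = Q.cup ℓ f g := by
  classical
  have hx : ∀ (f : ι → ZMod p) (j : ι), (eqH1 K f : G → ZMod p) (K.x j) = f j := by
    intro f j
    rw [eqH1_apply, Finset.sum_eq_single j]
    · rw [← hK, K.dual, if_pos rfl, toAdd_ofAdd, mul_one]
    · intro b _ hb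
      rw [← hK, K.dual, if_neg (Ne.symm hb), toAdd_ofAdd, mul_zero]
    · intro h
      exact absurd (Finset.mem_univ j) h
  have hy : ∀ (f : ι → ZMod p) (j : ι), (eqH1 K f : G → ZMod p) (K.y j) = ∑ r, ℓ j r * f r := by
    intro f j
    rw [eqH1_apply]
    refine Finset.sum_congr rfl fun r _ => ?_
    rw [hℓ, toAdd_ofAdd, mul_comm]
  funext j
  show (eqH1 K f : G → ZMod p) (K.x j) * (eqH1 K g : G → ZMod p) (K.y j) -
    (eqH1 K g : G → ZMod p) (K.x j) * (eqH1 K f : G → ZMod p) (K.y j) = _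
  rw [hx, hy, hx, hy]
  rfl

end group

/-! ### arithmetic -/

/-- a unit modulo the prime `r` in the kernel of a homomorphism onto the group of order `p` is a `p`-th
power -/
theorem pow_of_ker {p r : ℕ} [Fact p.Prime] (hr : r.Prime)
    (lam : (ZMod r)ˣ →* Multiplicative (ZMod p)) (hlam : Function.Surjective lam) (u : (ZMod r)ˣ)
    (hu : lam u = 1) : ∃ v : (ZMod r)ˣ, v ^ p = u := by
  haveI : Fact r.Prime := ⟨hr⟩
  obtain ⟨g, hg⟩ := IsCyclic.exists_generator (α := (ZMod r)ˣ)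
  obtain ⟨n, hn⟩ := Subgroup.mem_zpowers_iff.1 (hg u)
  -- `lam g` has order `p`
  have h1 : lam g ≠ 1 := by
    intro h
    obtain ⟨a, ha⟩ := hlam (Multiplicative.ofAdd 1)
    obtain ⟨m, hm⟩ := Subgroup.mem_zpowers_iff.1 (hg a)
    rw [← hm, map_zpow, h, one_zpow] at ha
    have h2 : (0 : ZMod p) = 1 := congrArg Multiplicative.toAdd ha
    exact zero_ne_one h2
  have h2 : (n : ZMod p) * Multiplicative.toAdd (lam g) = 0 := by
    have h3 : lam g ^ n = 1 := by rw [← map_zpow, hn, hu]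
    have h4 := congrArg Multiplicative.toAdd h3
    rw [toAdd_zpow, toAdd_one, zsmul_eq_mul] at h4
    exact h4
  have h5 : (n : ZMod p) = 0 := by
    rcases mul_eq_zero.1 h2 with h | h
    · exact h
    · exact absurd (toAdd_eq_zero.1 h) h1
  obtain ⟨m, hm⟩ := (ZMod.intCast_zmod_eq_zero_iff_dvd n p).1 h5
  refine ⟨g ^ m, ?_⟩
  rw [← hn, hm, ← zpow_natCast, ← zpow_mul, mul_comm]

/-- monotonicity over `ℚ`, port of `mono_Q` (RG/M5) -/
theorem mono_Q {p : ℕ} [Fact p.Prime] {S₁ S : Finset ℕ} (hsub : S₁ ⊆ S)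
    (hS : ∀ q ∈ S, q.Prime ∧ q % p = 1)
    (hns : ∀ q ∈ S, q ∉ S₁ → ∀ x y : KS p S₁ ≃ₐ[ℚ] KS p S₁, InFr q x y →
      ∀ n : ℕ, 0 < n → y ^ n ≠ 1)
    (hG : Infinite (KS p S₁ ≃ₐ[ℚ] KS p S₁))
    (h : ∀ ε : ℝ, 0 < ε → ∃ (U : Subgroup (KS p S₁ ≃ₐ[ℚ] KS p S₁)) (n : ℕ),
      IsOpen (U : Set (KS p S₁ ≃ₐ[ℚ] KS p S₁)) ∧ GenBy U n ∧ ((n : ℝ) - 1) ≤ ε * U.index) :
    ∃ (i : KS p S₁ →ₐ[ℚ] KS p S) (π : (KS p S ≃ₐ[ℚ] KS p S) →* (KS p S₁ ≃ₐ[ℚ] KS p S₁)),
      Continuous π ∧ Function.Surjective π ∧ (∀ g x, g (i x) = i (π g x)) ∧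
      ∀ ε : ℝ, 0 < ε → ∃ (V : Subgroup (KS p S ≃ₐ[ℚ] KS p S)) (n : ℕ),
        IsOpen (V : Set (KS p S ≃ₐ[ℚ] KS p S)) ∧ π.ker ≤ V ∧ GenBy V n ∧
          (n : ℝ) ≤ ε * V.index := by
  classical
  have hX₁ := maxExt_KS p S₁
  have hX := maxExt_KS p S
  have hgal₁ := hX₁.gal
  have hgal := hX.gal
  obtain ⟨i⟩ := KS_incl p hsub
  obtain ⟨π, hc, hs, hπ⟩ := exists_restrMax i
  refine ⟨i, π, hc, hs, hπ, ?_⟩
  have hfin : Finite {q : ℕ // q ∈ S ∧ q ∉ S₁} :=
    Set.Finite.to_subtype (S.finite_toSet.subset fun q hq => hq.1)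
  have hft : Fintype {q : ℕ // q ∈ S ∧ q ∉ S₁} := Fintype.ofFinite _
  have hqp : ∀ q ∈ S, q ≠ p := by
    intro q hq hqp
    have h1 := (hS q hq).2
    rw [hqp, Nat.mod_self] at h1
    exact absurd h1 (by norm_num)
  choose z g hzg hrel using fun q : {q : ℕ // q ∈ S ∧ q ∉ S₁} =>
    exists_inFr hX (hS q q.2.1).1 (hqp q q.2.1)
  have hker := ker_restr hsub (fun q hq => (hS q hq).1) hX₁ hX hc hπ
    (fun q : {q : ℕ // q ∈ S ∧ q ∉ S₁} => (q : ℕ)) (fun q => q.2)
    (fun r hr hr1 => ⟨⟨r, hr, hr1⟩, rfl⟩) z g hzg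
  intro ε hε
  exact M1c_group (fun U hN hU => hX.pro_p U hN hU) hG h π hc hs z g (fun q => (q : ℕ))
    (fun q => (hS q q.2.1).2) hrel hker
    (fun q n hn => hns q q.2.1 q.2.2 _ _ ((hzg q).restr hπ) n hn) ε hε

theorem main_Q (hGRP : RGRP) {p : ℕ} [Fact p.Prime] (hp : p ≠ 2) {S₁ : Finset ℕ}
    (hS₁ : ∀ q ∈ S₁, q.Prime ∧ q % p = 1)
    (lam : ∀ r : S₁, (ZMod (r : ℕ))ˣ →* Multiplicative (ZMod p))
    (hlam : ∀ r, Function.Surjective (lam r)) (hg : GenC (Q.cup (link lam)))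
    (hm : MildC (Q.cup (link lam)) ∨ UVC (Q.cup (link lam)))
    {K M : Type} [Field K] [NumberField K] [Field M] [NumberField M] [IsGalois ℚ M]
    (hd : ∃ k, Module.finrank ℚ M = p ^ k) (ht : ¬ Ram p M) (j : K →+* M)
    (S' : Set (HeightOneSpectrum (𝓞 K))) (hfin : S'.Finite)
    (hN : ∀ v ∈ S', Ideal.absNorm v.asIdeal % p = 1)
    (hcont : ∀ v : HeightOneSpectrum (𝓞 K), ∀ q ∈ S₁, Above v q → v ∈ S')
    (hns : ∀ q : ℕ, q.Prime → q ∉ S₁ → ((∃ v ∈ S', Above v q) ∨ Ram q M) →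
      (∃ r ∈ S₁, ¬ ∃ z : ZMod r, z ^ p = q) ∨
      (UVC (Q.cup (link lam)) ∧ NotSplit p S₁ q)) :
    Infinite (GP p S') ∧ rankGradient (GP p S') = 0 := by
  classical
  have hpp : p.Prime := Fact.out
  -- the good set
  have hX₁ := maxExt_KS p S₁
  have hgal₁ := hX₁.gal
  obtain ⟨κ, hκ1, -, hκ3⟩ := exists_KD hp hS₁ lam hlam hX₁
  have hc : ∀ f g : S₁ → ZMod p, cupG (toKL κ) (eqH1 κ f) (eqH1 κ g) = Q.cup (link lam) f g :=
    cupG_eqH1 κ hκ1 (link lam) hκ3
  have hfinH : Finite (H1 p (KS p S₁ ≃ₐ[ℚ] KS p S₁)) := Finite.of_equiv _ (eqH1 κ).toEquiv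
  have hc' : ∀ f g : S₁ → ZMod p, (cupG (toKL κ) (eqH1 κ f) (eqH1 κ g) : S₁ → ZMod p) =
    Q.cup (link lam) f g := hc
  obtain ⟨⟨hG, hRG⟩, htf, hinf⟩ := hGRP p hp (KS p S₁ ≃ₐ[ℚ] KS p S₁)
    (fun U hN hU => hX₁.pro_p U hN hU) (toKL κ)
    (genC_transfer (Q.cup (link lam)) (cupG (toKL κ)) (eqH1 κ) hc' hg)
    (hm.imp (mildC_transfer (Q.cup (link lam)) (cupG (toKL κ)) (eqH1 κ) hc')
      (uvC_transfer (Q.cup (link lam)) (cupG (toKL κ)) (eqH1 κ) hc'))
  -- the set of rational primes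
  obtain ⟨R, hR1, hR2, hR3⟩ := ramified_set hd ht
  obtain ⟨T, hT⟩ := finite_chars hfin
  set S : Finset ℕ := S₁ ∪ (T ∪ R) with hS
  have hSp : ∀ q ∈ S, q.Prime ∧ q % p = 1 := by
    intro q hq
    rcases Finset.mem_union.1 hq with h | h
    · exact hS₁ q h
    · rcases Finset.mem_union.1 h with h | h
      · obtain ⟨hq, v, hv, hvq⟩ := (hT q).1 h
        exact ⟨hq, above_mod hd j hq hvq (hN v hv)⟩
      · exact ⟨((hR1 q).1 h).1, hR2 q h⟩
  have hnsS : ∀ q ∈ S, q ∉ S₁ → (∃ r ∈ S₁, ¬ ∃ z : ZMod r, z ^ p = q) ∨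
      (UVC (Q.cup (link lam)) ∧ NotSplit p S₁ q) := by
    intro q hq hq1
    rcases Finset.mem_union.1 hq with h | h
    · exact absurd h hq1
    · rcases Finset.mem_union.1 h with h | h
      · obtain ⟨hq, v, hv, hvq⟩ := (hT q).1 h
        exact hns q hq hq1 (Or.inl ⟨v, hv, hvq⟩)
      · exact hns q ((hR1 q).1 h).1 hq1 (Or.inr ((hR1 q).1 h).2)
  have hord : ∀ q ∈ S, q ∉ S₁ → ∀ x y : KS p S₁ ≃ₐ[ℚ] KS p S₁, InFr q x y →
      ∀ n : ℕ, 0 < n → y ^ n ≠ 1 := by
    intro q hq hq1 x y hxy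
    rcases hnsS q hq hq1 with ⟨r, hr, hz⟩ | ⟨huv, hns'⟩
    · have hrp : r.Prime := (hS₁ r hr).1
      have hqp : q.Prime := (hSp q hq).1
      have hqr : q ≠ r := fun h => hq1 (h ▸ hr)
      haveI : Fact r.Prime := ⟨hrp⟩
      have hq0 : (q : ZMod r) ≠ 0 := by
        intro h0
        rw [ZMod.natCast_eq_zero_iff] at h0
        exact hqr ((Nat.prime_dvd_prime_iff_eq hrp hqp).1 h0).symm
      obtain ⟨χ, hχ1, -, hχ3⟩ := exists_character_val hX₁ hrp hr (lam ⟨r, hr⟩) (hlam ⟨r, hr⟩)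
      have h1 := (hχ3 q x y hqp hqr hxy).2 (Units.mk0 (q : ZMod r) hq0) rfl
      have h2 : χ y ≠ 1 := by
        rw [h1]
        intro h3
        obtain ⟨v, hv⟩ := pow_of_ker hrp (lam ⟨r, hr⟩) (hlam ⟨r, hr⟩) _ h3
        refine hz ⟨(v : ZMod r), ?_⟩
        have h4 := congrArg Units.val hv
        rwa [Units.val_pow_eq_pow_val, Units.val_mk0] at h4
      refine hinf (toH1 χ hχ1) y fun h => h2 ?_
      exact toAdd_eq_zero.1 h
    · refine htf (uvC_transfer (Q.cup (link lam)) (cupG (toKL κ)) (eqH1 κ) hc' huv) y ?_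
      exact frob_ne_one (fun r hr => (hS₁ r hr).1) hX₁ (hSp q hq).1 hq1 hns' hxy
  obtain ⟨i, π, hπc, hπs, hπi, hV⟩ := mono_Q (Finset.subset_union_left) hSp hord hG hRG
  -- the base field
  have hX := maxExt_KS p S
  have hgal := hX.gal
  have huM : UnrOutside S M :=
    hR3.mono ((Finset.subset_union_right).trans Finset.subset_union_right)
  obtain ⟨g⟩ := hX.max M hd huM
  let _ : Algebra K (KS p S) := ((g : M →+* KS p S).comp j).toAlgebra
  obtain ⟨e⟩ := exists_iso (K := K) hX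
  obtain ⟨hgY, Φ, hΦc, hΦi, hΦo, hΦv⟩ := exists_embedding_val e
  have hle : maxExtP p S' ≤ maxExtension p S K := by
    refine maxExtP_le fun v hv => ?_
    obtain ⟨q, hq, hvq⟩ := exists_prime_above v
    exact ⟨q, Finset.mem_union_right _ (Finset.mem_union_left _ ((hT q).2 ⟨hq, v, hv, hvq⟩)), hvq⟩
  have hgP := isGalois_maxExtP p S'
  obtain ⟨ρ, hρc, hρs, hρk⟩ := exists_quot hle
  have hk : ∀ h, ρ h = 1 → π (Φ h) = 1 := by
    intro h hh
    refine AlgEquiv.ext fun x => i.injective ?_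
    change i (π (Φ h) x) = i x
    rw [← hπi, hΦv]
    have h1 : (maxExtension p S K).val (e (i x)) ∈ maxExtP p S' :=
      mem_maxExtP hcont hX₁ i ((maxExtension p S K).val.comp (e : KS p S →ₐ[K] maxExtension p S K)) x
    have h2 := hρk h hh _ h1
    have h3 : h (e (i x)) = e (i x) := Subtype.ext h2
    rw [h3, e.symm_apply_apply]
  obtain ⟨h1, h2⟩ := R3_group π hπc hπs hG hV Φ hΦc hΦi hΦo ρ hρc hρs hk
  exact ⟨h1, rankGradient_eq_zero h1 h2⟩

/-- If no prime of `S₁` other than `r` is a `p`-th power modulo `r` (all `link q r ≠ 0`) then the generic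
cup rank condition holds. -/
theorem genC_star {p : ℕ} [Fact p.Prime] {ι : Type} [Fintype ι] (ℓ : ι → ι → ZMod p) (r : ι)
    (h : ∀ q, q ≠ r → ℓ q r ≠ 0) : GenC (Q.cup ℓ) := by
  classical
  haveI : Nonempty ι := ⟨r⟩
  have hfr : Module.finrank (ZMod p) (ι → ZMod p) = Fintype.card ι :=
    Module.finrank_fintype_fun_eq_card _
  refine ⟨by rw [hfr]; exact Fintype.card_pos, ZMod p, inferInstance, inferInstance, 1, fun _ => 1,
    fun _ => Pi.single r 1, ?_⟩
  rw [hfr]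
  -- the vectors `e_r ∪ e_b`, `b ≠ r`
  let v : {b // b ≠ r} → (ι → ZMod p) := fun b => Q.cup ℓ (Pi.single r 1) (Pi.single (b : ι) 1)
  have hv : ∀ b q, v b q = (Pi.single r 1 : ι → ZMod p) q * ℓ q b -
      (Pi.single (b : ι) 1 : ι → ZMod p) q * ℓ q r := by
    intro b q
    show Q.cup ℓ (Pi.single r 1) (Pi.single (b : ι) 1) q = _
    unfold Q.cup
    rw [Finset.sum_eq_single (b : ι), Finset.sum_eq_single r, Pi.single_eq_same, Pi.single_eq_same,
      mul_one, mul_one]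
    · intro a _ ha
      rw [Pi.single_eq_of_ne ha, mul_zero]
    · intro h
      exact absurd (Finset.mem_univ _) h
    · intro a _ ha
      rw [Pi.single_eq_of_ne ha, mul_zero]
    · intro h
      exact absurd (Finset.mem_univ _) h
  have hli : LinearIndependent (ZMod p) v := by
    rw [Fintype.linearIndependent_iff]
    intro g hg b
    have h1 := congrFun hg b
    rw [Finset.sum_apply, Finset.sum_eq_single b] at h1
    · rw [Pi.smul_apply, hv, Pi.single_eq_of_ne b.2, zero_mul, zero_sub, Pi.single_eq_same, one_mul,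
        smul_neg, smul_eq_mul, Pi.zero_apply, neg_eq_zero] at h1
      exact (mul_eq_zero.1 h1).resolve_right (h b b.2)
    · intro a _ ha
      rw [Pi.smul_apply, hv, Pi.single_eq_of_ne b.2, zero_mul, zero_sub,
        Pi.single_eq_of_ne (fun h => ha (Subtype.ext h.symm)), zero_mul, neg_zero, smul_zero]
    · intro h
      exact absurd (Finset.mem_univ _) h
  have hcard : Fintype.card {b // b ≠ r} = Fintype.card ι - 1 := by
    rw [Fintype.card_subtype_compl, Fintype.card_subtype_eq]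
  have h1 := finrank_span_eq_card hli
  have h2 : Submodule.span (ZMod p) (Set.range v) ≤ Submodule.span (ZMod p)
      (Set.range fun (g : ι → ZMod p) (j : ι) => ∑ i : Fin 1, (fun _ => 1 : Fin 1 → ZMod p) i *
        algebraMap (ZMod p) (ZMod p) (Q.cup ℓ ((fun _ => Pi.single r 1 : Fin 1 → (ι → ZMod p)) i) g j)) := by
    apply Submodule.span_mono
    rintro _ ⟨b, rfl⟩
    refine ⟨Pi.single (b : ι) 1, ?_⟩
    funext j
    simp [v]
  have h3 := Submodule.finrank_mono h2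
  rw [h1, hcard] at h3
  have h4 : 0 < Fintype.card ι := Fintype.card_pos
  omega

end Pool.Agent.RGM
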