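import Mathlib
import Pool.Agent.Lib.RGM.RowJ
import Pool.Agent.Lib.RGM.RowQ

/-!
RGM: the final statements, from the group theorem `RGRP`.
-/

set_option autoImplicit false

namespace Pool.Agent.RGM

open NumberField IsDedekindDomain
open Pool.Agent.RG (Above GP Ram NotSplit link rankGradient)
open Pool.Agent.RG.H (Pr vl UU PP)
open Pool.Agent.RGK (nm InFrK VT VS PU)
open Pool.Agent.RGJ (NSplit)

theorem vt_of_triv {K : Type} [Field K] [NumberField K] {p : ℕ} [Fact p.Prime] {T : Set (Pr K)}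
    (h : VTriv p T) : VT p T ≤ PP K p := by
  intro a ha
  have ha1 : a ∈ VS p ∅ := ha.1
  have ha2 : ∀ t ∈ T, a ∈ PU p t := by
    intro t ht
    have := ha.2
    exact (Subgroup.mem_iInf.1 ((Subgroup.mem_iInf.1 this) t)) ht
  obtain ⟨b, hb⟩ := h (a : K) a.ne_zero (fun v => by
    obtain ⟨n, hn⟩ := ha1 v (Set.notMem_empty v)
    refine ⟨-n, ?_⟩
    rw [RG.H.val_eq, hn, mul_neg]) (fun t ht => by
    obtain ⟨b, ⟨c, hc⟩, u, hu, hbu⟩ := Subgroup.mem_sup.1 (ha2 t ht)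
    refine ⟨((c⁻¹ : Kˣ) : K), ?_⟩
    have h1 : (a : K) * ((c⁻¹ : Kˣ) : K) ^ p = u := by
      have h2 : a * c⁻¹ ^ p = u := by
        rw [← hbu, ← hc]
        show c ^ p * u * c⁻¹ ^ p = u
        rw [inv_pow, mul_comm (c ^ p) u, mul_inv_cancel_right]
      rw [← h2]
      push_cast
      ring
    rw [h1]
    refine lt_of_le_of_lt hu.2 ?_
    rw [← WithZero.exp_zero, WithZero.exp_lt_exp]
    norm_num)
  have hb0 : b ≠ 0 := by
    rintro rfl
    rw [zero_pow (Fact.out : p.Prime).ne_zero] at hb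
    exact a.ne_zero hb.symm
  refine ⟨Units.mk0 b hb0, ?_⟩
  ext
  exact hb

/-- the theorem over number fields, with plain hypotheses -/
theorem final_K (hGRP : RGRP) (p : ℕ) [Fact p.Prime] (hp : p ≠ 2) (K : Type) [Field K]
    [NumberField K] (T R : Finset (HeightOneSpectrum (𝓞 K)))
    (hT : ∀ t ∈ T, (Ideal.absNorm t.asIdeal).Prime ∧ Ideal.absNorm t.asIdeal % p = 1)
    (hV : VTriv p (T : Set (HeightOneSpectrum (𝓞 K))))
    (hR : R = T ∨ (∃ ζ : K, IsPrimitiveRoot ζ p) ∧ ∃ o ∈ T, ∀ t, t ∈ R ↔ t ∈ T ∧ t ≠ o)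
    (x y : R → GP p (T : Set (HeightOneSpectrum (𝓞 K))))
    (hxy : ∀ t : R, InFrK (t : HeightOneSpectrum (𝓞 K)) (x t) (y t))
    (hg : GenC (cupXY (p := p) x y)) (hm : MildC (cupXY (p := p) x y) ∨ UVC (cupXY (p := p) x y)) :
    Pers p (T : Set (HeightOneSpectrum (𝓞 K))) fun v =>
      NSplitP p (T : Set (HeightOneSpectrum (𝓞 K))) v ∨
        (UVC (cupXY (p := p) x y) ∧ NSplit p (T : Set (HeightOneSpectrum (𝓞 K))) v) :=
  pers_K hGRP hp hT (vt_of_triv hV) hR x y hxy hg hm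

/-- the theorem over `ℚ`, with linking numbers -/
theorem final_Q (hGRP : RGRP) (p : ℕ) [Fact p.Prime] (hp : p ≠ 2) (S₁ : Finset ℕ)
    (hS₁ : ∀ q ∈ S₁, q.Prime ∧ q % p = 1)
    (lam : ∀ r : S₁, (ZMod (r : ℕ))ˣ →* Multiplicative (ZMod p))
    (hlam : ∀ r, Function.Surjective (lam r))
    (hg : (∃ r : S₁, ∀ q : S₁, q ≠ r → link lam q r ≠ 0) ∨ GenC (RG.Q.cup (link lam)))
    (hm : MildC (RG.Q.cup (link lam)) ∨ UVC (RG.Q.cup (link lam)))
    (K M : Type) [Field K] [NumberField K] [Field M] [NumberField M] [IsGalois ℚ M]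
    (hd : ∃ k, Module.finrank ℚ M = p ^ k) (ht : ¬ Ram p M) (j : K →+* M)
    (S : Set (HeightOneSpectrum (𝓞 K))) (hfin : S.Finite)
    (hN : ∀ v ∈ S, Ideal.absNorm v.asIdeal % p = 1)
    (hcont : ∀ v : HeightOneSpectrum (𝓞 K), ∀ q ∈ S₁, Above v q → v ∈ S)
    (hns : ∀ q : ℕ, q.Prime → q ∉ S₁ → ((∃ v ∈ S, Above v q) ∨ Ram q M) →
      (∃ r ∈ S₁, ¬ ∃ z : ZMod r, z ^ p = q) ∨
      (UVC (RG.Q.cup (link lam)) ∧ NotSplit p S₁ q)) :
    Infinite (GP p S) ∧ rankGradient (GP p S) = 0 := by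
  have hg' : GenC (RG.Q.cup (link lam)) := by
    rcases hg with ⟨r, hr⟩ | h
    · exact genC_star _ r hr
    · exact h
  exact main_Q hGRP hp hS₁ lam hlam hg' hm hd ht j S hfin hN hcont hns

end Pool.Agent.RGM
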