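import Mathlib
import Pool.Agent.Lib.RG.QMain
import Pool.Agent.Lib.RG.QTF
import Pool.Agent.Lib.RGK.QKDefs
import Pool.Agent.Lib.RGK.QK2
import Pool.Agent.Lib.RGK.QK3
import Pool.Agent.Lib.RGM.Rows

/-!
RGM, row GRP: the theorem for groups with local data.
-/

set_option autoImplicit false

namespace Pool.Agent.RGM

open scoped Classical
open Pool.Agent.RG (GenBy)
open Pool.Agent.RG.Q (KD qd LD Lead)
open Pool.Agent.RGK

section

variable {p : ℕ} {κ : Type} {G : Type} [Group G] [TopologicalSpace G] [IsTopologicalGroup G]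

/-- the value at `x j` -/
def evx (K : KL p κ G) (j : κ) : H1 p G →ₗ[ZMod p] ZMod p where
  toFun f := (f : G → ZMod p) (K.x j)
  map_add' _ _ := rfl
  map_smul' _ _ := rfl

/-- the value at `y j` -/
def evy (K : KL p κ G) (j : κ) : H1 p G →ₗ[ZMod p] ZMod p where
  toFun f := (f : G → ZMod p) (K.y j)
  map_add' _ _ := rfl
  map_smul' _ _ := rfl

theorem cupG_eq (K : KL p κ G) : (cupG K : H1 p G → H1 p G → κ → ZMod p) = cupL (evx K) (evy K) := rfl

/-- the cup product as a bilinear map -/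
noncomputable def cupB (K : KL p κ G) : H1 p G →ₗ[ZMod p] H1 p G →ₗ[ZMod p] (κ → ZMod p) :=
  LinearMap.mk₂ (ZMod p) (cupL (evx K) (evy K))
    (by
      intro f f' g
      funext q
      simp only [cupL, Pi.add_apply, map_add]
      ring)
    (by
      intro c f g
      funext q
      simp only [cupL, Pi.smul_apply, smul_eq_mul, map_smul]
      ring)
    (by
      intro f g g'
      funext q
      simp only [cupL, Pi.add_apply, map_add]
      ring)
    (by
      intro c f g
      funext q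
      simp only [cupL, Pi.smul_apply, smul_eq_mul, map_smul]
      ring)

theorem cupB_apply (K : KL p κ G) (f g : H1 p G) : cupB K f g = cupG K f g := rfl

/-- the data of Koch type for dual generators -/
noncomputable def toKD {α : Type} (K : KL p κ G) (f : α → H1 p G) (z : α → G)
    (hz : (Subgroup.closure (Set.range z)).topologicalClosure = ⊤)
    (hd : ∀ a b, (f b : G → ZMod p) (z a) = if a = b then 1 else 0) : KD p α κ G where
  z := z
  x := K.x
  y := K.y
  q := K.q
  χ := fun a => H1.hom (f a)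
  cont := fun a => H1.isOpen_ker (f a)
  gen := hz
  hq := K.hq
  tame := K.tame
  dual := fun a b => by
    show Multiplicative.ofAdd ((f b : G → ZMod p) (z a)) = _
    rw [hd a b]
  lift := K.lift

/-- from the level theorem to the statement -/
theorem of_level {p : ℕ} [Fact p.Prime] {G : Type} [Group G] [TopologicalSpace G]
    [IsTopologicalGroup G]
    (hG : ∀ U : Subgroup G, U.Normal → IsOpen (U : Set G) → ∃ k, U.index = p ^ k)
    (P : G → Prop) (C : ℕ) (h : ∀ n : ℕ, 1 ≤ n → ∃ (U : Subgroup G) (r : ℕ), U.Normal ∧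
      IsOpen (U : Set G) ∧ GenBy U r ∧
      n ≤ C * U.index ∧ n * (r - 1) ≤ C * U.index ∧
      ∀ g : G, P g → ∀ k, p ^ k ≤ n → g ^ p ^ k ∉ U) :
    (Infinite G ∧ ∀ e : ℝ, 0 < e → ∃ (U : Subgroup G) (n : ℕ), IsOpen (U : Set G) ∧
      GenBy U n ∧ ((n : ℝ) - 1) ≤ e * U.index) ∧
    ∀ g : G, P g → ∀ n : ℕ, 0 < n → g ^ n ≠ 1 := by
  have hpp : p.Prime := Fact.out
  refine ⟨⟨?_, ?_⟩, ?_⟩
  · by_contra hinf
    rw [not_infinite_iff_finite] at hinf
    obtain ⟨U, r, -, -, -, h1, -, -⟩ := h (C * Nat.card G + 1) (Nat.succ_pos _)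
    have h2 : U.index ≤ Nat.card G := Nat.le_of_dvd Nat.card_pos (Subgroup.index_dvd_card U)
    have h3 : C * U.index ≤ C * Nat.card G := Nat.mul_le_mul_left _ h2
    omega
  · intro e he
    obtain ⟨n, hn⟩ := exists_nat_gt ((C : ℝ) / e)
    have hn0 : 0 < n := by
      have h1 : (0 : ℝ) ≤ (C : ℝ) / e := by positivity
      exact_mod_cast h1.trans_lt hn
    obtain ⟨U, r, -, hU, hr, -, h2, -⟩ := h n hn0
    refine ⟨U, r, hU, hr, ?_⟩
    have hn' : (0 : ℝ) < n := by exact_mod_cast hn0
    have h3 : (n : ℝ) * ((r : ℝ) - 1) ≤ C * U.index := by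
      have h4 : ((n * (r - 1) : ℕ) : ℝ) ≤ ((C * U.index : ℕ) : ℝ) := by
        exact_mod_cast h2
      push_cast at h4
      have h5 : (r : ℝ) - 1 ≤ ((r - 1 : ℕ) : ℝ) := by
        rcases Nat.eq_zero_or_pos r with h | h
        · simp [h]
        · rw [Nat.cast_sub h]
          simp
      calc (n : ℝ) * ((r : ℝ) - 1) ≤ n * ((r - 1 : ℕ) : ℝ) :=
            mul_le_mul_of_nonneg_left h5 hn'.le
        _ ≤ C * U.index := h4
    have h7 : (C : ℝ) ≤ e * n := by
      rw [div_lt_iff₀ he] at hn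
      linarith
    have h8 : (0 : ℝ) ≤ U.index := Nat.cast_nonneg _
    have h9 : (n : ℝ) * ((r : ℝ) - 1) ≤ n * (e * U.index) := by
      calc (n : ℝ) * ((r : ℝ) - 1) ≤ C * U.index := h3
        _ ≤ (e * n) * U.index := mul_le_mul_of_nonneg_right h7 h8
        _ = n * (e * U.index) := by ring
    exact le_of_mul_le_mul_left h9 hn'
  · intro g hg n hn hgn
    -- the order of `g` in a finite `p`-quotient is a power of `p` dividing `n`
    obtain ⟨U, r, hN, hU, -, -, -, h4⟩ := h (p ^ n) (Nat.one_le_pow _ _ hpp.pos)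
    have hU4 := h4 g hg n le_rfl
    obtain ⟨k, hk⟩ := hG U hN hU
    have h5 : orderOf (QuotientGroup.mk g : G ⧸ U) ∣ p ^ k := by
      rw [← hk]
      exact orderOf_dvd_natCard _
    obtain ⟨j, hj, hj'⟩ := (Nat.dvd_prime_pow hpp).mp h5
    have h6 : orderOf (QuotientGroup.mk g : G ⧸ U) ∣ n := by
      rw [orderOf_dvd_iff_pow_eq_one, ← QuotientGroup.mk_pow, hgn]
      rfl
    have h7 : p ^ j ≤ n := Nat.le_of_dvd hn (hj' ▸ h6)
    have h8 : j ≤ n := (Nat.lt_pow_self hpp.one_lt).le.trans h7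
    apply hU4
    have h9 : (QuotientGroup.mk g : G ⧸ U) ^ p ^ n = 1 := by
      rw [← orderOf_dvd_iff_pow_eq_one, hj']
      exact pow_dvd_pow p h8
    rw [← QuotientGroup.mk_pow] at h9
    exact (QuotientGroup.eq_one_iff _).mp h9

end

theorem rowGRP (hF1 : RF1) (hG1 : RG1) (hG2 : RG2) (hH : RH) (hS : RSGN) : RGRP := by
  intro p _ hp κ _ G _ _ _ _ _ _ hG K _ hgen hor
  -- the main step: any basis whose quadratic part is mild
  have main : ∀ (α : Type) [Fintype α] (f : Module.Basis α (ZMod p) (H1 p G)),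
      Mild (fun j a b => -cupG K (f a) (f b) j) →
      (Infinite G ∧ ∀ e : ℝ, 0 < e → ∃ (U : Subgroup G) (n : ℕ), IsOpen (U : Set G) ∧
        GenBy U n ∧ ((n : ℝ) - 1) ≤ e * U.index) ∧
      ∀ (h : H1 p G) (g : G), (h : G → ZMod p) g ≠ 0 → ∀ n : ℕ, 0 < n → g ^ n ≠ 1 := by
    intro α _ f hM
    obtain ⟨z, hz, hd⟩ := dual_gen p G hG f
    have hqd : qd (fun j a => Multiplicative.toAdd ((toKD K f z hz hd).χ a ((toKD K f z hz hd).x j)))
        (fun j a => Multiplicative.toAdd ((toKD K f z hz hd).χ a ((toKD K f z hz hd).y j))) =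
        fun j a b => -cupG K (f a) (f b) j := by
      funext j a b
      show (f a : G → ZMod p) (K.y j) * (f b : G → ZMod p) (K.x j) -
        (f a : G → ZMod p) (K.x j) * (f b : G → ZMod p) (K.y j) = _
      unfold cupG
      ring
    have hmin : Minor (fun j a b => -cupG K (f a) (f b) j) :=
      (hS _).2 (hH (cupB K) f hgen)
    obtain ⟨C, hC⟩ := hF1 p hp G hG (toKD K f z hz hd) (by rw [hqd]; exact hM)
      (by rw [hqd]; exact hmin)
    obtain ⟨h1, h2⟩ := of_level hG
      (fun g => ∃ a, (toKD K f z hz hd).χ a g ≠ 1) C hC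
    refine ⟨h1, fun h g hg n hn => h2 g ?_ n hn⟩
    by_contra hcon
    push Not at hcon
    apply hg
    have h3 : ∀ a, (f a : G → ZMod p) g = 0 := fun a => by
      have h4 := hcon a
      exact h4
    have h4 := f.sum_repr h
    have h5 : (h : G → ZMod p) g = ∑ a, f.repr h a * (f a : G → ZMod p) g := by
      conv_lhs => rw [← h4]
      have h6 : ((∑ a, f.repr h a • f a : H1 p G) : G → ZMod p) =
          ∑ a, f.repr h a • (f a : G → ZMod p) := by
        rw [Submodule.coe_sum]
        rfl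
      rw [h6, Finset.sum_apply]
      rfl
    rw [h5]
    exact Finset.sum_eq_zero fun a _ => by rw [h3 a, mul_zero]
  -- leading data from `U ⊕ V`
  have huv : UVC (cupG K) → (∃ (α : Type) (_ : Fintype α) (f : Module.Basis α (ZMod p) (H1 p G)),
      Mild (fun j a b => -cupG K (f a) (f b) j)) ∧
      ∀ g : G, g ≠ 1 → ∀ n : ℕ, 0 < n → g ^ n ≠ 1 := by
    intro h
    rw [cupG_eq] at h
    obtain ⟨α, ε, _, _, s, t, δ, f, B, hL⟩ := hG1 (evx K) (evy K) h
    have hM := hG2 s t δ _ _ B hL
    obtain ⟨z, hz, hd⟩ := dual_gen p G hG f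
    have hfr := Module.finrank_eq_card_basis f
    have hne : Nonempty α := by
      have h0 := hgen.1
      rw [hfr] at h0
      exact Fintype.card_pos_iff.1 h0
    refine ⟨⟨α, inferInstance, f, ?_⟩, fun g hg n hn => ?_⟩
    · have hqd : qd (fun j a => evx K j (f a)) (fun j a => evy K j (f a)) =
          fun j a b => -cupG K (f a) (f b) j := by
        funext j a b
        show (f a : G → ZMod p) (K.y j) * (f b : G → ZMod p) (K.x j) -
          (f a : G → ZMod p) (K.x j) * (f b : G → ZMod p) (K.y j) = _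
        unfold cupG
        ring
      rw [← hqd]
      exact hM
    · obtain ⟨W, hW⟩ : ∃ W : ℕ, ∀ a, 2 * δ a < W := by
        refine ⟨2 * (∑ a, δ a) + 1, fun a => ?_⟩
        have := Finset.single_le_sum (f := δ) (fun i _ => Nat.zero_le _) (Finset.mem_univ a)
        omega
      exact Pool.Agent.RG.Q.torsion_free p hp G hG (toKD K f z hz hd) _ B (hL W hW) g hg n hn
  have hM : ∃ (α : Type) (_ : Fintype α) (f : Module.Basis α (ZMod p) (H1 p G)),
      Mild (fun j a b => -cupG K (f a) (f b) j) := by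
    rcases hor with h | h
    · obtain ⟨α, _, f, hM⟩ := h
      exact ⟨α, inferInstance, f, (hS _).1 hM⟩
    · exact (huv h).1
  obtain ⟨α, _, f, hM⟩ := hM
  exact ⟨(main α f hM).1, fun h => (huv h).2, (main α f hM).2⟩

end Pool.Agent.RGM
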