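import Mathlib
import Pool.Agent.Lib.RGM.Rows
import Pool.Agent.Lib.RG.Q01

/-!
RGM, row A1: the length filtration, the ideals `I f n` and Vinberg's inequality.
-/

set_option autoImplicit false
set_option linter.unusedSectionVars false

namespace Pool.Agent.RGM

open scoped Classical
open Pool.Agent.RG.Q (FA wd X Q01_word_cases Q01_word_inj Q01_wd_mul Q01_wd_one Q01_rm Q01_rm_wd
  Q01_rm_one Q01_rm_mul_X Q01_eps Q01_eps_X Q01_eps_wd' Q01_rm_mul Q01_expand Q01_smul_mem)

section basic

variable {F : Type} [Field F] {α κ : Type}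

theorem len_one : len (1 : FreeMonoid α) = 0 := rfl

theorem len_mul (u v : FreeMonoid α) : len (u * v) = len u + len v := by
  unfold len
  rw [FreeMonoid.toList_mul, List.length_append]

theorem len_of (a : α) : len (FreeMonoid.of a) = 1 := by
  unfold len
  rw [FreeMonoid.toList_of, List.length_singleton]

theorem eps_wd (w : FreeMonoid α) (h : 0 < len w) : Q01_eps (wd w : FA F α) = 0 := by
  apply Q01_eps_wd'
  rintro rfl
  exact absurd h (lt_irrefl _)

theorem Lge_mono {a b : ℤ} (h : a ≤ b) : Lge F α b ≤ Lge F α a := by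
  apply Submodule.span_mono
  rintro _ ⟨w, hw, rfl⟩
  exact ⟨w, h.trans hw, rfl⟩

theorem wd_Lge {a : ℤ} {w : FreeMonoid α} (h : a ≤ len w) : (wd w : FA F α) ∈ Lge F α a :=
  Submodule.subset_span ⟨w, h, rfl⟩

theorem X_Lge (i : α) : (X i : FA F α) ∈ Lge F α 1 :=
  wd_Lge (by rw [len_of]; norm_num)

theorem mem_Lge_nonpos {a : ℤ} (ha : a ≤ 0) (x : FA F α) : x ∈ Lge F α a := by
  induction x using MonoidAlgebra.induction_on with
  | of w => exact wd_Lge (ha.trans (by positivity))
  | add x y hx hy => exact Submodule.add_mem _ hx hy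
  | smul r x hx => exact Submodule.smul_mem _ _ hx

theorem Lge_mul {a b : ℤ} {x y : FA F α} (hx : x ∈ Lge F α a) (hy : y ∈ Lge F α b) :
    x * y ∈ Lge F α (a + b) := by
  induction hx using Submodule.span_induction with
  | mem x hx =>
    obtain ⟨w, hw, rfl⟩ := hx
    induction hy using Submodule.span_induction with
    | mem y hy =>
      obtain ⟨w', hw', rfl⟩ := hy
      rw [← Q01_wd_mul]
      refine wd_Lge ?_
      rw [len_mul]
      push_cast
      omega
    | zero => rw [mul_zero]; exact Submodule.zero_mem _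
    | add y z _ _ hy hz => rw [mul_add]; exact Submodule.add_mem _ hy hz
    | smul c y _ hy => rw [mul_smul_comm]; exact Submodule.smul_mem _ _ hy
  | zero => rw [zero_mul]; exact Submodule.zero_mem _
  | add y z _ _ hy hz => rw [add_mul]; exact Submodule.add_mem _ hy hz
  | smul c y _ hy => rw [smul_mul_assoc]; exact Submodule.smul_mem _ _ hy

theorem rm_Lge {a : ℤ} {x : FA F α} (hx : x ∈ Lge F α a) (j : α) :
    Q01_rm j x ∈ Lge F α (a - 1) := by
  induction hx using Submodule.span_induction with
  | mem x hx =>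
    obtain ⟨w, hw, rfl⟩ := hx
    rcases Q01_word_cases w with rfl | ⟨w', k, rfl⟩
    · rw [Q01_wd_one, Q01_rm_one]
      exact Submodule.zero_mem _
    · have h1 : (wd (w' * FreeMonoid.of k) : FA F α) = wd w' * X k := Q01_wd_mul _ _
      rw [h1, Q01_rm_mul_X]
      split_ifs with hk
      · refine wd_Lge ?_
        rw [len_mul, len_of] at hw
        push_cast at hw
        omega
      · exact Submodule.zero_mem _
  | zero => rw [map_zero]; exact Submodule.zero_mem _
  | add y z _ _ hy hz => rw [map_add]; exact Submodule.add_mem _ hy hz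
  | smul c y _ hy => rw [map_smul]; exact Submodule.smul_mem _ _ hy

theorem eps_Lge {a : ℤ} (ha : 0 < a) {x : FA F α} (hx : x ∈ Lge F α a) : Q01_eps x = 0 := by
  induction hx using Submodule.span_induction with
  | mem x hx =>
    obtain ⟨w, hw, rfl⟩ := hx
    exact eps_wd w (by omega)
  | zero => rw [map_zero]
  | add y z _ _ hy hz => rw [map_add, hy, hz, add_zero]
  | smul c y _ hy => rw [map_smul, hy, smul_zero]

variable {f : κ → FA F α}

theorem I_wd {n : ℤ} {w : FreeMonoid α} (h : n < len w) : wd w ∈ I f n :=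
  Ideal.subset_span (Or.inr ⟨w, h, rfl⟩)

theorem I_rel (n : ℤ) (i : κ) (x : FA F α) : f i * x ∈ I f n := by
  induction x using MonoidAlgebra.induction_on with
  | of w => exact Ideal.subset_span (Or.inl ⟨i, w, rfl⟩)
  | add x y hx hy => rw [mul_add]; exact (I f n).add_mem hx hy
  | smul r x hx => rw [mul_smul_comm]; exact Q01_smul_mem r hx

theorem I_Lge {n k : ℤ} (h : n < k) {x : FA F α} (hx : x ∈ Lge F α k) : x ∈ I f n := by
  induction hx using Submodule.span_induction with
  | mem x hx =>
    obtain ⟨w, hw, rfl⟩ := hx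
    exact I_wd (h.trans_le hw)
  | zero => exact (I f n).zero_mem
  | add y z _ _ hy hz => exact (I f n).add_mem hy hz
  | smul c y _ hy => exact Q01_smul_mem c hy

theorem I_mul {a k : ℤ} {x y : FA F α} (hx : x ∈ I f a) (hy : y ∈ Lge F α k) :
    x * y ∈ I f (a + k) := by
  induction hx using Submodule.span_induction with
  | mem x hx =>
    rcases hx with ⟨i, w, rfl⟩ | ⟨w, hw, rfl⟩
    · rw [mul_assoc]
      exact I_rel _ _ _
    · refine I_Lge (k := len w + k) (by omega) (Lge_mul (wd_Lge le_rfl) hy)
  | zero => rw [zero_mul]; exact (I f _).zero_mem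
  | add y z _ _ hy hz => rw [add_mul]; exact (I f _).add_mem hy hz
  | smul c y _ hy => rw [smul_eq_mul, mul_assoc]; exact (I f _).mul_mem_left _ hy

theorem I_mono {a b : ℤ} (h : a ≤ b) : I f b ≤ I f a := by
  apply Ideal.span_mono
  rintro x (hx | ⟨w, hw, rfl⟩)
  · exact Or.inl hx
  · exact Or.inr ⟨w, h.trans_lt hw, rfl⟩

theorem I_neg {n : ℤ} (h : n < 0) : I f n = ⊤ := by
  rw [Ideal.eq_top_iff_one, ← Q01_wd_one]
  exact I_wd (by rw [len_one]; exact_mod_cast h)

theorem eps_I (hf : ∀ j, f j ∈ Lge F α 2) {n : ℤ} (hn : 0 ≤ n) {x : FA F α}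
    (hx : x ∈ I f n) : Q01_eps x = 0 := by
  induction hx using Submodule.span_induction with
  | mem x hx =>
    rcases hx with ⟨i, w, rfl⟩ | ⟨w, hw, rfl⟩
    · rw [map_mul, eps_Lge (by norm_num) (hf i), zero_mul]
    · exact eps_wd w (by omega)
  | zero => rw [map_zero]
  | add y z _ _ hy hz => rw [map_add, hy, hz, add_zero]
  | smul c y _ hy => rw [smul_eq_mul, map_mul, hy, mul_zero]

theorem words_finite [Fintype α] (n : ℤ) : {w : FreeMonoid α | (len w : ℤ) ≤ n}.Finite := by
  have h1 : {L : List α | L.length ≤ n.toNat}.Finite := List.finite_length_le _ _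
  refine (h1.preimage (f := FreeMonoid.toList) FreeMonoid.toList.injective.injOn).subset ?_
  intro w hw
  have h3 : (len w : ℤ) ≤ n := hw
  show (FreeMonoid.toList w).length ≤ n.toNat
  unfold len at h3
  omega

theorem quot_finite [Fintype α] (f : κ → FA F α) (n : ℤ) :
    Module.Finite F (FA F α ⧸ I f n) := by
  have hfin : ((fun w : FreeMonoid α => (Submodule.Quotient.mk (wd w) : FA F α ⧸ I f n)) ''
      {w | (len w : ℤ) ≤ n}).Finite := (words_finite n).image _
  refine ⟨⟨hfin.toFinset, ?_⟩⟩
  rw [Set.Finite.coe_toFinset, eq_top_iff]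
  rintro x -
  obtain ⟨y, rfl⟩ := Submodule.Quotient.mk_surjective _ x
  induction y using MonoidAlgebra.induction_on with
  | of w =>
    by_cases hw : (len w : ℤ) ≤ n
    · exact Submodule.subset_span ⟨w, hw, rfl⟩
    · have h1 : (Submodule.Quotient.mk (wd w) : FA F α ⧸ I f n) = 0 :=
        (Submodule.Quotient.mk_eq_zero _).2 (I_wd (by omega))
      change Submodule.Quotient.mk (wd w) ∈ _
      rw [h1]
      exact Submodule.zero_mem _
  | add y z hy hz =>
    rw [Submodule.Quotient.mk_add]
    exact Submodule.add_mem _ hy hz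
  | smul c y hy =>
    rw [Submodule.Quotient.mk_smul]
    exact Submodule.smul_mem _ _ hy

/-- right multiplication by `y`, from the quotient by `I f a` to the quotient by `I f b` -/
private noncomputable def a1_mul (f : κ → FA F α) {a b : ℤ} (y : FA F α)
    (h : ∀ x ∈ I f a, x * y ∈ I f b) :
    (FA F α ⧸ I f a) →ₗ[FA F α] (FA F α ⧸ I f b) :=
  Submodule.mapQ (I f a) (I f b) (LinearMap.toSpanSingleton (FA F α) (FA F α) y) h

end basic

variable {F : Type} [Field F] {α κ : Type} [Fintype α] [Fintype κ]

theorem a1_kernel (f : κ → FA F α) (hf : ∀ j, f j ∈ Lge F α 2) :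
    ∃ g : κ → α → FA F α, (∀ k, f k = ∑ a, g k a * X a) ∧
      (∀ k a, g k a ∈ Lge F α 1) ∧
      ∀ (n : ℤ) (c : α → FA F α), ∑ a, c a * X a ∈ I f n →
        ∃ b : κ → FA F α, ∀ a, c a - ∑ k, b k * g k a ∈ I f (n - 1) := by
  refine ⟨fun i j => Q01_rm j (f i), fun i => ?_, fun i j => ?_, ?_⟩
  · have h1 := Q01_expand (f i)
    rw [eps_Lge (by norm_num) (hf i), zero_smul, zero_add] at h1
    exact h1
  · exact rm_Lge (hf i) j
  · intro n c hc
    by_cases hn : 0 ≤ n
    · have key : ∀ x ∈ I f n, ∃ a : κ → FA F α,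
          ∀ j, Q01_rm j x - ∑ i, a i * Q01_rm j (f i) ∈ I f (n - 1) := by
        intro x hx
        induction hx using Submodule.span_induction with
        | mem x hx =>
          rcases hx with ⟨i, w, rfl⟩ | ⟨w, hw, rfl⟩
          · rcases Q01_word_cases w with rfl | ⟨w', k, rfl⟩
            · refine ⟨fun i' => if i' = i then 1 else 0, fun j => ?_⟩
              rw [Q01_wd_one, mul_one, Finset.sum_eq_single i]
              · simp only [if_true]
                rw [one_mul, sub_self]
                exact (I f _).zero_mem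
              · intro i' _ hi'
                simp only [if_neg hi']
                rw [zero_mul]
              · intro h
                exact absurd (Finset.mem_univ i) h
            · refine ⟨0, fun j => ?_⟩
              have h1 : (wd (w' * FreeMonoid.of k) : FA F α) = wd w' * X k := Q01_wd_mul _ _
              have h2 : ∑ i', (0 : κ → FA F α) i' * Q01_rm j (f i') = 0 :=
                Finset.sum_eq_zero fun i' _ => by rw [Pi.zero_apply, zero_mul]
              rw [h1, h2, sub_zero, ← mul_assoc, Q01_rm_mul_X]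
              split_ifs
              · exact I_rel _ _ _
              · exact (I f _).zero_mem
          · refine ⟨0, fun j => ?_⟩
            have h2 : ∑ i', (0 : κ → FA F α) i' * Q01_rm j (f i') = 0 :=
              Finset.sum_eq_zero fun i' _ => by rw [Pi.zero_apply, zero_mul]
            rw [h2, sub_zero]
            exact I_Lge (k := len w - 1) (by omega) (rm_Lge (wd_Lge le_rfl) j)
        | zero =>
          refine ⟨0, fun j => ?_⟩
          have h2 : ∑ i', (0 : κ → FA F α) i' * Q01_rm j (f i') = 0 :=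
            Finset.sum_eq_zero fun i' _ => by rw [Pi.zero_apply, zero_mul]
          rw [h2, sub_zero, map_zero]
          exact (I f _).zero_mem
        | add x y _ _ hx hy =>
          obtain ⟨a, ha⟩ := hx
          obtain ⟨b, hb⟩ := hy
          refine ⟨a + b, fun j => ?_⟩
          have h2 : ∑ i, (a + b) i * Q01_rm j (f i) =
              ∑ i, a i * Q01_rm j (f i) + ∑ i, b i * Q01_rm j (f i) := by
            rw [← Finset.sum_add_distrib]
            exact Finset.sum_congr rfl fun i _ => by rw [Pi.add_apply, add_mul]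
          have h3 := (I f _).add_mem (ha j) (hb j)
          rw [map_add, h2]
          have h4 : Q01_rm j x + Q01_rm j y -
              (∑ i, a i * Q01_rm j (f i) + ∑ i, b i * Q01_rm j (f i)) =
              Q01_rm j x - ∑ i, a i * Q01_rm j (f i) +
              (Q01_rm j y - ∑ i, b i * Q01_rm j (f i)) := by abel
          rw [h4]
          exact h3
        | smul c y hy' hy =>
          obtain ⟨a, ha⟩ := hy
          refine ⟨fun i => c * a i, fun j => ?_⟩
          have h2 : ∑ i, c * a i * Q01_rm j (f i) = c * ∑ i, a i * Q01_rm j (f i) := by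
            rw [Finset.mul_sum]
            exact Finset.sum_congr rfl fun i _ => mul_assoc _ _ _
          rw [smul_eq_mul, Q01_rm_mul, eps_I hf hn hy', zero_smul, add_zero, h2, ← mul_sub]
          exact (I f _).mul_mem_left _ (ha j)
      obtain ⟨a, ha⟩ := key _ hc
      refine ⟨a, fun j => ?_⟩
      have h1 : Q01_rm j (∑ k, c k * X k) = c j := by
        rw [map_sum, Finset.sum_eq_single j]
        · rw [Q01_rm_mul_X, if_pos rfl]
        · intro k _ hk
          rw [Q01_rm_mul_X, if_neg hk]
        · intro h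
          exact absurd (Finset.mem_univ j) h
      have h2 := ha j
      rwa [h1] at h2
    · refine ⟨0, fun j => ?_⟩
      rw [I_neg (by omega)]
      exact Submodule.mem_top

theorem vinberg (f : κ → FA F α) (hf : ∀ j, f j ∈ Lge F α 2) (n : ℤ) (hn : 0 ≤ n) :
    1 + Fintype.card α * hd f (n - 1) ≤ hd f n + Fintype.card κ * hd f (n - 2) := by
  obtain ⟨g, hg1, hg2, hg3⟩ := a1_kernel f hf
  have hfin : ∀ k : ℤ, Module.Finite F (FA F α ⧸ I f k) := quot_finite f
  have hX : ∀ j : α, ∀ x ∈ I f (n - 1), x * X j ∈ I f n := by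
    intro j x hx
    have h1 := I_mul hx (X_Lge j)
    rwa [sub_add_cancel] at h1
  have hG : ∀ (i : κ) (j : α), ∀ x ∈ I f (n - 2), x * g i j ∈ I f (n - 1) := by
    intro i j x hx
    have h1 := I_mul hx (hg2 i j)
    rwa [show n - 2 + (1 : ℤ) = n - 1 by ring] at h1
  let θ : (∀ _j : α, FA F α ⧸ I f (n - 1)) →ₗ[FA F α] (FA F α ⧸ I f n) :=
    ∑ j, (a1_mul f (X j) (hX j)).comp (LinearMap.proj j)
  let τ : (∀ _k : κ, FA F α ⧸ I f (n - 2)) →ₗ[FA F α]
      (∀ _j : α, FA F α ⧸ I f (n - 1)) :=
    LinearMap.pi fun j => ∑ i, (a1_mul f (g i j) (hG i j)).comp (LinearMap.proj i)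
  have hθ : ∀ c : α → FA F α, θ (fun j => Submodule.Quotient.mk (c j)) =
      Submodule.Quotient.mk (∑ j, c j * X j) := by
    intro c
    show (∑ j, (a1_mul f (X j) (hX j)).comp (LinearMap.proj j)) _ = _
    rw [LinearMap.sum_apply]
    have h1 : (Submodule.Quotient.mk (∑ j, c j * X j) : FA F α ⧸ I f n) =
        ∑ j, Submodule.Quotient.mk (c j * X j) := map_sum (Submodule.mkQ (I f n)) _ _
    rw [h1]
    rfl
  have hτ : ∀ a : κ → FA F α, τ (fun j => Submodule.Quotient.mk (a j)) =
      fun j => Submodule.Quotient.mk (∑ i, a i * g i j) := by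
    intro a
    funext j
    show (∑ i, (a1_mul f (g i j) (hG i j)).comp (LinearMap.proj i)) _ = _
    rw [LinearMap.sum_apply]
    have h1 : (Submodule.Quotient.mk (∑ i, a i * g i j) : FA F α ⧸ I f (n - 1)) =
        ∑ i, Submodule.Quotient.mk (a i * g i j) :=
      map_sum (Submodule.mkQ (I f (n - 1))) _ _
    rw [h1]
    rfl
  let θ' := θ.restrictScalars F
  let τ' := τ.restrictScalars F
  have hker : LinearMap.ker θ' ≤ LinearMap.range τ' := by
    intro v hv
    have hex : ∀ j, ∃ c : FA F α, (Submodule.Quotient.mk c : FA F α ⧸ I f (n - 1)) = v j :=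
      fun j => Submodule.Quotient.mk_surjective _ (v j)
    choose c hc using hex
    have hv1 : θ v = 0 := hv
    have hv2 : v = fun j => Submodule.Quotient.mk (c j) := funext fun j => (hc j).symm
    rw [hv2, hθ, Submodule.Quotient.mk_eq_zero] at hv1
    obtain ⟨a, ha⟩ := hg3 n c hv1
    refine ⟨fun j => Submodule.Quotient.mk (a j), ?_⟩
    show τ _ = v
    rw [hτ, hv2]
    funext j
    exact ((Submodule.Quotient.eq _).2 (ha j)).symm
  have h1 : Module.finrank F (LinearMap.ker θ') ≤ Fintype.card κ * hd f (n - 2) := by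
    refine (Submodule.finrank_mono hker).trans ((LinearMap.finrank_range_le τ').trans ?_)
    rw [Module.finrank_pi_fintype, Finset.sum_const, Finset.card_univ, smul_eq_mul]
    exact le_rfl
  have h2 : Module.finrank F (LinearMap.range θ') < hd f n := by
    refine Submodule.finrank_lt ?_
    intro htop
    have h3 : (Submodule.Quotient.mk (1 : FA F α) : FA F α ⧸ I f n) ∈ LinearMap.range θ' := by
      rw [htop]
      exact Submodule.mem_top
    obtain ⟨v, hv⟩ := h3
    have hex : ∀ j, ∃ c : FA F α, (Submodule.Quotient.mk c : FA F α ⧸ I f (n - 1)) = v j :=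
      fun j => Submodule.Quotient.mk_surjective _ (v j)
    choose c hc using hex
    have hv1 : θ v = Submodule.Quotient.mk 1 := hv
    have hv2 : v = fun j => Submodule.Quotient.mk (c j) := funext fun j => (hc j).symm
    rw [hv2, hθ, Submodule.Quotient.eq] at hv1
    have h4 := eps_I hf hn hv1
    rw [map_sub, map_sum, map_one] at h4
    have h5 : ∑ j, Q01_eps (c j * X j) = 0 := Finset.sum_eq_zero fun j _ => by
      rw [map_mul, Q01_eps_X, mul_zero]
    rw [h5, zero_sub] at h4
    exact one_ne_zero (neg_eq_zero.1 h4)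
  have h3 := LinearMap.finrank_range_add_finrank_ker θ'
  rw [Module.finrank_pi_fintype, Finset.sum_const, Finset.card_univ, smul_eq_mul] at h3
  have h4 : Module.finrank F (FA F α ⧸ I f (n - 1)) = hd f (n - 1) := rfl
  rw [h4] at h3
  omega

theorem rowA1 : RA1 := by
  intro F _ α κ _ _ f hf n hn
  exact vinberg f hf n hn

end Pool.Agent.RGM
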