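import Mathlib
import Pool.Agent.Lib.RGM.RowA1

/-!
RGM, row A2: initial forms.
-/

set_option autoImplicit false

namespace Pool.Agent.RGM

open scoped Classical
open Pool.Agent.RG.Q (FA wd X Q01_wd_mul Q01_wd_one Q01_smul_mem)

section a2

variable {F : Type} [Field F] {α κ : Type}

/-- the part of degree `n` -/
noncomputable def prt (n : ℤ) : FA F α →ₗ[F] FA F α :=
  (MonoidAlgebra.basis (FreeMonoid α) F).constr F fun w =>
    if (len w : ℤ) = n then wd w else 0

theorem prt_wd (n : ℤ) (w : FreeMonoid α) :
    prt n (wd w : FA F α) = if (len w : ℤ) = n then wd w else 0 := by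
  have h1 : (wd w : FA F α) = MonoidAlgebra.basis (FreeMonoid α) F w := by
    rw [MonoidAlgebra.basis_apply]
    rfl
  rw [h1, prt, Module.Basis.constr_basis]
  rw [← h1]

/-- the span of the words of length exactly `n` -/
noncomputable def Leq (F : Type) [Field F] (α : Type) (n : ℤ) : Submodule F (FA F α) :=
  Submodule.span F {x | ∃ w : FreeMonoid α, (len w : ℤ) = n ∧ x = wd w}

theorem prt_Leq {n : ℤ} {x : FA F α} (hx : x ∈ Leq F α n) : prt n x = x := by
  induction hx using Submodule.span_induction with
  | mem x hx =>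
    obtain ⟨w, hw, rfl⟩ := hx
    rw [prt_wd, if_pos hw]
  | zero => rw [map_zero]
  | add y z _ _ hy hz => rw [map_add, hy, hz]
  | smul c y _ hy => rw [map_smul, hy]

theorem prt_Leq_ne {n m : ℤ} (h : m ≠ n) {x : FA F α} (hx : x ∈ Leq F α m) : prt n x = 0 := by
  induction hx using Submodule.span_induction with
  | mem x hx =>
    obtain ⟨w, hw, rfl⟩ := hx
    rw [prt_wd, if_neg (by omega)]
  | zero => rw [map_zero]
  | add y z _ _ hy hz => rw [map_add, hy, hz, add_zero]
  | smul c y _ hy => rw [map_smul, hy, smul_zero]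

theorem prt_Lge {n m : ℤ} (h : n < m) {x : FA F α} (hx : x ∈ Lge F α m) : prt n x = 0 := by
  induction hx using Submodule.span_induction with
  | mem x hx =>
    obtain ⟨w, hw, rfl⟩ := hx
    rw [prt_wd, if_neg (by omega)]
  | zero => rw [map_zero]
  | add y z _ _ hy hz => rw [map_add, hy, hz, add_zero]
  | smul c y _ hy => rw [map_smul, hy, smul_zero]

theorem sub_prt {n : ℤ} {x : FA F α} (hx : x ∈ Lge F α n) : x - prt n x ∈ Lge F α (n + 1) := by
  induction hx using Submodule.span_induction with
  | mem x hx =>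
    obtain ⟨w, hw, rfl⟩ := hx
    rw [prt_wd]
    split_ifs with h
    · rw [sub_self]; exact Submodule.zero_mem _
    · rw [sub_zero]; exact wd_Lge (by omega)
  | zero => rw [map_zero, sub_zero]; exact Submodule.zero_mem _
  | add y z _ _ hy hz =>
    rw [map_add, add_sub_add_comm]
    exact Submodule.add_mem _ hy hz
  | smul c y _ hy =>
    rw [map_smul, ← smul_sub]
    exact Submodule.smul_mem _ _ hy

theorem Leq_mul {a b : ℤ} {x y : FA F α} (hx : x ∈ Leq F α a) (hy : y ∈ Leq F α b) :
    x * y ∈ Leq F α (a + b) := by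
  induction hx using Submodule.span_induction with
  | mem x hx =>
    obtain ⟨w, hw, rfl⟩ := hx
    induction hy using Submodule.span_induction with
    | mem y hy =>
      obtain ⟨w', hw', rfl⟩ := hy
      rw [← Q01_wd_mul]
      refine Submodule.subset_span ⟨_, ?_, rfl⟩
      rw [len_mul]
      push_cast
      omega
    | zero => rw [mul_zero]; exact Submodule.zero_mem _
    | add y z _ _ hy hz => rw [mul_add]; exact Submodule.add_mem _ hy hz
    | smul c y _ hy => rw [mul_smul_comm]; exact Submodule.smul_mem _ _ hy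
  | zero => rw [zero_mul]; exact Submodule.zero_mem _
  | add y z _ _ hy hz => rw [add_mul]; exact Submodule.add_mem _ hy hz
  | smul c y _ hy => rw [smul_mul_assoc]; exact Submodule.smul_mem _ _ hy

theorem wd_Leq (w : FreeMonoid α) : (wd w : FA F α) ∈ Leq F α (len w) :=
  Submodule.subset_span ⟨w, rfl, rfl⟩

theorem quad_Leq [Fintype α] (c : κ → α → α → F) (j : κ) : quad c j ∈ Leq F α 2 := by
  unfold quad
  refine Submodule.sum_mem _ fun a _ => Submodule.sum_mem _ fun b _ => Submodule.smul_mem _ _ ?_
  have h := Leq_mul (F := F) (wd_Leq (F := F) (FreeMonoid.of a)) (wd_Leq (F := F) (FreeMonoid.of b))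
  rw [len_of, len_of] at h
  exact h

theorem Leq_le_Lge {n : ℤ} : Leq F α n ≤ Lge F α n := by
  apply Submodule.span_mono
  rintro _ ⟨w, hw, rfl⟩
  exact ⟨w, hw.ge, rfl⟩

variable [Fintype α]

theorem quad_Lge (c : κ → α → α → F) (j : κ) : quad c j ∈ Lge F α 2 := Leq_le_Lge (quad_Leq c j)

/-- the part of degree `n` of the ideal of the quadratic forms -/
noncomputable def QS (c : κ → α → α → F) (n : ℤ) : Submodule F (FA F α) :=
  Submodule.span F {x | ∃ (u v : FreeMonoid α) (j : κ), (len u : ℤ) + 2 + len v = n ∧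
    x = wd u * (quad c j * wd v)}

theorem prt_I (c : κ → α → α → F) (n : ℤ) {x : FA F α} (hx : x ∈ I (quad c) n) :
    ∀ a : FA F α, prt n (a * x) ∈ QS c n := by
  induction hx using Submodule.span_induction with
  | mem x hx =>
    intro a
    rcases hx with ⟨j, v, rfl⟩ | ⟨w, hw, rfl⟩
    · induction a using MonoidAlgebra.induction_on with
      | of u =>
        change prt n (wd u * (quad c j * wd v)) ∈ _
        have h1 : wd u * (quad c j * wd v) ∈ Leq F α ((len u : ℤ) + (2 + len v)) :=
          Leq_mul (wd_Leq u) (Leq_mul (quad_Leq c j) (wd_Leq v))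
        by_cases h : (len u : ℤ) + 2 + len v = n
        · have h2 : (len u : ℤ) + (2 + len v) = n := by omega
          rw [h2] at h1
          rw [prt_Leq h1]
          exact Submodule.subset_span ⟨u, v, j, h, rfl⟩
        · rw [prt_Leq_ne (by omega) h1]
          exact Submodule.zero_mem _
      | add x y hx hy =>
        rw [add_mul, map_add]
        exact Submodule.add_mem _ hx hy
      | smul r x hx =>
        rw [smul_mul_assoc, map_smul]
        exact Submodule.smul_mem _ _ hx
    · have h1 : a * wd w ∈ Lge F α (0 + len w) := Lge_mul (mem_Lge_nonpos le_rfl a) (wd_Lge le_rfl)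
      rw [prt_Lge (by omega) h1]
      exact Submodule.zero_mem _
  | zero => intro a; rw [mul_zero, map_zero]; exact Submodule.zero_mem _
  | add y z _ _ hy hz =>
    intro a
    rw [mul_add, map_add]
    exact Submodule.add_mem _ (hy a) (hz a)
  | smul b y _ hy =>
    intro a
    rw [smul_eq_mul, ← mul_assoc]
    exact hy _

theorem QS_le (c : κ → α → α → F) (f : κ → FA F α) (hf : ∀ j, f j - quad c j ∈ Lge F α 3) (n : ℤ)
    {x : FA F α} (hx : x ∈ QS c n) : x ∈ I f n := by
  induction hx using Submodule.span_induction with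
  | mem x hx =>
    obtain ⟨u, v, j, h, rfl⟩ := hx
    have h1 : wd u * (f j * wd v) ∈ I f n := (I f n).mul_mem_left _ (I_rel _ _ _)
    have h2 : wd u * ((f j - quad c j) * wd v) ∈ I f n := by
      refine I_Lge (k := (len u : ℤ) + (3 + len v)) (by omega) ?_
      exact Lge_mul (wd_Lge le_rfl) (Lge_mul (hf j) (wd_Lge le_rfl))
    have h3 := (I f n).sub_mem h1 h2
    have h4 : wd u * (f j * wd v) - wd u * ((f j - quad c j) * wd v) =
        wd u * (quad c j * wd v) := by
      rw [sub_mul, mul_sub]
      abel
    rwa [h4] at h3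
  | zero => exact (I f n).zero_mem
  | add y z _ _ hy hz => exact (I f n).add_mem hy hz
  | smul a y _ hy => exact Q01_smul_mem a hy

end a2

theorem rowA2 : RA2 := by
  intro F _ α κ _ c f hf n y hy hI
  have h1 := prt_I c n hI 1
  rw [one_mul] at h1
  have h2 := QS_le c f hf n h1
  have h3 := I_Lge (f := f) (show n < n + 1 by omega) (sub_prt hy)
  have h4 := (I f n).add_mem h3 h2
  rwa [sub_add_cancel] at h4

end Pool.Agent.RGM
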