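import Mathlib
import Pool.Agent.Lib.RGM.RowA2

/-!
RGM, row A3: mild sequences have the property (M).
-/

set_option autoImplicit false

namespace Pool.Agent.RGM

open scoped Classical
open Pool.Agent.RG.Q (FA wd X Q01_word_cases Q01_wd_mul Q01_wd_one Q01_smul_mem)

section a3

variable {F : Type} [Field F] {α κ : Type}

/-- the quotient map modulo `I f n` -/
noncomputable def qm (f : κ → FA F α) (n : ℤ) : FA F α →ₗ[F] (FA F α ⧸ I f n) :=
  (Submodule.mkQ (I f n)).restrictScalars F

theorem qm_eq_zero {f : κ → FA F α} {n : ℤ} {x : FA F α} : qm f n x = 0 ↔ x ∈ I f n :=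
  Submodule.Quotient.mk_eq_zero _

theorem qm_surj (f : κ → FA F α) (n : ℤ) : Function.Surjective (qm f n) :=
  Submodule.Quotient.mk_surjective _

/-- the dimension of the part of degree `n` -/
noncomputable def gd (f : κ → FA F α) (n : ℤ) : ℕ :=
  Module.finrank F ((Lge F α n).map (qm f n))

theorem exists_split (f : κ → FA F α) (n : ℤ) {x : FA F α} (hx : x ∈ I f (n - 1)) :
    ∃ y ∈ Lge F α n, x - y ∈ I f n := by
  induction hx using Submodule.span_induction with
  | mem x hx =>
    rcases hx with ⟨i, w, rfl⟩ | ⟨w, hw, rfl⟩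
    · exact ⟨0, Submodule.zero_mem _, by rw [sub_zero]; exact I_rel _ _ _⟩
    · exact ⟨wd w, wd_Lge (by omega), by rw [sub_self]; exact (I f n).zero_mem⟩
  | zero => exact ⟨0, Submodule.zero_mem _, by rw [sub_zero]; exact (I f n).zero_mem⟩
  | add x y _ _ hx hy =>
    obtain ⟨a, ha, ha'⟩ := hx
    obtain ⟨b, hb, hb'⟩ := hy
    refine ⟨a + b, Submodule.add_mem _ ha hb, ?_⟩
    rw [add_sub_add_comm]
    exact (I f n).add_mem ha' hb'
  | smul c x _ hx =>
    obtain ⟨a, ha, ha'⟩ := hx
    refine ⟨c * a, ?_, ?_⟩
    · have := Lge_mul (mem_Lge_nonpos (le_refl (0 : ℤ)) c) ha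
      rwa [zero_add] at this
    · rw [smul_eq_mul, ← mul_sub]
      exact (I f n).mul_mem_left _ ha'

theorem hd_step [Fintype α] (f : κ → FA F α) (n : ℤ) : hd f n = hd f (n - 1) + gd f n := by
  have hfin : ∀ k : ℤ, Module.Finite F (FA F α ⧸ I f k) := quot_finite f
  have hle : I f n ≤ I f (n - 1) := I_mono (by omega)
  let p : (FA F α ⧸ I f n) →ₗ[F] (FA F α ⧸ I f (n - 1)) :=
    (Submodule.mapQ (I f n) (I f (n - 1)) LinearMap.id hle).restrictScalars F
  have hp : ∀ x, p (qm f n x) = qm f (n - 1) x := fun x => rfl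
  have hsurj : LinearMap.range p = ⊤ := by
    rw [LinearMap.range_eq_top]
    intro y
    obtain ⟨x, rfl⟩ := qm_surj f (n - 1) y
    exact ⟨qm f n x, hp x⟩
  have hker : LinearMap.ker p = (Lge F α n).map (qm f n) := by
    ext y
    obtain ⟨x, rfl⟩ := qm_surj f n y
    rw [LinearMap.mem_ker, hp, qm_eq_zero, Submodule.mem_map]
    constructor
    · intro hx
      obtain ⟨y, hy, hxy⟩ := exists_split f n hx
      refine ⟨y, hy, ?_⟩
      rw [← sub_eq_zero, ← map_sub, qm_eq_zero, ← neg_sub]
      exact (I f n).neg_mem hxy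
    · rintro ⟨y, hy, hxy⟩
      rw [← sub_eq_zero, ← map_sub, qm_eq_zero] at hxy
      have h1 : y ∈ I f (n - 1) := I_Lge (by omega) hy
      have h2 := (I f (n - 1)).sub_mem h1 (hle hxy)
      rwa [sub_sub_cancel] at h2
  have h := LinearMap.finrank_range_add_finrank_ker p
  rw [hsurj, hker, finrank_top] at h
  exact h.symm

theorem gd_le [Fintype α] {f g : κ → FA F α} {n : ℤ}
    (h : ∀ y ∈ Lge F α n, y ∈ I g n → y ∈ I f n) :
    gd f n ≤ gd g n ∧ (gd f n = gd g n → ∀ y ∈ Lge F α n, y ∈ I f n → y ∈ I g n) := by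
  have hfin : ∀ k : ℤ, Module.Finite F (FA F α ⧸ I g k) := quot_finite g
  have hfin' : ∀ k : ℤ, Module.Finite F (FA F α ⧸ I f k) := quot_finite f
  -- the restriction of the quotient maps to `Lge n`
  let a := (qm f n).comp (Lge F α n).subtype
  let b := (qm g n).comp (Lge F α n).subtype
  have ha : LinearMap.range a = (Lge F α n).map (qm f n) := by
    rw [LinearMap.range_comp, Submodule.range_subtype]
  have hb : LinearMap.range b = (Lge F α n).map (qm g n) := by
    rw [LinearMap.range_comp, Submodule.range_subtype]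
  have hker : LinearMap.ker b ≤ LinearMap.ker a := by
    intro y hy
    rw [LinearMap.mem_ker] at hy ⊢
    exact qm_eq_zero.2 (h y.1 y.2 (qm_eq_zero.1 hy))
  -- the induced map of the ranges
  have hex : ∃ φ : LinearMap.range b →ₗ[F] LinearMap.range a, ∀ y, φ (b.rangeRestrict y) =
      a.rangeRestrict y := by
    have h1 : LinearMap.ker b.rangeRestrict ≤ LinearMap.ker a.rangeRestrict := by
      rw [LinearMap.ker_rangeRestrict, LinearMap.ker_rangeRestrict]
      exact hker
    let e := b.rangeRestrict.quotKerEquivOfSurjective b.surjective_rangeRestrict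
    refine ⟨((LinearMap.ker b.rangeRestrict).liftQ a.rangeRestrict h1).comp
      (e.symm : LinearMap.range b →ₗ[F] _), fun y => ?_⟩
    have h2 : e.symm (b.rangeRestrict y) = (LinearMap.ker b.rangeRestrict).mkQ y := by
      rw [LinearEquiv.symm_apply_eq]
      rfl
    rw [LinearMap.comp_apply]
    change (LinearMap.ker b.rangeRestrict).liftQ a.rangeRestrict h1 (e.symm _) = _
    rw [h2, Submodule.mkQ_apply, Submodule.liftQ_apply]
  obtain ⟨φ, hφ⟩ := hex
  have hsurj : Function.Surjective φ := by
    intro z
    obtain ⟨y, hy⟩ := a.surjective_rangeRestrict z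
    exact ⟨b.rangeRestrict y, by rw [hφ, hy]⟩
  have hda : gd f n = Module.finrank F (LinearMap.range a) := by rw [ha]; rfl
  have hdb : gd g n = Module.finrank F (LinearMap.range b) := by rw [hb]; rfl
  refine ⟨?_, fun heq y hy hyf => ?_⟩
  · rw [hda, hdb]
    exact LinearMap.finrank_le_finrank_of_surjective hsurj
  · rw [hda, hdb] at heq
    have hinj : Function.Injective φ :=
      (LinearMap.injective_iff_surjective_of_finrank_eq_finrank heq.symm).2 hsurj
    have h1 : a.rangeRestrict ⟨y, hy⟩ = 0 := by
      apply Subtype.ext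
      exact qm_eq_zero.2 hyf
    have h2 : b.rangeRestrict ⟨y, hy⟩ = 0 := by
      apply hinj
      rw [hφ, h1, map_zero]
    exact qm_eq_zero.1 (congrArg Subtype.val h2)

theorem hd_neg (f : κ → FA F α) {n : ℤ} (hn : n < 0) : hd f n = 0 := by
  unfold hd
  have : Subsingleton (FA F α ⧸ I f n) := by
    refine ⟨fun a b => ?_⟩
    obtain ⟨x, rfl⟩ := Submodule.Quotient.mk_surjective _ a
    obtain ⟨y, rfl⟩ := Submodule.Quotient.mk_surjective _ b
    rw [Submodule.Quotient.eq, I_neg hn]
    exact Submodule.mem_top
  exact Module.finrank_zero_of_subsingleton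

theorem hd_zero_le [Fintype α] (f : κ → FA F α) : hd f 0 ≤ 1 := by
  have htop : Submodule.span F (Set.range fun _ : Unit => qm f 0 1) = ⊤ := by
    rw [eq_top_iff]
    rintro x -
    obtain ⟨y, rfl⟩ := qm_surj f 0 x
    induction y using MonoidAlgebra.induction_on with
    | of w =>
      by_cases hw : w = 1
      · subst hw
        exact Submodule.subset_span ⟨(), rfl⟩
      · have h1 : qm f 0 (wd w) = 0 := by
          rw [qm_eq_zero]
          apply I_wd
          rcases Q01_word_cases w with rfl | ⟨w', k, rfl⟩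
          · exact absurd rfl hw
          · rw [len_mul, len_of]
            push_cast
            omega
        change qm f 0 (wd w) ∈ _
        rw [h1]
        exact Submodule.zero_mem _
    | add y z hy hz => rw [map_add]; exact Submodule.add_mem _ hy hz
    | smul c y hy => rw [map_smul]; exact Submodule.smul_mem _ _ hy
  have h := finrank_range_le_card (R := F) (fun _ : Unit => qm f 0 1)
  unfold Set.finrank at h
  rw [htop, finrank_top, Fintype.card_unit] at h
  exact h

theorem hd_one_le [Fintype α] (f : κ → FA F α) : hd f 1 ≤ 1 + Fintype.card α := by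
  let v : Option α → (FA F α ⧸ I f 1) := fun o => o.elim (qm f 1 1) fun a => qm f 1 (X a)
  have htop : Submodule.span F (Set.range v) = ⊤ := by
    rw [eq_top_iff]
    rintro x -
    obtain ⟨y, rfl⟩ := qm_surj f 1 x
    induction y using MonoidAlgebra.induction_on with
    | of w =>
      rcases Q01_word_cases w with rfl | ⟨w', k, rfl⟩
      · exact Submodule.subset_span ⟨none, rfl⟩
      · rcases Q01_word_cases w' with rfl | ⟨w'', k', rfl⟩
        · exact Submodule.subset_span ⟨some k, by rw [one_mul]; rfl⟩
        · have h1 : qm f 1 (wd (w'' * FreeMonoid.of k' * FreeMonoid.of k)) = 0 := by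
            rw [qm_eq_zero]
            apply I_wd
            rw [len_mul, len_mul, len_of, len_of]
            push_cast
            omega
          change qm f 1 (wd (w'' * FreeMonoid.of k' * FreeMonoid.of k)) ∈ _
          rw [h1]
          exact Submodule.zero_mem _
    | add y z hy hz => rw [map_add]; exact Submodule.add_mem _ hy hz
    | smul c y hy => rw [map_smul]; exact Submodule.smul_mem _ _ hy
  have h := finrank_range_le_card (R := F) v
  unfold Set.finrank at h
  rw [htop, finrank_top, Fintype.card_option] at h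
  unfold hd
  omega

/-- Equality of the Hilbert functions. -/
theorem hd_eq [Fintype α] [Fintype κ] (c : κ → α → α → F) (hm : Mild c) (f : κ → FA F α)
    (hf : ∀ j, f j - quad c j ∈ Lge F α 3) : ∀ n : ℕ, hd f n = hd (quad c) n := by
  have hf2 : ∀ j, f j ∈ Lge F α 2 := by
    intro j
    have h1 := Lge_mono (show (2 : ℤ) ≤ 3 by norm_num) (hf j)
    have h2 := Submodule.add_mem _ h1 (quad_Lge c j)
    rwa [sub_add_cancel] at h2
  have hle : ∀ n : ℤ, gd f n ≤ gd (quad c) n := fun n =>
    (gd_le fun y hy hI => rowA2 c f hf n y hy hI).1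
  have hle' : ∀ n : ℕ, hd f n ≤ hd (quad c) n := by
    intro n
    induction n with
    | zero =>
      have h1 := hd_step f 0
      have h2 := hd_step (quad c) 0
      have h3 := hle 0
      have h4 := hd_neg f (n := 0 - 1) (by norm_num)
      have h5 := hd_neg (quad c) (n := 0 - 1) (by norm_num)
      push_cast
      omega
    | succ n ih =>
      have h1 := hd_step f (n + 1)
      have h2 := hd_step (quad c) (n + 1)
      have h3 := hle (n + 1)
      rw [show (n : ℤ) + 1 - 1 = n by ring] at h1 h2
      push_cast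
      omega
  intro n
  induction n using Nat.strong_induction_on with
  | _ n ih =>
    refine le_antisymm (hle' n) ?_
    rcases n with _ | _ | n
    · have h1 := vinberg f hf2 0 le_rfl
      rw [hd_neg f (n := 0 - 1) (by norm_num), hd_neg f (n := 0 - 2) (by norm_num)] at h1
      have h2 := hd_zero_le (quad c)
      push_cast
      omega
    · have h1 := vinberg f hf2 1 (by norm_num)
      rw [show (1 : ℤ) - 1 = 0 by norm_num, hd_neg f (n := 1 - 2) (by norm_num)] at h1
      have h2 := hd_one_le (quad c)
      have h3 := vinberg f hf2 0 le_rfl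
      rw [hd_neg f (n := 0 - 1) (by norm_num), hd_neg f (n := 0 - 2) (by norm_num)] at h3
      have h4 : Fintype.card α * 1 ≤ Fintype.card α * hd f 0 := Nat.mul_le_mul_left _ (by omega)
      push_cast
      omega
    · have h1 := vinberg f hf2 ((n : ℤ) + 2) (by positivity)
      rw [show (n : ℤ) + 2 - 1 = ((n + 1 : ℕ) : ℤ) by push_cast; ring,
        show (n : ℤ) + 2 - 2 = (n : ℤ) by ring, ih (n + 1) (by omega), ih n (by omega)] at h1
      have h2 := hm n
      push_cast at h1 h2 ⊢
      rw [show (n : ℤ) + 1 + 1 = (n : ℤ) + 2 by ring]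
      omega

theorem ab_hom (w : FreeMonoid α) : (ab F α (wd w)).IsHomogeneous (len w) := by
  induction w using FreeMonoid.recOn with
  | one =>
    rw [Q01_wd_one, map_one, len_one]
    exact MvPolynomial.isHomogeneous_one _ _
  | of_mul x xs ih =>
    rw [Q01_wd_mul, map_mul, len_mul, len_of]
    refine MvPolynomial.IsHomogeneous.mul ?_ ih
    have : ab F α (wd (FreeMonoid.of x)) = MvPolynomial.X x := by
      unfold ab wd
      rw [MonoidAlgebra.lift_of, FreeMonoid.lift_eval_of]
    rw [this]
    exact MvPolynomial.isHomogeneous_X _ _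

theorem ab_I [Fintype α] (c : κ → α → α → F) (h : ∀ j, ab F α (quad c j) = 0) (n : ℕ)
    {x : FA F α} (hx : x ∈ I (quad c) n) :
    ∀ e : α →₀ ℕ, e.degree ≤ n → MvPolynomial.coeff e (ab F α x) = 0 := by
  induction hx using Submodule.span_induction with
  | mem x hx =>
    intro e he
    rcases hx with ⟨j, w, rfl⟩ | ⟨w, hw, rfl⟩
    · rw [map_mul, h, zero_mul, MvPolynomial.coeff_zero]
    · refine (ab_hom w).coeff_eq_zero ?_
      omega
  | zero => intro e _; rw [map_zero, MvPolynomial.coeff_zero]
  | add y z _ _ hy hz =>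
    intro e he
    rw [map_add, MvPolynomial.coeff_add, hy e he, hz e he, add_zero]
  | smul a y _ hy =>
    intro e he
    rw [smul_eq_mul, map_mul, MvPolynomial.coeff_mul]
    refine Finset.sum_eq_zero fun u hu => ?_
    rw [Finset.HasAntidiagonal.mem_antidiagonal] at hu
    have h1 : u.1.degree + u.2.degree = e.degree := by rw [← map_add, hu]
    rw [hy u.2 (by omega), mul_zero]

end a3

theorem rowA3 : RA3 := by
  intro F _ α κ _ _ c hab hm f hf n r hr y hy hI e he
  have h1 : y ∈ I f r := I_mono (by exact_mod_cast hr) hI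
  have hgd : gd f r = gd (quad c) r := by
    have h2 := hd_step f r
    have h3 := hd_step (quad c) r
    have h4 := hd_eq c hm f hf r
    have h5 : hd f ((r : ℤ) - 1) = hd (quad c) ((r : ℤ) - 1) := by
      rcases r with _ | r
      · rw [hd_neg f (by norm_num), hd_neg (quad c) (by norm_num)]
      · have := hd_eq c hm f hf r
        rwa [show (((r + 1 : ℕ) : ℤ) - 1) = r by push_cast; ring]
    omega
  have h6 := (gd_le (f := f) (g := quad c) fun y hy hI => rowA2 c f hf r y hy hI).2 hgd y hy h1
  exact ab_I c hab r h6 e (le_of_eq he)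

end Pool.Agent.RGM
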