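import Mathlib
import Pool.Agent.Lib.RGM.RowA3

/-!
RGM, row T1: for a mild sequence the relation map of the truncated algebras is injective.
-/

set_option autoImplicit false
set_option linter.unusedSectionVars false

namespace Pool.Agent.RGM

open scoped Classical
open Pool.Agent.RG.Q (FA wd X Q01_word_cases Q01_wd_mul Q01_wd_one Q01_smul_mem Q01_eps Q01_eps_X)

section tf1

variable {F : Type} [Field F] {α κ : Type}

/-- right multiplication by `y`, from the quotient by `I f a` to the quotient by `I f b` -/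
private noncomputable def t1_mul (f : κ → FA F α) {a b : ℤ} (y : FA F α)
    (h : ∀ x ∈ I f a, x * y ∈ I f b) :
    (FA F α ⧸ I f a) →ₗ[FA F α] (FA F α ⧸ I f b) :=
  Submodule.mapQ (I f a) (I f b) (LinearMap.toSpanSingleton (FA F α) (FA F α) y) h

end tf1

theorem tf_exact {F : Type} [Field F] {α κ : Type} [Fintype α] [Fintype κ] (c : κ → α → α → F)
    (hm : Mild c) (f : κ → FA F α) (hf : ∀ j, f j - quad c j ∈ Lge F α 3) :
    ∃ g : κ → α → FA F α, (∀ k, f k = ∑ a, g k a * X a) ∧ (∀ k a, g k a ∈ Lge F α 1) ∧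
      (∀ (n : ℤ) (u : α → FA F α), ∑ a, u a * X a ∈ I f n →
        ∃ b : κ → FA F α, ∀ a, u a - ∑ k, b k * g k a ∈ I f (n - 1)) ∧
      ∀ (n : ℤ) (b : κ → FA F α), (∀ a, ∑ k, b k * g k a ∈ I f (n - 1)) →
        ∀ k, b k ∈ I f (n - 2) := by
  have hf2 : ∀ j, f j ∈ Lge F α 2 := by
    intro j
    have h1 := Lge_mono (show (2 : ℤ) ≤ 3 by norm_num) (hf j)
    have h2 := Submodule.add_mem _ h1 (quad_Lge c j)
    rwa [sub_add_cancel] at h2
  obtain ⟨g, hg1, hg2, hg3⟩ := a1_kernel f hf2
  refine ⟨g, hg1, hg2, hg3, ?_⟩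
  intro n b hb
  by_cases hn2 : n < 2
  · intro k
    rw [I_neg (by omega)]
    exact Submodule.mem_top
  have hn : 0 ≤ n := by omega
  have hfin : ∀ k : ℤ, Module.Finite F (FA F α ⧸ I f k) := quot_finite f
  have hX : ∀ j : α, ∀ x ∈ I f (n - 1), x * X j ∈ I f n := by
    intro j x hx
    have h1 := I_mul hx (X_Lge j)
    rwa [sub_add_cancel] at h1
  have hG : ∀ (i : κ) (j : α), ∀ x ∈ I f (n - 2), x * g i j ∈ I f (n - 1) := by
    intro i j x hx
    have h1 := I_mul hx (hg2 i j)
    rwa [show n - 2 + (1 : ℤ) = n - 1 by ring] at h1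
  let θ : (∀ _j : α, FA F α ⧸ I f (n - 1)) →ₗ[FA F α] (FA F α ⧸ I f n) :=
    ∑ j, (t1_mul f (X j) (hX j)).comp (LinearMap.proj j)
  let τ : (∀ _k : κ, FA F α ⧸ I f (n - 2)) →ₗ[FA F α]
      (∀ _j : α, FA F α ⧸ I f (n - 1)) :=
    LinearMap.pi fun j => ∑ i, (t1_mul f (g i j) (hG i j)).comp (LinearMap.proj i)
  have hθ : ∀ c : α → FA F α, θ (fun j => Submodule.Quotient.mk (c j)) =
      Submodule.Quotient.mk (∑ j, c j * X j) := by
    intro c
    show (∑ j, (t1_mul f (X j) (hX j)).comp (LinearMap.proj j)) _ = _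
    rw [LinearMap.sum_apply]
    have h1 : (Submodule.Quotient.mk (∑ j, c j * X j) : FA F α ⧸ I f n) =
        ∑ j, Submodule.Quotient.mk (c j * X j) := map_sum (Submodule.mkQ (I f n)) _ _
    rw [h1]
    rfl
  have hτ : ∀ a : κ → FA F α, τ (fun j => Submodule.Quotient.mk (a j)) =
      fun j => Submodule.Quotient.mk (∑ i, a i * g i j) := by
    intro a
    funext j
    show (∑ i, (t1_mul f (g i j) (hG i j)).comp (LinearMap.proj i)) _ = _
    rw [LinearMap.sum_apply]
    have h1 : (Submodule.Quotient.mk (∑ i, a i * g i j) : FA F α ⧸ I f (n - 1)) =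
        ∑ i, Submodule.Quotient.mk (a i * g i j) :=
      map_sum (Submodule.mkQ (I f (n - 1))) _ _
    rw [h1]
    rfl
  let θ' := θ.restrictScalars F
  let τ' := τ.restrictScalars F
  have hker : LinearMap.ker θ' ≤ LinearMap.range τ' := by
    intro v hv
    have hex : ∀ j, ∃ c : FA F α, (Submodule.Quotient.mk c : FA F α ⧸ I f (n - 1)) = v j :=
      fun j => Submodule.Quotient.mk_surjective _ (v j)
    choose c hc using hex
    have hv1 : θ v = 0 := hv
    have hv2 : v = fun j => Submodule.Quotient.mk (c j) := funext fun j => (hc j).symm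
    rw [hv2, hθ, Submodule.Quotient.mk_eq_zero] at hv1
    obtain ⟨a, ha⟩ := hg3 n c hv1
    refine ⟨fun j => Submodule.Quotient.mk (a j), ?_⟩
    show τ _ = v
    rw [hτ, hv2]
    funext j
    exact ((Submodule.Quotient.eq _).2 (ha j)).symm
  have h1 : Module.finrank F (LinearMap.ker θ') ≤ Module.finrank F (LinearMap.range τ') :=
    Submodule.finrank_mono hker
  have h2 : Module.finrank F (LinearMap.range θ') < hd f n := by
    refine Submodule.finrank_lt ?_
    intro htop
    have h3 : (Submodule.Quotient.mk (1 : FA F α) : FA F α ⧸ I f n) ∈ LinearMap.range θ' := by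
      rw [htop]
      exact Submodule.mem_top
    obtain ⟨v, hv⟩ := h3
    have hex : ∀ j, ∃ c : FA F α, (Submodule.Quotient.mk c : FA F α ⧸ I f (n - 1)) = v j :=
      fun j => Submodule.Quotient.mk_surjective _ (v j)
    choose c hc using hex
    have hv1 : θ v = Submodule.Quotient.mk 1 := hv
    have hv2 : v = fun j => Submodule.Quotient.mk (c j) := funext fun j => (hc j).symm
    rw [hv2, hθ, Submodule.Quotient.eq] at hv1
    have h4 := eps_I hf2 hn hv1
    rw [map_sub, map_sum, map_one] at h4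
    have h5 : ∑ j, Q01_eps (c j * X j) = 0 := Finset.sum_eq_zero fun j _ => by
      rw [map_mul, Q01_eps_X, mul_zero]
    rw [h5, zero_sub] at h4
    exact one_ne_zero (neg_eq_zero.1 h4)
  have h3 := LinearMap.finrank_range_add_finrank_ker θ'
  rw [Module.finrank_pi_fintype, Finset.sum_const, Finset.card_univ, smul_eq_mul] at h3
  have h4 : Module.finrank F (FA F α ⧸ I f (n - 1)) = hd f (n - 1) := rfl
  rw [h4] at h3
  have h5 := LinearMap.finrank_range_add_finrank_ker τ'
  rw [Module.finrank_pi_fintype, Finset.sum_const, Finset.card_univ, smul_eq_mul] at h5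
  have h6 : Module.finrank F (FA F α ⧸ I f (n - 2)) = hd f (n - 2) := rfl
  rw [h6] at h5
  -- the Hilbert function
  have h7 : Module.finrank F (LinearMap.ker τ') = 0 := by
    obtain ⟨m, hm'⟩ : ∃ m : ℕ, n = (m : ℤ) + 2 := ⟨(n - 2).toNat, by omega⟩
    have e0 := hd_eq c hm f hf m
    have e1 := hd_eq c hm f hf (m + 1)
    have e2 := hd_eq c hm f hf (m + 2)
    have e3 := hm m
    rw [show ((m : ℕ) : ℤ) = n - 2 by omega] at e0
    rw [show ((m + 1 : ℕ) : ℤ) = n - 1 by push_cast; omega] at e1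
    rw [show ((m + 2 : ℕ) : ℤ) = n by push_cast; omega] at e2
    rw [show ((m : ℕ) : ℤ) + 2 = n by omega, show ((m : ℕ) : ℤ) + 1 = n - 1 by omega,
      show ((m : ℕ) : ℤ) = n - 2 by omega, ← e0, ← e1, ← e2] at e3
    omega
  have h8 : LinearMap.ker τ' = ⊥ := Submodule.finrank_eq_zero.1 h7
  have h9 : τ' (fun j => Submodule.Quotient.mk (b j)) = 0 := by
    show τ _ = 0
    rw [hτ]
    funext j
    exact (Submodule.Quotient.mk_eq_zero _).2 (hb j)
  have h10 := (LinearMap.ker_eq_bot'.1 h8) _ h9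
  intro k
  exact (Submodule.Quotient.mk_eq_zero _).1 (congrFun h10 k)

end Pool.Agent.RGM
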