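import Mathlib
import Pool.Agent.Lib.RG.PDefs

/-!
RGM: the group algebra as a module over `F_p[g]`, `g` of order `p`: it is free.
-/

set_option autoImplicit false

namespace Pool.Agent.RGM

open scoped Classical
open Pool.Agent.RG (GA dl)

/-- `(a - 1) ^ (p - 1) = 1 + a + ⋯ + a ^ (p - 1)` in characteristic `p` -/
theorem tf_norm (p : ℕ) [Fact p.Prime] {R : Type*} [Ring R] [Algebra (ZMod p) R] (a : R) :
    (a - 1) ^ (p - 1) = ∑ i ∈ Finset.range p, a ^ i := by
  have hp : p.Prime := Fact.out
  have h : (Polynomial.X - 1 : Polynomial (ZMod p)) ^ (p - 1) =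
      ∑ i ∈ Finset.range p, Polynomial.X ^ i := by
    have hne : (Polynomial.X - 1 : Polynomial (ZMod p)) ≠ 0 := by
      rw [← Polynomial.C_1]
      exact Polynomial.X_sub_C_ne_zero 1
    apply mul_left_cancel₀ hne
    rw [← pow_succ', Nat.sub_add_cancel hp.one_le, sub_pow_char, one_pow, mul_geom_sum]
  have h2 := congrArg (Polynomial.aeval a) h
  simpa using h2

section

variable (p : ℕ) [Fact p.Prime] {P : Type} [Group P] [Finite P] (g : P)

theorem tf_coeff (v : GA p P) (i : ℕ) (x : P) :
    (MonoidAlgebra.of (ZMod p) P g ^ i * v).coeff x = v.coeff ((g ^ i)⁻¹ * x) := by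
  rw [← map_pow, MonoidAlgebra.of_apply, MonoidAlgebra.coeff_single_mul_apply, one_mul]

theorem tf_ker (hg : g ^ p = 1) (h1 : g ≠ 1) (v : GA p P) (hv : dl p g * v = 0) :
    ∃ w, v = dl p g ^ (p - 1) * w := by
  have hord : orderOf g = p := orderOf_eq_prime hg h1
  have hgv : MonoidAlgebra.of (ZMod p) P g * v = v := by
    rw [dl, sub_mul, one_mul, sub_eq_zero] at hv
    exact hv
  have hpow : ∀ i : ℕ, MonoidAlgebra.of (ZMod p) P g ^ i * v = v := by
    intro i
    induction i with
    | zero => rw [pow_zero, one_mul]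
    | succ i ih => rw [pow_succ, mul_assoc, hgv, ih]
  have hcoef : ∀ (i : ℕ) (x : P), v.coeff ((g ^ i)⁻¹ * x) = v.coeff x := by
    intro i x
    rw [← tf_coeff, hpow]
  -- representatives
  let S : Setoid P := QuotientGroup.rightRel (Subgroup.zpowers g)
  let r : P → P := fun x => Quotient.out (Quotient.mk S x)
  have hr : ∀ x, x * (r x)⁻¹ ∈ Subgroup.zpowers g := by
    intro x
    have := Quotient.mk_out (s := S) x
    exact QuotientGroup.rightRel_apply.1 this
  have hrr : ∀ (i : ℕ) (x : P), r ((g ^ i)⁻¹ * x) = r x := by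
    intro i x
    have : Quotient.mk S ((g ^ i)⁻¹ * x) = Quotient.mk S x := by
      apply Quotient.sound
      refine QuotientGroup.rightRel_apply.2 ?_
      rw [mul_inv_rev, inv_inv, mul_inv_cancel_left]
      exact Subgroup.pow_mem _ (Subgroup.mem_zpowers g) i
    show Quotient.out _ = Quotient.out _
    rw [this]
  let w : GA p P := MonoidAlgebra.ofCoeff
    (Finsupp.equivFunOnFinite.symm fun x => if r x = x then v.coeff x else 0)
  have hw : ∀ x, w.coeff x = if r x = x then v.coeff x else 0 := fun x => rfl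
  refine ⟨w, ?_⟩
  rw [dl, tf_norm, Finset.sum_mul]
  apply MonoidAlgebra.ext
  ext x
  rw [MonoidAlgebra.coeff_sum, Finsupp.finsetSum_apply]
  have hin : x * (r x)⁻¹ ∈ Subgroup.zpowers g := hr x
  rw [mem_zpowers_iff_mem_range_orderOf, hord, Finset.mem_image] at hin
  obtain ⟨i, hi, hix⟩ := hin
  rw [Finset.sum_eq_single i]
  · rw [tf_coeff, hw, hrr, if_pos, hcoef]
    rw [hix]
    group
  · intro j hj hji
    rw [tf_coeff, hw, hrr, if_neg]
    intro h
    apply hji
    have h2 : g ^ j = g ^ i := by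
      rw [hix, h]
      group
    rw [← hord] at hi hj
    exact pow_injOn_Iio_orderOf (by simpa using hj) (by simpa using hi) h2
  · intro h
    exact absurd hi h

theorem tf_group (hg : g ^ p = 1) (h1 : g ≠ 1) (v : GA p P) :
    (dl p g * v = 0 → ∃ w, v = dl p g ^ (p - 1) * w) ∧
      (dl p g ^ (p - 1) * v = 0 → ∃ w, v = dl p g * w) := by
  have hp : p.Prime := Fact.out
  refine ⟨tf_ker p g hg h1 v, fun hv => ?_⟩
  have hfd : FiniteDimensional (ZMod p) (GA p P) := by
    have := Fintype.ofFinite P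
    infer_instance
  have hch : CharP (GA p P) p :=
    charP_of_injective_algebraMap (algebraMap (ZMod p) (GA p P)).injective p
  have hdp : dl p g * dl p g ^ (p - 1) = 0 := by
    rw [← pow_succ', Nat.sub_add_cancel hp.one_le, dl,
      sub_pow_char_of_commute _ (Commute.one_right _), one_pow, ← map_pow, hg, map_one, sub_self]
  have hpd : dl p g ^ (p - 1) * dl p g = 0 := by
    rw [← pow_succ, pow_succ', hdp]
  let A := LinearMap.mulLeft (ZMod p) (dl p g)
  let B := LinearMap.mulLeft (ZMod p) (dl p g ^ (p - 1))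
  have hkA : LinearMap.ker A = LinearMap.range B := by
    apply le_antisymm
    · intro x hx
      obtain ⟨w, hw⟩ := tf_ker p g hg h1 x hx
      exact ⟨w, hw.symm⟩
    · rintro _ ⟨w, rfl⟩
      show dl p g * (dl p g ^ (p - 1) * w) = 0
      rw [← mul_assoc, hdp, zero_mul]
  have hle : LinearMap.range A ≤ LinearMap.ker B := by
    rintro _ ⟨w, rfl⟩
    show dl p g ^ (p - 1) * (dl p g * w) = 0
    rw [← mul_assoc, hpd, zero_mul]
  have h2 := LinearMap.finrank_range_add_finrank_ker A
  have h3 := LinearMap.finrank_range_add_finrank_ker B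
  rw [hkA] at h2
  have h4 : LinearMap.range A = LinearMap.ker B :=
    Submodule.eq_of_le_of_finrank_eq hle (by omega)
  have h5 : v ∈ LinearMap.ker B := hv
  rw [← h4] at h5
  obtain ⟨w, hw⟩ := h5
  exact ⟨w, hw.symm⟩

end

end Pool.Agent.RGM
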