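import Mathlib
import Pool.Agent.Lib.RGM.Rows

/-!
RGM, row C1: the tame relations `y x y⁻¹ = x ^ q` as elements of the free algebra (adapted from `RG/Q06`,
`RG/Q07`: all weights one).
-/

set_option autoImplicit false
set_option linter.unusedSectionVars false

namespace Pool.Agent.RGM

open scoped Classical
open Pool.Agent.RG.Q (FA wd X qd ex)

section C1

variable {F : Type} [Field F] {α κ : Type}

theorem c1_len_mul (v w : FreeMonoid α) : len (v * w) = len v + len w := by
  simp [len, FreeMonoid.toList_mul]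

theorem c1_wd_mul (v w : FreeMonoid α) : (wd v : FA F α) * wd w = wd (v * w) := by
  simp only [wd, map_mul]

theorem c1_anti {a b : ℤ} (h : a ≤ b) : Lge F α b ≤ Lge F α a := by
  apply Submodule.span_mono
  rintro x ⟨w, hw, rfl⟩
  exact ⟨w, h.trans hw, rfl⟩

theorem c1_mul {a b : ℤ} {x y : FA F α} (hx : x ∈ Lge F α a) (hy : y ∈ Lge F α b) :
    x * y ∈ Lge F α (a + b) := by
  have h := Submodule.mul_mem_mul hx hy
  rw [Lge, Lge, Submodule.span_mul_span] at h
  refine Submodule.span_mono ?_ h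
  rintro _ ⟨x, ⟨v, hv, rfl⟩, y, ⟨w, hw, rfl⟩, rfl⟩
  refine ⟨v * w, ?_, ?_⟩
  · rw [c1_len_mul]
    push_cast
    linarith
  · simp only [c1_wd_mul]

theorem c1_top (x : FA F α) : x ∈ Lge F α 0 := by
  rw [← MonoidAlgebra.sum_coeff_single x, Finsupp.sum]
  apply Submodule.sum_mem
  intro w _
  have : (MonoidAlgebra.single w (x.coeff w) : FA F α) = x.coeff w • wd w := by
    rw [wd, MonoidAlgebra.of_apply, MonoidAlgebra.smul_single, smul_eq_mul, mul_one]
  rw [this]
  exact Submodule.smul_mem _ _ (Submodule.subset_span ⟨w, by positivity, rfl⟩)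

theorem c1_mul_right {k : ℤ} {x : FA F α} (y : FA F α) (hx : x ∈ Lge F α k) :
    x * y ∈ Lge F α k := by
  have := c1_mul hx (c1_top y)
  rwa [add_zero] at this

theorem c1_X (i : α) : (X i : FA F α) ∈ Lge F α 1 := by
  refine Submodule.subset_span ⟨FreeMonoid.of i, ?_, rfl⟩
  simp [len]

theorem c1_pow {k : ℤ} {x : FA F α} (hx : x ∈ Lge F α k) (s : ℕ) :
    x ^ s ∈ Lge F α (s * k) := by
  induction s with
  | zero => simpa using c1_top (F := F) (α := α) 1
  | succ s ih =>
    rw [pow_succ]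
    have e : ((s + 1 : ℕ) : ℤ) * k = s * k + k := by
      push_cast
      ring
    rw [e]
    exact c1_mul ih hx

theorem c1_one_add {k : ℤ} {z : FA F α} (hz : z ∈ Lge F α k) (s : ℕ) :
    (1 + z) ^ s - 1 ∈ Lge F α k := by
  induction s with
  | zero => simp
  | succ s ih =>
    have : (1 + z) ^ (s + 1) - 1 = ((1 + z) ^ s - 1) * (1 + z) + z := by
      rw [pow_succ]
      noncomm_ring
    rw [this]
    exact Submodule.add_mem _ (c1_mul_right _ ih) hz

theorem c1_kill {n : ℕ} {A : Type} [Ring A]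
    (θ : FA F α →+* A) (h : ∀ v : FreeMonoid α, n < len v → θ (wd v) = 0) {x : FA F α} {k : ℤ}
    (hk : (n : ℤ) < k) (hx : x ∈ Lge F α k) : θ x = 0 := by
  induction hx using Submodule.span_induction with
  | mem x hx =>
    obtain ⟨v, hv, rfl⟩ := hx
    exact h v (by omega)
  | zero => exact map_zero θ
  | add y z _ _ hy hz => rw [map_add, hy, hz, add_zero]
  | smul c y _ hy => rw [Algebra.smul_def, map_mul, hy, mul_zero]

end C1

/-- values of words of the free group at the units `1 + X a`, up to length two -/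
theorem c1_word (p : ℕ) [Fact p.Prime] {α : Type} [Fintype α] (n : ℕ) (w : FreeGroup α) :
    ∃ g ∈ Lge (ZMod p) α 2, ∀ (A : Type) [Ring A] (θ : FA (ZMod p) α →+* A),
      (∀ v : FreeMonoid α, n < len v → θ (wd v) = 0) →
      ∀ u : α → Aˣ, (∀ a, (u a : A) = 1 + θ (X a)) →
        ((FreeGroup.lift u w : Aˣ) : A)
          = θ (1 + ∑ a, (Multiplicative.toAdd (ex p a w) : ZMod p) • X a + g) := by
  have hL : ∀ w : FreeGroup α,
      ∑ j, (Multiplicative.toAdd (ex p j w) : ZMod p) • (X j : FA (ZMod p) α) ∈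
        Lge (ZMod p) α 1 := fun w =>
    Submodule.sum_mem _ fun j _ => Submodule.smul_mem _ _ (c1_X j)
  have hof : ∀ i : α,
      ∑ j, (Multiplicative.toAdd (ex p j (FreeGroup.of i)) : ZMod p) • (X j : FA (ZMod p) α)
        = X i := by
    intro i
    rw [Finset.sum_eq_single i]
    · simp [ex]
    · intro j _ hj
      simp [ex, hj.symm]
    · intro h
      exact absurd (Finset.mem_univ i) h
  induction w using FreeGroup.induction_on with
  | C1 =>
    refine ⟨0, Submodule.zero_mem _, ?_⟩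
    intro A _ θ _ u _
    simp
  | of i =>
    refine ⟨0, Submodule.zero_mem _, ?_⟩
    intro A _ θ _ u hu
    rw [hof, FreeGroup.lift_apply_of, hu, add_zero, map_add, map_one]
  | inv_of i _ =>
    have hneg : (-X i : FA (ZMod p) α) ∈ Lge (ZMod p) α 1 := Submodule.neg_mem _ (c1_X i)
    refine ⟨∑ k ∈ Finset.range n, (-X i) ^ (k + 2), ?_, ?_⟩
    · refine Submodule.sum_mem _ fun k _ => c1_anti ?_ (c1_pow hneg (k + 2))
      push_cast
      omega
    intro A _ θ hθ u hu
    have e1 : ∑ j, (Multiplicative.toAdd (ex p j (FreeGroup.of i)⁻¹) : ZMod p) •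
        (X j : FA (ZMod p) α) = -X i := by
      rw [← hof i, ← Finset.sum_neg_distrib]
      apply Finset.sum_congr rfl
      intro j _
      rw [map_inv, toAdd_inv, neg_smul]
    have e2 : (1 + -X i + ∑ k ∈ Finset.range n, (-X i) ^ (k + 2) : FA (ZMod p) α) =
        ∑ k ∈ Finset.range (n + 2), (-X i) ^ k := by
      rw [Finset.sum_range_succ', Finset.sum_range_succ']
      simp only [zero_add, pow_one, pow_zero]
      abel
    have e3 : ((u i : Aˣ) : A) * θ (∑ k ∈ Finset.range (n + 2), (-X i) ^ k) = 1 := by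
      have h1 : (1 - -X i : FA (ZMod p) α) * ∑ k ∈ Finset.range (n + 2), (-X i) ^ k =
          1 - (-X i) ^ (n + 2) := mul_neg_geom_sum _ _
      have h2 : θ ((-X i) ^ (n + 2)) = 0 := by
        refine c1_kill θ hθ (k := ((n + 2 : ℕ) : ℤ) * 1) ?_ (c1_pow hneg (n + 2))
        push_cast
        omega
      have h3 := congrArg θ h1
      rw [map_mul, map_sub, map_sub, map_one, map_neg, sub_neg_eq_add, ← hu i, h2, sub_zero] at h3
      exact h3
    rw [e1, e2, map_inv, FreeGroup.lift_apply_of]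
    rw [← mul_one (((u i)⁻¹ : Aˣ) : A), ← e3, ← mul_assoc, Units.inv_mul, one_mul]
  | mul x y hx hy =>
    obtain ⟨g, hg, hgx⟩ := hx
    obtain ⟨g', hg', hgy⟩ := hy
    set a := ∑ j, (Multiplicative.toAdd (ex p j x) : ZMod p) • (X j : FA (ZMod p) α) with ha
    set b := ∑ j, (Multiplicative.toAdd (ex p j y) : ZMod p) • (X j : FA (ZMod p) α) with hb
    refine ⟨g + g' + (a + g) * (b + g'), ?_, ?_⟩
    · refine Submodule.add_mem _ (Submodule.add_mem _ hg hg') ?_
      have h1 := c1_mul (a := 1) (b := 1)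
        (Submodule.add_mem _ (hL x) (c1_anti (by norm_num) hg))
        (Submodule.add_mem _ (hL y) (c1_anti (by norm_num) hg'))
      exact c1_anti (le_of_eq (by ring)) h1
    intro A _ θ hθ u hu
    have e1 : ∑ j, (Multiplicative.toAdd (ex p j (x * y)) : ZMod p) •
        (X j : FA (ZMod p) α) = a + b := by
      rw [ha, hb, ← Finset.sum_add_distrib]
      apply Finset.sum_congr rfl
      intro j _
      rw [map_mul, toAdd_mul, add_smul]
    rw [e1, map_mul, Units.val_mul, hgx A θ hθ u hu, hgy A θ hθ u hu, ← map_mul]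
    congr 1
    noncomm_ring

theorem c1_tame (p : ℕ) [Fact p.Prime] (hp : p ≠ 2) {α : Type}
    {z : FA (ZMod p) α} (hz : z ∈ Lge (ZMod p) α 1) (q : ℕ) (hq : q % p = 1) :
    (1 + z) ^ q - (1 + z) ∈ Lge (ZMod p) α 3 := by
  have hc : CharP (FA (ZMod p) α) p :=
    charP_of_injective_algebraMap (algebraMap (ZMod p) (FA (ZMod p) α)).injective p
  have h3 : 3 ≤ p := by
    have := (Fact.out : p.Prime).two_le
    omega
  obtain ⟨s, hs⟩ : ∃ s, q = p * s + 1 := ⟨q / p, by
    have := Nat.div_add_mod q p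
    omega⟩
  have e : (1 + z) ^ q - (1 + z) = ((1 + z ^ p) ^ s - 1) * (1 + z) := by
    rw [hs, pow_succ, pow_mul]
    rw [add_pow_char_of_commute _ (Commute.one_left _), one_pow]
    noncomm_ring
  rw [e]
  apply c1_mul_right
  apply c1_one_add
  refine c1_anti ?_ (c1_pow hz p)
  omega

/-- the commutator of two linear forms -/
theorem c1_comm (p : ℕ) {α κ : Type} [Fintype α] (cx cy : κ → α → ZMod p) [Fact p.Prime]
    (j : κ) :
    (∑ a, cy j a • (X a : FA (ZMod p) α)) * (∑ a, cx j a • X a) -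
      (∑ a, cx j a • (X a : FA (ZMod p) α)) * (∑ a, cy j a • X a) =
    quad (qd cx cy) j := by
  rw [Finset.sum_mul_sum, Finset.sum_mul_sum, ← Finset.sum_sub_distrib]
  refine Finset.sum_congr rfl fun a _ => ?_
  rw [← Finset.sum_sub_distrib]
  refine Finset.sum_congr rfl fun b _ => ?_
  rw [qd, sub_smul, smul_mul_smul_comm, smul_mul_smul_comm]

theorem rowC1 : RC1 := by
  intro p _ hp α κ _ _ cx cy wx wy q hq hx hy n
  choose gx hgx hgxθ using fun j => c1_word p n (wx j)
  choose gy hgy hgyθ using fun j => c1_word p n (wy j)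
  let ξ : κ → FA (ZMod p) α := fun j => ∑ a, cx j a • X a
  let η : κ → FA (ZMod p) α := fun j => ∑ a, cy j a • X a
  let x : κ → FA (ZMod p) α := fun j => 1 + (ξ j + gx j)
  let y : κ → FA (ZMod p) α := fun j => 1 + (η j + gy j)
  let f0 : κ → FA (ZMod p) α := fun j => y j * x j - x j ^ q j * y j
  have hξ : ∀ j, ξ j ∈ Lge (ZMod p) α 1 := fun j =>
    Submodule.sum_mem _ fun a _ => Submodule.smul_mem _ _ (c1_X a)
  have hη : ∀ j, η j ∈ Lge (ZMod p) α 1 := fun j =>
    Submodule.sum_mem _ fun a _ => Submodule.smul_mem _ _ (c1_X a)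
  refine ⟨f0, ?_, ?_⟩
  · intro j
    have hz : ξ j + gx j ∈ Lge (ZMod p) α 1 :=
      Submodule.add_mem _ (hξ j) (c1_anti (by norm_num) (hgx j))
    have h1 := c1_mul_right (y j) (c1_tame p hp hz (q j) (hq j))
    have h2 : η j * gx j - gx j * η j ∈ Lge (ZMod p) α 3 := by
      refine Submodule.sub_mem _ (c1_anti ?_ (c1_mul (hη j) (hgx j)))
        (c1_anti ?_ (c1_mul (hgx j) (hη j))) <;> norm_num
    have h3 : gy j * ξ j - ξ j * gy j ∈ Lge (ZMod p) α 3 := by
      refine Submodule.sub_mem _ (c1_anti ?_ (c1_mul (hgy j) (hξ j)))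
        (c1_anti ?_ (c1_mul (hξ j) (hgy j))) <;> norm_num
    have h4 : gy j * gx j - gx j * gy j ∈ Lge (ZMod p) α 3 := by
      refine Submodule.sub_mem _ (c1_anti ?_ (c1_mul (hgy j) (hgx j)))
        (c1_anti ?_ (c1_mul (hgx j) (hgy j))) <;> norm_num
    have h5 := Submodule.sub_mem _ (Submodule.add_mem _ (Submodule.add_mem _ h2 h3) h4) h1
    convert h5 using 1
    rw [← c1_comm]
    change f0 j - (η j * ξ j - ξ j * η j) = _
    simp only [f0, x, y]
    noncomm_ring
  · intro A _ θ hθ u hu j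
    have hword : ∀ v : FreeMonoid α, n < len v → θ (wd v) = 0 := by
      intro v hv
      apply hθ
      exact Ideal.subset_span (Or.inr ⟨v, by exact_mod_cast hv, rfl⟩)
    have hyθ : ((FreeGroup.lift u (wy j) : Aˣ) : A) = θ (y j) := by
      rw [hgyθ j A θ hword u hu, add_assoc]
      simp only [hy, toAdd_ofAdd]
      rfl
    have hxθ : ((FreeGroup.lift u (wx j) : Aˣ) : A) = θ (x j) := by
      rw [hgxθ j A θ hword u hu, add_assoc]
      simp only [hx, toAdd_ofAdd]
      rfl
    have hθ0 : θ (f0 j) = 0 := by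
      apply hθ
      refine Ideal.subset_span (Or.inl ⟨j, 1, ?_⟩)
      rw [wd, map_one, mul_one]
    rw [mul_inv_eq_iff_eq_mul]
    apply Units.ext
    rw [Units.val_mul, Units.val_mul, Units.val_pow_eq_pow_val, hyθ, hxθ, ← map_mul, ← map_pow,
      ← map_mul, ← sub_eq_zero, ← map_sub]
    exact hθ0

end Pool.Agent.RGM
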