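import Mathlib
import Pool.Agent.Lib.RG.Q18
import Pool.Agent.Lib.RG.Q19
import Pool.Agent.Lib.RG.Q20
import Pool.Agent.Lib.RGM.RowA3
import Pool.Agent.Lib.RGM.RowC1

/-!
RGM, torsion-freeness of mild groups, part 0: nilpotency of the augmentation ideal of a finite `p`-group
(copied from `RG/QT8`), the relations, the finite algebras `FA / I f n` and the chase.
-/

set_option autoImplicit false
set_option linter.unusedSectionVars false

namespace Pool.Agent.RGM

open scoped Classical
open Pool.Agent.RG (GA dl)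
open Pool.Agent.RG.Q (FA wd X qd ex Q01_rm Q01_eps Q01_expand Q01_wd_one Q01_wd_mul)

section nilpotency

variable (p : ℕ) [Fact p.Prime] {P : Type} [Group P] [Finite P]

/-- A finite `p`-group has a nonzero fixed vector in each nonzero finite representation. -/
private theorem tf_fixed (hP : IsPGroup p P) (V : Type) [AddCommGroup V] [Module (ZMod p) V]
    [Finite V] [Nontrivial V] (ρ : P →* Module.End (ZMod p) V) :
    ∃ v : V, v ≠ 0 ∧ ∀ g, ρ g v = v := by
  letI : MulAction P V := MulAction.compHom V ρ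
  have hsm : ∀ (g : P) (v : V), g • v = ρ g v := fun g v => rfl
  have hfin : Module.Finite (ZMod p) V := Module.Finite.of_finite
  have hdvd : p ∣ Nat.card V := by
    have hft : Fintype V := Fintype.ofFinite V
    rw [Nat.card_eq_fintype_card, Module.card_eq_pow_finrank (K := ZMod p), ZMod.card]
    exact dvd_pow_self p (Module.finrank_pos (R := ZMod p) (M := V)).ne'
  have h0 : (0 : V) ∈ MulAction.fixedPoints P V := fun g => by
    rw [hsm, map_zero]
  obtain ⟨b, hb, hne⟩ := hP.exists_fixed_point_of_prime_dvd_card_of_fixed_point V hdvd h0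
  exact ⟨b, hne.symm, fun g => hb g⟩

/-- Products of many elements of the augmentation ideal act as zero. -/
private theorem tf_nil (hP : IsPGroup p P) (d : ℕ) : ∀ (V : Type) [AddCommGroup V]
    [Module (ZMod p) V] [Finite V] (ρ : P →* Module.End (ZMod p) V),
    Module.finrank (ZMod p) V ≤ d → ∀ L : List P, d ≤ L.length →
      (L.map fun g => ρ g - 1).prod = 0 := by
  induction d with
  | zero =>
    intro V _ _ _ ρ hd L _
    have hfin : Module.Finite (ZMod p) V := Module.Finite.of_finite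
    have h1 : Module.finrank (ZMod p) V = 0 := by omega
    have h2 : Subsingleton V := Module.finrank_zero_iff.1 h1
    exact LinearMap.ext fun x => Subsingleton.elim _ _
  | succ d ih =>
    intro V _ _ _ ρ hd L hL
    have hfin : Module.Finite (ZMod p) V := Module.Finite.of_finite
    rcases subsingleton_or_nontrivial V with hs | hn
    · exact LinearMap.ext fun x => Subsingleton.elim _ _
    · obtain ⟨b, hb0, hb⟩ := tf_fixed p hP V ρ
      let N : Submodule (ZMod p) V := Submodule.span (ZMod p) {b}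
      have hbN : b ∈ N := Submodule.mem_span_singleton_self b
      have hN : ∀ g, N ≤ N.comap (ρ g) := by
        intro g
        rw [Submodule.span_singleton_le_iff_mem]
        change ρ g b ∈ N
        rw [hb]
        exact hbN
      let ρ' : P →* Module.End (ZMod p) (V ⧸ N) :=
        { toFun := fun g => N.mapQ N (ρ g) (hN g)
          map_one' := by
            refine Submodule.linearMap_qext _ (LinearMap.ext fun x => ?_)
            change N.mkQ (ρ 1 x) = N.mkQ x
            rw [map_one]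
            rfl
          map_mul' := fun g h => by
            refine Submodule.linearMap_qext _ (LinearMap.ext fun x => ?_)
            change N.mkQ (ρ (g * h) x) = N.mkQ (ρ g (ρ h x))
            rw [map_mul]
            rfl }
      have hρ' : ∀ g x, ρ' g (N.mkQ x) = N.mkQ (ρ g x) := fun g x => rfl
      have hd' : Module.finrank (ZMod p) (V ⧸ N) ≤ d := by
        have h1 := N.finrank_quotient_add_finrank
        have h2 : Module.finrank (ZMod p) N = 1 := finrank_span_singleton hb0
        omega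
      have hcomp : ∀ (L : List P) (x : V), N.mkQ ((L.map fun g => ρ g - 1).prod x) =
          (L.map fun g => ρ' g - 1).prod (N.mkQ x) := by
        intro L
        induction L with
        | nil => intro x; rfl
        | cons g L ihL =>
          intro x
          rw [List.map_cons, List.prod_cons, List.map_cons, List.prod_cons]
          change N.mkQ ((ρ g - 1) _) = (ρ' g - 1) _
          rw [← ihL, LinearMap.sub_apply, LinearMap.sub_apply, hρ', map_sub]
          rfl
      cases L with
      | nil => exact absurd hL (by simp)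
      | cons g L =>
        rw [List.length_cons] at hL
        have hfq : Finite (V ⧸ N) := Finite.of_surjective N.mkQ N.mkQ_surjective
        have h1 := ih (V ⧸ N) ρ' hd' L (by omega)
        refine LinearMap.ext fun x => ?_
        have h2 : (L.map fun g => ρ g - 1).prod x ∈ N := by
          rw [← Submodule.Quotient.mk_eq_zero]
          have h3 := hcomp L x
          rw [h1] at h3
          exact h3
        obtain ⟨c, hc⟩ := Submodule.mem_span_singleton.1 h2
        rw [List.map_cons, List.prod_cons]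
        change (ρ g - 1) ((L.map fun g => ρ g - 1).prod x) = 0
        rw [← hc, LinearMap.sub_apply, map_smul, hb]
        exact sub_self _

/-- A product of `|P|` elements `g - 1` of the group algebra of a finite `p`-group is zero. -/
theorem tf_aug (hP : IsPGroup p P) (L : List P) (hL : Nat.card P ≤ L.length) :
    (L.map fun g => MonoidAlgebra.of (ZMod p) P g - 1).prod = 0 := by
  have hft : Fintype P := Fintype.ofFinite P
  have hspan : Submodule.span (ZMod p) (Set.range fun g : P => MonoidAlgebra.of (ZMod p) P g) = ⊤ := by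
    rw [eq_top_iff]
    rintro x -
    induction x using MonoidAlgebra.induction_on with
    | of w => exact Submodule.subset_span ⟨w, rfl⟩
    | add f g hf hg => exact Submodule.add_mem _ hf hg
    | smul r f hf => exact Submodule.smul_mem _ _ hf
  have hfin : Module.Finite (ZMod p) (MonoidAlgebra (ZMod p) P) := by
    refine ⟨⟨Finset.univ.image fun g : P => MonoidAlgebra.of (ZMod p) P g, ?_⟩⟩
    rw [Finset.coe_image, Finset.coe_univ, Set.image_univ]
    exact hspan
  have hfinite : Finite (MonoidAlgebra (ZMod p) P) := Module.finite_of_finite (ZMod p)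
  have hrank : Module.finrank (ZMod p) (MonoidAlgebra (ZMod p) P) ≤ Nat.card P := by
    rw [← finrank_top, ← hspan, Nat.card_eq_fintype_card]
    exact finrank_range_le_card _
  let ρ : P →* Module.End (ZMod p) (MonoidAlgebra (ZMod p) P) :=
    ((Algebra.lmul (ZMod p) (MonoidAlgebra (ZMod p) P)) : _ →* _).comp
      (MonoidAlgebra.of (ZMod p) P)
  have hρ : ∀ g x, ρ g x = MonoidAlgebra.of (ZMod p) P g * x := fun g x => rfl
  have h1 := tf_nil p hP (Nat.card P) (MonoidAlgebra (ZMod p) P) ρ hrank L hL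
  have h2 : ∀ (L : List P) (x : MonoidAlgebra (ZMod p) P), (L.map fun g => ρ g - 1).prod x =
      (L.map fun g => MonoidAlgebra.of (ZMod p) P g - 1).prod * x := by
    intro L
    induction L with
    | nil => intro x; simp
    | cons g L ih =>
      intro x
      rw [List.map_cons, List.prod_cons, List.map_cons, List.prod_cons]
      change (ρ g - 1) _ = _
      rw [ih, LinearMap.sub_apply, hρ, Module.End.one_apply, mul_assoc, sub_mul, one_mul]
  have h3 := h2 L 1
  rw [h1, mul_one] at h3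
  exact h3.symm

end nilpotency

/-- row C1 with the converse -/
theorem tf_rel (p : ℕ) [Fact p.Prime] (hp : p ≠ 2) {α κ : Type} [Fintype α] [Fintype κ]
    (cx cy : κ → α → ZMod p) (wx wy : κ → FreeGroup α) (q : κ → ℕ) (hq : ∀ j, q j % p = 1)
    (hx : ∀ j a, ex p a (wx j) = Multiplicative.ofAdd (cx j a))
    (hy : ∀ j a, ex p a (wy j) = Multiplicative.ofAdd (cy j a)) (n : ℕ) :
    ∃ f : κ → FA (ZMod p) α, (∀ j, f j - quad (qd cx cy) j ∈ Lge (ZMod p) α 3) ∧
      ∀ (A : Type) [Ring A] (θ : FA (ZMod p) α →+* A),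
        (∀ v : FreeMonoid α, n < len v → θ (wd v) = 0) →
        ∀ u : α → Aˣ, (∀ a, (u a : A) = 1 + θ (X a)) →
          ∀ j, (θ (f j) = 0 ↔
            FreeGroup.lift u (wy j) * FreeGroup.lift u (wx j) * (FreeGroup.lift u (wy j))⁻¹ =
              FreeGroup.lift u (wx j) ^ q j) := by
  choose gx hgx hgxθ using fun j => c1_word p n (wx j)
  choose gy hgy hgyθ using fun j => c1_word p n (wy j)
  let ξ : κ → FA (ZMod p) α := fun j => ∑ a, cx j a • X a
  let η : κ → FA (ZMod p) α := fun j => ∑ a, cy j a • X a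
  let x : κ → FA (ZMod p) α := fun j => 1 + (ξ j + gx j)
  let y : κ → FA (ZMod p) α := fun j => 1 + (η j + gy j)
  let f0 : κ → FA (ZMod p) α := fun j => y j * x j - x j ^ q j * y j
  have hξ : ∀ j, ξ j ∈ Lge (ZMod p) α 1 := fun j =>
    Submodule.sum_mem _ fun a _ => Submodule.smul_mem _ _ (c1_X a)
  have hη : ∀ j, η j ∈ Lge (ZMod p) α 1 := fun j =>
    Submodule.sum_mem _ fun a _ => Submodule.smul_mem _ _ (c1_X a)
  refine ⟨f0, ?_, ?_⟩
  · intro j
    have hz : ξ j + gx j ∈ Lge (ZMod p) α 1 :=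
      Submodule.add_mem _ (hξ j) (c1_anti (by norm_num) (hgx j))
    have h1 := c1_mul_right (y j) (c1_tame p hp hz (q j) (hq j))
    have h2 : η j * gx j - gx j * η j ∈ Lge (ZMod p) α 3 := by
      refine Submodule.sub_mem _ (c1_anti ?_ (c1_mul (hη j) (hgx j)))
        (c1_anti ?_ (c1_mul (hgx j) (hη j))) <;> norm_num
    have h3 : gy j * ξ j - ξ j * gy j ∈ Lge (ZMod p) α 3 := by
      refine Submodule.sub_mem _ (c1_anti ?_ (c1_mul (hgy j) (hξ j)))
        (c1_anti ?_ (c1_mul (hξ j) (hgy j))) <;> norm_num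
    have h4 : gy j * gx j - gx j * gy j ∈ Lge (ZMod p) α 3 := by
      refine Submodule.sub_mem _ (c1_anti ?_ (c1_mul (hgy j) (hgx j)))
        (c1_anti ?_ (c1_mul (hgx j) (hgy j))) <;> norm_num
    have h5 := Submodule.sub_mem _ (Submodule.add_mem _ (Submodule.add_mem _ h2 h3) h4) h1
    convert h5 using 1
    rw [← c1_comm]
    change f0 j - (η j * ξ j - ξ j * η j) = _
    simp only [f0, x, y]
    noncomm_ring
  · intro A _ θ hword u hu j
    have hyθ : ((FreeGroup.lift u (wy j) : Aˣ) : A) = θ (y j) := by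
      rw [hgyθ j A θ hword u hu, add_assoc]
      simp only [hy, toAdd_ofAdd]
      rfl
    have hxθ : ((FreeGroup.lift u (wx j) : Aˣ) : A) = θ (x j) := by
      rw [hgxθ j A θ hword u hu, add_assoc]
      simp only [hx, toAdd_ofAdd]
      rfl
    have hf0 : θ (f0 j) = θ (y j) * θ (x j) - θ (x j) ^ q j * θ (y j) := by
      simp only [f0, map_sub, map_mul, map_pow]
    rw [mul_inv_eq_iff_eq_mul, Units.ext_iff, Units.val_mul, Units.val_mul,
      Units.val_pow_eq_pow_val, hyθ, hxθ, hf0, sub_eq_zero]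

section alg

variable {F : Type} [Field F] {α κ : Type}

instance tf_twoSided (f : κ → FA F α) (k : ℤ) : (I f k).IsTwoSided := by
  constructor
  intro a b ha
  have h1 := I_mul ha (mem_Lge_nonpos le_rfl b)
  rwa [add_zero] at h1

theorem tf_mul_left {f : κ → FA F α} {k : ℤ} (y : FA F α) {x : FA F α} (hx : x ∈ I f k) :
    y * x ∈ I f k := (I f k).mul_mem_left y hx

theorem tf_mul_right {f : κ → FA F α} {k : ℤ} {x : FA F α} (hx : x ∈ I f k) (y : FA F α) :
    x * y ∈ I f k := (I f k).mul_mem_right y hx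

theorem tf_f_mem {f : κ → FA F α} (k : ℤ) (j : κ) : f j ∈ I f k := by
  have h1 := I_rel (f := f) k j 1
  rwa [mul_one] at h1

theorem tf_pow {x : FA F α} (hx : x ∈ Lge F α 1) (s : ℕ) : x ^ s ∈ Lge F α s := by
  induction s with
  | zero =>
    rw [pow_zero]
    exact mem_Lge_nonpos (by simp) _
  | succ s ih =>
    rw [pow_succ]
    push_cast
    exact Lge_mul ih hx

/-- a ring homomorphism which kills the long words and the relations kills the ideal -/
theorem tf_kill {A : Type} [Ring A] (θ : FA F α →+* A) (f : κ → FA F α) (n : ℤ)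
    (h1 : ∀ v : FreeMonoid α, n < len v → θ (wd v) = 0) (h2 : ∀ j, θ (f j) = 0) :
    ∀ x ∈ I f n, θ x = 0 := by
  intro x hx
  refine Submodule.span_induction (p := fun x _ => θ x = 0) ?_ ?_ ?_ ?_ hx
  · rintro x (⟨i, v, rfl⟩ | ⟨v, hv, rfl⟩)
    · rw [map_mul, h2, zero_mul]
    · exact h1 v hv
  · exact map_zero θ
  · intro x y _ _ hx hy
    rw [map_add, hx, hy, add_zero]
  · intro a x _ hx
    rw [smul_eq_mul, map_mul, hx, mul_zero]

variable [Fintype α] [Fintype κ]

/-- The chase. -/
theorem tf_chase (f : κ → FA F α)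
    (hex : ∃ g : κ → α → FA F α, (∀ k, f k = ∑ a, g k a * X a) ∧
      (∀ k a, g k a ∈ Lge F α 1) ∧
      (∀ (n : ℤ) (u : α → FA F α), ∑ a, u a * X a ∈ I f n →
        ∃ b : κ → FA F α, ∀ a, u a - ∑ k, b k * g k a ∈ I f (n - 1)) ∧
      ∀ (n : ℤ) (b : κ → FA F α), (∀ a, ∑ k, b k * g k a ∈ I f (n - 1)) →
        ∀ k, b k ∈ I f (n - 2))
    (p : ℕ) (hp : 1 ≤ p) (m M N : ℕ) (hNM : M + 2 ≤ N)
    (τ : FA F α) (hτ : τ ∈ Lge F α 1) (hN : τ ^ p ∈ I f N)
    {A1 A2 : Type} [Ring A1] [Ring A2] (π1 : FA F α →+* A1) (π2 : FA F α →+* A2)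
    (hs1 : Function.Surjective π1) (hs2 : Function.Surjective π2)
    (k1 : ∀ x ∈ I f ((N : ℤ) - 2), π1 x = 0) (k1' : ∀ x, π1 x = 0 → x ∈ I f M)
    (k2 : ∀ x ∈ I f ((M : ℤ) + 1), π2 x = 0) (k2' : ∀ x, π2 x = 0 → x ∈ I f m)
    (e1 : ∀ v, π1 τ * v = 0 → ∃ w, v = π1 τ ^ (p - 1) * w)
    (e2 : ∀ v, π2 τ ^ (p - 1) * v = 0 → ∃ w, v = π2 τ * w) :
    τ ∈ I f ((m : ℤ) + 1) := by
  obtain ⟨g, hg1, hg2, hg3, hg4⟩ := hex
  have hpow : τ ^ p = τ * τ ^ (p - 1) := by
    rw [← pow_succ', Nat.sub_add_cancel hp]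
  have hpow' : τ ^ p = τ ^ (p - 1) * τ := by
    rw [← pow_succ, Nat.sub_add_cancel hp]
  -- the coordinates of `τ`
  obtain ⟨u, hu⟩ : ∃ u : α → FA F α, τ = ∑ a, u a * X a := by
    refine ⟨fun a => Q01_rm a τ, ?_⟩
    have h1 := Q01_expand τ
    rwa [eps_Lge (by norm_num) hτ, zero_smul, zero_add] at h1
  have hyt : ∀ y : FA F α, y * τ = ∑ a, y * u a * X a := by
    intro y
    have h1 : y * τ = y * ∑ a, u a * X a := congrArg (fun z => y * z) hu
    rw [h1, Finset.mul_sum]
    exact Finset.sum_congr rfl fun a _ => (mul_assoc _ _ _).symm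
  -- first step
  obtain ⟨v, hv⟩ := hg3 N (fun a => τ ^ (p - 1) * u a) (by
    rw [← hyt, ← hpow']
    exact hN)
  -- second step
  have h2 : ∀ k, τ * v k ∈ I f ((N : ℤ) - 2) := by
    refine hg4 N (fun k => τ * v k) fun a => ?_
    have h3 := tf_mul_left τ (hv a)
    have h4 : τ ^ p * u a ∈ I f ((N : ℤ) - 1) :=
      tf_mul_right (I_mono (by omega) hN) _
    have h5 : ∑ k, τ * v k * g k a =
        τ ^ p * u a - τ * (τ ^ (p - 1) * u a - ∑ k, v k * g k a) := by
      rw [mul_sub, ← mul_assoc, ← hpow, sub_sub_cancel, Finset.mul_sum]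
      exact Finset.sum_congr rfl fun k _ => mul_assoc _ _ _
    rw [h5]
    exact (I f _).sub_mem h4 h3
  -- third step
  have h3 : ∀ k, ∃ w, v k - τ ^ (p - 1) * w ∈ I f M := by
    intro k
    have h4 := k1 _ (h2 k)
    rw [map_mul] at h4
    obtain ⟨w', hw'⟩ := e1 _ h4
    obtain ⟨w, rfl⟩ := hs1 w'
    refine ⟨w, k1' _ ?_⟩
    rw [map_sub, map_mul, map_pow, hw', sub_self]
  choose w hw using h3
  -- fourth step
  have h4 : ∀ a, τ ^ (p - 1) * (u a - ∑ k, w k * g k a) ∈ I f ((M : ℤ) + 1) := by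
    intro a
    have h5 : τ ^ (p - 1) * u a - ∑ k, v k * g k a ∈ I f ((M : ℤ) + 1) :=
      I_mono (by omega) (hv a)
    have h6 : ∑ k, (v k - τ ^ (p - 1) * w k) * g k a ∈ I f ((M : ℤ) + 1) :=
      (I f _).sum_mem fun k _ => I_mul (hw k) (hg2 k a)
    have h7 : τ ^ (p - 1) * (u a - ∑ k, w k * g k a) =
        (τ ^ (p - 1) * u a - ∑ k, v k * g k a) + ∑ k, (v k - τ ^ (p - 1) * w k) * g k a := by
      have h8 : ∑ k, (v k - τ ^ (p - 1) * w k) * g k a =
          ∑ k, v k * g k a - τ ^ (p - 1) * ∑ k, w k * g k a := by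
        rw [Finset.mul_sum, ← Finset.sum_sub_distrib]
        exact Finset.sum_congr rfl fun k _ => by rw [sub_mul, mul_assoc]
      rw [h8, mul_sub]
      abel
    rw [h7]
    exact (I f _).add_mem h5 h6
  have h5 : ∀ a, ∃ s, u a - ∑ k, w k * g k a - τ * s ∈ I f m := by
    intro a
    have h6 := k2 _ (h4 a)
    rw [map_mul, map_pow] at h6
    obtain ⟨s', hs'⟩ := e2 _ h6
    obtain ⟨s, rfl⟩ := hs2 s'
    refine ⟨s, k2' _ ?_⟩
    rw [map_sub, map_mul, hs', sub_self]
  choose s hs using h5
  -- last step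
  obtain ⟨σ, hσ⟩ : ∃ σ : FA F α, σ = ∑ a, s a * X a := ⟨_, rfl⟩
  have hσ1 : σ ∈ Lge F α 1 := by
    rw [hσ]
    refine Submodule.sum_mem _ fun a _ => ?_
    have := Lge_mul (mem_Lge_nonpos le_rfl (s a)) (X_Lge a)
    rwa [zero_add] at this
  have h6 : τ * (1 - σ) ∈ I f ((m : ℤ) + 1) := by
    have h7 : ∑ a, (u a - ∑ k, w k * g k a - τ * s a) * X a ∈ I f ((m : ℤ) + 1) :=
      (I f _).sum_mem fun a _ => I_mul (hs a) (X_Lge a)
    have h8 : ∑ k, w k * f k ∈ I f ((m : ℤ) + 1) :=
      (I f _).sum_mem fun k _ => tf_mul_left _ (tf_f_mem _ k)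
    have h9 : τ * (1 - σ) = ∑ a, (u a - ∑ k, w k * g k a - τ * s a) * X a + ∑ k, w k * f k := by
      have e1 : ∑ k, w k * f k = ∑ a, (∑ k, w k * g k a) * X a := by
        simp only [hg1, Finset.mul_sum, Finset.sum_mul, mul_assoc]
        exact Finset.sum_comm
      have e2 : τ * σ = ∑ a, (τ * s a) * X a := by
        rw [hσ, Finset.mul_sum]
        exact Finset.sum_congr rfl fun a _ => (mul_assoc _ _ _).symm
      have e3 := hyt 1
      rw [one_mul] at e3
      rw [mul_sub, mul_one, e1, e2, ← Finset.sum_add_distrib]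
      conv_lhs => lhs; rw [e3]
      rw [← Finset.sum_sub_distrib]
      refine Finset.sum_congr rfl fun a _ => ?_
      rw [sub_mul, sub_mul, one_mul]
      abel
    rw [h9]
    exact (I f _).add_mem h7 h8
  have h7 : τ * (1 - σ) * ∑ i ∈ Finset.range (m + 2), σ ^ i ∈ I f ((m : ℤ) + 1) :=
    tf_mul_right h6 _
  have h8 : τ * σ ^ (m + 2) ∈ I f ((m : ℤ) + 1) := by
    refine tf_mul_left _ (I_Lge (k := ((m + 2 : ℕ) : ℤ)) ?_ (tf_pow hσ1 (m + 2)))
    push_cast
    omega
  have h9 : τ = τ * (1 - σ) * ∑ i ∈ Finset.range (m + 2), σ ^ i + τ * σ ^ (m + 2) := by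
    rw [mul_assoc, mul_neg_geom_sum, mul_sub, mul_one, sub_add_cancel]
  rw [h9]
  exact (I f _).add_mem h7 h8

end alg

end Pool.Agent.RGM
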