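import Mathlib
import Pool.Agent.Lib.RGM.TF0

/-!
RGM, torsion-freeness of mild groups, part 3: the finite algebras and the group algebras.
-/

set_option autoImplicit false
set_option linter.unusedSectionVars false

namespace Pool.Agent.RGM

open scoped Classical
open Pool.Agent.RG (GA dl)
open Pool.Agent.RG.Q (FA wd X qd ex KD Q18_common Q19_dense Q20_values Q01_wd_one Q01_wd_mul)

section words

variable {p : ℕ} [Fact p.Prime] {α κ : Type} [Fintype α]

theorem tf_card (f : κ → FA (ZMod p) α) (n : ℕ) :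
    Finite (FA (ZMod p) α ⧸ I f (n : ℤ)) ∧ Nat.card (FA (ZMod p) α ⧸ I f (n : ℤ)) ≤ MNbd p α n := by
  have hfinw : Finite {w : FreeMonoid α // len w ≤ n} := by
    have h := (words_finite (α := α) (n : ℤ)).to_subtype
    exact Finite.of_injective
      (fun w : {w : FreeMonoid α // len w ≤ n} =>
        (⟨w.1, by exact_mod_cast w.2⟩ : {w : FreeMonoid α | (len w : ℤ) ≤ n}))
      (fun a b h => by
        have h' := congrArg Subtype.val h
        exact Subtype.ext h')
  have hft := Fintype.ofFinite {w : FreeMonoid α // len w ≤ n}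
  have hmf : Module.Finite (ZMod p) (FA (ZMod p) α ⧸ I f (n : ℤ)) := quot_finite f n
  have hfin : Finite (FA (ZMod p) α ⧸ I f (n : ℤ)) := Module.finite_of_finite (ZMod p)
  refine ⟨hfin, ?_⟩
  have hspan : Submodule.span (ZMod p) (Set.range fun w : {w : FreeMonoid α // len w ≤ n} =>
      (Submodule.Quotient.mk (wd (w : FreeMonoid α)) : FA (ZMod p) α ⧸ I f (n : ℤ))) = ⊤ := by
    rw [eq_top_iff]
    rintro x -
    obtain ⟨y, rfl⟩ := Submodule.Quotient.mk_surjective _ x
    induction y using MonoidAlgebra.induction_on with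
    | of w =>
      by_cases hw : len w ≤ n
      · exact Submodule.subset_span ⟨⟨w, hw⟩, rfl⟩
      · have h1 : (Submodule.Quotient.mk (wd w) : FA (ZMod p) α ⧸ I f (n : ℤ)) = 0 :=
          (Submodule.Quotient.mk_eq_zero _).2 (I_wd (by omega))
        change Submodule.Quotient.mk (wd w) ∈ _
        rw [h1]
        exact Submodule.zero_mem _
    | add y z hy hz =>
      rw [Submodule.Quotient.mk_add]
      exact Submodule.add_mem _ hy hz
    | smul c y hy =>
      rw [Submodule.Quotient.mk_smul]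
      exact Submodule.smul_mem _ _ hy
  have h1 : Module.finrank (ZMod p) (FA (ZMod p) α ⧸ I f (n : ℤ)) ≤
      Nat.card {w : FreeMonoid α // len w ≤ n} := by
    rw [← finrank_top, ← hspan, Nat.card_eq_fintype_card]
    exact finrank_range_le_card _
  have h2 := Fintype.ofFinite (FA (ZMod p) α ⧸ I f (n : ℤ))
  rw [Nat.card_eq_fintype_card, Module.card_eq_pow_finrank (K := ZMod p), ZMod.card]
  exact Nat.pow_le_pow_right (Fact.out : p.Prime).pos h1

/-- the units congruent to one modulo the augmentation ideal -/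
noncomputable def tfD (f : κ → FA (ZMod p) α) (n : ℕ) :
    Subgroup (FA (ZMod p) α ⧸ I f (n : ℤ))ˣ where
  carrier := {u | ∃ y ∈ Lge (ZMod p) α 1,
    (u : FA (ZMod p) α ⧸ I f (n : ℤ)) = Ideal.Quotient.mk (I f (n : ℤ)) (1 + y)}
  one_mem' := ⟨0, Submodule.zero_mem _, by rw [add_zero, map_one]; rfl⟩
  mul_mem' := by
    rintro u v ⟨y, hy, hu⟩ ⟨z, hz, hv⟩
    refine ⟨y + z + y * z, Submodule.add_mem _ (Submodule.add_mem _ hy hz) ?_, ?_⟩
    · exact Lge_mono (by norm_num) (Lge_mul hy hz)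
    · rw [Units.val_mul, hu, hv, ← map_mul]
      congr 1
      noncomm_ring
  inv_mem' := by
    rintro u ⟨y, hy, hu⟩
    obtain ⟨z, hz⟩ := Ideal.Quotient.mk_surjective ((u⁻¹ : (FA (ZMod p) α ⧸ I f (n : ℤ))ˣ) :
      FA (ZMod p) α ⧸ I f (n : ℤ))
    refine ⟨-(z * y), Submodule.neg_mem _ ?_, ?_⟩
    · have := Lge_mul (mem_Lge_nonpos le_rfl z) hy
      rwa [zero_add] at this
    · have h1 : Ideal.Quotient.mk (I f (n : ℤ)) z * Ideal.Quotient.mk (I f (n : ℤ)) (1 + y) = 1 := by
        rw [hz, ← hu, Units.inv_mul]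
      rw [← hz, map_add, map_neg, map_mul, map_one]
      rw [map_add, map_one, mul_add, mul_one] at h1
      rw [← sub_eq_add_neg, ← h1, add_sub_cancel_right]

theorem tfD_pow (f : κ → FA (ZMod p) α) (n : ℕ) {y : FA (ZMod p) α} (k : ℕ) :
    Ideal.Quotient.mk (I f (n : ℤ)) (1 + y) ^ p ^ k =
      1 + Ideal.Quotient.mk (I f (n : ℤ)) (y ^ p ^ k) := by
  have hc : CharP (FA (ZMod p) α) p :=
    charP_of_injective_algebraMap (algebraMap (ZMod p) (FA (ZMod p) α)).injective p
  rw [← map_pow, add_pow_char_pow_of_commute _ _ (Commute.one_left _), one_pow, map_add, map_one]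

theorem tfD_pgroup (f : κ → FA (ZMod p) α) (n : ℕ) : IsPGroup p (tfD f n) := by
  rintro ⟨u, y, hy, hu⟩
  refine ⟨n + 1, Subtype.ext (Units.ext ?_)⟩
  show (((u : (FA (ZMod p) α ⧸ I f (n : ℤ))ˣ) ^ p ^ (n + 1) : (FA (ZMod p) α ⧸ I f (n : ℤ))ˣ) :
    FA (ZMod p) α ⧸ I f (n : ℤ)) = 1
  rw [Units.val_pow_eq_pow_val, hu, tfD_pow]
  have h1 : y ^ p ^ (n + 1) ∈ I f (n : ℤ) := by
    refine I_Lge (k := ((p ^ (n + 1) : ℕ) : ℤ)) ?_ (tf_pow hy _)
    have := (Nat.lt_pow_self (Fact.out : p.Prime).one_lt (n := n + 1))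
    exact_mod_cast (Nat.lt_succ_self n).trans this
  rw [Ideal.Quotient.eq_zero_iff_mem.2 h1, add_zero]

/-- the units `1 + X a` -/
theorem tfD_unit (f : κ → FA (ZMod p) α) (n : ℕ) : ∃ ξ : α → tfD f n,
    ∀ a, (((ξ a : (FA (ZMod p) α ⧸ I f (n : ℤ))ˣ)) : FA (ZMod p) α ⧸ I f (n : ℤ)) =
      1 + Ideal.Quotient.mk (I f (n : ℤ)) (X a) := by
  have hnil : ∀ a, IsNilpotent (Ideal.Quotient.mk (I f (n : ℤ)) (X a)) := by
    intro a
    refine ⟨n + 1, ?_⟩
    rw [← map_pow]
    exact Ideal.Quotient.eq_zero_iff_mem.2 (I_Lge (k := ((n + 1 : ℕ) : ℤ)) (by push_cast; omega)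
      (tf_pow (X_Lge a) _))
  refine ⟨fun a => ⟨(hnil a).isUnit_one_add.unit, X a, X_Lge a, ?_⟩, fun a => ?_⟩
  · rw [map_add, map_one]
    exact (hnil a).isUnit_one_add.unit_spec
  · exact (hnil a).isUnit_one_add.unit_spec

theorem tfD_card (f : κ → FA (ZMod p) α) (n : ℕ) :
    Finite (tfD f n) ∧ Nat.card (tfD f n) ≤ MNbd p α n := by
  obtain ⟨h1, h2⟩ := tf_card f n
  have hinj : Function.Injective (fun u : tfD f n =>
      ((u : (FA (ZMod p) α ⧸ I f (n : ℤ))ˣ) : FA (ZMod p) α ⧸ I f (n : ℤ))) :=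
    fun a b h => Subtype.ext (Units.ext h)
  exact ⟨Finite.of_injective _ hinj, (Nat.card_le_card_of_injective _ hinj).trans h2⟩

/-- the homomorphism from the free algebra to the group algebra -/
noncomputable def tfθ (p : ℕ) [Fact p.Prime] {α P : Type} [Group P] (η : α → P) :
    FA (ZMod p) α →ₐ[ZMod p] GA p P :=
  MonoidAlgebra.lift (ZMod p) (MonoidAlgebra (ZMod p) P) (FreeMonoid α)
    (FreeMonoid.lift fun a => MonoidAlgebra.of (ZMod p) P (η a) - 1)

theorem tfθ_wd {P : Type} [Group P] (η : α → P) (v : FreeMonoid α) :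
    tfθ p η (wd v) = ((v.toList.map η).map fun g => MonoidAlgebra.of (ZMod p) P g - 1).prod := by
  rw [List.map_map]
  exact (MonoidAlgebra.lift_of _ _).trans (FreeMonoid.lift_apply _ _)

theorem tfθ_X {P : Type} [Group P] (η : α → P) (a : α) :
    tfθ p η (X a) = MonoidAlgebra.of (ZMod p) P (η a) - 1 := by
  refine (MonoidAlgebra.lift_of _ _).trans ?_
  exact FreeMonoid.lift_eval_of _ _

theorem tfθ_long {P : Type} [Group P] [Finite P] (hP : IsPGroup p P) (η : α → P)
    (v : FreeMonoid α) (hv : Nat.card P ≤ len v) : tfθ p η (wd v) = 0 := by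
  rw [tfθ_wd]
  refine tf_aug p hP _ ?_
  rw [List.length_map]
  exact hv

theorem tfθ_surj {P : Type} [Group P] [Finite P] (η : α → P)
    (hη : Subgroup.closure (Set.range η) = ⊤) : Function.Surjective (tfθ p η) := by
  have hof : ∀ g : P, MonoidAlgebra.of (ZMod p) P g ∈ (tfθ p η).range := by
    intro g
    have hg : g ∈ Subgroup.closure (Set.range η) := by rw [hη]; trivial
    have hfin : Finite P := inferInstance
    induction hg using Subgroup.closure_induction with
    | mem x hx =>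
      obtain ⟨a, rfl⟩ := hx
      refine ⟨1 + X a, ?_⟩
      show tfθ p η (1 + X a) = _
      rw [map_add, map_one, tfθ_X, add_sub_cancel]
    | one =>
      rw [map_one]
      exact one_mem _
    | mul x y _ _ hx hy =>
      rw [map_mul]
      exact mul_mem hx hy
    | inv x _ hx =>
      have h1 : x⁻¹ = x ^ (orderOf x - 1) := by
        rw [← mul_right_inj x, mul_inv_cancel, ← pow_succ',
          Nat.sub_add_cancel (orderOf_pos x), pow_orderOf_eq_one]
      rw [h1, map_pow]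
      exact pow_mem hx _
  intro x
  induction x using MonoidAlgebra.induction_on with
  | of g => exact hof g
  | add x y hx hy =>
    obtain ⟨a, rfl⟩ := hx
    obtain ⟨b, rfl⟩ := hy
    exact ⟨a + b, map_add _ _ _⟩
  | smul c x hx =>
    obtain ⟨a, rfl⟩ := hx
    exact ⟨c • a, map_smul _ _ _⟩

/-- the group element as a unit of the group algebra -/
noncomputable def tfU (p : ℕ) [Fact p.Prime] {P : Type} [Group P] : P →* (GA p P)ˣ :=
  (Units.map (MonoidAlgebra.of (ZMod p) P)).comp (toUnits (G := P)).toMonoidHom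

theorem tfU_val {P : Type} [Group P] (x : P) :
    ((tfU p x : (GA p P)ˣ) : GA p P) = MonoidAlgebra.of (ZMod p) P x := rfl

theorem tf_lift_comp {ι G H : Type} [Group G] [Group H] (f : G →* H) (x : ι → G)
    (w : FreeGroup ι) : f (FreeGroup.lift x w) = FreeGroup.lift (fun i => f (x i)) w := by
  have h : f.comp (FreeGroup.lift x) = FreeGroup.lift (fun i => f (x i)) := by
    ext i
    simp
  exact DFunLike.congr_fun h w

/-- the kernel of `tfθ` is contained in the ideal if there is a homomorphism to `tfD` -/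
theorem tfθ_ker {P : Type} [Group P] (η : α → P) (f : κ → FA (ZMod p) α) (n : ℕ)
    (φ : P →* tfD f n) (hφ : ∀ a, (((φ (η a) : (FA (ZMod p) α ⧸ I f (n : ℤ))ˣ)) :
      FA (ZMod p) α ⧸ I f (n : ℤ)) = 1 + Ideal.Quotient.mk (I f (n : ℤ)) (X a))
    (x : FA (ZMod p) α) (hx : tfθ p η x = 0) : x ∈ I f (n : ℤ) := by
  let F0 : P →* (FA (ZMod p) α ⧸ I f (n : ℤ)) :=
    ((Units.coeHom _).comp (tfD f n).subtype).comp φ
  let ρ : GA p P →ₐ[ZMod p] (FA (ZMod p) α ⧸ I f (n : ℤ)) :=
    MonoidAlgebra.lift (ZMod p) (FA (ZMod p) α ⧸ I f (n : ℤ)) P F0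
  have h1 : ρ.comp (tfθ p η) = Ideal.Quotient.mkₐ (ZMod p) (I f (n : ℤ)) := by
    refine MonoidAlgebra.algHom_ext' ?_ (Subsingleton.elim _ _)
    apply FreeMonoid.hom_eq
    intro a
    show ρ (tfθ p η (X a)) = Ideal.Quotient.mk (I f (n : ℤ)) (X a)
    rw [tfθ_X, map_sub, map_one]
    have h2 : ρ (MonoidAlgebra.of (ZMod p) P (η a)) = F0 (η a) := MonoidAlgebra.lift_of _ _
    rw [h2]
    show (((φ (η a) : (FA (ZMod p) α ⧸ I f (n : ℤ))ˣ)) : FA (ZMod p) α ⧸ I f (n : ℤ)) - 1 = _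
    rw [hφ, add_sub_cancel_left]
  rw [← Ideal.Quotient.eq_zero_iff_mem]
  have h2 := AlgHom.congr_fun h1 x
  rw [AlgHom.comp_apply, hx, map_zero] at h2
  exact h2.symm

end words

end Pool.Agent.RGM
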