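import Mathlib
import Pool.Agent.Lib.RGM.TF1
import Pool.Agent.Lib.RGM.TF2
import Pool.Agent.Lib.RGM.TF3

/-!
RGM, torsion-freeness of mild groups, part 4: assembly.
-/

set_option autoImplicit false
set_option linter.unusedSectionVars false

namespace Pool.Agent.RGM

open scoped Classical
open Pool.Agent.RG (GA dl)
open Pool.Agent.RG.Q (FA wd X qd ex KD Q18_common Q19_dense Q20_values Q01_wd_one Q01_wd_mul)

/-- a mild group has no element of order `p` -/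
theorem tf_order_p (p : ℕ) [Fact p.Prime] (hp : p ≠ 2) {α κ : Type} [Fintype α] [Fintype κ]
    (G : Type) [Group G] [TopologicalSpace G] [IsTopologicalGroup G] [CompactSpace G] [T2Space G]
    [TotallyDisconnectedSpace G]
    (hG : ∀ U : Subgroup G, U.Normal → IsOpen (U : Set G) → ∃ k, U.index = p ^ k)
    (K : KD p α κ G)
    (hm : Mild (qd (fun j a => Multiplicative.toAdd (K.χ a (K.x j)))
      (fun j a => Multiplicative.toAdd (K.χ a (K.y j)))))
    (g : G) (hgp : g ^ p = 1) : g = 1 := by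
  have hpp : p.Prime := Fact.out
  by_contra hg
  -- open normal subgroups inside open subgroups
  have hopen : ∀ U : Subgroup G, IsOpen (U : Set G) → ∃ V : Subgroup G, V.Normal ∧
      IsOpen (V : Set G) ∧ V ≤ U := by
    intro U hU
    obtain ⟨V, hV⟩ := ProfiniteGrp.exist_openNormalSubgroup_sub_open_nhds_of_one hU U.one_mem
    exact ⟨V.toSubgroup, V.isNormal', V.isOpen', hV⟩
  obtain ⟨V3, hV3n, hV3o, hgV3⟩ : ∃ V : Subgroup G, V.Normal ∧ IsOpen (V : Set G) ∧ g ∉ V := by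
    obtain ⟨V, hV⟩ := ProfiniteGrp.exist_openNormalSubgroup_sub_open_nhds_of_one
      (isOpen_compl_singleton (x := g)) (by simpa using Ne.symm hg)
    exact ⟨V.toSubgroup, V.isNormal', V.isOpen', fun h => (hV h) rfl⟩
  -- quotients
  have hfinq : ∀ V : Subgroup G, IsOpen (V : Set G) → Finite (G ⧸ V) := fun V hV =>
    Subgroup.quotient_finite_of_isOpen _ hV
  obtain ⟨m, hm3⟩ : ∃ m, m = Nat.card (G ⧸ V3) := ⟨_, rfl⟩
  obtain ⟨U2, hU2, hU2'⟩ := Q18_common G K.z K.gen (MNbd p α m)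
  obtain ⟨V2, hV2n, hV2o, hV2⟩ := hopen (U2 ⊓ V3) (hU2.inter hV3o)
  obtain ⟨M, hM2⟩ : ∃ M, M = Nat.card (G ⧸ V2) := ⟨_, rfl⟩
  obtain ⟨U1, hU1, hU1'⟩ := Q18_common G K.z K.gen (MNbd p α M)
  obtain ⟨V1, hV1n, hV1o, hV1⟩ := hopen (U1 ⊓ V2) (hU1.inter hV2o)
  obtain ⟨N, hN⟩ : ∃ N, N = Nat.card (G ⧸ V1) + M + m + 2 := ⟨_, rfl⟩
  obtain ⟨B, hB⟩ : ∃ B, B = MNbd p α N + MNbd p α M + MNbd p α m + Nat.card (G ⧸ V1) +
    Nat.card (G ⧸ V2) + Nat.card (G ⧸ V3) := ⟨_, rfl⟩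
  obtain ⟨wx, wy, hwx, hwy, hQ, hval⟩ := Q20_values p G K B
  obtain ⟨U0, hU0, hU0'⟩ := Q18_common G K.z K.gen B
  obtain ⟨f, hf, hrel⟩ := tf_rel p hp (fun j a => Multiplicative.toAdd (K.χ a (K.x j)))
    (fun j a => Multiplicative.toAdd (K.χ a (K.y j))) wx wy K.q K.hq
    (fun j a => by rw [hwx]; exact (ofAdd_toAdd _).symm)
    (fun j a => by rw [hwy]; exact (ofAdd_toAdd _).symm) N
  obtain ⟨w, hw⟩ := Q19_dense G K.z K.gen U0 hU0 g
  obtain ⟨g', hg', hg'θ⟩ := c1_word p N w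
  have key : ∀ (R : Type) [Group R] [Finite R], Nat.card R ≤ B →
      ∀ θ : G →* R, IsOpen (θ.ker : Set G) → θ g = FreeGroup.lift (fun a => θ (K.z a)) w := by
    intro R _ _ hR θ hθ
    have hw1 : (FreeGroup.lift K.z w)⁻¹ * g ∈ θ.ker := hU0' R hR θ hθ hw
    rw [MonoidHom.mem_ker, map_mul, map_inv, inv_mul_eq_one] at hw1
    rw [← hw1, tf_lift_comp]
  -- the element
  obtain ⟨τ, hτ⟩ : ∃ τ : FA (ZMod p) α,
    τ = ∑ a, (Multiplicative.toAdd (ex p a w) : ZMod p) • X a + g' := ⟨_, rfl⟩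
  have hτ1 : τ ∈ Lge (ZMod p) α 1 := by
    rw [hτ]
    exact Submodule.add_mem _
      (Submodule.sum_mem _ fun a _ => Submodule.smul_mem _ _ (X_Lge a)) (Lge_mono (by norm_num) hg')
  have hτθ : ∀ (A : Type) [Ring A] (θ : FA (ZMod p) α →+* A),
      (∀ v : FreeMonoid α, N < len v → θ (wd v) = 0) →
      ∀ u : α → Aˣ, (∀ a, (u a : A) = 1 + θ (X a)) →
        ((FreeGroup.lift u w : Aˣ) : A) = 1 + θ τ := by
    intro A _ θ h1 u hu
    rw [hg'θ A θ h1 u hu, add_assoc, map_add, map_one, hτ]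
  -- the homomorphisms to the finite algebras
  have hφ : ∀ n : ℕ, n ≤ N → MNbd p α n ≤ B → ∃ φ : G →* tfD f n, IsOpen (φ.ker : Set G) ∧
      ∀ a, (((φ (K.z a) : (FA (ZMod p) α ⧸ I f (n : ℤ))ˣ)) : FA (ZMod p) α ⧸ I f (n : ℤ)) =
        1 + Ideal.Quotient.mk (I f (n : ℤ)) (X a) := by
    intro n hn hnB
    obtain ⟨ξ, hξ⟩ := tfD_unit f n
    obtain ⟨hfin, hcard⟩ := tfD_card f n
    have hrel' : ∀ j, FreeGroup.lift ξ (wy j) * FreeGroup.lift ξ (wx j) *
        (FreeGroup.lift ξ (wy j))⁻¹ = FreeGroup.lift ξ (wx j) ^ K.q j := by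
      intro j
      have h1 := (hrel (FA (ZMod p) α ⧸ I f (n : ℤ)) (Ideal.Quotient.mk (I f (n : ℤ)))
        (fun v hv => Ideal.Quotient.eq_zero_iff_mem.2 (I_wd (by exact_mod_cast (hn.trans_lt hv))))
        (fun a => (ξ a : (FA (ZMod p) α ⧸ I f (n : ℤ))ˣ)) hξ j).1
        (Ideal.Quotient.eq_zero_iff_mem.2 (tf_f_mem _ j))
      apply Subtype.ext
      have h2 : ∀ v : FreeGroup α, ((FreeGroup.lift ξ v : tfD f n) :
          (FA (ZMod p) α ⧸ I f (n : ℤ))ˣ) = FreeGroup.lift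
            (fun a => (ξ a : (FA (ZMod p) α ⧸ I f (n : ℤ))ˣ)) v := fun v =>
        tf_lift_comp (tfD f n).subtype ξ v
      rw [Subgroup.coe_mul, Subgroup.coe_mul, Subgroup.coe_inv, Subgroup.coe_pow, h2, h2]
      exact h1
    obtain ⟨φ, hφ1, hφ2⟩ := hQ (tfD f n) (tfD_pgroup f n) (hcard.trans hnB) ξ hrel'
    exact ⟨φ, hφ1, fun a => by rw [hφ2]; exact hξ a⟩
  -- the homomorphisms to the group algebras
  have hθ : ∀ V : Subgroup G, ∀ _ : V.Normal, IsOpen (V : Set G) → Nat.card (G ⧸ V) ≤ B →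
      Nat.card (G ⧸ V) ≤ N →
      tfθ p (fun a => (K.z a : G ⧸ V)) τ = dl p (g : G ⧸ V) ∧
      Function.Surjective (tfθ p (fun a => (K.z a : G ⧸ V))) ∧
      ∀ n : ℤ, (Nat.card (G ⧸ V) : ℤ) ≤ n →
        ∀ x ∈ I f n, tfθ p (fun a => (K.z a : G ⧸ V)) x = 0 := by
    intro V hVn hVo hVB hVN
    have hfin := hfinq V hVo
    have hpP : IsPGroup p (G ⧸ V) := by
      obtain ⟨k, hk⟩ := hG V hVn hVo
      exact IsPGroup.of_card (n := k) hk
    let π : G →* G ⧸ V := QuotientGroup.mk' V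
    have hπ : IsOpen (π.ker : Set G) := by
      rw [QuotientGroup.ker_mk']
      exact hVo
    let η : α → G ⧸ V := fun a => π (K.z a)
    have hη : ∀ a, ((tfU p (η a) : (GA p (G ⧸ V))ˣ) : GA p (G ⧸ V)) =
        1 + (tfθ p η : FA (ZMod p) α →+* GA p (G ⧸ V)) (X a) := by
      intro a
      rw [tfU_val]
      show _ = 1 + tfθ p η (X a)
      rw [tfθ_X, add_sub_cancel]
    have hlong : ∀ n : ℤ, (Nat.card (G ⧸ V) : ℤ) ≤ n → ∀ v : FreeMonoid α, n < len v →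
        (tfθ p η : FA (ZMod p) α →+* GA p (G ⧸ V)) (wd v) = 0 := by
      intro n hn v hv
      exact tfθ_long hpP η v (by
        have := hn.trans hv.le
        exact_mod_cast this)
    refine ⟨?_, ?_, ?_⟩
    · have h1 := hτθ (GA p (G ⧸ V)) (tfθ p η : FA (ZMod p) α →+* GA p (G ⧸ V))
        (fun v hv => hlong N (by exact_mod_cast hVN) v (by exact_mod_cast hv))
        (fun a => tfU p (η a)) hη
      rw [← tf_lift_comp (tfU p) η w, ← key (G ⧸ V) hVB π hπ, tfU_val] at h1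
      show tfθ p η τ = _
      have h2 : (tfθ p η : FA (ZMod p) α →+* GA p (G ⧸ V)) τ = tfθ p η τ := rfl
      rw [h2] at h1
      unfold dl
      rw [eq_sub_iff_add_eq, add_comm, ← h1]
      rfl
    · refine tfθ_surj η ?_
      have h1 : (Subgroup.closure (Set.range K.z)).map π = ⊤ := by
        rw [eq_top_iff]
        rintro x -
        obtain ⟨y, rfl⟩ := QuotientGroup.mk'_surjective V x
        obtain ⟨v, hv⟩ := Q19_dense G K.z K.gen V hVo y
        refine ⟨FreeGroup.lift K.z v, ?_, ?_⟩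
        · rw [SetLike.mem_coe, ← FreeGroup.range_lift_eq_closure]
          exact ⟨v, rfl⟩
        · rw [← QuotientGroup.eq] at hv
          exact hv
      rw [MonoidHom.map_closure] at h1
      rw [← h1]
      congr 1
      rw [← Set.range_comp]
      rfl
    · intro n hn
      refine tf_kill (tfθ p η : FA (ZMod p) α →+* GA p (G ⧸ V)) f n (hlong n hn) fun j => ?_
      rw [hrel (GA p (G ⧸ V)) (tfθ p η : FA (ZMod p) α →+* GA p (G ⧸ V))
        (fun v hv => hlong N (by exact_mod_cast hVN) v (by exact_mod_cast hv))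
        (fun a => tfU p (η a)) hη j]
      obtain ⟨h1, h2⟩ := hval (G ⧸ V) hVB π hπ j
      rw [← tf_lift_comp (tfU p) η, ← tf_lift_comp (tfU p) η, ← map_mul, ← map_inv, ← map_mul,
        ← map_pow]
      congr 1
      show FreeGroup.lift (fun a => π (K.z a)) (wy j) * FreeGroup.lift (fun a => π (K.z a)) (wx j) *
        (FreeGroup.lift (fun a => π (K.z a)) (wy j))⁻¹ =
          FreeGroup.lift (fun a => π (K.z a)) (wx j) ^ K.q j
      rw [← h1, ← h2, ← map_mul, ← map_inv, ← map_mul, K.tame, map_pow]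
  -- kernels
  have hker : ∀ (n : ℕ) (V U : Subgroup G), ∀ _ : V.Normal, n ≤ N → MNbd p α n ≤ B →
      (∀ (Q : Type) [Group Q] [Finite Q], Nat.card Q ≤ MNbd p α n → ∀ φ : G →* Q,
        IsOpen (φ.ker : Set G) → U ≤ φ.ker) → V ≤ U →
      ∀ x, tfθ p (fun a => (K.z a : G ⧸ V)) x = 0 → x ∈ I f (n : ℤ) := by
    intro n V U hVn hn hnB hU hVU x hx
    obtain ⟨φ, hφ1, hφ2⟩ := hφ n hn hnB
    obtain ⟨hfin, hcard⟩ := tfD_card f n
    have h1 : V ≤ φ.ker := hVU.trans (hU (tfD f n) hcard φ hφ1)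
    refine tfθ_ker (fun a => (K.z a : G ⧸ V)) f n (QuotientGroup.lift V φ h1) (fun a => ?_) x hx
    exact hφ2 a
  -- the power of `τ`
  have hτp : τ ^ p ∈ I f (N : ℤ) := by
    obtain ⟨φ, hφ1, hφ2⟩ := hφ N le_rfl (by omega)
    obtain ⟨hfin, hcard⟩ := tfD_card f N
    have h1 := hτθ (FA (ZMod p) α ⧸ I f (N : ℤ)) (Ideal.Quotient.mk (I f (N : ℤ)))
      (fun v hv => Ideal.Quotient.eq_zero_iff_mem.2 (I_wd (by exact_mod_cast hv)))
      (fun a => ((φ (K.z a) : tfD f N) : (FA (ZMod p) α ⧸ I f (N : ℤ))ˣ)) hφ2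
    have h2 : FreeGroup.lift (fun a => ((φ (K.z a) : tfD f N) :
        (FA (ZMod p) α ⧸ I f (N : ℤ))ˣ)) w = ((φ g : tfD f N) :
          (FA (ZMod p) α ⧸ I f (N : ℤ))ˣ) := by
      rw [key (tfD f N) (hcard.trans (by omega)) φ hφ1]
      exact (tf_lift_comp (tfD f N).subtype _ w).symm
    rw [h2] at h1
    have h3 : (((φ g : tfD f N) : (FA (ZMod p) α ⧸ I f (N : ℤ))ˣ)) ^ p = 1 := by
      rw [← Subgroup.coe_pow, ← map_pow, hgp, map_one, Subgroup.coe_one]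
    have h4 := congrArg Units.val h3
    rw [Units.val_pow_eq_pow_val, h1, Units.val_one] at h4
    have h5 := tfD_pow f N (y := τ) 1
    rw [pow_one, map_add, map_one, h4] at h5
    rw [← Ideal.Quotient.eq_zero_iff_mem]
    have h6 : (1 : FA (ZMod p) α ⧸ I f (N : ℤ)) + 0 =
        1 + Ideal.Quotient.mk (I f (N : ℤ)) (τ ^ p) := by rw [add_zero]; exact h5
    exact (add_left_cancel h6).symm
  -- the chase
  obtain ⟨hθ1, hs1, hk1⟩ := hθ V1 hV1n hV1o (by omega) (by omega)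
  obtain ⟨hθ2, hs2, hk2⟩ := hθ V2 hV2n hV2o (by omega) (by omega)
  obtain ⟨hθ3, -, hk3⟩ := hθ V3 hV3n hV3o (by omega) (by omega)
  have hgV2 : g ∉ V2 := fun h => hgV3 (hV2 h).2
  have hgV1 : g ∉ V1 := fun h => hgV2 (hV1 h).2
  have hfin1 := hfinq V1 hV1o
  have hfin2 := hfinq V2 hV2o
  have hg1 : ∀ V : Subgroup G, ∀ _ : V.Normal, g ∉ V → (g : G ⧸ V) ^ p = 1 ∧ (g : G ⧸ V) ≠ 1 := by
    intro V hV hgV
    refine ⟨?_, fun h => hgV ((QuotientGroup.eq_one_iff g).1 h)⟩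
    rw [← QuotientGroup.mk_pow, hgp]
    rfl
  have hmem := tf_chase f (tf_exact (qd (fun j a => Multiplicative.toAdd (K.χ a (K.x j)))
      (fun j a => Multiplicative.toAdd (K.χ a (K.y j)))) hm f hf) p hpp.one_lt.le m M N (by omega)
    τ hτ1 hτp (tfθ p (fun a => (K.z a : G ⧸ V1)) : FA (ZMod p) α →+* GA p (G ⧸ V1))
    (tfθ p (fun a => (K.z a : G ⧸ V2)) : FA (ZMod p) α →+* GA p (G ⧸ V2)) hs1 hs2
    (hk1 ((N : ℤ) - 2) (by rw [hN]; push_cast; omega))
    (hker M V1 U1 hV1n (by omega) (by omega) hU1' (hV1.trans inf_le_left))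
    (hk2 ((M : ℤ) + 1) (by rw [hM2]; omega))
    (hker m V2 U2 hV2n (by omega) (by omega) hU2' (hV2.trans inf_le_left))
    (fun v hv => by
      have h1 := (tf_group p (g : G ⧸ V1) (hg1 V1 hV1n hgV1).1 (hg1 V1 hV1n hgV1).2 v).1
      have h2 : (tfθ p (fun a => (K.z a : G ⧸ V1)) : FA (ZMod p) α →+* GA p (G ⧸ V1)) τ =
        dl p (g : G ⧸ V1) := hθ1
      rw [h2] at hv ⊢
      exact h1 hv)
    (fun v hv => by
      have h1 := (tf_group p (g : G ⧸ V2) (hg1 V2 hV2n hgV2).1 (hg1 V2 hV2n hgV2).2 v).2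
      have h2 : (tfθ p (fun a => (K.z a : G ⧸ V2)) : FA (ZMod p) α →+* GA p (G ⧸ V2)) τ =
        dl p (g : G ⧸ V2) := hθ2
      rw [h2] at hv ⊢
      exact h1 hv)
  have h1 := hk3 ((m : ℤ) + 1) (by rw [hm3]; omega) τ hmem
  rw [hθ3] at h1
  have h2 : MonoidAlgebra.of (ZMod p) (G ⧸ V3) (g : G ⧸ V3) =
      MonoidAlgebra.of (ZMod p) (G ⧸ V3) 1 := by
    rw [map_one]
    exact sub_eq_zero.1 h1
  exact hgV3 ((QuotientGroup.eq_one_iff g).1 (MonoidAlgebra.of_injective h2))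

/-- A mild group is torsion-free. -/
theorem mild_torsion_free (p : ℕ) [Fact p.Prime] (hp : p ≠ 2) {α κ : Type} [Fintype α] [Fintype κ]
    (G : Type) [Group G] [TopologicalSpace G] [IsTopologicalGroup G] [CompactSpace G] [T2Space G]
    [TotallyDisconnectedSpace G]
    (hG : ∀ U : Subgroup G, U.Normal → IsOpen (U : Set G) → ∃ k, U.index = p ^ k)
    (K : KD p α κ G)
    (hm : Mild (qd (fun j a => Multiplicative.toAdd (K.χ a (K.x j)))
      (fun j a => Multiplicative.toAdd (K.χ a (K.y j)))))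
    (g : G) (hg : g ≠ 1) (n : ℕ) (hn : 0 < n) : g ^ n ≠ 1 := by
  have hpp : p.Prime := Fact.out
  intro hgn
  have ho : 0 < orderOf g := orderOf_pos_iff.2 (isOfFinOrder_iff_pow_eq_one.2 ⟨n, hn, hgn⟩)
  have ho1 : orderOf g ≠ 1 := fun h => hg (orderOf_eq_one_iff.1 h)
  obtain ⟨ℓ, hℓ, hℓd⟩ := Nat.exists_prime_and_dvd ho1
  obtain ⟨k, hk⟩ := hℓd
  have hk0 : 0 < k := Nat.pos_of_ne_zero (by rintro rfl; omega)
  have h1 : g ^ k ≠ 1 := by
    intro h
    have h2 := Nat.le_of_dvd hk0 (orderOf_dvd_of_pow_eq_one h)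
    rw [hk] at h2
    have := hℓ.two_le
    nlinarith
  have h2 : (g ^ k) ^ ℓ = 1 := by
    rw [← pow_mul, mul_comm, ← hk, pow_orderOf_eq_one]
  by_cases hℓp : ℓ = p
  · subst hℓp
    exact h1 (tf_order_p ℓ hp G hG K hm (g ^ k) h2)
  · -- prime to `p`
    obtain ⟨V, hV⟩ := ProfiniteGrp.exist_openNormalSubgroup_sub_open_nhds_of_one
      (isOpen_compl_singleton (x := g ^ k)) (by simpa using Ne.symm h1)
    have hVo : IsOpen ((V.toSubgroup : Subgroup G) : Set G) := V.isOpen'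
    have hVn : (V.toSubgroup : Subgroup G).Normal := V.isNormal'
    obtain ⟨i, hi⟩ := hG _ hVn hVo
    have hmem : g ^ k ∈ (V.toSubgroup : Subgroup G) := by
      rw [← QuotientGroup.eq_one_iff, ← orderOf_eq_one_iff]
      have h3 : orderOf ((g ^ k : G) : G ⧸ V.toSubgroup) ∣ ℓ := by
        rw [orderOf_dvd_iff_pow_eq_one, ← QuotientGroup.mk_pow, h2]
        rfl
      have h4 : orderOf ((g ^ k : G) : G ⧸ V.toSubgroup) ∣ p ^ i := by
        rw [← hi]
        exact orderOf_dvd_natCard _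
      have h5 : Nat.Coprime ℓ (p ^ i) :=
        Nat.Coprime.pow_right i ((Nat.coprime_primes hℓ hpp).2 hℓp)
      exact Nat.eq_one_of_dvd_coprimes h5 h3 h4
    exact (hV hmem) rfl

end Pool.Agent.RGM
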