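import Mathlib
import Pool.Agent.Lib.RGM.RowGRP
import Pool.Agent.Lib.RGM.TF4

/-!
RGM: the group theorem with torsion-freeness for all mild groups.
-/

set_option autoImplicit false

namespace Pool.Agent.RGM

open scoped Classical
open Pool.Agent.RG (GenBy)
open Pool.Agent.RG.Q (KD qd LD Lead)
open Pool.Agent.RGK

/-- the theorem for groups with local data, with torsion-freeness -/
def RGRPT : Prop :=
  ∀ (p : ℕ) [Fact p.Prime], p ≠ 2 → ∀ {κ : Type} [Fintype κ] (G : Type)
    [Group G] [TopologicalSpace G] [IsTopologicalGroup G] [CompactSpace G] [T2Space G]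
    [TotallyDisconnectedSpace G],
    (∀ U : Subgroup G, U.Normal → IsOpen (U : Set G) → ∃ k, U.index = p ^ k) →
    ∀ (K : KL p κ G) [Finite (H1 p G)], GenC (cupG K) → (MildC (cupG K) ∨ UVC (cupG K)) →
    Infinite G ∧ (∀ e : ℝ, 0 < e → ∃ (U : Subgroup G) (n : ℕ), IsOpen (U : Set G) ∧
      GenBy U n ∧ ((n : ℝ) - 1) ≤ e * U.index) ∧
    ∀ g : G, g ≠ 1 → ∀ n : ℕ, 0 < n → g ^ n ≠ 1

theorem rowGRPT (hGRP : RGRP) (hG1 : RG1) (hG2 : RG2) (hS : RSGN) : RGRPT := by
  intro p _ hp κ _ G _ _ _ _ _ _ hG K _ hgen hor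
  obtain ⟨⟨h1, h2⟩, -, -⟩ := hGRP p hp G hG K hgen hor
  refine ⟨h1, h2, ?_⟩
  have hM : ∃ (α : Type) (_ : Fintype α) (f : Module.Basis α (ZMod p) (H1 p G)),
      Mild (fun j a b => -cupG K (f a) (f b) j) := by
    rcases hor with h | h
    · obtain ⟨α, _, f, hM⟩ := h
      exact ⟨α, inferInstance, f, (hS _).1 hM⟩
    · rw [cupG_eq] at h
      obtain ⟨α, ε, _, _, s, t, δ, f, B, hL⟩ := hG1 (evx K) (evy K) h
      have hM := hG2 s t δ _ _ B hL
      refine ⟨α, inferInstance, f, ?_⟩
      have hqd : qd (fun j a => evx K j (f a)) (fun j a => evy K j (f a)) =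
          fun j a b => -cupG K (f a) (f b) j := by
        funext j a b
        show (f a : G → ZMod p) (K.y j) * (f b : G → ZMod p) (K.x j) -
          (f a : G → ZMod p) (K.x j) * (f b : G → ZMod p) (K.y j) = _
        unfold cupG
        ring
      rw [← hqd]
      exact hM
  obtain ⟨α, _, f, hM⟩ := hM
  obtain ⟨z, hz, hd⟩ := dual_gen p G hG f
  have hqd : qd (fun j a => Multiplicative.toAdd ((toKD K f z hz hd).χ a ((toKD K f z hz hd).x j)))
      (fun j a => Multiplicative.toAdd ((toKD K f z hz hd).χ a ((toKD K f z hz hd).y j))) =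
      fun j a b => -cupG K (f a) (f b) j := by
    funext j a b
    show (f a : G → ZMod p) (K.y j) * (f b : G → ZMod p) (K.x j) -
      (f a : G → ZMod p) (K.x j) * (f b : G → ZMod p) (K.y j) = _
    unfold cupG
    ring
  intro g hg n hn
  exact mild_torsion_free p hp G hG (toKD K f z hz hd) (by rw [hqd]; exact hM) g hg n hn

end Pool.Agent.RGM
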