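import Mathlib
import Pool.Agent.Lib.RG.M5
import Pool.Agent.Lib.RGJ.J8
import Pool.Agent.Lib.RGM.Glue
import Pool.Agent.Lib.RGM.Tors

/-!
RGM: the final statements, from the group theorem `RGRPT`.
-/

set_option autoImplicit false

namespace Pool.Agent.RGM

open NumberField IsDedekindDomain
open Pool.Agent.RG (Above IsDec IsInert IsFrob Lies GenBy rankGradient maxExtP GP KS link Ram NotSplit
  maxExt_KS exists_KD ramified_set finite_chars above_mod UnrOutside exists_iso exists_embedding_val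
  exists_prime_above maxExtP_le maxExtension exists_quot mem_maxExtP R3_group rankGradient_eq_zero
  isGalois_maxExtP)
open Pool.Agent.RG.H (Pr vl UU PP SU ev below nrm emb NS)
open Pool.Agent.RGK
open Pool.Agent.RGJ

section K

variable {K : Type} [Field K] [NumberField K]

theorem persistent_K (hGRP : RGRPT) {p : ℕ} [Fact p.Prime] (hp : p ≠ 2) {T : Finset (Pr K)}
    (hT : ∀ t ∈ T, (nm t).Prime ∧ nm t % p = 1) (hV : VT p (T : Set (Pr K)) ≤ PP K p)
    {R : Finset (Pr K)}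
    (hR : R = T ∨ (∃ ζ : K, IsPrimitiveRoot ζ p) ∧ ∃ o ∈ T, ∀ t, t ∈ R ↔ t ∈ T ∧ t ≠ o)
    (x y : R → GP p (T : Set (Pr K))) (hxy : ∀ t : R, InFrK (t : Pr K) (x t) (y t))
    (hg : GenC (cupXY (p := p) x y)) (hm : MildC (cupXY (p := p) x y) ∨ UVC (cupXY (p := p) x y)) :
    Persistent p (T : Set (Pr K)) := by
  classical
  have hpp : p.Prime := Fact.out
  have hgal : IsGalois K (maxExtP p (T : Set (Pr K))) := RG.isGalois_maxExtP p _
  have hX := maxExtK_maxExtP p (T : Set (Pr K))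
  have hab : ∀ v ∈ (T : Set (Pr K)), ¬ Above v p := fun v hv => not_above_of_nm hpp (hT v hv).2
  have hcyc : CycExt p (T : Set (Pr K)) :=
    cycExt_of_VT hp T.finite_toSet (fun v hv => (hT v hv).2) hV
  have hRT : ∀ t ∈ R, t ∈ T := by
    intro t ht
    rcases hR with h | ⟨-, o, -, h⟩
    · rwa [h] at ht
    · exact ((h t).1 ht).1
  obtain ⟨e, -⟩ := exists_equivE hp T.finite_toSet hab hX
  have hfin : Finite (GC p (T : Set (Pr K))) := finite_GC T.finite_toSet
  have hfin2 : Finite (H1 p (GP p (T : Set (Pr K)))) := Finite.of_equiv _ e.symm.toEquiv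
  -- the local data
  obtain ⟨k, hkx, hky⟩ : ∃ k : KL p R (GP p (T : Set (Pr K))), k.x = x ∧ k.y = y := by
    rcases hR with h | ⟨⟨ζ, hζ⟩, o, ho, h⟩
    · subst h
      exact ⟨{ x := x
               y := y
               q := fun t => nm (t : Pr K)
               hq := fun t => (hT t t.2).2
               tame := fun t => tame_of_inFrK hX (hab t t.2) (hxy t)
               lift := fun E H _ _ _ _ π hπ hker hcard φ hφ hφs ex ey hx hy hr =>
                 lift_propertyK hp (T := (R : Set (Pr K))) hT hcyc hX x y hxy E H π hπ hker hcard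
                   φ hφ hφs ex ey hx hy hr }, rfl, rfl⟩
    · let i : {t // t ∈ T ∧ t ≠ o} → R := fun t => ⟨t.1, (h t.1).2 t.2⟩
      exact ⟨{ x := x
               y := y
               q := fun t => nm (t : Pr K)
               hq := fun t => (hT t (hRT t t.2)).2
               tame := fun t => tame_of_inFrK hX (hab t (hRT t t.2)) (hxy t)
               lift := fun E H _ _ _ _ π hπ hker hcard φ hφ hφs ex ey hx hy hr =>
                 lift_propertyO hp hζ (T := (T : Set (Pr K))) ho hT hcyc hX (fun t => x (i t))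
                   (fun t => y (i t)) (fun t => hxy (i t)) E H π hπ hker hcard
                   φ hφ hφs (fun t => ex (i t)) (fun t => ey (i t)) (fun t => hx (i t))
                   (fun t => hy (i t)) (fun t => hr (i t)) }, rfl, rfl⟩
  have hc : (cupG k : H1 p (GP p (T : Set (Pr K))) → H1 p (GP p (T : Set (Pr K))) → R → ZMod p) =
      cupXY x y := by
    funext f g t
    show (f : GP p (T : Set (Pr K)) → ZMod p) (k.x t) * _ - _ = _
    unfold cupXY
    rw [hkx, hky]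
  obtain ⟨h1, h2, h3⟩ := hGRP p hp (GP p (T : Set (Pr K)))
    (fun U hN hU => hX.pro_p U hN hU) k (by rw [hc]; exact hg) (by rw [hc]; exact hm)
  exact persistent_of T.finite_toSet (fun v hv => (hT v hv).2) h1 h2 h3

/-- the theorem over number fields, with plain hypotheses -/
theorem final_K' (hGRP : RGRPT) (p : ℕ) [Fact p.Prime] (hp : p ≠ 2) (K : Type) [Field K]
    [NumberField K] (T R : Finset (HeightOneSpectrum (𝓞 K)))
    (hT : ∀ t ∈ T, (Ideal.absNorm t.asIdeal).Prime ∧ Ideal.absNorm t.asIdeal % p = 1)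
    (hV : VTriv p (T : Set (HeightOneSpectrum (𝓞 K))))
    (hR : R = T ∨ (∃ ζ : K, IsPrimitiveRoot ζ p) ∧ ∃ o ∈ T, ∀ t, t ∈ R ↔ t ∈ T ∧ t ≠ o)
    (x y : R → GP p (T : Set (HeightOneSpectrum (𝓞 K))))
    (hxy : ∀ t : R, InFrK (t : HeightOneSpectrum (𝓞 K)) (x t) (y t))
    (hg : GenC (cupXY (p := p) x y)) (hm : MildC (cupXY (p := p) x y) ∨ UVC (cupXY (p := p) x y)) :
    Persistent p (T : Set (HeightOneSpectrum (𝓞 K))) :=
  persistent_K hGRP hp hT (vt_of_triv hV) hR x y hxy hg hm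

end K

section Q

theorem main_Q' (hGRP : RGRPT) {p : ℕ} [Fact p.Prime] (hp : p ≠ 2) {S₁ : Finset ℕ}
    (hS₁ : ∀ q ∈ S₁, q.Prime ∧ q % p = 1)
    (lam : ∀ r : S₁, (ZMod (r : ℕ))ˣ →* Multiplicative (ZMod p))
    (hlam : ∀ r, Function.Surjective (lam r)) (hg : GenC (RG.Q.cup (link lam)))
    (hm : MildC (RG.Q.cup (link lam)) ∨ UVC (RG.Q.cup (link lam)))
    {K M : Type} [Field K] [NumberField K] [Field M] [NumberField M] [IsGalois ℚ M]
    (hd : ∃ k, Module.finrank ℚ M = p ^ k) (ht : ¬ Ram p M) (j : K →+* M)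
    (S' : Set (HeightOneSpectrum (𝓞 K))) (hfin : S'.Finite)
    (hN : ∀ v ∈ S', Ideal.absNorm v.asIdeal % p = 1)
    (hcont : ∀ v : HeightOneSpectrum (𝓞 K), ∀ q ∈ S₁, Above v q → v ∈ S')
    (hns : ∀ q : ℕ, q.Prime → q ∉ S₁ → ((∃ v ∈ S', Above v q) ∨ Ram q M) → NotSplit p S₁ q) :
    Infinite (GP p S') ∧ rankGradient (GP p S') = 0 := by
  classical
  have hpp : p.Prime := Fact.out
  -- the good set
  have hX₁ := maxExt_KS p S₁
  have hgal₁ := hX₁.gal
  obtain ⟨κ, hκ1, -, hκ3⟩ := exists_KD hp hS₁ lam hlam hX₁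
  have hc : ∀ f g : S₁ → ZMod p, (cupG (toKL κ) (eqH1 κ f) (eqH1 κ g) : S₁ → ZMod p) =
      RG.Q.cup (link lam) f g := cupG_eqH1 κ hκ1 (link lam) hκ3
  have hfinH : Finite (H1 p (KS p S₁ ≃ₐ[ℚ] KS p S₁)) := Finite.of_equiv _ (eqH1 κ).toEquiv
  obtain ⟨hG, hRG, htf⟩ := hGRP p hp (KS p S₁ ≃ₐ[ℚ] KS p S₁)
    (fun U hN hU => hX₁.pro_p U hN hU) (toKL κ)
    (genC_transfer (RG.Q.cup (link lam)) (cupG (toKL κ)) (eqH1 κ) hc hg)
    (hm.imp (mildC_transfer (RG.Q.cup (link lam)) (cupG (toKL κ)) (eqH1 κ) hc)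
      (uvC_transfer (RG.Q.cup (link lam)) (cupG (toKL κ)) (eqH1 κ) hc))
  -- the set of rational primes
  obtain ⟨R, hR1, hR2, hR3⟩ := ramified_set hd ht
  obtain ⟨T, hT⟩ := finite_chars hfin
  set S : Finset ℕ := S₁ ∪ (T ∪ R) with hS
  have hSp : ∀ q ∈ S, q.Prime ∧ q % p = 1 := by
    intro q hq
    rcases Finset.mem_union.1 hq with h | h
    · exact hS₁ q h
    · rcases Finset.mem_union.1 h with h | h
      · obtain ⟨hq, v, hv, hvq⟩ := (hT q).1 h
        exact ⟨hq, above_mod hd j hq hvq (hN v hv)⟩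
      · exact ⟨((hR1 q).1 h).1, hR2 q h⟩
  have hnsS : ∀ q ∈ S, q ∉ S₁ → NotSplit p S₁ q := by
    intro q hq hq1
    rcases Finset.mem_union.1 hq with h | h
    · exact absurd h hq1
    · rcases Finset.mem_union.1 h with h | h
      · obtain ⟨hq, v, hv, hvq⟩ := (hT q).1 h
        exact hns q hq hq1 (Or.inl ⟨v, hv, hvq⟩)
      · exact hns q ((hR1 q).1 h).1 hq1 (Or.inr ((hR1 q).1 h).2)
  obtain ⟨i, π, hπc, hπs, hπi, hV⟩ :=
    RG.mono_Q (Finset.subset_union_left) hSp hnsS hG hRG htf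
  -- the base field
  have hX := maxExt_KS p S
  have hgal := hX.gal
  have huM : UnrOutside S M :=
    hR3.mono ((Finset.subset_union_right).trans Finset.subset_union_right)
  obtain ⟨g⟩ := hX.max M hd huM
  let _ : Algebra K (KS p S) := ((g : M →+* KS p S).comp j).toAlgebra
  obtain ⟨e⟩ := exists_iso (K := K) hX
  obtain ⟨hgY, Φ, hΦc, hΦi, hΦo, hΦv⟩ := exists_embedding_val e
  have hle : maxExtP p S' ≤ maxExtension p S K := by
    refine maxExtP_le fun v hv => ?_
    obtain ⟨q, hq, hvq⟩ := exists_prime_above v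
    exact ⟨q, Finset.mem_union_right _ (Finset.mem_union_left _ ((hT q).2 ⟨hq, v, hv, hvq⟩)), hvq⟩
  have hgP := isGalois_maxExtP p S'
  obtain ⟨ρ, hρc, hρs, hρk⟩ := exists_quot hle
  have hk : ∀ h, ρ h = 1 → π (Φ h) = 1 := by
    intro h hh
    refine AlgEquiv.ext fun x => i.injective ?_
    change i (π (Φ h) x) = i x
    rw [← hπi, hΦv]
    have h1 : (maxExtension p S K).val (e (i x)) ∈ maxExtP p S' :=
      mem_maxExtP hcont hX₁ i ((maxExtension p S K).val.comp (e : KS p S →ₐ[K] maxExtension p S K)) x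
    have h2 := hρk h hh _ h1
    have h3 : h (e (i x)) = e (i x) := Subtype.ext h2
    rw [h3, e.symm_apply_apply]
  obtain ⟨h1, h2⟩ := R3_group π hπc hπs hG hV Φ hΦc hΦi hΦo ρ hρc hρs hk
  exact ⟨h1, rankGradient_eq_zero h1 h2⟩

/-- the theorem over `ℚ`, with linking numbers -/
theorem final_Q' (hGRP : RGRPT) (p : ℕ) [Fact p.Prime] (hp : p ≠ 2) (S₁ : Finset ℕ)
    (hS₁ : ∀ q ∈ S₁, q.Prime ∧ q % p = 1)
    (lam : ∀ r : S₁, (ZMod (r : ℕ))ˣ →* Multiplicative (ZMod p))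
    (hlam : ∀ r, Function.Surjective (lam r))
    (hg : (∃ r : S₁, ∀ q : S₁, q ≠ r → link lam q r ≠ 0) ∨ GenC (RG.Q.cup (link lam)))
    (hm : MildC (RG.Q.cup (link lam)) ∨ UVC (RG.Q.cup (link lam)))
    (K M : Type) [Field K] [NumberField K] [Field M] [NumberField M] [IsGalois ℚ M]
    (hd : ∃ k, Module.finrank ℚ M = p ^ k) (ht : ¬ Ram p M) (j : K →+* M)
    (S : Set (HeightOneSpectrum (𝓞 K))) (hfin : S.Finite)
    (hN : ∀ v ∈ S, Ideal.absNorm v.asIdeal % p = 1)
    (hcont : ∀ v : HeightOneSpectrum (𝓞 K), ∀ q ∈ S₁, Above v q → v ∈ S)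
    (hns : ∀ q : ℕ, q.Prime → q ∉ S₁ → ((∃ v ∈ S, Above v q) ∨ Ram q M) → NotSplit p S₁ q) :
    Infinite (GP p S) ∧ rankGradient (GP p S) = 0 := by
  have hg' : GenC (RG.Q.cup (link lam)) := by
    rcases hg with ⟨r, hr⟩ | h
    · exact genC_star _ r hr
    · exact h
  exact main_Q' hGRP hp hS₁ lam hlam hg' hm hd ht j S hfin hN hcont hns

end Q

end Pool.Agent.RGM
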