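import Mathlib
import Pool.Agent.Lib.RGM.Rows
import Pool.Agent.Lib.RG.Q01

/-!
RGM, row B1: the `v`-filtration is multiplicative.
-/

set_option autoImplicit false

namespace Pool.Agent.RGM

open scoped Classical
open Pool.Agent.RG.Q (FA wd X Q01_wd_mul Q01_wd_one)

section

variable {F : Type} [Field F] {α : Type}

theorem len_mul (u v : FreeMonoid α) : len (u * v) = len u + len v := by
  simp only [len, FreeMonoid.toList_mul, List.length_append]

theorem len_of (a : α) : len (FreeMonoid.of a) = 1 := by
  simp only [len, FreeMonoid.toList_of, List.length_singleton]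

theorem len_one : len (1 : FreeMonoid α) = 0 := by
  simp only [len, FreeMonoid.toList_one, List.length_nil]

/-- the sum of the `δ` over a word -/
def dsum (δ : α → ℕ) (w : FreeMonoid α) : ℕ := ((FreeMonoid.toList w).map δ).sum

theorem dsum_mul (δ : α → ℕ) (u v : FreeMonoid α) : dsum δ (u * v) = dsum δ u + dsum δ v := by
  simp only [dsum, FreeMonoid.toList_mul, List.map_append, List.sum_append]

theorem val_eq (N : ℕ) (δ : α → ℕ) (w : FreeMonoid α) : val N δ w = (N : ℤ) * len w - dsum δ w := rfl

theorem val_mul (N : ℕ) (δ : α → ℕ) (u v : FreeMonoid α) :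
    val N δ (u * v) = val N δ u + val N δ v := by
  rw [val_eq, val_eq, val_eq, len_mul, dsum_mul]
  push_cast
  ring

theorem list_sum_le_len (δ : α → ℕ) (N : ℕ) (h : ∀ a, δ a ≤ N) (l : List α) :
    (l.map δ).sum ≤ N * l.length := by
  induction l with
  | nil => simp
  | cons a l ih =>
    simp only [List.map_cons, List.sum_cons, List.length_cons]
    have := h a
    nlinarith

theorem len_le_list_sum (δ : α → ℕ) (h : ∀ a, 1 ≤ δ a) (l : List α) :
    l.length ≤ (l.map δ).sum := by
  induction l with
  | nil => simp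
  | cons a l ih =>
    simp only [List.map_cons, List.sum_cons, List.length_cons]
    have := h a
    omega

theorem word_mem_Vge {N : ℕ} {δ : α → ℕ} {μ : ℤ} {w : FreeMonoid α} (h : μ ≤ val N δ w) :
    (wd w : FA F α) ∈ Vge F N δ μ :=
  Submodule.subset_span (Or.inl ⟨w, h, rfl⟩)

theorem comm_mem_Vge {N : ℕ} {δ : α → ℕ} {μ : ℤ} {u v : FreeMonoid α} {a b : α}
    (h : μ ≤ (N : ℤ) * (len u + len v + 2) - 1) :
    (wd u * (X a * X b - X b * X a) * wd v : FA F α) ∈ Vge F N δ μ :=
  Submodule.subset_span (Or.inr ⟨u, v, a, b, h, rfl⟩)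

theorem span_mul_mem {S T : Set (FA F α)} {P : Submodule F (FA F α)}
    (h : ∀ x ∈ S, ∀ y ∈ T, x * y ∈ P) {x y : FA F α} (hx : x ∈ Submodule.span F S)
    (hy : y ∈ Submodule.span F T) : x * y ∈ P := by
  have h1 : x * y ∈ Submodule.span F S * Submodule.span F T := Submodule.mul_mem_mul hx hy
  rw [Submodule.span_mul_span] at h1
  refine (Submodule.span_le.2 ?_) h1
  rintro _ ⟨s, hs, t, ht, rfl⟩
  exact h s hs t ht

theorem Vge_mul (N : ℕ) (δ : α → ℕ) (μ ν : ℤ) (x y : FA F α) (hx : x ∈ Vge F N δ μ)
    (hy : y ∈ Vge F N δ ν) : x * y ∈ Vge F N δ (μ + ν) := by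
  refine span_mul_mem ?_ hx hy
  rintro x (⟨w, hw, rfl⟩ | ⟨u, v, a, b, huv, rfl⟩) y (⟨w', hw', rfl⟩ | ⟨u', v', c, d, huv', rfl⟩)
  · rw [← Q01_wd_mul]
    refine word_mem_Vge ?_
    rw [val_mul]
    linarith
  · have e : (wd w * (wd u' * (X c * X d - X d * X c) * wd v') : FA F α) =
        wd (w * u') * (X c * X d - X d * X c) * wd v' := by
      rw [Q01_wd_mul]
      noncomm_ring
    rw [e]
    refine comm_mem_Vge ?_
    rw [len_mul]
    rw [val_eq] at hw
    push_cast
    have : (0 : ℤ) ≤ dsum δ w := Int.natCast_nonneg _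
    linarith
  · have e : (wd u * (X a * X b - X b * X a) * wd v * wd w' : FA F α) =
        wd u * (X a * X b - X b * X a) * wd (v * w') := by
      rw [Q01_wd_mul]
      noncomm_ring
    rw [e]
    refine comm_mem_Vge ?_
    rw [len_mul]
    rw [val_eq] at hw'
    push_cast
    have : (0 : ℤ) ≤ dsum δ w' := Int.natCast_nonneg _
    linarith
  · have e : (wd u * (X a * X b - X b * X a) * wd v * (wd u' * (X c * X d - X d * X c) * wd v') :
        FA F α) =
        wd u * (X a * X b - X b * X a) * wd (v * u' * FreeMonoid.of c * FreeMonoid.of d * v') -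
        wd u * (X a * X b - X b * X a) * wd (v * u' * FreeMonoid.of d * FreeMonoid.of c * v') := by
      simp only [Q01_wd_mul]
      change _ = wd u * (X a * X b - X b * X a) * (wd v * wd u' * X c * X d * wd v') -
        wd u * (X a * X b - X b * X a) * (wd v * wd u' * X d * X c * wd v')
      noncomm_ring
    rw [e]
    refine Submodule.sub_mem _ (comm_mem_Vge ?_) (comm_mem_Vge ?_)
    · simp only [len_mul, len_of]
      push_cast
      linarith
    · simp only [len_mul, len_of]
      push_cast
      linarith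

theorem word_mem_Lge {n : ℤ} {w : FreeMonoid α} (h : n ≤ len w) : (wd w : FA F α) ∈ Lge F α n :=
  Submodule.subset_span ⟨w, h, rfl⟩

theorem comm_mem_Lge {n : ℤ} {u v : FreeMonoid α} {a b : α} (h : n ≤ len u + len v + 2) :
    (wd u * (X a * X b - X b * X a) * wd v : FA F α) ∈ Lge F α n := by
  have e : (wd u * (X a * X b - X b * X a) * wd v : FA F α) =
      wd (u * FreeMonoid.of a * FreeMonoid.of b * v) -
      wd (u * FreeMonoid.of b * FreeMonoid.of a * v) := by
    simp only [Q01_wd_mul]
    change _ = wd u * X a * X b * wd v - wd u * X b * X a * wd v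
    noncomm_ring
  rw [e]
  refine Submodule.sub_mem _ (word_mem_Lge ?_) (word_mem_Lge ?_)
  · simp only [len_mul, len_of]
    push_cast
    linarith
  · simp only [len_mul, len_of]
    push_cast
    linarith

theorem rowB1 : RB1 := by
  intro F _ α N δ
  refine ⟨?_, Vge_mul N δ, ?_, ?_, ?_, ?_⟩
  · intro μ ν h
    refine Submodule.span_le.2 ?_
    rintro x (⟨w, hw, rfl⟩ | ⟨u, v, a, b, huv, rfl⟩)
    · exact word_mem_Vge (h.trans hw)
    · exact comm_mem_Vge (h.trans huv)
  · intro h x
    induction x using MonoidAlgebra.induction_on with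
    | of w =>
      refine word_mem_Vge (w := w) ?_
      rw [val_eq]
      have h1 : dsum δ w ≤ N * len w := list_sum_le_len δ N h _
      have h2 : (dsum δ w : ℤ) ≤ N * len w := by exact_mod_cast h1
      linarith
    | add x y hx hy => exact Submodule.add_mem _ hx hy
    | smul r x hx => exact Submodule.smul_mem _ r hx
  · intro a
    refine word_mem_Vge (w := FreeMonoid.of a) ?_
    rw [val_eq, len_of]
    have : dsum δ (FreeMonoid.of a) = δ a := by
      simp only [dsum, FreeMonoid.toList_of, List.map_cons, List.map_nil, List.sum_cons,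
        List.sum_nil, add_zero]
    rw [this]
    push_cast
    linarith
  · intro a b
    have h1 : (X a * X b - X b * X a : FA F α) =
        wd 1 * (X a * X b - X b * X a) * wd 1 := by
      rw [Q01_wd_one, one_mul, mul_one]
    rw [h1]
    refine comm_mem_Vge ?_
    rw [len_one]
    push_cast
    linarith
  · intro n hn hN hδ
    refine Submodule.span_le.2 ?_
    rintro x (⟨w, hw, rfl⟩ | ⟨u, v, a, b, huv, rfl⟩)
    · refine word_mem_Lge ?_
      rw [val_eq] at hw
      have h1 : len w ≤ dsum δ w := len_le_list_sum δ hδ _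
      have h1' : (len w : ℤ) ≤ dsum δ w := by exact_mod_cast h1
      have hN' : (1 : ℤ) ≤ N := by exact_mod_cast hN
      have hn' : (1 : ℤ) ≤ n := by exact_mod_cast hn
      by_contra hc
      push Not at hc
      have h2 : (len w : ℤ) ≤ n := by omega
      rcases h2.lt_or_eq with h3 | h3
      · have h4 : (len w : ℤ) + 1 ≤ n := h3
        have h5 : (0 : ℤ) ≤ dsum δ w := Int.natCast_nonneg _
        nlinarith
      · rw [h3] at hw h1'
        linarith
    · refine comm_mem_Lge ?_
      have hN' : (1 : ℤ) ≤ N := by exact_mod_cast hN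
      by_contra hc
      push Not at hc
      have h2 : ((len u : ℤ) + len v + 2) ≤ n := by omega
      nlinarith

end

end Pool.Agent.RGM
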