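import Mathlib
import Pool.Agent.Lib.RGM.Rows
import Pool.Agent.Lib.RGM.RowB1

/-!
RGM, row B2: exactness of the letters in the `v`-filtration.
-/

set_option autoImplicit false

namespace Pool.Agent.RGM

open scoped Classical
open Pool.Agent.RG.Q (FA wd X Q01_wd_mul Q01_wd_one)

section

variable {F : Type} [Field F] {α : Type}

/-- the content of a word -/
noncomputable def cnt (w : FreeMonoid α) : α →₀ ℕ :=
  Multiset.toFinsupp (FreeMonoid.toList w : Multiset α)

theorem cnt_one : cnt (1 : FreeMonoid α) = 0 := by
  simp only [cnt, FreeMonoid.toList_one, Multiset.coe_nil, map_zero]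

theorem cnt_mul (u v : FreeMonoid α) : cnt (u * v) = cnt u + cnt v := by
  simp only [cnt, FreeMonoid.toList_mul, ← Multiset.coe_add, map_add]

theorem cnt_of (a : α) : cnt (FreeMonoid.of a) = Finsupp.single a 1 := by
  simp only [cnt, FreeMonoid.toList_of, Multiset.coe_singleton, Multiset.toFinsupp_singleton]

theorem ab_wd (w : FreeMonoid α) :
    ab F α (wd w) = MvPolynomial.monomial (cnt w) (1 : F) := by
  have h0 : ab F α (wd w) = FreeMonoid.lift (fun a => (MvPolynomial.X a : MvPolynomial α F)) w := by
    simp only [ab, wd, MonoidAlgebra.of_apply, MonoidAlgebra.lift_single, one_smul]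
  rw [h0]
  clear h0
  induction w using FreeMonoid.recOn with
  | one => rw [map_one, cnt_one]; rfl
  | of_mul a w ih =>
    rw [map_mul, FreeMonoid.lift_eval_of, ih, cnt_mul, cnt_of, MvPolynomial.X,
      MvPolynomial.monomial_mul, one_mul]

theorem ab_X (a : α) : ab F α (X a) = MvPolynomial.X a := by
  rw [X, ab_wd, cnt_of]
  rfl

theorem ab_comm (u v : FreeMonoid α) (a b : α) :
    ab F α (wd u * (X a * X b - X b * X a) * wd v) = 0 := by
  rw [map_mul, map_mul, map_sub, map_mul, map_mul, mul_comm (ab F α (X b)), sub_self, mul_zero,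
    zero_mul]

/-- a word with content `r a` is `a ^ r` -/
theorem eq_replicate_of_cnt {w : FreeMonoid α} {a : α} {r : ℕ}
    (h : cnt w = Finsupp.single a r) : FreeMonoid.toList w = List.replicate r a := by
  have h1 : (FreeMonoid.toList w : Multiset α) = Multiset.replicate r a := by
    have h2 := congrArg Finsupp.toMultiset h
    rw [cnt, Multiset.toFinsupp_toMultiset] at h2
    rw [h2, Finsupp.toMultiset_single, Multiset.nsmul_singleton]
  rw [← Multiset.coe_replicate, Multiset.coe_eq_coe] at h1
  exact (List.perm_replicate.1 h1)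

theorem rowB2 : RB2 := by
  intro F _ α κ f n hM N δ hδ1 hδN a r hr1 hrn y hy hmem
  have hN' : ((n : ℤ) + 1) * δ a < N := by exact_mod_cast hδN a
  have hr' : (1 : ℤ) ≤ r := by exact_mod_cast hr1
  have hrn' : (r : ℤ) ≤ n := by exact_mod_cast hrn
  have hδ' : (1 : ℤ) ≤ δ a := by exact_mod_cast hδ1 a
  have hrδ : (r : ℤ) * δ a < N := by nlinarith
  have hNpos : (0 : ℤ) < N := by nlinarith
  -- y is in Lge r
  have hyL : y ∈ Lge F α r := by
    refine (Submodule.span_le.2 ?_) hy
    rintro x (⟨w, hw, rfl⟩ | ⟨u, v, c, d, huv, rfl⟩)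
    · refine word_mem_Lge ?_
      rw [val_eq] at hw
      have h5 : (0 : ℤ) ≤ dsum δ w := Int.natCast_nonneg _
      by_contra hc
      push Not at hc
      have h6 : (len w : ℤ) + 1 ≤ r := hc
      nlinarith
    · refine comm_mem_Lge ?_
      by_contra hc
      push Not at hc
      have h6 : ((len u : ℤ) + len v + 2) + 1 ≤ r := hc
      nlinarith
  have hXL : (X a : FA F α) ^ r ∈ Lge F α r := by
    have h1 : (X a : FA F α) ^ r = wd (FreeMonoid.of a ^ r) := by
      rw [X, wd, wd, map_pow]
    rw [h1]
    refine word_mem_Lge ?_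
    have h2 : len (FreeMonoid.of a ^ r) = r := by
      clear hmem hy hyL h1 hrδ hr' hrn' hr1 hrn
      induction r with
      | zero => rw [pow_zero, len_one]
      | succ r ih => rw [pow_succ, len_mul, ih, len_of]
    rw [h2]
  have hdeg : ((Finsupp.single a r : α →₀ ℕ).sum fun _ k => k) = r := by
    rw [Finsupp.sum_single_index rfl]
  have h0 := hM r hrn _ (Submodule.sub_mem _ hXL hyL) hmem (Finsupp.single a r) hdeg
  rw [map_sub, MvPolynomial.coeff_sub, map_pow, ab_X, MvPolynomial.coeff_X_pow, if_pos rfl] at h0
  -- the coefficient of y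
  have h1 : MvPolynomial.coeff (Finsupp.single a r) (ab F α y) = 0 := by
    have key : ∀ z ∈ Vge F N δ ((r : ℤ) * ((N : ℤ) - δ a) + 1),
        MvPolynomial.coeff (Finsupp.single a r) (ab F α z) = 0 := by
      intro z hz
      refine Submodule.span_induction (p := fun z _ =>
        MvPolynomial.coeff (Finsupp.single a r) (ab F α z) = 0) ?_ ?_ ?_ ?_ hz
      · rintro x (⟨w, hw, rfl⟩ | ⟨u, v, c, d, huv, rfl⟩)
        · rw [ab_wd, MvPolynomial.coeff_monomial, if_neg]
          intro hc
          have h2 := eq_replicate_of_cnt hc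
          have h3 : len w = r := by rw [len, h2, List.length_replicate]
          have h4 : dsum δ w = r * δ a := by
            rw [dsum, h2, List.map_replicate, List.sum_replicate, smul_eq_mul]
          rw [val_eq, h3, h4] at hw
          push_cast at hw
          nlinarith
        · rw [ab_comm, MvPolynomial.coeff_zero]
      · rw [map_zero, MvPolynomial.coeff_zero]
      · intro x y _ _ hx hy
        rw [map_add, MvPolynomial.coeff_add, hx, hy, add_zero]
      · intro c x _ hx
        rw [map_smul, MvPolynomial.coeff_smul, hx, smul_zero]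
    exact key y hy
  rw [h1, sub_zero] at h0
  exact one_ne_zero h0

end

end Pool.Agent.RGM
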