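import Mathlib
import Pool.Agent.Lib.RGM.Rows
import Pool.Agent.Lib.RGM.RowB1
import Pool.Agent.Lib.RGM.RowB2
import Pool.Agent.Lib.RGM.RowC1
import Pool.Agent.Lib.RGM.RowA3

/-!
RGM, row C2: finite quotients with the `v`-series (adapted from `RG/Q08`): `Q` is the group generated by the
units `1 + X a` of the free algebra modulo `I f n`, `D m` is the set of the `g` with `g - 1` in the image of
`Vge m`.
-/

set_option autoImplicit false
set_option linter.unusedSectionVars false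

namespace Pool.Agent.RGM

open scoped Classical
open Pool.Agent.RG (NpSeries Exact)
open Pool.Agent.RG.Q (FA wd X qd ex)

section

variable {F : Type} [Field F] {α κ : Type}

private theorem c2_len_mul (v w : FreeMonoid α) : len (v * w) = len v + len w := by
  simp [len, FreeMonoid.toList_mul]

private theorem c2_wd_mul (v w : FreeMonoid α) :
    (wd v * wd w : FA F α) = wd (v * w) := (map_mul _ _ _).symm

private theorem c2_top (x : FA F α) : x ∈ Submodule.span F (Set.range (wd : _ → FA F α)) := by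
  induction x using MonoidAlgebra.induction_on with
  | of w => exact Submodule.subset_span ⟨w, rfl⟩
  | add f g hf hg => exact Submodule.add_mem _ hf hg
  | smul r f hf => exact Submodule.smul_mem _ _ hf

private theorem c2_Lge_le_I (f : κ → FA F α) {k a : ℤ} (h : k < a) {x : FA F α}
    (hx : x ∈ Lge F α a) : x ∈ I f k := by
  refine Submodule.span_induction ?_ ?_ ?_ ?_ hx
  · rintro _ ⟨w, hw, rfl⟩
    exact Ideal.subset_span (Or.inr ⟨w, by omega, rfl⟩)
  · exact Submodule.zero_mem _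
  · intro y z _ _ hy hz
    exact Submodule.add_mem _ hy hz
  · intro c y _ hy
    exact (I f k).smul_of_tower_mem c hy

private theorem c2_I_mul_wd (f : κ → FA F α) (k : ℤ) {x : FA F α} (hx : x ∈ I f k)
    (v : FreeMonoid α) : x * wd v ∈ I f k := by
  refine Submodule.span_induction ?_ ?_ ?_ ?_ hx
  · rintro x (⟨i, w, rfl⟩ | ⟨w, hw, rfl⟩)
    · rw [mul_assoc, c2_wd_mul]
      exact Ideal.subset_span (Or.inl ⟨i, w * v, rfl⟩)
    · rw [c2_wd_mul]
      refine Ideal.subset_span (Or.inr ⟨w * v, ?_, rfl⟩)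
      rw [c2_len_mul]
      push_cast
      omega
  · rw [zero_mul]
    exact Submodule.zero_mem _
  · intro y z _ _ hy hz
    rw [add_mul]
    exact Submodule.add_mem _ hy hz
  · intro c y _ hy
    rw [smul_mul_assoc]
    exact Submodule.smul_mem _ _ hy

private instance c2_twoSided (f : κ → FA F α) (k : ℤ) : (I f k).IsTwoSided := by
  constructor
  intro a b ha
  refine Submodule.span_induction (p := fun b _ => a * b ∈ I f k) ?_ ?_ ?_ ?_ (c2_top b)
  · rintro _ ⟨v, rfl⟩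
    exact c2_I_mul_wd f k ha v
  · rw [mul_zero]
    exact Submodule.zero_mem _
  · intro y z _ _ hy hz
    rw [mul_add]
    exact Submodule.add_mem _ hy hz
  · intro c y _ hy
    rw [mul_smul_comm]
    exact (I f k).smul_of_tower_mem c hy

/-- a filtration with values larger than `M` in the ideal -/
private structure C2Fil (V : ℤ → Submodule F (FA F α)) (f : κ → FA F α) (n M : ℕ) : Prop where
  anti : ∀ μ ν : ℤ, μ ≤ ν → V ν ≤ V μ
  mul : ∀ (μ ν : ℤ) (x y : FA F α), x ∈ V μ → y ∈ V ν → x * y ∈ V (μ + ν)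
  zero : ∀ x, x ∈ V 0
  bot : ∀ μ : ℤ, (M : ℤ) < μ → ∀ x ∈ V μ, x ∈ I f n

end

section

variable {α κ : Type} {p : ℕ} [Fact p.Prime]

/-- the finite algebra -/
private abbrev C2A (f : κ → FA (ZMod p) α) (n : ℕ) : Type := FA (ZMod p) α ⧸ I f (n : ℤ)

variable (V : ℤ → Submodule (ZMod p) (FA (ZMod p) α)) (f : κ → FA (ZMod p) α) (n : ℕ)

/-- the filtration of the finite algebra -/
private noncomputable def c2_I (a : ℤ) : AddSubgroup (C2A f n) :=
  (V a).toAddSubgroup.map (Ideal.Quotient.mk (I f (n : ℤ))).toAddMonoidHom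

variable {V f n} {M : ℕ} (hV : C2Fil V f n M)

include hV

private theorem c2_I_mul {a b : ℤ} {x y : C2A f n} (hx : x ∈ c2_I V f n a)
    (hy : y ∈ c2_I V f n b) : x * y ∈ c2_I V f n (a + b) := by
  obtain ⟨x', hx', rfl⟩ := hx
  obtain ⟨y', hy', rfl⟩ := hy
  exact ⟨x' * y', hV.mul _ _ _ _ hx' hy', map_mul (Ideal.Quotient.mk (I f (n : ℤ))) x' y'⟩

private theorem c2_I_zero (x : C2A f n) : x ∈ c2_I V f n 0 := by
  obtain ⟨y, rfl⟩ := Ideal.Quotient.mk_surjective x
  exact ⟨y, hV.zero y, rfl⟩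

private theorem c2_I_anti {a b : ℤ} (h : a ≤ b) {x : C2A f n} (hx : x ∈ c2_I V f n b) :
    x ∈ c2_I V f n a := by
  obtain ⟨x', hx', rfl⟩ := hx
  exact ⟨x', hV.anti _ _ h hx', rfl⟩

private theorem c2_I_bot {a : ℤ} (h : (M : ℤ) < a) {x : C2A f n} (hx : x ∈ c2_I V f n a) :
    x = 0 := by
  obtain ⟨x', hx', rfl⟩ := hx
  exact Ideal.Quotient.eq_zero_iff_mem.2 (hV.bot _ h _ hx')

private theorem c2_I_mul_left {a : ℤ} (x : C2A f n) {y : C2A f n}
    (hy : y ∈ c2_I V f n a) : x * y ∈ c2_I V f n a := by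
  have := c2_I_mul hV (c2_I_zero hV x) hy
  rwa [zero_add] at this

private theorem c2_I_mul_right {a : ℤ} (x : C2A f n) {y : C2A f n}
    (hy : y ∈ c2_I V f n a) : y * x ∈ c2_I V f n a := by
  have := c2_I_mul hV hy (c2_I_zero hV x)
  rwa [add_zero] at this

private theorem c2_I_pow {a : ℤ} {x : C2A f n} (hx : x ∈ c2_I V f n a) (r : ℕ) :
    x ^ r ∈ c2_I V f n (r * a) := by
  induction r with
  | zero =>
    rw [Nat.cast_zero, zero_mul]
    exact c2_I_zero hV _
  | succ r ih =>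
    rw [pow_succ]
    have := c2_I_mul hV ih hx
    have h : ((r + 1 : ℕ) : ℤ) * a = r * a + a := by push_cast; ring
    rw [h]
    exact this

/-- the series of subgroups of the unit group -/
private noncomputable def c2_D (a : ℕ) : Subgroup (C2A f n)ˣ where
  carrier := {g | (g : C2A f n) - 1 ∈ c2_I V f n a}
  one_mem' := by
    show ((1 : (C2A f n)ˣ) : C2A f n) - 1 ∈ c2_I V f n a
    rw [Units.val_one, sub_self]
    exact AddSubgroup.zero_mem _
  mul_mem' := by
    intro g h hg hh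
    have hg' : (g : C2A f n) - 1 ∈ c2_I V f n a := hg
    have hh' : (h : C2A f n) - 1 ∈ c2_I V f n a := hh
    show ((g * h : (C2A f n)ˣ) : C2A f n) - 1 ∈ c2_I V f n a
    have h1 : ((g * h : (C2A f n)ˣ) : C2A f n) - 1 =
        (g : C2A f n) * ((h : C2A f n) - 1) + ((g : C2A f n) - 1) := by
      rw [Units.val_mul]
      noncomm_ring
    rw [h1]
    exact AddSubgroup.add_mem _ (c2_I_mul_left hV _ hh') hg'
  inv_mem' := by
    intro g hg
    have hg' : (g : C2A f n) - 1 ∈ c2_I V f n a := hg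
    show ((g⁻¹ : (C2A f n)ˣ) : C2A f n) - 1 ∈ c2_I V f n a
    have h1 : ((g⁻¹ : (C2A f n)ˣ) : C2A f n) - 1 =
        -(((g⁻¹ : (C2A f n)ˣ) : C2A f n) * ((g : C2A f n) - 1)) := by
      rw [mul_sub, Units.inv_mul]
      noncomm_ring
    rw [h1]
    exact AddSubgroup.neg_mem _ (c2_I_mul_left hV _ hg')

private theorem c2_mem_D {a : ℕ} {g : (C2A f n)ˣ} :
    g ∈ c2_D hV a ↔ (g : C2A f n) - 1 ∈ c2_I V f n a := Iff.rfl

private theorem c2_D_anti {a b : ℕ} (h : a ≤ b) : c2_D hV b ≤ c2_D hV a :=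
  fun _ hg => c2_I_anti hV (Int.ofNat_le.2 h) hg

private theorem c2_D_bot {a : ℕ} (h : M < a) {g : (C2A f n)ˣ} (hg : g ∈ c2_D hV a) :
    g = 1 := by
  have := c2_I_bot hV (Int.ofNat_lt.2 h) hg
  exact Units.ext (sub_eq_zero.1 this)

private theorem c2_comm_sub (g h : (C2A f n)ˣ) :
    ((g * h * g⁻¹ * h⁻¹ : (C2A f n)ˣ) : C2A f n) - 1 =
      (((g : C2A f n) - 1) * ((h : C2A f n) - 1) -
        ((h : C2A f n) - 1) * ((g : C2A f n) - 1)) *
        ((g⁻¹ * h⁻¹ : (C2A f n)ˣ) : C2A f n) := by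
  have h2 : ((g : C2A f n) - 1) * ((h : C2A f n) - 1) -
      ((h : C2A f n) - 1) * ((g : C2A f n) - 1) =
      ((g * h : (C2A f n)ˣ) : C2A f n) - ((h * g : (C2A f n)ˣ) : C2A f n) := by
    rw [Units.val_mul, Units.val_mul]
    noncomm_ring
  have h3 : (h * g) * (g⁻¹ * h⁻¹) = 1 := by group
  rw [h2, sub_mul, ← Units.val_mul, ← Units.val_mul, h3, Units.val_one]
  congr 2
  group

private theorem c2_D_comm {a b : ℕ} {g h : (C2A f n)ˣ} (hg : g ∈ c2_D hV a)
    (hh : h ∈ c2_D hV b) : g * h * g⁻¹ * h⁻¹ ∈ c2_D hV (a + b) := by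
  rw [c2_mem_D] at hg hh ⊢
  rw [c2_comm_sub hV]
  refine c2_I_mul_right hV _ (AddSubgroup.sub_mem _ ?_ ?_)
  · have := c2_I_mul hV hg hh
    push_cast
    exact this
  · have := c2_I_mul hV hh hg
    rw [add_comm] at this
    push_cast
    exact this

omit hV in
private theorem c2_surj (f : κ → FA (ZMod p) α) (n : ℕ) (x : C2A f n)
    (hfin : Finite {w : FreeMonoid α // len w ≤ n}) :
    ∃ c : {w : FreeMonoid α // len w ≤ n} → ZMod p,
      Ideal.Quotient.mk (I f (n : ℤ)) (∑ᶠ w, c w • wd (w : FreeMonoid α)) = x := by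
  have := Fintype.ofFinite {w : FreeMonoid α // len w ≤ n}
  obtain ⟨y, rfl⟩ := Ideal.Quotient.mk_surjective x
  refine Submodule.span_induction (p := fun y _ => ∃ c : {w : FreeMonoid α // len w ≤ n} →
    ZMod p, Ideal.Quotient.mk (I f (n : ℤ)) (∑ᶠ w, c w • wd (w : FreeMonoid α)) =
      Ideal.Quotient.mk (I f (n : ℤ)) y) ?_ ?_ ?_ ?_ (c2_top y)
  · rintro _ ⟨w, rfl⟩
    by_cases hw : len w ≤ n
    · refine ⟨Pi.single ⟨w, hw⟩ 1, ?_⟩
      rw [finsum_eq_sum_of_fintype]
      congr 1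
      rw [Finset.sum_eq_single ⟨w, hw⟩]
      · simp
      · intro b _ hb
        rw [Pi.single_eq_of_ne hb, zero_smul]
      · intro h
        exact absurd (Finset.mem_univ _) h
    · refine ⟨0, ?_⟩
      have h1 : Ideal.Quotient.mk (I f (n : ℤ)) (wd w) = 0 :=
        Ideal.Quotient.eq_zero_iff_mem.2 (Ideal.subset_span (Or.inr ⟨w, by omega, rfl⟩))
      rw [h1]
      simp
  · exact ⟨0, by simp⟩
  · rintro y z - - ⟨c, hc⟩ ⟨d, hd⟩
    refine ⟨c + d, ?_⟩
    rw [map_add, ← hc, ← hd, ← map_add]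
    congr 1
    rw [finsum_eq_sum_of_fintype, finsum_eq_sum_of_fintype, finsum_eq_sum_of_fintype,
      ← Finset.sum_add_distrib]
    exact Finset.sum_congr rfl fun w _ => add_smul _ _ _
  · rintro a y - ⟨c, hc⟩
    refine ⟨a • c, ?_⟩
    have h1 : ∀ z : FA (ZMod p) α, Ideal.Quotient.mk (I f (n : ℤ)) (a • z) =
        Ideal.Quotient.mk (I f (n : ℤ)) (algebraMap (ZMod p) _ a) *
          Ideal.Quotient.mk (I f (n : ℤ)) z := by
      intro z
      rw [Algebra.smul_def, map_mul]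
    rw [h1, ← hc, ← h1]
    congr 1
    rw [finsum_eq_sum_of_fintype, finsum_eq_sum_of_fintype, Finset.smul_sum]
    exact Finset.sum_congr rfl fun w _ => by rw [Pi.smul_apply, smul_assoc]

end

private theorem c2_ab_quad {p : ℕ} [Fact p.Prime] {α κ : Type} [Fintype α] (cx cy : κ → α → ZMod p)
    (j : κ) : ab (ZMod p) α (quad (qd cx cy) j) = 0 := by
  have h : quad (qd cx cy) j =
      (∑ a, cy j a • (X a : FA (ZMod p) α)) * (∑ a, cx j a • X a) -
        (∑ a, cx j a • (X a : FA (ZMod p) α)) * (∑ a, cy j a • X a) := by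
    rw [Finset.sum_mul_sum, Finset.sum_mul_sum, ← Finset.sum_sub_distrib]
    refine Finset.sum_congr rfl fun a _ => ?_
    rw [← Finset.sum_sub_distrib]
    refine Finset.sum_congr rfl fun b _ => ?_
    rw [qd, sub_smul, smul_mul_smul_comm, smul_mul_smul_comm]
  rw [h, map_sub, map_mul, map_mul, mul_comm, sub_self]

private theorem c2_ab_Lge {F : Type} [Field F] {α : Type} {m : ℤ} {y : FA F α}
    (hy : y ∈ Lge F α m) (e : α →₀ ℕ) (he : ((e.sum fun _ k => k : ℕ) : ℤ) < m) :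
    MvPolynomial.coeff e (ab F α y) = 0 := by
  induction hy using Submodule.span_induction with
  | mem x hx =>
    obtain ⟨w, hw, rfl⟩ := hx
    rw [ab_wd, MvPolynomial.coeff_monomial, if_neg]
    rintro rfl
    have h1 : ((cnt w).sum fun _ k => k) = len w := by
      have h2 := Multiset.toFinsupp_sum_eq (FreeMonoid.toList w : Multiset α)
      exact h2
    rw [h1] at he
    omega
  | zero => rw [map_zero, MvPolynomial.coeff_zero]
  | add y z _ _ hy hz => rw [map_add, MvPolynomial.coeff_add, hy, hz, add_zero]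
  | smul c y _ hy => rw [map_smul, MvPolynomial.coeff_smul, hy, smul_zero]

private theorem c2_finite {α : Type} [Finite α] (n : ℕ) :
    Finite {w : FreeMonoid α // len w ≤ n} := by
  have h : Set.Finite {l : List α | l.length ≤ n} := List.finite_length_le α n
  have h' : Finite {l : List α | l.length ≤ n} := h.to_subtype
  exact Finite.of_injective
    (fun w : {w : FreeMonoid α // len w ≤ n} =>
      (⟨FreeMonoid.toList w.1, w.2⟩ : {l : List α | l.length ≤ n}))
    (fun a b h => Subtype.ext (FreeMonoid.toList.injective (congrArg Subtype.val h)))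

theorem rowC2' (hA3 : RA3) : RC2 := by
  intro p _ hp α κ _ _ _ cx cy hM wx wy q hq hx hy δ hδ n N hn hN
  obtain ⟨f, hf, hrel⟩ := rowC1 p hp cx cy wx wy q hq hx hy n
  have hP : ∀ m : ℕ, PropM f m := hA3 (qd cx cy) (c2_ab_quad cx cy) hM f hf
  obtain ⟨hanti, hmul, hz0, hX, hXX, hL⟩ := rowB1 (F := ZMod p) (α := α) N δ
  have hδN : ∀ a, δ a < N := fun a => by
    have := hN a
    nlinarith [hδ a]
  have hN1 : 1 ≤ N := by
    have := hδN (Classical.arbitrary α)
    omega
  have hNn : 1 ≤ N * n := Nat.mul_pos hN1 hn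
  have hV : C2Fil (Vge (ZMod p) N δ) f n (N * n - 1) := by
    refine ⟨hanti, hmul, hz0 fun a => (hδN a).le, fun μ hμ x hx => ?_⟩
    have h1 : ((N : ℤ) * n) ≤ μ := by
      have h2 : ((N * n - 1 : ℕ) : ℤ) = (N : ℤ) * n - 1 := by
        push_cast [Nat.cast_sub hNn]
        ring
      omega
    exact c2_Lge_le_I f (by omega : (n : ℤ) < (n : ℤ) + 1) (hL n hn hN1 hδ (hanti _ _ h1 hx))
  have hpp : p.Prime := Fact.out
  -- finiteness
  have hfinw : Finite {w : FreeMonoid α // len w ≤ n} := c2_finite n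
  have hsur : Function.Surjective fun c : {w : FreeMonoid α // len w ≤ n} → ZMod p =>
      Ideal.Quotient.mk (I f (n : ℤ)) (∑ᶠ w, c w • wd (w : FreeMonoid α)) :=
    fun x => c2_surj f n x hfinw
  have hfinA : Finite (C2A f n) := Finite.of_surjective _ hsur
  have hcardA : Nat.card (C2A f n) ≤ MNbd p α n := by
    have h1 := Nat.card_le_card_of_surjective _ hsur
    rwa [Nat.card_fun, Nat.card_zmod] at h1
  -- characteristic
  have hone : (1 : FA (ZMod p) α) ∉ I f (n : ℤ) := by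
    intro h1
    have h2 : (1 : FA (ZMod p) α) ∈ Lge (ZMod p) α ((0 : ℕ) : ℤ) :=
      Submodule.subset_span ⟨1, by simp, by rw [wd, map_one]⟩
    have h3 := hP n 0 (Nat.zero_le _) 1 h2 h1 0 (by simp)
    rw [map_one, MvPolynomial.coeff_zero_one] at h3
    exact one_ne_zero h3
  have hnt : Nontrivial (C2A f n) := by
    refine ⟨⟨Ideal.Quotient.mk (I f (n : ℤ)) 1, 0, fun h => hone ?_⟩⟩
    exact Ideal.Quotient.eq_zero_iff_mem.1 h
  have hchar : CharP (C2A f n) p :=
    charP_of_injective_ringHom ((Ideal.Quotient.mk (I f (n : ℤ))).comp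
      (algebraMap (ZMod p) (FA (ZMod p) α))).injective p
  have hpow : ∀ (g : C2A f n) (k : ℕ), g ^ p ^ k - 1 = (g - 1) ^ p ^ k := by
    intro g k
    rw [sub_pow_char_pow_of_commute p k (Commute.one_right g), one_pow]
  have hcast : ∀ a, ((N - δ a : ℕ) : ℤ) = (N : ℤ) - δ a := fun a => by
    rw [Nat.cast_sub (hδN a).le]
  -- the units
  have hnil : ∀ i, IsNilpotent (Ideal.Quotient.mk (I f (n : ℤ)) (X i)) := by
    intro i
    refine ⟨N * n, c2_I_bot hV (a := ((N * n : ℕ) : ℤ) * ((N : ℤ) - δ i)) ?_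
      (c2_I_pow hV ?_ (N * n))⟩
    · have h1 : (1 : ℤ) ≤ (N : ℤ) - δ i := by
        have := hδN i
        omega
      have h2 : ((N * n : ℕ) : ℤ) * 1 ≤ ((N * n : ℕ) : ℤ) * ((N : ℤ) - δ i) :=
        mul_le_mul_of_nonneg_left h1 (by positivity)
      refine lt_of_lt_of_le ?_ h2
      rw [mul_one]
      exact_mod_cast Nat.sub_lt hNn one_pos
    · exact ⟨X i, hX i, rfl⟩
  let u : α → (C2A f n)ˣ := fun i => (hnil i).isUnit_one_add.unit
  have hu : ∀ i, (u i : C2A f n) = 1 + Ideal.Quotient.mk (I f (n : ℤ)) (X i) :=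
    fun i => (hnil i).isUnit_one_add.unit_spec
  have hu1 : ∀ i, (u i : C2A f n) - 1 = Ideal.Quotient.mk (I f (n : ℤ)) (X i) := by
    intro i
    rw [hu, add_sub_cancel_left]
  have huD : ∀ i, u i ∈ c2_D hV (N - δ i) := by
    intro i
    rw [c2_mem_D, hu1, hcast]
    exact ⟨X i, hX i, rfl⟩
  let Q : Subgroup (C2A f n)ˣ := Subgroup.closure (Set.range u)
  let ξ : α → Q := fun i => ⟨u i, Subgroup.subset_closure ⟨i, rfl⟩⟩
  have hQ1 : Q ≤ c2_D hV 1 := by
    rw [Subgroup.closure_le]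
    rintro _ ⟨i, rfl⟩
    refine c2_D_anti hV ?_ (huD i)
    have := hδN i
    omega
  have hlift : ∀ v : FreeGroup α, ((FreeGroup.lift ξ v : Q) : (C2A f n)ˣ) =
      FreeGroup.lift u v := by
    intro v
    have : Q.subtype.comp (FreeGroup.lift ξ) = FreeGroup.lift u := by
      refine FreeGroup.ext_hom _ _ fun i => ?_
      simp [ξ]
    exact DFunLike.congr_fun this v
  refine ⟨Q, inferInstance, inferInstance, ξ, fun a => (c2_D hV a).subgroupOf Q, ?_, ?_, ?_, ?_,
    ⟨?_, ?_, ?_, ?_, ?_⟩, ?_, ?_, ?_⟩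
  · intro g
    refine ⟨N * n, Subtype.ext ?_⟩
    refine c2_D_bot hV (a := N * n) (by omega) (g := ((g ^ p ^ (N * n) : Q) : (C2A f n)ˣ)) ?_
    rw [c2_mem_D, Subgroup.coe_pow, Units.val_pow_eq_pow_val, hpow]
    have h1 : ((g : (C2A f n)ˣ) : C2A f n) - 1 ∈ c2_I (Vge (ZMod p) N δ) f n ((1 : ℕ) : ℤ) :=
      hQ1 g.2
    refine c2_I_anti hV ?_ (c2_I_pow hV h1 (p ^ (N * n)))
    have h2 : N * n ≤ p ^ (N * n) := (Nat.lt_pow_self hpp.one_lt).le
    have h3 : ((N * n : ℕ) : ℤ) ≤ ((p ^ (N * n) : ℕ) : ℤ) := by exact_mod_cast h2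
    rw [Nat.cast_one, mul_one]
    exact h3
  · refine le_trans (Nat.card_le_card_of_injective
      (fun g : Q => ((g : (C2A f n)ˣ) : C2A f n)) ?_) hcardA
    intro g h hgh
    exact Subtype.ext (Units.ext hgh)
  · have h1 : Set.range ξ = ((↑) : Q → (C2A f n)ˣ) ⁻¹' Set.range u := by
      ext g
      constructor
      · rintro ⟨i, rfl⟩
        exact ⟨i, rfl⟩
      · rintro ⟨i, hi⟩
        exact ⟨i, Subtype.ext hi⟩
    rw [h1]
    exact Subgroup.closure_closure_coe_preimage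
  · intro i
    refine Subtype.ext ?_
    have h1 := hrel (C2A f n) (Ideal.Quotient.mk (I f (n : ℤ)))
      (fun x hx => Ideal.Quotient.eq_zero_iff_mem.2 hx) u hu i
    rw [Subgroup.coe_mul, Subgroup.coe_mul, Subgroup.coe_inv, Subgroup.coe_pow, hlift, hlift]
    exact h1
  · intro a b hab g hg
    exact c2_D_anti hV hab hg
  · rw [Subgroup.subgroupOf_eq_top]
    exact hQ1
  · rw [eq_bot_iff]
    intro g hg
    exact Subtype.ext (c2_D_bot hV (Nat.lt_succ_self _) hg)
  · intro a b g hg h hh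
    exact c2_D_comm hV hg hh
  · intro a g hg
    have hg' : ((g : (C2A f n)ˣ) : C2A f n) - 1 ∈ c2_I (Vge (ZMod p) N δ) f n a := hg
    show ((g ^ p : Q) : (C2A f n)ˣ) ∈ c2_D hV (p * a)
    rw [c2_mem_D, Subgroup.coe_pow, Units.val_pow_eq_pow_val]
    have h1 := hpow ((g : (C2A f n)ˣ) : C2A f n) 1
    rw [pow_one] at h1
    rw [h1]
    have h2 := c2_I_pow hV hg' p
    push_cast
    exact h2
  · intro i
    refine ⟨huD i, fun k hk hmem => ?_⟩
    have hkn : p ^ k ≤ n := by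
      by_contra hcon
      push Not at hcon
      have h1 : (N - δ i) * (n + 1) ≤ (N - δ i) * p ^ k := Nat.mul_le_mul_left _ hcon
      have h2 : (N - δ i) * (n + 1) ≤ N * n - 1 := h1.trans hk
      have h3 := hN i
      have h4 := (hδN i).le
      zify [h4, hNn] at h2 h3
      nlinarith
    have h1 : ((u i ^ p ^ k : (C2A f n)ˣ) : C2A f n) - 1 ∈
      c2_I (Vge (ZMod p) N δ) f n (((N - δ i) * p ^ k + 1 : ℕ) : ℤ) := hmem
    rw [Units.val_pow_eq_pow_val, hpow, hu1, ← map_pow] at h1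
    obtain ⟨y, hy, hyx⟩ := h1
    have h2 : X i ^ p ^ k - y ∈ I f (n : ℤ) := by
      rw [← Ideal.Quotient.eq_zero_iff_mem, map_sub, sub_eq_zero]
      exact hyx.symm
    refine rowB2 f n (hP n) N δ hδ hN i (p ^ k) (Nat.one_le_pow _ _ hpp.pos) hkn y ?_ h2
    have h3 : (((N - δ i) * p ^ k + 1 : ℕ) : ℤ) =
        ((p ^ k : ℕ) : ℤ) * ((N : ℤ) - δ i) + 1 := by
      rw [Nat.cast_add, Nat.cast_mul, hcast, Nat.cast_one, mul_comm]
    rw [h3] at hy
    exact hy
  · intro a b
    show ((ξ a * ξ b * (ξ a)⁻¹ * (ξ b)⁻¹ : Q) : (C2A f n)ˣ) ∈ c2_D hV (2 * N - 1)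
    have h0 : ((ξ a * ξ b * (ξ a)⁻¹ * (ξ b)⁻¹ : Q) : (C2A f n)ˣ) =
        u a * u b * (u a)⁻¹ * (u b)⁻¹ := rfl
    rw [h0, c2_mem_D, c2_comm_sub hV]
    refine c2_I_mul_right hV _ ?_
    rw [hu1, hu1, ← map_mul, ← map_mul, ← map_sub]
    have h3 : ((2 * N - 1 : ℕ) : ℤ) = 2 * (N : ℤ) - 1 := by
      push_cast [Nat.cast_sub (by omega : 1 ≤ 2 * N)]
      ring
    rw [h3]
    exact ⟨_, hXX a b, rfl⟩
  · rintro w ⟨a₁, ha₁⟩ k hk hw1
    obtain ⟨g, hg, hgu⟩ := c1_word p n w
    have h1 := hgu (C2A f n) (Ideal.Quotient.mk (I f (n : ℤ)))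
      (fun v hv => Ideal.Quotient.eq_zero_iff_mem.2
        (Ideal.subset_span (Or.inr ⟨v, by exact_mod_cast hv, rfl⟩))) u hu
    let c : α → ZMod p := fun a => (Multiplicative.toAdd (ex p a w) : ZMod p)
    have hc₁ : c a₁ ≠ 0 := by
      intro h0
      apply ha₁
      have h2 : Multiplicative.ofAdd (Multiplicative.toAdd (ex p a₁ w)) = 1 := by
        change Multiplicative.ofAdd (c a₁) = 1
        rw [h0, ofAdd_zero]
      rwa [ofAdd_toAdd] at h2
    have hlin : ∑ a, c a • (X a : FA (ZMod p) α) ∈ Lge (ZMod p) α 1 :=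
      Submodule.sum_mem _ fun a _ => Submodule.smul_mem _ _ (c1_X a)
    have hy1 : (∑ a, c a • (X a : FA (ZMod p) α) + g) ^ p ^ k ∈
        Lge (ZMod p) α ((p ^ k : ℕ) : ℤ) := by
      have h2 := c1_pow (Submodule.add_mem _ hlin (c1_anti (by norm_num) hg)) (p ^ k)
      rwa [mul_one] at h2
    have hy2 : (∑ a, c a • (X a : FA (ZMod p) α) + g) ^ p ^ k ∈ I f (n : ℤ) := by
      rw [← Ideal.Quotient.eq_zero_iff_mem, map_pow]
      have h2 : Ideal.Quotient.mk (I f (n : ℤ)) (∑ a, c a • X a + g) =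
          ((FreeGroup.lift u w : (C2A f n)ˣ) : C2A f n) - 1 := by
        rw [h1, add_assoc, map_add _ 1, map_one, add_sub_cancel_left]
      have h3 : (FreeGroup.lift u w) ^ p ^ k = 1 := by
        rw [← hlift]
        have h4 := congrArg (fun x : Q => (x : (C2A f n)ˣ)) hw1
        exact h4
      rw [h2, ← hpow, ← Units.val_pow_eq_pow_val, h3, Units.val_one, sub_self]
    have hpk : 0 < p ^ k := pow_pos hpp.pos k
    have h5 := hP n (p ^ k) hk _ hy1 hy2 (Finsupp.single a₁ (p ^ k)) (by simp)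
    have hcp : CharP (MvPolynomial α (ZMod p)) p := inferInstance
    rw [map_pow, map_add, add_pow_char_pow, ← map_pow (ab (ZMod p) α) g, map_sum,
      sum_pow_char_pow, MvPolynomial.coeff_add, MvPolynomial.coeff_sum] at h5
    have h7 : (((Finsupp.single a₁ (p ^ k)).sum fun _ k => k : ℕ) : ℤ) <
        ((p ^ k : ℕ) : ℤ) * 2 := by
      rw [Finsupp.sum_single_index rfl]
      omega
    rw [c2_ab_Lge (c1_pow hg (p ^ k)) _ h7, add_zero, Finset.sum_eq_single a₁] at h5
    · rw [map_smul, ab_X, smul_pow, MvPolynomial.coeff_smul, MvPolynomial.coeff_X_pow,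
        if_pos rfl, smul_eq_mul, mul_one] at h5
      exact hc₁ (pow_eq_zero_iff hpk.ne' |>.1 h5)
    · intro b _ hb
      rw [map_smul, ab_X, smul_pow, MvPolynomial.coeff_smul, MvPolynomial.coeff_X_pow,
        if_neg, smul_zero]
      intro h6
      exact hb (Finsupp.single_left_injective hpk.ne' h6)
    · intro h6
      exact absurd (Finset.mem_univ _) h6

theorem rowC2 : RC2 := rowC2' rowA3

end Pool.Agent.RGM
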