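import Mathlib
import Pool.Agent.Lib.RGM.Rows
import Pool.Agent.Lib.RG.Q15

/-!
RGM, row D: the leading form of the relations on derivations (extracted from `Q15_relation`).
-/

set_option autoImplicit false

namespace Pool.Agent.RGM

open scoped Classical
open Pool.Agent.RG (GA dl Ef Exact NpSeries IsDer LocConst GenBy P09_anti P09_dl P09_mul)
open Pool.Agent.RG.Q (FA wd X KD qd ex Q15_word V15_tame)

theorem rowD : RD := by
  intro p _ hp α κ _ _ G _ _ _ K Q _ _ n D hD W hDW φ hφ δ hδ hc t htW j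
  have hwd := Q15_word p G K W D hDW φ hφ δ hδ hc t htW
  have hdlW : ∀ g : Q, dl p g ∈ Ef p D W := fun g => P09_dl p D W g (by rw [hDW]; trivial)
  set cx : κ → α → ZMod p := fun j a => Multiplicative.toAdd (K.χ a (K.x j)) with hcx
  set cy : κ → α → ZMod p := fun j a => Multiplicative.toAdd (K.χ a (K.y j)) with hcy
  have hmulδ : ∀ (a : ℤ) (u v : GA p Q) (b : ℤ), t + 3 * W ≤ a + b → u ∈ Ef p D a →
      v ∈ Ef p D b → u * v ∈ Ef p D (t + 3 * W) := by
    intro a u v b hab hu hv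
    exact P09_anti p D hab (P09_mul p D a b u v hu hv)
  obtain ⟨hx1, hx2, hx3⟩ := hwd (K.x j)
  obtain ⟨hy1, hy2, hy3⟩ := hwd (K.y j)
  have h1 := V15_tame p hp n D hD W hDW φ δ hδ (K.x j) (K.y j) (K.q j) (K.hq j) (K.tame j) t
    hx3 hy3
  change dl p (φ (K.x j)) - ∑ a, cx j a • dl p (φ (K.z a)) ∈ _ at hx1
  change δ (K.x j) - ∑ a, cx j a • δ (K.z a) ∈ _ at hx2
  change dl p (φ (K.y j)) - ∑ a, cy j a • dl p (φ (K.z a)) ∈ _ at hy1
  change δ (K.y j) - ∑ a, cy j a • δ (K.z a) ∈ _ at hy2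
  set ξx := dl p (φ (K.x j)) with hξx
  set ξy := dl p (φ (K.y j)) with hξy
  set Lx := ∑ a, cx j a • dl p (φ (K.z a)) with hLx
  set Ly := ∑ a, cy j a • dl p (φ (K.z a)) with hLy
  set Mx := ∑ a, cx j a • δ (K.z a) with hMx
  set My := ∑ a, cy j a • δ (K.z a) with hMy
  have hLxm : Lx ∈ Ef p D W :=
    Submodule.sum_mem _ fun a _ => Submodule.smul_mem _ _ (hdlW _)
  have hLym : Ly ∈ Ef p D W :=
    Submodule.sum_mem _ fun a _ => Submodule.smul_mem _ _ (hdlW _)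
  have e1 := hmulδ (2 * W) _ _ (t + W) (by linarith) hy1 hx3
  have e2 := hmulδ (2 * W) _ _ (t + W) (by linarith) hx1 hy3
  have e3 := hmulδ W _ _ (t + 2 * W) (by linarith) hLym hx2
  have e4 := hmulδ W _ _ (t + 2 * W) (by linarith) hLxm hy2
  have e5 : ∑ a, ∑ b, qd cx cy j a b • (dl p (φ (K.z a)) * δ (K.z b)) = Ly * Mx - Lx * My := by
    rw [hLx, hLy, hMx, hMy, Finset.sum_mul_sum, Finset.sum_mul_sum, ← Finset.sum_sub_distrib]
    refine Finset.sum_congr rfl fun a _ => ?_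
    rw [← Finset.sum_sub_distrib]
    refine Finset.sum_congr rfl fun b _ => ?_
    rw [qd, sub_smul, smul_mul_smul_comm, smul_mul_smul_comm]
  have e6 : Ly * Mx - Lx * My = (ξy * δ (K.x j) - ξx * δ (K.y j)) -
      (ξy - Ly) * δ (K.x j) + (ξx - Lx) * δ (K.y j) - Ly * (δ (K.x j) - Mx) +
      Lx * (δ (K.y j) - My) := by
    noncomm_ring
  rw [e5, e6]
  exact Submodule.add_mem _ (Submodule.sub_mem _ (Submodule.add_mem _
    (Submodule.sub_mem _ h1 e1) e2) e3) e4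

end Pool.Agent.RGM
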