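import Pool.Agent.Lib.RGM.Rows

/-!
RGM, row E1: total kernel dimension of a product.
-/

set_option autoImplicit false

namespace Pool.Agent.RGM

open scoped Classical

theorem e1_step {F V : Type} [Field F] [AddCommGroup V] [Module F V] [FiniteDimensional F V]
    (P : Module.End F V) (A N K' E' : Submodule F V) (h1 : ∀ x ∈ A, P x ∈ K')
    (h2 : ∀ x ∈ A, P x ∈ E' → x ∈ N) (h3 : E' ≤ K') :
    Module.finrank F A + Module.finrank F E' ≤ Module.finrank F N + Module.finrank F K' := by
  set ψ : A →ₗ[F] (V ⧸ E') := E'.mkQ ∘ₗ P ∘ₗ A.subtype with hψ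
  have hrn := LinearMap.finrank_range_add_finrank_ker ψ
  have hker : Module.finrank F (LinearMap.ker ψ) ≤ Module.finrank F N := by
    have h : (LinearMap.ker ψ).map A.subtype ≤ N := by
      rintro x ⟨y, hy, rfl⟩
      refine h2 _ y.2 ?_
      have hy' : ψ y = 0 := hy
      have : E'.mkQ (P (y : V)) = 0 := hy'
      rwa [Submodule.mkQ_apply, Submodule.Quotient.mk_eq_zero] at this
    calc Module.finrank F (LinearMap.ker ψ)
        = Module.finrank F ((LinearMap.ker ψ).map A.subtype) :=
          (Submodule.finrank_map_subtype_eq A (LinearMap.ker ψ)).symm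
      _ ≤ Module.finrank F N := Submodule.finrank_mono h
  have hrange : Module.finrank F (LinearMap.range ψ) + Module.finrank F E' ≤
      Module.finrank F K' := by
    have h : LinearMap.range ψ ≤ LinearMap.range (E'.mkQ ∘ₗ K'.subtype) := by
      rintro _ ⟨y, rfl⟩
      exact ⟨⟨P (y : V), h1 _ y.2⟩, rfl⟩
    have h4 := LinearMap.finrank_range_add_finrank_ker (E'.mkQ ∘ₗ K'.subtype)
    have h5 : Module.finrank F E' ≤ Module.finrank F (LinearMap.ker (E'.mkQ ∘ₗ K'.subtype)) := by
      have h6 : E'.comap K'.subtype ≤ LinearMap.ker (E'.mkQ ∘ₗ K'.subtype) := by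
        intro x hx
        show E'.mkQ (x : V) = 0
        rw [Submodule.mkQ_apply, Submodule.Quotient.mk_eq_zero]
        exact hx
      calc Module.finrank F E' = Module.finrank F (E'.comap K'.subtype) :=
            (Submodule.comapSubtypeEquivOfLe h3).finrank_eq.symm
        _ ≤ _ := Submodule.finrank_mono h6
    have h7 := Submodule.finrank_mono h
    omega
  omega

theorem e1_prod {F V α : Type} [Field F] [AddCommGroup V] [Module F V]
    (E : ℤ → Submodule F V) (T : α → Module.End F V) (v : α → ℕ)
    (hT : ∀ a (k : ℤ), ∀ x ∈ E k, T a x ∈ E (k + v a)) (l : List α) :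
    ∀ (k : ℤ), ∀ x ∈ E k, (l.map T).prod x ∈ E (k + ((l.map v).sum : ℕ)) := by
  induction l with
  | nil => intro k x hx; simpa using hx
  | cons a l ih =>
    intro k x hx
    have h := hT a _ _ (ih k x hx)
    simp only [List.map_cons, List.prod_cons, List.sum_cons, Module.End.mul_apply]
    have he : k + ((v a + (l.map v).sum : ℕ) : ℤ) = k + ((l.map v).sum : ℕ) + v a := by
      push_cast; ring
    rw [he]
    exact h

theorem rowE1 : RE1 := by
  intro F V α _ _ _ _ E hE T v hT B hB l
  induction l with
  | nil =>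
    intro W
    have h : ∀ k ∈ Finset.range W, (Module.finrank F (E k ⊓ (E ((k : ℤ) + ((([] : List α).map v).sum : ℕ) + 1)).comap
        ((([] : List α).map T).prod) : Submodule F V) - Module.finrank F (E ((k : ℤ) + 1))) = 0 := by
      intro k _
      have : (E k ⊓ (E ((k : ℤ) + ((([] : List α).map v).sum : ℕ) + 1)).comap
          ((([] : List α).map T).prod) : Submodule F V) ≤ E ((k : ℤ) + 1) := by
        intro x hx
        simpa using hx.2
      exact Nat.sub_eq_zero_of_le (Submodule.finrank_mono this)
    rw [Finset.sum_congr rfl h]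
    simp
  | cons a l ih =>
    intro W
    set s : ℕ := (l.map v).sum with hs
    set P : Module.End F V := (l.map T).prod with hP
    have hPm := e1_prod E T v hT l
    have key : ∀ k ∈ Finset.range W,
        (Module.finrank F (E k ⊓ (E ((k : ℤ) + (((a :: l).map v).sum : ℕ) + 1)).comap
          (((a :: l).map T).prod) : Submodule F V) - Module.finrank F (E ((k : ℤ) + 1))) ≤
        (Module.finrank F (E k ⊓ (E ((k : ℤ) + (s : ℕ) + 1)).comap P : Submodule F V) -
          Module.finrank F (E ((k : ℤ) + 1))) +
        (Module.finrank F (E ((k + s : ℕ) : ℤ) ⊓ (E (((k + s : ℕ) : ℤ) + v a + 1)).comap (T a) :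
          Submodule F V) - Module.finrank F (E (((k + s : ℕ) : ℤ) + 1))) := by
      intro k _
      have h := e1_step P
        (E k ⊓ (E ((k : ℤ) + (((a :: l).map v).sum : ℕ) + 1)).comap (((a :: l).map T).prod))
        (E k ⊓ (E ((k : ℤ) + (s : ℕ) + 1)).comap P)
        (E ((k + s : ℕ) : ℤ) ⊓ (E (((k + s : ℕ) : ℤ) + v a + 1)).comap (T a))
        (E (((k + s : ℕ) : ℤ) + 1)) ?_ ?_ ?_
      · omega
      · intro x hx
        refine ⟨?_, ?_⟩
        · have := hPm k x hx.1
          rw [← hs, ← hP] at this
          push_cast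
          exact this
        · have h2 : ((a :: l).map T).prod x ∈ E ((k : ℤ) + (((a :: l).map v).sum : ℕ) + 1) := hx.2
          simp only [List.map_cons, List.prod_cons, List.sum_cons, Module.End.mul_apply] at h2
          rw [← hs, ← hP] at h2
          have he : (k : ℤ) + ((v a + s : ℕ) : ℤ) + 1 = ((k + s : ℕ) : ℤ) + v a + 1 := by
            push_cast; ring
          rw [he] at h2
          exact h2
      · intro x hx hxP
        refine ⟨hx.1, ?_⟩
        have he : ((k + s : ℕ) : ℤ) + 1 = (k : ℤ) + (s : ℕ) + 1 := by push_cast; ring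
        rw [he] at hxP
        exact hxP
      · intro x hx
        refine ⟨hE _ _ (by omega) hx, ?_⟩
        have h2 := hT a _ x hx
        have he : ((k + s : ℕ) : ℤ) + 1 + v a = ((k + s : ℕ) : ℤ) + v a + 1 := by ring
        rw [he] at h2
        exact h2
    refine (Finset.sum_le_sum key).trans ?_
    rw [Finset.sum_add_distrib]
    have h1 := ih W
    have h2 : ∑ k ∈ Finset.range W,
        (Module.finrank F (E ((k + s : ℕ) : ℤ) ⊓ (E (((k + s : ℕ) : ℤ) + v a + 1)).comap (T a) :
          Submodule F V) - Module.finrank F (E (((k + s : ℕ) : ℤ) + 1))) ≤ B := by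
      refine le_trans ?_ (hB a (W + s))
      have h3 : ∑ k ∈ Finset.range W,
          (Module.finrank F (E ((k + s : ℕ) : ℤ) ⊓ (E (((k + s : ℕ) : ℤ) + v a + 1)).comap (T a) :
            Submodule F V) - Module.finrank F (E (((k + s : ℕ) : ℤ) + 1))) =
          ∑ k ∈ (Finset.range W).map (addRightEmbedding s),
          (Module.finrank F (E (k : ℤ) ⊓ (E ((k : ℤ) + v a + 1)).comap (T a) :
            Submodule F V) - Module.finrank F (E ((k : ℤ) + 1))) := by
        rw [Finset.sum_map]
        rfl
      rw [h3]
      refine Finset.sum_le_sum_of_subset ?_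
      intro k hk
      simp only [Finset.mem_map, Finset.mem_range, addRightEmbedding_apply] at hk ⊢
      obtain ⟨j, hj, rfl⟩ := hk
      omega
    have h4 : (a :: l).length * B = l.length * B + B := by
      simp [Nat.succ_mul]
    rw [h4]
    exact Nat.add_le_add h1 h2

end Pool.Agent.RGM
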