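import Mathlib
import Pool.Agent.Lib.RGM.Rows

/-!
RGM, row E2: dimension count for the derivations (abstract linear algebra).
-/

set_option autoImplicit false

namespace Pool.Agent.RGM

open scoped Classical

/-- the dimension of the image of `N` modulo `E' ≤ N` -/
private theorem e2_map {F V : Type} [Field F] [AddCommGroup V] [Module F V] [FiniteDimensional F V]
    (E' N : Submodule F V) (h : E' ≤ N) :
    Module.finrank F (N.map E'.mkQ) = Module.finrank F N - Module.finrank F E' := by
  have h1 := LinearMap.finrank_range_add_finrank_ker (E'.mkQ.comp N.subtype)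
  rw [LinearMap.range_comp, Submodule.range_subtype, LinearMap.ker_comp, Submodule.ker_mkQ,
    (Submodule.comapSubtypeEquivOfLe h).finrank_eq] at h1
  omega

theorem rowE2 : RE2 := by
  intro F V α _ _ _ _ _ E hanti htop W₀ hbot T w hT B hB b₀ S hS
  -- the filtration of the kernel of `v ↦ v b₀`
  let P : ℤ → Submodule F (α → V) := fun k =>
    (S ⊓ LinearMap.ker (LinearMap.proj b₀ : (α → V) →ₗ[F] V)) ⊓
      ⨅ b, (E k).comap (LinearMap.proj b : (α → V) →ₗ[F] V)
  have hP : ∀ k v, v ∈ P k ↔ (v ∈ S ∧ v b₀ = 0) ∧ ∀ b, v b ∈ E k := by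
    intro k v
    simp [P, Submodule.mem_iInf]
  let N : ℤ → Submodule F V := fun k => E k ⊓ (E (k + w + 1)).comap T
  have hEN : ∀ k, E (k + 1) ≤ N k := by
    intro k x hx
    refine ⟨hanti _ _ (by omega) hx, ?_⟩
    have := hT _ _ hx
    rw [show k + 1 + (w : ℤ) = k + w + 1 by ring] at this
    exact this
  have hstep : ∀ k : ℤ, Module.finrank F (P k) ≤
      (Fintype.card α - 1) * (Module.finrank F (N k) - Module.finrank F (E (k + 1))) +
        Module.finrank F (P (k + 1)) := by
    intro k
    have hmem : ∀ v : P k, ∀ b : {b // b ≠ b₀}, (E (k + 1)).mkQ ((v : α → V) b) ∈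
        (N k).map (E (k + 1)).mkQ := by
      intro v b
      have hv := (hP k v).1 v.2
      exact ⟨_, ⟨hv.2 b, hS v hv.1.1 hv.1.2 k hv.2 b⟩, rfl⟩
    let Φ : P k →ₗ[F] ({b // b ≠ b₀} → (N k).map (E (k + 1)).mkQ) :=
      LinearMap.pi fun b => LinearMap.codRestrict _
        (((E (k + 1)).mkQ.comp (LinearMap.proj (b : α))).comp (P k).subtype) fun v => hmem v b
    have hker : LinearMap.ker Φ ≤ (P (k + 1)).comap (P k).subtype := by
      intro v hv
      rw [LinearMap.mem_ker] at hv
      have hv' := (hP k v).1 v.2
      refine (hP (k + 1) v).2 ⟨hv'.1, fun b => ?_⟩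
      by_cases hb : b = b₀
      · rw [hb]
        have : (v : α → V) b₀ = 0 := hv'.1.2
        show (v : α → V) b₀ ∈ _
        rw [this]
        exact Submodule.zero_mem _
      · have h1 := congrArg Subtype.val (congrFun hv ⟨b, hb⟩)
        have h2 : (E (k + 1)).mkQ ((v : α → V) b) = 0 := h1
        rwa [Submodule.mkQ_apply, Submodule.Quotient.mk_eq_zero] at h2
    have h1 := LinearMap.finrank_range_add_finrank_ker Φ
    have h2 : Module.finrank F (LinearMap.range Φ) ≤
        (Fintype.card α - 1) * (Module.finrank F (N k) - Module.finrank F (E (k + 1))) := by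
      refine (Submodule.finrank_le _).trans ?_
      rw [Module.finrank_pi_fintype, Finset.sum_const, Finset.card_univ, smul_eq_mul,
        e2_map _ _ (hEN k)]
      have hcard : Fintype.card {b // b ≠ b₀} = Fintype.card α - 1 := by
        rw [Fintype.card_subtype_compl]
        simp
      rw [hcard]
    have h3 : Module.finrank F (LinearMap.ker Φ) ≤ Module.finrank F (P (k + 1)) := by
      refine (Submodule.finrank_mono hker).trans ?_
      have hle : P (k + 1) ≤ P k := by
        intro v hv
        have hv' := (hP _ _).1 hv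
        exact (hP _ _).2 ⟨hv'.1, fun b => hanti _ _ (by omega) (hv'.2 b)⟩
      rw [(Submodule.comapSubtypeEquivOfLe hle).finrank_eq]
    omega
  have hsum : ∀ W : ℕ, Module.finrank F (P 0) ≤
      (Fintype.card α - 1) * ∑ k ∈ Finset.range W,
        (Module.finrank F (N k) - Module.finrank F (E ((k : ℤ) + 1))) +
        Module.finrank F (P W) := by
    intro W
    induction W with
    | zero => simp
    | succ W ih =>
      rw [Finset.sum_range_succ, mul_add]
      have := hstep W
      push_cast
      omega
  have hPbot : P W₀ = ⊥ := by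
    rw [eq_bot_iff]
    intro v hv
    have hv' := (hP _ _).1 hv
    rw [Submodule.mem_bot]
    funext b
    have := hv'.2 b
    rw [hbot, Submodule.mem_bot] at this
    exact this
  have h0 : Module.finrank F (P 0) ≤ (Fintype.card α - 1) * B := by
    have h1 := hsum W₀
    rw [hPbot, finrank_bot, add_zero] at h1
    exact h1.trans (Nat.mul_le_mul_left _ (hB W₀))
  -- the projection to `b₀`
  have h1 := LinearMap.finrank_range_add_finrank_ker
    ((LinearMap.proj b₀ : (α → V) →ₗ[F] V).comp S.subtype)
  have h2 : Module.finrank F (LinearMap.range ((LinearMap.proj b₀ : (α → V) →ₗ[F] V).comp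
      S.subtype)) ≤ Module.finrank F V := Submodule.finrank_le _
  have h3 : Module.finrank F (LinearMap.ker ((LinearMap.proj b₀ : (α → V) →ₗ[F] V).comp
      S.subtype)) ≤ Module.finrank F (P 0) := by
    have hle : P 0 ≤ S := fun v hv => ((hP _ _).1 hv).1.1
    rw [← (Submodule.comapSubtypeEquivOfLe hle).finrank_eq]
    refine Submodule.finrank_mono ?_
    intro v hv
    refine (hP _ _).2 ⟨⟨v.2, hv⟩, fun b => ?_⟩
    rw [htop 0 le_rfl]
    exact Submodule.mem_top
  omega

end Pool.Agent.RGM
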