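import Mathlib
import Pool.Agent.Lib.RGM.Rows
import Pool.Agent.Lib.RGM.RowB2

/-!
RGM, row E3: the adjugate argument in a filtered algebra in which the `ξ a` commute up to higher terms.
-/

set_option autoImplicit false

namespace Pool.Agent.RGM

open scoped Classical
open Pool.Agent.RG.Q (FA wd X Q01_wd_mul Q01_wd_one)

section hom

variable {F : Type} [Field F] {α ι : Type} [Fintype ι]

theorem det_isHomogeneous (A : Matrix ι ι (MvPolynomial α F)) (d : ι → ℕ)
    (h : ∀ r c, (A r c).IsHomogeneous (d r)) : A.det.IsHomogeneous (∑ r, d r) := by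
  rw [Matrix.det_apply]
  refine MvPolynomial.IsHomogeneous.sum _ _ _ fun σ _ => ?_
  have h1 : (∏ i, A (σ i) i).IsHomogeneous (∑ i, d (σ i)) :=
    MvPolynomial.IsHomogeneous.prod _ _ _ fun i _ => h (σ i) i
  rw [Equiv.sum_comp σ d] at h1
  rcases Int.units_eq_one_or (Equiv.Perm.sign σ) with hs | hs
  · rw [hs, one_smul]
    exact h1
  · rw [hs, Units.neg_smul, one_smul]
    exact h1.neg

omit [Fintype ι] in
theorem linM_isHomogeneous [Fintype α] (M : ι → ι → α → F) (r c : ι) :
    (linM M r c).IsHomogeneous 1 := by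
  rw [linM, Matrix.of_apply]
  refine MvPolynomial.IsHomogeneous.sum _ _ _ fun a _ => ?_
  exact MvPolynomial.isHomogeneous_C_mul_X _ _

theorem linM_det_isHomogeneous [Fintype α] (M : ι → ι → α → F) :
    (linM M).det.IsHomogeneous (Fintype.card ι) := by
  have h := det_isHomogeneous (linM M) (fun _ => 1) (linM_isHomogeneous M)
  rwa [Finset.sum_const, Finset.card_univ, smul_eq_mul, mul_one] at h

theorem adj_isHomogeneous [Fintype α] (M : ι → ι → α → F) (i j : ι) (m : ℕ)
    (hm : m + 1 = Fintype.card ι) : ((linM M).adjugate i j).IsHomogeneous m := by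
  rw [Matrix.adjugate_apply]
  have h := det_isHomogeneous ((linM M).updateRow j (Pi.single i 1))
    (fun r => if r = j then 0 else 1) (fun r c => by
      by_cases hr : r = j
      · subst hr
        rw [Matrix.updateRow_self, if_pos rfl]
        by_cases hc : c = i
        · subst hc
          rw [Pi.single_eq_same]
          exact MvPolynomial.isHomogeneous_one _ _
        · rw [Pi.single_eq_of_ne hc]
          exact MvPolynomial.isHomogeneous_zero _ _ _
      · rw [Matrix.updateRow_ne hr, if_neg hr]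
        exact linM_isHomogeneous M r c)
  have h2 : (∑ r : ι, if r = j then 0 else 1) = m := by
    have h3 : (∑ r : ι, if r = j then 0 else 1) + (∑ r : ι, if r = j then 1 else 0) =
        Fintype.card ι := by
      rw [← Finset.sum_add_distrib]
      have h4 : ∀ r : ι, ((if r = j then 0 else 1) + if r = j then 1 else 0) = 1 := by
        intro r
        split_ifs <;> rfl
      rw [Finset.sum_congr rfl fun r _ => h4 r, Finset.sum_const, Finset.card_univ, smul_eq_mul,
        mul_one]
    rw [Finset.sum_ite_eq' Finset.univ j, if_pos (Finset.mem_univ j)] at h3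
    omega
  rw [h2] at h
  exact h

end hom

section lifts

variable {F : Type} [Field F] {α : Type}

/-- the span of the words of length `m` -/
noncomputable def LeqE (F : Type) [Field F] (α : Type) (m : ℕ) : Submodule F (FA F α) :=
  Submodule.span F {x | ∃ w : FreeMonoid α, len w = m ∧ x = wd w}

theorem LeqE_mul {m m' : ℕ} {x y : FA F α} (hx : x ∈ LeqE F α m) (hy : y ∈ LeqE F α m') :
    x * y ∈ LeqE F α (m + m') := by
  refine span_mul_mem ?_ hx hy
  rintro _ ⟨w, hw, rfl⟩ _ ⟨w', hw', rfl⟩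
  rw [← Q01_wd_mul]
  exact Submodule.subset_span ⟨w * w', by rw [len_mul, hw, hw'], rfl⟩

/-- a word with a given content -/
noncomputable def rep (e : α →₀ ℕ) : FreeMonoid α := FreeMonoid.ofList (Finsupp.toMultiset e).toList

theorem cnt_rep (e : α →₀ ℕ) : cnt (rep e) = e := by
  rw [cnt, rep, FreeMonoid.toList_ofList, Multiset.coe_toList, Finsupp.toMultiset_toFinsupp]

theorem len_rep (e : α →₀ ℕ) : len (rep e) = e.sum fun _ k => k := by
  rw [len, rep, FreeMonoid.toList_ofList, Multiset.length_toList, Finsupp.card_toMultiset]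
  rfl

theorem dsum_cnt [Fintype α] (δ : α → ℕ) (w : FreeMonoid α) :
    dsum δ w = ∑ a, cnt w a * δ a := by
  induction w using FreeMonoid.recOn with
  | one =>
    rw [cnt_one, dsum, FreeMonoid.toList_one]
    simp
  | of_mul a w ih =>
    rw [dsum_mul, ih, cnt_mul, cnt_of]
    have h1 : dsum δ (FreeMonoid.of a) = δ a := by
      simp only [dsum, FreeMonoid.toList_of, List.map_cons, List.map_nil, List.sum_cons,
        List.sum_nil, add_zero]
    rw [h1]
    simp only [Finsupp.add_apply, add_mul, Finset.sum_add_distrib]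
    congr 1
    rw [Finset.sum_eq_single a]
    · rw [Finsupp.single_eq_same, one_mul]
    · intro b _ hb
      rw [Finsupp.single_eq_of_ne hb, zero_mul]
    · intro h
      exact absurd (Finset.mem_univ a) h

/-- a linear section of `ab` -/
noncomputable def Lf (F : Type) [Field F] (α : Type) : MvPolynomial α F →ₗ[F] FA F α :=
  (MvPolynomial.basisMonomials α F).constr F fun e => wd (rep e)

theorem Lf_monomial (e : α →₀ ℕ) : Lf F α (MvPolynomial.monomial e 1) = wd (rep e) := by
  have h : MvPolynomial.monomial e (1 : F) = MvPolynomial.basisMonomials α F e := by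
    rw [MvPolynomial.coe_basisMonomials]
  rw [h, Lf, Module.Basis.constr_basis]

theorem Lf_eq (P : MvPolynomial α F) :
    Lf F α P = ∑ e ∈ P.support, MvPolynomial.coeff e P • wd (rep e) := by
  conv_lhs => rw [P.as_sum]
  rw [map_sum]
  refine Finset.sum_congr rfl fun e _ => ?_
  rw [← Lf_monomial, ← map_smul, MvPolynomial.smul_monomial, smul_eq_mul, mul_one]

theorem ab_Lf (P : MvPolynomial α F) : ab F α (Lf F α P) = P := by
  rw [Lf_eq, map_sum]
  conv_rhs => rw [P.as_sum]
  refine Finset.sum_congr rfl fun e _ => ?_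
  rw [map_smul, ab_wd, cnt_rep, MvPolynomial.smul_monomial, smul_eq_mul, mul_one]

theorem sum_eq_of_coeff {P : MvPolynomial α F} {m : ℕ} (hP : P.IsHomogeneous m) {e : α →₀ ℕ}
    (he : MvPolynomial.coeff e P ≠ 0) : (e.sum fun _ k => k) = m := by
  by_contra h
  refine he (hP.coeff_eq_zero ?_)
  intro h2
  exact h h2

theorem Lf_mem {P : MvPolynomial α F} {m : ℕ} (hP : P.IsHomogeneous m) :
    Lf F α P ∈ LeqE F α m := by
  rw [Lf_eq]
  refine Submodule.sum_mem _ fun e he => Submodule.smul_mem _ _ (Submodule.subset_span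
    ⟨rep e, ?_, rfl⟩)
  rw [len_rep]
  exact sum_eq_of_coeff hP (MvPolynomial.mem_support_iff.1 he)

end lifts

section filt

variable {F : Type} [Field F] {α A : Type} [Ring A] [Algebra F A]

/-- evaluation of the free algebra -/
noncomputable def evA (F : Type) [Field F] {A : Type} [Ring A] [Algebra F A] (ξ : α → A) :
    FA F α →ₐ[F] A :=
  MonoidAlgebra.lift F A (FreeMonoid α) (FreeMonoid.lift ξ)

theorem evA_wd (ξ : α → A) (w : FreeMonoid α) :
    evA F ξ (wd w) = ((FreeMonoid.toList w).map ξ).prod := by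
  rw [evA, wd, MonoidAlgebra.of_apply, MonoidAlgebra.lift_single, one_smul, FreeMonoid.lift_apply]

theorem evA_X (ξ : α → A) (a : α) : evA F ξ (X a) = ξ a := by
  rw [X, evA_wd, FreeMonoid.toList_of, List.map_singleton, List.prod_singleton]

variable {E : ℤ → Submodule F A} {N Δ : ℕ} {δ : α → ℕ} {ξ : α → A}

theorem word_E (hmul : ∀ (i j : ℤ) (x y : A), x ∈ E i → y ∈ E j → x * y ∈ E (i + j))
    (h0 : ∀ x, x ∈ E 0) (hξ : ∀ a, ξ a ∈ E ((N : ℤ) - δ a)) (l : List α) :
    (l.map ξ).prod ∈ E ((N : ℤ) * l.length - (l.map δ).sum) := by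
  induction l with
  | nil => simpa using h0 1
  | cons a l ih =>
    simp only [List.map_cons, List.prod_cons, List.sum_cons, List.length_cons]
    have h := hmul _ _ _ _ (hξ a) ih
    have e : ((N : ℤ) - δ a) + ((N : ℤ) * l.length - (l.map δ).sum) =
        (N : ℤ) * ((l.length + 1 : ℕ) : ℤ) - ((δ a + (l.map δ).sum : ℕ) : ℤ) := by
      push_cast
      ring
    rwa [e] at h

theorem word_E' (hanti : ∀ a b, a ≤ b → E b ≤ E a)
    (hmul : ∀ (i j : ℤ) (x y : A), x ∈ E i → y ∈ E j → x * y ∈ E (i + j))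
    (h0 : ∀ x, x ∈ E 0) (hξ : ∀ a, ξ a ∈ E ((N : ℤ) - δ a)) (hΔ : ∀ a, δ a ≤ Δ) (l : List α) :
    (l.map ξ).prod ∈ E ((l.length : ℤ) * ((N : ℤ) - Δ)) := by
  refine hanti _ _ ?_ (word_E hmul h0 hξ l)
  have h1 := list_sum_le_len δ Δ hΔ l
  have h2 : ((l.map δ).sum : ℤ) ≤ (Δ : ℤ) * l.length := by exact_mod_cast h1
  nlinarith

theorem perm_E (hanti : ∀ a b, a ≤ b → E b ≤ E a)
    (hmul : ∀ (i j : ℤ) (x y : A), x ∈ E i → y ∈ E j → x * y ∈ E (i + j))
    (h0 : ∀ x, x ∈ E 0) (hξ : ∀ a, ξ a ∈ E ((N : ℤ) - δ a)) (hΔ : ∀ a, δ a ≤ Δ)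
    (hcom : ∀ a b, ξ a * ξ b - ξ b * ξ a ∈ E (2 * N - 1)) {l l' : List α} (h : l.Perm l') :
    (l.map ξ).prod - (l'.map ξ).prod ∈
      E ((l.length : ℤ) * N - ((l.length : ℤ) - 2) * Δ - 1) := by
  induction h with
  | nil => rw [sub_self]; exact Submodule.zero_mem _
  | @cons a l l' h ih =>
    simp only [List.map_cons, List.prod_cons, List.length_cons]
    rw [← mul_sub]
    refine hanti _ _ ?_ (hmul _ _ _ _ (hξ a) ih)
    have h1 : (δ a : ℤ) ≤ Δ := by exact_mod_cast hΔ a
    push_cast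
    nlinarith
  | swap a b l =>
    have e : ((b :: a :: l).map ξ).prod - ((a :: b :: l).map ξ).prod =
        (ξ b * ξ a - ξ a * ξ b) * (l.map ξ).prod := by
      simp only [List.map_cons, List.prod_cons]
      noncomm_ring
    rw [e]
    refine hanti _ _ ?_ (hmul _ _ _ _ (hcom b a) (word_E' hanti hmul h0 hξ hΔ l))
    simp only [List.length_cons]
    push_cast
    nlinarith
  | @trans l₁ l₂ l₃ h₁ h₂ ih₁ ih₂ =>
    rw [← h₁.length_eq] at ih₂
    have h3 := Submodule.add_mem _ ih₁ ih₂
    rwa [sub_add_sub_cancel] at h3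

theorem LeqE_E (hanti : ∀ a b, a ≤ b → E b ≤ E a)
    (hmul : ∀ (i j : ℤ) (x y : A), x ∈ E i → y ∈ E j → x * y ∈ E (i + j))
    (h0 : ∀ x, x ∈ E 0) (hξ : ∀ a, ξ a ∈ E ((N : ℤ) - δ a)) (hΔ : ∀ a, δ a ≤ Δ) {m : ℕ}
    {x : FA F α} (hx : x ∈ LeqE F α m) : evA F ξ x ∈ E ((m : ℤ) * ((N : ℤ) - Δ)) := by
  refine Submodule.span_induction (p := fun x _ => evA F ξ x ∈ E ((m : ℤ) * ((N : ℤ) - Δ)))
    ?_ ?_ ?_ ?_ hx
  · rintro _ ⟨w, hw, rfl⟩
    rw [evA_wd, ← hw]
    exact word_E' hanti hmul h0 hξ hΔ _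
  · rw [map_zero]; exact Submodule.zero_mem _
  · intro x y _ _ hx hy
    rw [map_add]; exact Submodule.add_mem _ hx hy
  · intro c x _ hx
    rw [map_smul]; exact Submodule.smul_mem _ _ hx

theorem ab_E (hanti : ∀ a b, a ≤ b → E b ≤ E a)
    (hmul : ∀ (i j : ℤ) (x y : A), x ∈ E i → y ∈ E j → x * y ∈ E (i + j))
    (h0 : ∀ x, x ∈ E 0) (hξ : ∀ a, ξ a ∈ E ((N : ℤ) - δ a)) (hΔ : ∀ a, δ a ≤ Δ)
    (hcom : ∀ a b, ξ a * ξ b - ξ b * ξ a ∈ E (2 * N - 1)) {m : ℕ} {x : FA F α}
    (hx : x ∈ LeqE F α m) :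
    evA F ξ x - evA F ξ (Lf F α (ab F α x)) ∈ E ((m : ℤ) * N - ((m : ℤ) - 2) * Δ - 1) := by
  refine Submodule.span_induction (p := fun x _ =>
    evA F ξ x - evA F ξ (Lf F α (ab F α x)) ∈ E ((m : ℤ) * N - ((m : ℤ) - 2) * Δ - 1))
    ?_ ?_ ?_ ?_ hx
  · rintro _ ⟨w, hw, rfl⟩
    rw [ab_wd, Lf_monomial, evA_wd, evA_wd, ← hw]
    refine perm_E hanti hmul h0 hξ hΔ hcom ?_
    rw [← Multiset.coe_eq_coe]
    rw [rep, FreeMonoid.toList_ofList, Multiset.coe_toList, cnt, Multiset.toFinsupp_toMultiset]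
  · rw [map_zero, map_zero, map_zero, map_zero, sub_self]; exact Submodule.zero_mem _
  · intro x y _ _ hx hy
    rw [map_add, map_add, map_add, map_add, add_sub_add_comm]
    exact Submodule.add_mem _ hx hy
  · intro c x _ hx
    rw [map_smul, map_smul, map_smul, map_smul, ← smul_sub]
    exact Submodule.smul_mem _ _ hx

end filt

theorem rowE3 : RE3 := by
  intro F _ α ι A _ _ _ _ E hanti hmul h0 N δ Δ hΔ ξ hξ hcom M e₀ he₀ hlow hbig hN
  have hdet := linM_det_isHomogeneous M
  have hsum₀ : (e₀.sum fun _ k => k) = Fintype.card ι := sum_eq_of_coeff hdet he₀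
  refine ⟨FreeMonoid.toList (rep e₀), ?_, ?_⟩
  · rw [← hsum₀, ← len_rep, len]
  intro k w hw hrel b₀
  have hcard : 0 < Fintype.card ι := Fintype.card_pos_iff.2 ⟨b₀⟩
  obtain ⟨m, hm⟩ : ∃ m, m + 1 = Fintype.card ι := ⟨Fintype.card ι - 1, by omega⟩
  have hδN : ∀ a, δ a ≤ N := fun a => by
    have h1 := hΔ a
    nlinarith
  -- the exponent of the conclusion
  have hval : ∀ e : α →₀ ℕ, MvPolynomial.coeff e (linM M).det ≠ 0 →
      (((FreeMonoid.toList (rep e)).map ξ).prod) ∈
        E ((Fintype.card ι : ℤ) * N - (∑ a, e a * δ a : ℕ)) := by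
    intro e he
    have h1 := word_E (E := E) (N := N) (δ := δ) (ξ := ξ) hmul h0 hξ (FreeMonoid.toList (rep e))
    have h2 : (FreeMonoid.toList (rep e)).length = Fintype.card ι := by
      have h3 := len_rep e
      rw [len, sum_eq_of_coeff hdet he] at h3
      exact h3
    have h3 : ((FreeMonoid.toList (rep e)).map δ).sum = ∑ a, e a * δ a := by
      have h4 := dsum_cnt δ (rep e)
      rw [cnt_rep] at h4
      exact h4
    rw [h2, h3] at h1
    rwa [mul_comm] at h1
  have hexp : ((((FreeMonoid.toList (rep e₀)).map fun a => N - δ a).sum : ℕ) : ℤ) =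
      (Fintype.card ι : ℤ) * N - (∑ a, e₀ a * δ a : ℕ) := by
    have h2 : (FreeMonoid.toList (rep e₀)).length = Fintype.card ι := by
      have h3 := len_rep e₀
      rw [len, sum_eq_of_coeff hdet he₀] at h3
      exact h3
    have h3 : ((FreeMonoid.toList (rep e₀)).map δ).sum = ∑ a, e₀ a * δ a := by
      have h4 := dsum_cnt δ (rep e₀)
      rw [cnt_rep] at h4
      exact h4
    rw [← h2, ← h3]
    generalize FreeMonoid.toList (rep e₀) = l
    induction l with
    | nil => simp
    | cons a l ih =>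
      simp only [List.map_cons, List.sum_cons, List.length_cons]
      push_cast [Nat.cast_sub (hδN a)]
      push_cast at ih
      rw [ih]
      ring
  rw [hexp]
  set s₀ : ℕ := ∑ a, e₀ a * δ a with hs₀
  -- the sum of the relations
  have hS : ∑ i, evA F ξ (Lf F α ((linM M).adjugate b₀ i)) *
      (∑ b, (∑ a, M i b a • ξ a) * w b) ∈
      E (k + ((Fintype.card ι : ℤ) * N - s₀) + 1) := by
    refine Submodule.sum_mem _ fun i _ => ?_
    have h1 := LeqE_E (E := E) (ξ := ξ) (N := N) (δ := δ) (Δ := Δ) hanti hmul h0 hξ hΔ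
      (Lf_mem (adj_isHomogeneous M b₀ i m hm))
    refine hanti _ _ ?_ (hmul _ _ _ _ h1 (hrel i))
    have h2 : (((Fintype.card ι + 1) * Δ + 1 : ℕ) : ℤ) ≤ N := by exact_mod_cast hN
    have h3 : (0 : ℤ) ≤ s₀ := Int.natCast_nonneg _
    rw [← hm] at h2 ⊢
    push_cast at h2 ⊢
    nlinarith
  -- regroup
  let x : ι → FA F α := fun b => ∑ i, Lf F α ((linM M).adjugate b₀ i) * ∑ a, M i b a • X a
  have hx : ∀ b, x b ∈ LeqE F α (Fintype.card ι) := by
    intro b
    refine Submodule.sum_mem _ fun i _ => ?_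
    rw [← hm]
    refine LeqE_mul (Lf_mem (adj_isHomogeneous M b₀ i m hm)) ?_
    refine Submodule.sum_mem _ fun a _ => Submodule.smul_mem _ _ (Submodule.subset_span
      ⟨FreeMonoid.of a, len_of a, rfl⟩)
  have habx : ∀ b, ab F α (x b) = if b₀ = b then (linM M).det else 0 := by
    intro b
    have h1 : ab F α (x b) = ((linM M).adjugate * linM M) b₀ b := by
      rw [Matrix.mul_apply, map_sum]
      refine Finset.sum_congr rfl fun i _ => ?_
      rw [map_mul, ab_Lf, map_sum]
      congr 1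
      rw [linM, Matrix.of_apply]
      refine Finset.sum_congr rfl fun a _ => ?_
      rw [map_smul, ab_X, MvPolynomial.smul_eq_C_mul]
    rw [h1, Matrix.adjugate_mul, Matrix.smul_apply, Matrix.one_apply, smul_eq_mul]
    split_ifs
    · rw [mul_one]
    · rw [mul_zero]
  have hSx : ∑ i, evA F ξ (Lf F α ((linM M).adjugate b₀ i)) *
      (∑ b, (∑ a, M i b a • ξ a) * w b) = ∑ b, evA F ξ (x b) * w b := by
    have h1 : ∀ b, evA F ξ (x b) = ∑ i, evA F ξ (Lf F α ((linM M).adjugate b₀ i)) *
        ∑ a, M i b a • ξ a := by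
      intro b
      rw [map_sum]
      refine Finset.sum_congr rfl fun i _ => ?_
      rw [map_mul, map_sum]
      congr 1
      refine Finset.sum_congr rfl fun a _ => ?_
      rw [map_smul, evA_X]
    simp only [h1, Finset.sum_mul, Finset.mul_sum]
    rw [Finset.sum_comm]
    refine Finset.sum_congr rfl fun b _ => Finset.sum_congr rfl fun i _ =>
      Finset.sum_congr rfl fun a _ => ?_
    rw [mul_assoc]
  rw [hSx] at hS
  -- errors from the commutators
  have herr : ∀ b, (evA F ξ (x b) - evA F ξ (Lf F α (ab F α (x b)))) * w b ∈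
      E (k + ((Fintype.card ι : ℤ) * N - s₀) + 1) := by
    intro b
    by_cases h2 : 2 ≤ Fintype.card ι
    · have h1 := ab_E (E := E) (ξ := ξ) (N := N) (δ := δ) (Δ := Δ) hanti hmul h0 hξ hΔ hcom (hx b)
      refine hanti _ _ ?_ (hmul _ _ _ _ h1 (hw b))
      have h3 := hbig h2
      have h4 : (((Fintype.card ι - 2) * Δ + 2 : ℕ) : ℤ) ≤ s₀ := by exact_mod_cast h3
      rw [Nat.cast_add, Nat.cast_mul, Nat.cast_sub h2] at h4
      push_cast at h4
      linarith
    · -- one row: the words have length one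
      have h3 : Fintype.card ι = 1 := by omega
      have h5 : ∀ y ∈ LeqE F α 1, evA F ξ y = evA F ξ (Lf F α (ab F α y)) := by
        intro y hy
        refine Submodule.span_induction (p := fun y _ =>
          evA F ξ y = evA F ξ (Lf F α (ab F α y))) ?_ ?_ ?_ ?_ hy
        · rintro _ ⟨v, hv, rfl⟩
          obtain ⟨a, ha⟩ : ∃ a, FreeMonoid.toList v = [a] := List.length_eq_one_iff.1 hv
          have hv2 : v = FreeMonoid.of a := FreeMonoid.toList.injective ha
          rw [hv2, ab_wd, Lf_monomial]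
          congr 1
          rw [cnt_of, rep, Finsupp.toMultiset_single, one_smul, Multiset.toList_singleton]
          rfl
        · rw [map_zero, map_zero, map_zero, map_zero]
        · intro u v _ _ hu hv
          rw [map_add, map_add, map_add, map_add, hu, hv]
        · intro c u _ hu
          rw [map_smul, map_smul, map_smul, map_smul, hu]
      have h6 := hx b
      rw [h3] at h6
      rw [← h5 _ h6, sub_self, zero_mul]
      exact Submodule.zero_mem _
  have hT : evA F ξ (Lf F α (linM M).det) * w b₀ ∈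
      E (k + ((Fintype.card ι : ℤ) * N - s₀) + 1) := by
    have h1 : ∑ b, evA F ξ (Lf F α (ab F α (x b))) * w b ∈
        E (k + ((Fintype.card ι : ℤ) * N - s₀) + 1) := by
      have h2 := Submodule.sub_mem _ hS (Submodule.sum_mem _ fun b (_ : b ∈ Finset.univ) => herr b)
      rw [← Finset.sum_sub_distrib] at h2
      refine (congrArg (· ∈ E (k + ((Fintype.card ι : ℤ) * N - s₀) + 1)) ?_).mp h2
      refine Finset.sum_congr rfl fun b _ => ?_
      rw [sub_mul, sub_sub_cancel]
    rw [Finset.sum_eq_single b₀] at h1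
    · rwa [habx, if_pos rfl] at h1
    · intro b _ hb
      rw [habx, if_neg (Ne.symm hb), map_zero, map_zero, zero_mul]
    · intro h
      exact absurd (Finset.mem_univ b₀) h
  -- isolate the lowest monomial
  rw [Lf_eq, map_sum, Finset.sum_mul] at hT
  have hmem : e₀ ∈ (linM M).det.support := MvPolynomial.mem_support_iff.2 he₀
  rw [← Finset.add_sum_erase _ _ hmem] at hT
  have hrest : ∑ e ∈ (linM M).det.support.erase e₀,
      evA F ξ (MvPolynomial.coeff e (linM M).det • wd (rep e)) * w b₀ ∈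
      E (k + ((Fintype.card ι : ℤ) * N - s₀) + 1) := by
    refine Submodule.sum_mem _ fun e he => ?_
    obtain ⟨hne, he2⟩ := Finset.mem_erase.1 he
    have he3 := MvPolynomial.mem_support_iff.1 he2
    rw [map_smul, smul_mul_assoc, evA_wd]
    refine Submodule.smul_mem _ _ (hanti _ _ ?_ (hmul _ _ _ _ (hval e he3) (hw b₀)))
    have h4 := hlow e he3 hne
    have h5 : ((∑ a, e a * δ a : ℕ) : ℤ) + 1 ≤ s₀ := by exact_mod_cast h4
    linarith
  have h9 := (Submodule.add_mem_iff_left _ hrest).1 hT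
  rw [map_smul, smul_mul_assoc, evA_wd] at h9
  exact (Submodule.smul_mem_iff _ he₀).1 h9

end Pool.Agent.RGM
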