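import Mathlib
import Pool.Agent.Lib.RGM.Rows

/-!
RGM, row E4: generic weights.
-/

set_option autoImplicit false

namespace Pool.Agent.RGM

open scoped Classical

/-- the determinant of a matrix of linear forms is homogeneous -/
private theorem e4_hom {F : Type} [Field F] {α ι : Type} [Fintype α] [Fintype ι]
    (M : ι → ι → α → F) : ((linM M).det).IsHomogeneous (Fintype.card ι) := by
  rw [Matrix.det_apply']
  refine MvPolynomial.IsHomogeneous.sum _ _ _ fun σ _ => ?_
  have h1 : (∏ i : ι, linM M (σ i) i).IsHomogeneous (∑ i : ι, 1) := by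
    refine MvPolynomial.IsHomogeneous.prod _ _ _ fun i _ => ?_
    simp only [linM, Matrix.of_apply]
    refine MvPolynomial.IsHomogeneous.sum _ _ _ fun a _ => ?_
    exact MvPolynomial.IsHomogeneous.C_mul (MvPolynomial.isHomogeneous_X F a) _
  have h2 : (∑ _i : ι, 1) = Fintype.card ι := by simp
  rw [h2] at h1
  have h3 : (((Equiv.Perm.sign σ : ℤˣ) : ℤ) : MvPolynomial α F) =
      MvPolynomial.C ((((Equiv.Perm.sign σ : ℤˣ) : ℤ)) : F) := by simp
  rw [h3]
  exact MvPolynomial.IsHomogeneous.C_mul h1 _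

/-- digits -/
private theorem e4_digits {n B : ℕ} (e e' : Fin n → ℕ) (h : ∀ i, e i < B) (h' : ∀ i, e' i < B)
    (hs : ∑ i, e i * B ^ (i : ℕ) = ∑ i, e' i * B ^ (i : ℕ)) : e = e' := by
  have h1 : finFunctionFinEquiv (fun i => (⟨e i, h i⟩ : Fin B)) =
      finFunctionFinEquiv (fun i => (⟨e' i, h' i⟩ : Fin B)) := by
    apply Fin.ext
    rw [finFunctionFinEquiv_apply, finFunctionFinEquiv_apply]
    simpa using hs
  have h2 := finFunctionFinEquiv.injective h1
  funext i
  have h3 := congrFun h2 i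
  simpa using h3

theorem rowE4 : RE4 := by
  intro F _ α ι _ _ M hM
  set m := Fintype.card ι with hm
  set n := Fintype.card α with hn
  let eq : α ≃ Fin n := Fintype.equivFin α
  set B := m + 1 with hB
  set L := (m + 1) * B ^ n + 1 with hL
  let δ : α → ℕ := fun a => L + B ^ ((eq a : Fin n) : ℕ)
  have hpow : ∀ a, B ^ ((eq a : Fin n) : ℕ) ≤ B ^ n := fun a =>
    Nat.pow_le_pow_right (by omega) (eq a).2.le
  have hdeg : ∀ e, MvPolynomial.coeff e (linM M).det ≠ 0 → ∑ a, e a = m := by
    intro e he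
    have h1 := e4_hom M
    have h2 := h1 he
    have h3 : Finsupp.degree e = Finsupp.weight (1 : α → ℕ) e := by
      have := DFunLike.congr_fun (Finsupp.degree_eq_weight_one (R := ℕ) (σ := α)) e
      exact this
    rw [← h3, Finsupp.degree_eq_sum] at h2
    exact h2
  have hsupp : ((linM M).det).support.Nonempty := by
    rw [Finset.nonempty_iff_ne_empty, Ne, MvPolynomial.support_eq_empty]
    exact hM
  obtain ⟨e₀, he₀, hmax⟩ := Finset.exists_max_image _ (fun e : α →₀ ℕ => ∑ a, e a * δ a) hsupp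
  rw [MvPolynomial.mem_support_iff] at he₀
  have hval : ∀ e : α →₀ ℕ, ∑ a, e a = m → ∑ a, e a * δ a =
      m * L + ∑ i : Fin n, e (eq.symm i) * B ^ (i : ℕ) := by
    intro e he
    simp only [δ, mul_add, Finset.sum_add_distrib]
    rw [← Finset.sum_mul, he]
    congr 1
    rw [← Equiv.sum_comp eq]
    simp
  refine ⟨δ, L + B ^ n, e₀, fun a => ?_, fun a => ?_, he₀, fun e he hne => ?_, fun h2 => ?_⟩
  · simp only [δ]; omega
  · simp only [δ]; have := hpow a; omega
  · have hle := hmax e (by rw [MvPolynomial.mem_support_iff]; exact he)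
    refine lt_of_le_of_ne hle fun heq => hne ?_
    have h1 := hdeg e he
    have h0 := hdeg e₀ he₀
    rw [hval e h1, hval e₀ h0] at heq
    have hlt : ∀ (f : α →₀ ℕ), ∑ a, f a = m → ∀ i : Fin n, f (eq.symm i) < B := by
      intro f hf i
      have : f (eq.symm i) ≤ ∑ a, f a := Finset.single_le_sum (fun _ _ => Nat.zero_le _) (Finset.mem_univ _)
      omega
    have h5 := e4_digits (fun i => e (eq.symm i)) (fun i => e₀ (eq.symm i)) (hlt e h1) (hlt e₀ h0)
      (by omega)
    ext a
    have h6 := congrFun h5 (eq a)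
    simpa using h6
  · have h0 := hdeg e₀ he₀
    rw [hval e₀ h0]
    obtain ⟨q, hq⟩ : ∃ q, m = q + 2 := ⟨m - 2, by omega⟩
    have h3 : m - 2 = q := by omega
    rw [h3]
    have : q * (L + B ^ n) + 2 ≤ m * L := by
      rw [hq, hL]
      rw [hq] at *
      nlinarith [Nat.zero_le (q * B ^ n), Nat.zero_le (B ^ n)]
    omega

end Pool.Agent.RGM
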