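import Mathlib
import Pool.Agent.Lib.RGM.Rows
import Pool.Agent.Lib.RGM.RowC2
import Pool.Agent.Lib.RGM.RowD
import Pool.Agent.Lib.RGM.RowE1
import Pool.Agent.Lib.RGM.RowE2
import Pool.Agent.Lib.RGM.RowE3
import Pool.Agent.Lib.RGM.RowE4
import Pool.Agent.Lib.RG.P12
import Pool.Agent.Lib.RG.P17
import Pool.Agent.Lib.RG.Q16
import Pool.Agent.Lib.RG.Q18
import Pool.Agent.Lib.RG.Q19
import Pool.Agent.Lib.RG.Q20

/-!
RGM, row F1: the level theorem.
-/

set_option autoImplicit false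

namespace Pool.Agent.RGM

open scoped Classical
open Pool.Agent.RG (GA dl Ef Exact NpSeries IsDer LocConst GenBy Kr P09_dl P09_mul P09_anti P09_top
  P09_bot P12_kernel P12_order P17_burnside)
open Pool.Agent.RG.Q (FA wd X KD qd ex LD Lead Derv Q16_shapiro Q18_common Q19_dense Q20_words)
open Pool.Agent.RGK (H1 KL cupG cupL)

theorem F1_dl_comm (p : ℕ) {Q : Type} [Group Q] (a b : Q) :
    dl p a * dl p b - dl p b * dl p a =
      dl p (a * b * a⁻¹ * b⁻¹) * MonoidAlgebra.of (ZMod p) Q (b * a) := by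
  have h1 : MonoidAlgebra.of (ZMod p) Q (a * b * a⁻¹ * b⁻¹) * MonoidAlgebra.of (ZMod p) Q (b * a) =
      MonoidAlgebra.of (ZMod p) Q a * MonoidAlgebra.of (ZMod p) Q b := by
    rw [← map_mul, ← map_mul]
    congr 1
    group
  unfold dl
  rw [sub_mul _ _ (MonoidAlgebra.of (ZMod p) Q (b * a)), h1, map_mul _ b a]
  noncomm_ring

theorem F1_prod {p : ℕ} {Q α : Type} [Group Q] (ξ : α → Q) (l : List α) :
    (l.map fun a => LinearMap.mulLeft (ZMod p) (dl p (ξ a))).prod =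
      LinearMap.mulLeft (ZMod p) (l.map fun a => dl p (ξ a)).prod := by
  induction l with
  | nil =>
    apply LinearMap.ext
    intro x
    rw [List.map_nil, List.map_nil, List.prod_nil, List.prod_nil, LinearMap.mulLeft_apply, one_mul]
    rfl
  | cons a l ih =>
    apply LinearMap.ext
    intro x
    rw [List.map_cons, List.prod_cons, List.map_cons, List.prod_cons, ih, Module.End.mul_apply,
      LinearMap.mulLeft_apply, LinearMap.mulLeft_apply, LinearMap.mulLeft_apply, mul_assoc]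

/-- the linear algebra: dimension of the space of derivations -/
theorem F1_linear (hE1 : RE1) (hE2 : RE2) (hE3 : RE3) (p : ℕ) [Fact p.Prime]
    {α ι κ Q : Type} [Fintype α] [Fintype ι] [Group Q] [Finite Q] (n N : ℕ) (hn : 1 ≤ n)
    (D : ℕ → Subgroup Q) (hD' : NpSeries p Q (N * n - 1) D) (ξ : α → Q)
    (hgen : Subgroup.closure (Set.range ξ) = ⊤) (b₀ : α) (r : ι → α) (hr : Function.Injective r)
    (hr' : ∀ b, b ≠ b₀ ↔ b ∈ Set.range r) (R : ι → κ) (δ : α → ℕ) (Δ : ℕ) (e₀ : α →₀ ℕ) (hΔ : ∀ a, δ a ≤ Δ) (hNΔ : Δ < N)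
    (hex : ∀ a, Exact p (N * n - 1) (N - δ a) D (ξ a))
    (hcomm : ∀ a b, ξ a * ξ b * (ξ a)⁻¹ * (ξ b)⁻¹ ∈ D (2 * N - 1))
    (c : κ → α → α → ZMod p)
    (he : MvPolynomial.coeff e₀ (linM fun (i b : ι) (a : α) => c (R i) a (r b)).det ≠ 0)
    (hmax : ∀ e, MvPolynomial.coeff e (linM fun (i b : ι) (a : α) => c (R i) a (r b)).det ≠ 0 →
      e ≠ e₀ → ∑ a, e a * δ a < ∑ a, e₀ a * δ a)
    (hbig : 2 ≤ Fintype.card ι → (Fintype.card ι - 2) * Δ + 2 ≤ ∑ a, e₀ a * δ a)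
    (hN2 : (Fintype.card ι + 1) * Δ + 1 ≤ N) (S : Submodule (ZMod p) (α → GA p Q))
    (hS : D (N - Δ) = ⊤ → ∀ v ∈ S, ∀ t : ℤ, (∀ a, v a ∈ Ef p D (t + (N - Δ : ℕ))) → ∀ j,
      ∑ a, ∑ b, c j a b • (dl p (ξ a) * v b) ∈ Ef p D (t + 3 * (N - Δ : ℕ))) :
    Module.finrank (ZMod p) S ≤ Nat.card Q +
      (Fintype.card α - 1) * (Fintype.card ι * (Nat.card Q / n)) := by
  have hδN : ∀ a, δ a < N := fun a => (hΔ a).trans_lt hNΔ
  obtain ⟨W', hW'⟩ := P09_bot p (N * n - 1) D hD'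
  have hord : ∀ a, n ≤ orderOf (ξ a) := by
    intro a
    have h2 := P12_order p (N * n - 1) D hD' (N - δ a) (by have := hδN a; omega) (ξ a) (hex a)
    by_contra h3
    push Not at h3
    have h4 : (N - δ a) * orderOf (ξ a) ≤ N * (n - 1) :=
      Nat.mul_le_mul (Nat.sub_le _ _) (by omega)
    have h5 : N * (n - 1) + N = N * n := by
      obtain ⟨m, rfl⟩ : ∃ m, n = m + 1 := ⟨n - 1, by omega⟩
      rw [Nat.add_sub_cancel]
      ring
    omega
  have hB : ∀ (i : α) (W'' : ℕ), ∑ k ∈ Finset.range W'',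
      (Module.finrank (ZMod p) (Ef p D k ⊓ (Ef p D ((k : ℤ) + (N - δ i : ℕ) + 1)).comap
        (LinearMap.mulLeft (ZMod p) (dl p (ξ i))) : Submodule (ZMod p) (GA p Q)) -
        Module.finrank (ZMod p) (Ef p D ((k : ℤ) + 1))) ≤ Nat.card Q / n := by
    intro i W''
    have h1 := P12_kernel p (N * n - 1) D hD' (N - δ i) (by have := hδN i; omega) (ξ i) (hex i) W''
    rw [Nat.le_div_iff_mul_le (by omega)]
    exact (Nat.mul_le_mul_left _ (hord i)).trans h1
  -- the elements `dl (ξ a)`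
  have hξE : ∀ a, dl p (ξ a) ∈ Ef p D ((N : ℤ) - δ a) := by
    intro a
    have h1 := P09_dl p D (N - δ a) (ξ a) (hex a).1
    rwa [Nat.cast_sub (hδN a).le] at h1
  have hξc : ∀ a b, dl p (ξ a) * dl p (ξ b) - dl p (ξ b) * dl p (ξ a) ∈ Ef p D (2 * N - 1) := by
    intro a b
    rw [F1_dl_comm]
    have h1 := P09_dl p D (2 * N - 1) _ (hcomm a b)
    have h2 := P09_mul p D _ 0 _ (MonoidAlgebra.of (ZMod p) Q (ξ b * ξ a)) h1
      (by rw [P09_top p _ D hD' 0 le_rfl]; trivial)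
    rw [add_zero] at h2
    have h3 : (((2 * N - 1 : ℕ) : ℕ) : ℤ) = 2 * (N : ℤ) - 1 := by
      rw [Nat.cast_sub (by omega)]
      push_cast
      ring
    rwa [h3] at h2
  have hDW : D (N - Δ) = ⊤ := by
    rw [eq_top_iff, ← hgen, Subgroup.closure_le]
    rintro _ ⟨a, rfl⟩
    exact hD'.anti (Nat.sub_le_sub_left (hΔ a) N) (hex a).1
  obtain ⟨l, hl, hl'⟩ := @hE3 (ZMod p) _ α ι (GA p Q) _ _ _ _ (Ef p D)
    (fun a b h => P09_anti p D h)
    (fun i j x y hx hy => P09_mul p D i j x y hx hy)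
    (fun x => by rw [P09_top p _ D hD' 0 le_rfl]; trivial) N δ Δ hΔ (fun a => dl p (ξ a)) hξE hξc
    (fun (i b : ι) (a : α) => c (R i) a (r b)) e₀ he hmax hbig hN2
  have hT : ∀ (a : α) (k : ℤ), ∀ x ∈ Ef p D k,
      LinearMap.mulLeft (ZMod p) (dl p (ξ a)) x ∈ Ef p D (k + (N - δ a : ℕ)) := by
    intro a k x hx
    rw [LinearMap.mulLeft_apply, add_comm]
    exact P09_mul p D _ _ _ _ (P09_dl p D (N - δ a) (ξ a) (hex a).1) hx
  have hfd : FiniteDimensional (ZMod p) (GA p Q) := by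
    have := Fintype.ofFinite Q
    infer_instance
  have h1 := @hE1 (ZMod p) (GA p Q) α _ _ _ _ (Ef p D) (fun a b h => P09_anti p D h)
    (fun a => LinearMap.mulLeft (ZMod p) (dl p (ξ a))) (fun a => N - δ a) hT (Nat.card Q / n) hB l
  rw [F1_prod, hl] at h1
  have hPl : ∀ l : List α, (l.map fun a => dl p (ξ a)).prod ∈
      Ef p D ((l.map fun a => N - δ a).sum : ℕ) := by
    intro l
    induction l with
    | nil =>
      rw [P09_top p _ D hD' _ (by simp)]
      trivial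
    | cons a l ih =>
      rw [List.map_cons, List.map_cons, List.prod_cons, List.sum_cons, Nat.cast_add]
      exact P09_mul p D _ _ _ _ (P09_dl p D (N - δ a) (ξ a) (hex a).1) ih
  have hTl : ∀ k : ℤ, ∀ x ∈ Ef p D k,
      LinearMap.mulLeft (ZMod p) (l.map fun a => dl p (ξ a)).prod x ∈
        Ef p D (k + ((l.map fun a => N - δ a).sum : ℕ)) := by
    intro k x hx
    rw [LinearMap.mulLeft_apply, add_comm]
    exact P09_mul p D _ _ _ _ (hPl l) hx
  have hrel : ∀ v ∈ S, v b₀ = 0 → ∀ k : ℤ, (∀ b, v b ∈ Ef p D k) →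
      ∀ b, LinearMap.mulLeft (ZMod p) (l.map fun a => dl p (ξ a)).prod (v b) ∈
        Ef p D (k + ((l.map fun a => N - δ a).sum : ℕ) + 1) := by
    intro v hv hv0 k hk b
    by_cases hb : b = b₀
    · rw [hb, hv0, map_zero]
      exact zero_mem _
    obtain ⟨b', rfl⟩ := (hr' b).mp hb
    have h4 : ∀ i : ι, ∑ b : ι, (∑ a, c (R i) a (r b) • dl p (ξ a)) * v (r b) ∈
        Ef p D (k + 2 * ((N : ℤ) - Δ)) := by
      intro i
      have h5 := hS hDW v hv (k - (N - Δ : ℕ)) (fun a => by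
        have h6 : k - ((N - Δ : ℕ) : ℤ) + ((N - Δ : ℕ) : ℤ) = k := by ring
        rw [h6]
        exact hk a) (R i)
      have h6 : k - ((N - Δ : ℕ) : ℤ) + 3 * ((N - Δ : ℕ) : ℤ) = k + 2 * ((N : ℤ) - Δ) := by
        rw [Nat.cast_sub hNΔ.le]
        ring
      rw [h6, Finset.sum_comm] at h5
      have h7 : ∑ b : ι, (∑ a, c (R i) a (r b) • dl p (ξ a)) * v (r b) =
          ∑ b, ∑ a, c (R i) a b • (dl p (ξ a) * v b) := by
        rw [← Finset.sum_erase_add _ _ (Finset.mem_univ b₀)]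
        have h8 : ∑ a, c (R i) a b₀ • (dl p (ξ a) * v b₀) = 0 :=
          Finset.sum_eq_zero fun a _ => by rw [hv0, mul_zero, smul_zero]
        rw [h8, add_zero]
        have h9 : ∑ b ∈ Finset.univ.erase b₀, ∑ a, c (R i) a b • (dl p (ξ a) * v b) =
            ∑ b ∈ Finset.univ.erase b₀, (∑ a, c (R i) a b • dl p (ξ a)) * v b := by
          refine Finset.sum_congr rfl fun b _ => ?_
          rw [Finset.sum_mul]
          exact Finset.sum_congr rfl fun a _ => (smul_mul_assoc _ _ _).symm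
        rw [h9]
        have h10 : Finset.univ.erase b₀ = Finset.univ.map ⟨r, hr⟩ := by
          ext b
          rw [Finset.mem_erase, Finset.mem_map]
          constructor
          · rintro ⟨h, -⟩
            obtain ⟨i, hi⟩ := (hr' b).mp h
            exact ⟨i, Finset.mem_univ _, hi⟩
          · rintro ⟨i, -, hi⟩
            exact ⟨(hr' b).mpr ⟨i, hi⟩, Finset.mem_univ _⟩
        rw [h10, Finset.sum_map]
        rfl
      rw [h7]
      exact h5
    exact hl' k (fun b => v (r b)) (fun b => hk (r b)) h4 b'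
  have h2 := @hE2 (ZMod p) (GA p Q) α _ _ _ _ _ (Ef p D) (fun a b h => P09_anti p D h)
    (fun a h => P09_top p _ D hD' a h) W' (hW' W' le_rfl)
    (LinearMap.mulLeft (ZMod p) (l.map fun a => dl p (ξ a)).prod)
    (l.map fun a => N - δ a).sum hTl (Fintype.card ι * (Nat.card Q / n)) h1 b₀ S hrel
  have hfr : Module.finrank (ZMod p) (GA p Q) = Nat.card Q := by
    rw [Module.finrank_eq_nat_card_basis (MonoidAlgebra.basis Q (ZMod p))]
  rw [hfr] at h2
  exact h2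

/-- the level theorem for one `n` -/
theorem F1_level (hC2 : RC2) (hD : RD) (hE1 : RE1) (hE2 : RE2) (hE3 : RE3) (p : ℕ) [Fact p.Prime]
    (hp : p ≠ 2) {α κ ι : Type} [Fintype α] [Fintype κ] [Fintype ι]
    (G : Type) [Group G] [TopologicalSpace G] [IsTopologicalGroup G] [CompactSpace G] [T2Space G]
    [TotallyDisconnectedSpace G]
    (hG : ∀ U : Subgroup G, U.Normal → IsOpen (U : Set G) → ∃ k, U.index = p ^ k)
    (K : KD p α κ G) (c : κ → α → α → ZMod p)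
    (hc : c = qd (fun j a => Multiplicative.toAdd (K.χ a (K.x j)))
      (fun j a => Multiplicative.toAdd (K.χ a (K.y j)))) (hM : Mild c)
    (b₀ : α) (r : ι → α) (hr : Function.Injective r)
    (hr' : ∀ b, b ≠ b₀ ↔ b ∈ Set.range r) (R : ι → κ) (δ : α → ℕ) (Δ : ℕ) (e₀ : α →₀ ℕ)
    (hδ : ∀ a, 1 ≤ δ a) (hΔ : ∀ a, δ a ≤ Δ)
    (he : MvPolynomial.coeff e₀ (linM fun (i b : ι) (a : α) => c (R i) a (r b)).det ≠ 0)
    (hmax : ∀ e, MvPolynomial.coeff e (linM fun (i b : ι) (a : α) => c (R i) a (r b)).det ≠ 0 →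
      e ≠ e₀ → ∑ a, e a * δ a < ∑ a, e₀ a * δ a)
    (hbig : 2 ≤ Fintype.card ι → (Fintype.card ι - 2) * Δ + 2 ≤ ∑ a, e₀ a * δ a)
    (n : ℕ) (hn : 1 ≤ n) :
    ∃ (U : Subgroup G) (r : ℕ), U.Normal ∧ IsOpen (U : Set G) ∧ GenBy U r ∧
      n ≤ U.index ∧ n * (r - 1) ≤ Fintype.card α * Fintype.card ι * U.index ∧
      ∀ g : G, (∃ a, K.χ a g ≠ 1) → ∀ k, p ^ k ≤ n → g ^ p ^ k ∉ U := by
  have : Nonempty α := ⟨b₀⟩
  obtain ⟨U₀, hU₀, hU₀'⟩ := Q18_common G K.z K.gen (MNbd p α n)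
  obtain ⟨N, hN1, hN2, hNΔ⟩ : ∃ N, (∀ a, (n + 1) * δ a < N) ∧ (Fintype.card ι + 1) * Δ + 1 ≤ N ∧
      Δ < N := by
    refine ⟨(n + 1 + Fintype.card ι + 1) * Δ + 1, fun a => ?_, ?_, ?_⟩
    · have h1 : (n + 1) * δ a ≤ (n + 1) * Δ := Nat.mul_le_mul_left _ (hΔ a)
      have h2 : (n + 1) * Δ ≤ (n + 1 + Fintype.card ι + 1) * Δ := Nat.mul_le_mul_right _ (by omega)
      omega
    · have h2 : (Fintype.card ι + 1) * Δ ≤ (n + 1 + Fintype.card ι + 1) * Δ :=
        Nat.mul_le_mul_right _ (by omega)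
      omega
    · have h2 : 1 * Δ ≤ (n + 1 + Fintype.card ι + 1) * Δ := Nat.mul_le_mul_right _ (by omega)
      omega
  obtain ⟨wx, wy, hwx, hwy, hQ⟩ := Q20_words p G K (MNbd p α n)
  rw [hc] at hM
  obtain ⟨Q, _, _, ξ, D, hpQ, hcard, hgen, hrel, hD', hex, hcomm, hord'⟩ :=
    hC2 p hp _ _ hM wx wy K.q K.hq
      (fun j a => by rw [hwx]; exact (ofAdd_toAdd _).symm)
      (fun j a => by rw [hwy]; exact (ofAdd_toAdd _).symm) δ hδ n N hn hN1
  obtain ⟨φ, hφ, hφz⟩ := hQ Q hpQ hcard ξ hrel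
  have hs : Function.Surjective φ := by
    rw [← MonoidHom.range_eq_top, eq_top_iff, ← hgen, Subgroup.closure_le]
    rintro _ ⟨i, rfl⟩
    exact ⟨K.z i, hφz i⟩
  have hidx : φ.ker.index = Nat.card Q := by
    rw [Subgroup.index_ker, MonoidHom.range_eq_top.mpr hs]
    exact Nat.card_congr Subgroup.topEquiv.toEquiv
  have hcQ : 0 < Nat.card Q := Nat.card_pos
  have hfin := F1_linear hE1 hE2 hE3 p n N hn D hD' ξ hgen b₀ r hr hr' R δ Δ e₀ hΔ hNΔ hex hcomm c
    he hmax hbig hN2 (Derv p K.z φ) (fun hDW v hv t ht j => by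
      obtain ⟨δ', g1, g2, g3⟩ := hv
      have h5 := hD p hp G K (N * n - 1) D hD' (N - Δ) hDW φ hφ δ' g1 g2 t
        (fun a => by rw [g3]; exact ht a) j
      rw [hc]
      simp only [hφz, g3] at h5
      exact h5)
  have hord : n ≤ orderOf (ξ b₀) := by
    have hb : δ b₀ < N := (hΔ b₀).trans_lt hNΔ
    have h2 := P12_order p (N * n - 1) D hD' (N - δ b₀) (by omega) (ξ b₀) (hex b₀)
    by_contra h3
    push Not at h3
    have h4 : (N - δ b₀) * orderOf (ξ b₀) ≤ N * (n - 1) :=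
      Nat.mul_le_mul (Nat.sub_le _ _) (by omega)
    have h5 : N * (n - 1) + N = N * n := by
      obtain ⟨m, rfl⟩ : ∃ m, n = m + 1 := ⟨n - 1, by omega⟩
      rw [Nat.add_sub_cancel]
      ring
    omega
  refine ⟨φ.ker, 1 + (Fintype.card α - 1) * (Fintype.card ι * (Nat.card Q / n)), inferInstance, hφ,
    ?_, ?_, ?_, ?_⟩
  · refine P17_burnside p G hG φ.ker hφ _ fun k f hf => ?_
    have h1 := Q16_shapiro p G K.z K.gen φ hφ hs k f hf
    omega
  · rw [hidx]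
    exact hord.trans (Nat.le_of_dvd hcQ (orderOf_dvd_natCard _))
  · rw [hidx, Nat.add_sub_cancel_left]
    calc n * ((Fintype.card α - 1) * (Fintype.card ι * (Nat.card Q / n)))
        = (Fintype.card α - 1) * Fintype.card ι * (n * (Nat.card Q / n)) := by ring
      _ ≤ Fintype.card α * Fintype.card ι * Nat.card Q :=
          Nat.mul_le_mul (Nat.mul_le_mul_right _ (Nat.sub_le _ _)) (Nat.mul_div_le _ _)
  · intro g hg k hk hgU
    -- approximate `g` by a word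
    have hχ : IsOpen (((⨅ a : α, (K.χ a).ker : Subgroup G)) : Set G) := by
      rw [Subgroup.coe_iInf]
      exact isOpen_iInter_of_finite fun a => K.cont a
    obtain ⟨w, hw⟩ := Q19_dense G K.z K.gen (U₀ ⊓ ⨅ a : α, (K.χ a).ker) (by
      rw [Subgroup.coe_inf]
      exact hU₀.inter hχ) g
    have hw1 : (FreeGroup.lift K.z w)⁻¹ * g ∈ φ.ker := hU₀' Q hcard φ hφ hw.1
    have hw2 : ∀ a, K.χ a g = ex p a w := by
      intro a
      have h1 : (FreeGroup.lift K.z w)⁻¹ * g ∈ (K.χ a).ker := by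
        exact (iInf_le (fun a : α => (K.χ a).ker) a) hw.2
      rw [MonoidHom.mem_ker, map_mul, map_inv, inv_mul_eq_one] at h1
      rw [← h1]
      have h2 : (K.χ a).comp (FreeGroup.lift K.z) = ex p a := by
        apply FreeGroup.ext_hom
        intro b
        rw [MonoidHom.comp_apply, FreeGroup.lift_apply_of, K.dual]
        unfold ex
        rw [FreeGroup.lift_apply_of]
      exact DFunLike.congr_fun h2 w
    have hφg : φ g = FreeGroup.lift ξ w := by
      rw [MonoidHom.mem_ker, map_mul, map_inv, inv_mul_eq_one] at hw1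
      rw [← hw1]
      have h2 : φ.comp (FreeGroup.lift K.z) = FreeGroup.lift ξ := by
        apply FreeGroup.ext_hom
        intro b
        rw [MonoidHom.comp_apply, FreeGroup.lift_apply_of, FreeGroup.lift_apply_of]
        exact hφz b
      exact DFunLike.congr_fun h2 w
    obtain ⟨a, ha⟩ := hg
    refine hord' w ⟨a, by rw [← hw2]; exact ha⟩ k hk ?_
    rw [← hφg, ← map_pow]
    exact hgU

theorem F1_of (hC2 : RC2) (hD : RD) (hE1 : RE1) (hE2 : RE2) (hE3 : RE3) (hE4 : RE4) : RF1 := by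
  intro p _ hp α κ _ _ G _ _ _ _ _ _ hG K hM hm
  set c := qd (fun j a => Multiplicative.toAdd (K.χ a (K.x j)))
    (fun j a => Multiplicative.toAdd (K.χ a (K.y j))) with hc
  obtain ⟨b₀, R, hdet⟩ := hm
  have key : ∀ (ι : Type) [Fintype ι] [DecidableEq ι] (r : ι → α) (R : ι → κ), Function.Injective r →
      (∀ b, b ≠ b₀ ↔ b ∈ Set.range r) →
      (linM fun (i b : ι) (a : α) => c (R i) a (r b)).det ≠ 0 →
      ∃ C : ℕ, ∀ n : ℕ, 1 ≤ n → ∃ (U : Subgroup G) (r : ℕ), U.Normal ∧ IsOpen (U : Set G) ∧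
        GenBy U r ∧ n ≤ C * U.index ∧ n * (r - 1) ≤ C * U.index ∧
        ∀ g : G, (∃ a, K.χ a g ≠ 1) → ∀ k, p ^ k ≤ n → g ^ p ^ k ∉ U := by
    intro ι _ dι r R hr hr' hdet
    obtain rfl : dι = fun a b => Classical.propDecidable (a = b) := Subsingleton.elim _ _
    obtain ⟨δ, Δ, e₀, h1, h2, h3, h4, h5⟩ := hE4 _ hdet
    refine ⟨Fintype.card α * Fintype.card ι + 1, fun n hn => ?_⟩
    obtain ⟨U, r, g0, g1, g2, g3, g4, g5⟩ := F1_level hC2 hD hE1 hE2 hE3 p hp G hG K c hc hM b₀ r hr hr' R δ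
      Δ e₀ h1 h2 h3 h4 h5 n hn
    refine ⟨U, r, g0, g1, g2, g3.trans (Nat.le_mul_of_pos_left _ (Nat.succ_pos _)), g4.trans ?_, g5⟩
    exact Nat.mul_le_mul_right _ (Nat.le_succ _)
  refine key {b // b ≠ b₀} Subtype.val R Subtype.val_injective (fun b => ?_) hdet
  rw [Subtype.range_coe_subtype]
  rfl

theorem rowF1 : RF1 := F1_of rowC2 rowD rowE1 rowE2 rowE3 rowE4

end Pool.Agent.RGM
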