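import Pool.Agent.Lib.RGM.Rows
import Pool.Agent.Lib.RGK.QK1a

/-!
RGM, row G1: leading data from `U ⊕ V`.
-/

set_option autoImplicit false

namespace Pool.Agent.RGM

open scoped Classical
open Pool.Agent.RG.Q (LD Lead qd)
open Pool.Agent.RGK (cupL)

noncomputable def g1_L {p : ℕ} {H : Type} [AddCommGroup H] [Module (ZMod p) H]
    {κ : Type} (X Y : κ → H →ₗ[ZMod p] ZMod p) :
    H →ₗ[ZMod p] H →ₗ[ZMod p] (κ → ZMod p) :=
  LinearMap.mk₂ (ZMod p) (cupL X Y)
    (by
      intro f f' g
      funext q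
      simp only [cupL, Pi.add_apply, map_add]
      ring)
    (by
      intro c f g
      funext q
      simp only [cupL, Pi.smul_apply, smul_eq_mul, map_smul]
      ring)
    (by
      intro f g g'
      funext q
      simp only [cupL, Pi.add_apply, map_add]
      ring)
    (by
      intro c f g
      funext q
      simp only [cupL, Pi.smul_apply, smul_eq_mul, map_smul]
      ring)

theorem g1_self {p : ℕ} {H : Type} [AddCommGroup H] [Module (ZMod p) H]
    {κ : Type} (X Y : κ → H →ₗ[ZMod p] ZMod p) (f : H) : cupL X Y f f = 0 := by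
  funext q
  simp only [cupL, sub_self, Pi.zero_apply]

theorem g1_swap {p : ℕ} {H : Type} [AddCommGroup H] [Module (ZMod p) H]
    {κ : Type} (X Y : κ → H →ₗ[ZMod p] ZMod p) (f g : H) :
    cupL X Y f g = -cupL X Y g f := by
  funext q
  simp only [cupL, Pi.neg_apply]
  ring

theorem g1_num {N x y x' y' : ℕ} (hx : x ≤ N) (hx' : x' ≤ N)
    (h : x + (N + 1) * y = x' + (N + 1) * y') : x = x' ∧ y = y' := by
  have h1 : x % (N + 1) = x' % (N + 1) := by
    have h2 := congrArg (fun z => z % (N + 1)) h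
    simpa [Nat.add_mul_mod_self_left] using h2
  rw [Nat.mod_eq_of_lt (by omega), Nat.mod_eq_of_lt (by omega)] at h1
  refine ⟨h1, ?_⟩
  rw [h1] at h
  exact Nat.eq_of_mul_eq_mul_left (Nat.succ_pos N) (Nat.add_left_cancel h)

theorem g1_span {p : ℕ} [Fact p.Prime] {H : Type} [AddCommGroup H] [Module (ZMod p) H]
    {ι : Type} (U : Submodule (ZMod p) H) (b : Module.Basis ι (ZMod p) U) :
    Submodule.span (ZMod p) (Set.range fun a => (b a : H)) = U := by
  have h : (Set.range fun a => (b a : H)) = U.subtype '' Set.range b := by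
    rw [← Set.range_comp]
    rfl
  rw [h, ← Submodule.map_span, b.span_eq, Submodule.map_top, Submodule.range_subtype]

theorem rowG1 : RG1 := by
  intro p _ H _ _ _ κ _ X Y h
  obtain ⟨U, V, hc, hV, hs⟩ := h
  have : Module.Finite (ZMod p) H := Module.Finite.of_finite
  obtain ⟨m, bU⟩ : ∃ m : ℕ, Nonempty (Module.Basis (Fin m) (ZMod p) U) :=
    ⟨_, ⟨Module.finBasis (ZMod p) U⟩⟩
  obtain ⟨n, bV⟩ : ∃ n : ℕ, Nonempty (Module.Basis (Fin n) (ZMod p) V) :=
    ⟨_, ⟨Module.finBasis (ZMod p) V⟩⟩
  obtain ⟨bU⟩ := bU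
  obtain ⟨bV⟩ := bV
  let f : Module.Basis (Fin m ⊕ Fin n) (ZMod p) H :=
    (bU.prod bV).map (Submodule.prodEquivOfIsCompl U V hc)
  have hfl : ∀ a, f (Sum.inl a) = (bU a : H) := by
    intro a
    simp [f]
  have hfr : ∀ b, f (Sum.inr b) = (bV b : H) := by
    intro b
    simp [f]
  have hspU := g1_span U bU
  have hspV := g1_span V bV
  have hmU : ∀ g : H, ∀ S : Submodule (ZMod p) (κ → ZMod p),
      (∀ a, cupL X Y (bU a) g ∈ S) → ∀ f ∈ U, cupL X Y f g ∈ S := by
    intro g S hS f hf
    have h1 : U ≤ S.comap ((g1_L X Y).flip g) := by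
      rw [← hspU, Submodule.span_le]
      rintro _ ⟨a, rfl⟩
      exact hS a
    exact h1 hf
  have hmV : ∀ f : H, ∀ S : Submodule (ZMod p) (κ → ZMod p),
      (∀ b, cupL X Y f (bV b) ∈ S) → ∀ g ∈ V, cupL X Y f g ∈ S := by
    intro f S hS g hg
    have h1 : V ≤ S.comap (g1_L X Y f) := by
      rw [← hspV, Submodule.span_le]
      rintro _ ⟨b, rfl⟩
      exact hS b
    exact h1 hg
  have hspan : Submodule.span (ZMod p) {x | ∃ (a : Fin m) (b : Fin n),
      x = cupL X Y (bU a) (bV b)} = ⊤ := by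
    rw [eq_top_iff, ← hs, Submodule.span_le]
    rintro _ ⟨f, hf, g, hg, rfl⟩
    have h1 : ∀ (a : Fin m) (b : Fin n), cupL X Y (bU a : H) (bV b : H) ∈
        Submodule.span (ZMod p) {x | ∃ (a : Fin m) (b : Fin n),
          x = cupL X Y (bU a) (bV b)} := fun a b => Submodule.subset_span ⟨a, b, rfl⟩
    exact hmU g _ (fun a => hmV _ _ (fun b => h1 a b) g hg) f hf
  -- weights
  obtain ⟨N, hN1, hN2⟩ : ∃ N : ℕ, m ≤ N ∧ n ≤ N := ⟨_, le_max_left _ _, le_max_right _ _⟩
  obtain ⟨A, hA⟩ : ∃ A : ℕ, (N + 1) * (N + 1) ≤ A := ⟨_, le_rfl⟩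
  let δU : Fin m → ℕ := fun a => A + (a : ℕ)
  let δV : Fin n → ℕ := fun b => (N + 1) * (b : ℕ)
  have hU1 : ∀ a, A ≤ δU a ∧ δU a ≤ A + N := by
    intro a
    have := a.2
    change A ≤ A + (a : ℕ) ∧ A + (a : ℕ) ≤ A + N
    omega
  have hV1 : ∀ b, δV b + N + 1 ≤ A := by
    intro b
    have h1 : (N + 1) * ((b : ℕ) + 1) ≤ (N + 1) * (N + 1) :=
      Nat.mul_le_mul_left _ (by have := b.2; omega)
    have h2 : (N + 1) * ((b : ℕ) + 1) = (N + 1) * (b : ℕ) + N + 1 := by ring
    change (N + 1) * (b : ℕ) + N + 1 ≤ A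
    omega
  have hdist : ∀ a b a' b', δU a + δV b = δU a' + δV b' → a = a' ∧ b = b' := by
    intro a b a' b' h1
    have h2 : (a : ℕ) + (N + 1) * (b : ℕ) = (a' : ℕ) + (N + 1) * (b' : ℕ) := by
      change A + (a : ℕ) + (N + 1) * (b : ℕ) = A + (a' : ℕ) + (N + 1) * (b' : ℕ) at h1
      omega
    obtain ⟨h3, h4⟩ := g1_num (by have := a.2; omega) (by have := a'.2; omega) h2
    exact ⟨Fin.ext h3, Fin.ext h4⟩
  obtain ⟨ε, _, s, t, B, B', hinj, -, hBB, hB1, hB0⟩ := Pool.Agent.RGK.greedy
    (fun (a : Fin m) (b : Fin n) => cupL X Y (bU a) (bV b)) (fun a b => δU a + δV b) hdist hspan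
  have hq : ∀ (k : ε) (a b : Fin m ⊕ Fin n),
      ∑ j, B k j * qd (fun j a => X j (f a)) (fun j a => Y j (f a)) j a b =
        -∑ j, B k j * cupL X Y (f a) (f b) j := by
    intro k a b
    rw [← Finset.sum_neg_distrib]
    refine Finset.sum_congr rfl fun j _ => ?_
    simp only [qd, cupL]
    ring
  refine ⟨Fin m ⊕ Fin n, ε, inferInstance, inferInstance, fun k => Sum.inl (s k),
    fun k => Sum.inr (t k), Sum.elim δU δV, f, B, ?_⟩
  intro W hW
  exact
    { ok :=
        { lo := fun a => Nat.le_add_right _ _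
          hi := by
            intro a
            have := hW a
            change 2 * (W + Sum.elim δU δV a) < 3 * W
            omega
          inj := fun k l h1 h2 => hinj k l (Sum.inl_injective h1) (Sum.inr_injective h2)
          col := fun k l h1 => Sum.inl_ne_inr h1 }
      inv := ⟨B', hBB⟩
      lead := by
        intro k
        rw [hq]
        have h1 : ∑ j, B k j * cupL X Y (f (Sum.inl (s k))) (f (Sum.inr (t k))) j = 1 := by
          rw [hfl, hfr]
          exact hB1 k
        rw [h1]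
        exact neg_ne_zero.2 one_ne_zero
      van := by
        intro k a b hle hne hne'
        rw [hq, neg_eq_zero]
        have hle' : Sum.elim δU δV a + Sum.elim δU δV b ≤ δU (s k) + δV (t k) := by
          change (W + Sum.elim δU δV a) + (W + Sum.elim δU δV b) ≤
            (W + δU (s k)) + (W + δV (t k)) at hle
          omega
        have hsk := hU1 (s k)
        have htk := hV1 (t k)
        rcases a with a | a <;> rcases b with b | b
        · exfalso
          change δU a + δU b ≤ δU (s k) + δV (t k) at hle'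
          have h1 := hU1 a
          have h2 := hU1 b
          omega
        · change δU a + δV b ≤ δU (s k) + δV (t k) at hle'
          rw [hfl, hfr]
          exact hB0 k a b hle' fun hh => hne ⟨congrArg Sum.inl hh.1, congrArg Sum.inr hh.2⟩
        · change δV a + δU b ≤ δU (s k) + δV (t k) at hle'
          have h1 := hB0 k b a (by rw [add_comm]; exact hle')
            fun hh => hne' ⟨congrArg Sum.inr hh.2, congrArg Sum.inl hh.1⟩
          rw [hfl, hfr]
          have h2 : ∀ j, B k j * cupL X Y (bV a : H) (bU b : H) j =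
              -(B k j * cupL X Y (bU b : H) (bV a : H) j) := by
            intro j
            rw [g1_swap, Pi.neg_apply, mul_neg]
          rw [Finset.sum_congr rfl (fun j _ => h2 j), Finset.sum_neg_distrib, neg_eq_zero]
          exact h1
        · have h1 : cupL X Y (f (Sum.inr a)) (f (Sum.inr b)) = 0 := by
            rw [hfr, hfr]
            exact hV _ (bV a).2 _ (bV b).2
          refine Finset.sum_eq_zero fun j _ => ?_
          rw [h1, Pi.zero_apply, mul_zero] }

end Pool.Agent.RGM
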