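import Mathlib
import Pool.Agent.Lib.RGM.Rows
import Pool.Agent.Lib.RG.Q05

/-!
RGM, row G2: relations with leading terms the edges (for all large `W`, weights `W + δ a`) are mild. For
`m ≤ n + 2` and `W > (n + 3) Δ` the words of length `≤ m` are the words of weight `≤ K`, if
`m (W + Δ) ≤ K < (m + 1) W`; so `hd (quad c) m = bd Λ f K = Hc Λ K` (`Q05_dim`), and `Q04_count` is the
recursion. `card ε = card κ` from `inv`, `lead`, `van`.
-/

set_option autoImplicit false

namespace Pool.Agent.RGM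

open scoped Classical
open Pool.Agent.RG.Q

namespace G2aux

variable {α ε κ : Type}

theorem wl_len (Λ : LD α ε) (w : FreeMonoid α) (m M : ℕ) (h1 : ∀ a, m ≤ Λ.wt a)
    (h2 : ∀ a, Λ.wt a ≤ M) : m * len w ≤ wl Λ w ∧ wl Λ w ≤ M * len w := by
  unfold len wl
  generalize FreeMonoid.toList w = L
  induction L with
  | nil => simp
  | cons a L ih =>
    have h3 := h1 a
    have h4 := h2 a
    simp only [List.map_cons, List.sum_cons, List.length_cons, Nat.mul_add, Nat.mul_one]
    omega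

/-- the condition on lengths and the condition on weights agree -/
theorem le_iff (Λ : LD α ε) (W Δ : ℕ) (h1 : ∀ a, W ≤ Λ.wt a) (h2 : ∀ a, Λ.wt a ≤ W + Δ)
    (m : ℕ) (K : ℤ) (hK : (m : ℤ) * (W + Δ) ≤ K) (hK' : K < ((m : ℤ) + 1) * W) (w : FreeMonoid α) :
    (wl Λ w : ℤ) ≤ K ↔ (len w : ℤ) ≤ m := by
  obtain ⟨h3, h4⟩ := wl_len Λ w W (W + Δ) h1 h2
  have h3' : (W : ℤ) * len w ≤ wl Λ w := by exact_mod_cast h3
  have h4' : (wl Λ w : ℤ) ≤ (W + Δ) * len w := by exact_mod_cast h4
  have hW : (0 : ℤ) ≤ W := Int.natCast_nonneg _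
  have hD : (0 : ℤ) ≤ Δ := Int.natCast_nonneg _
  constructor
  · intro h
    by_contra hc
    push Not at hc
    have h5 : (m : ℤ) + 1 ≤ len w := hc
    nlinarith
  · intro h
    nlinarith

variable {F : Type} [Field F]

theorem sum_single [Fintype α] {M : Type} [AddCommGroup M] [Module F M] (g : α → α → M) (l : F)
    (s t : α) : ∑ a, ∑ b, (if a = s ∧ b = t then l else 0) • g a b = l • g s t := by
  rw [Finset.sum_eq_single s, Finset.sum_eq_single t]
  · rw [if_pos ⟨rfl, rfl⟩]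
  · intro b _ hb
    rw [if_neg (fun h => hb h.2), zero_smul]
  · intro h
    exact (h (Finset.mem_univ _)).elim
  · intro a _ ha
    refine Finset.sum_eq_zero fun b _ => ?_
    rw [if_neg (fun h => ha h.1), zero_smul]
  · intro h
    exact (h (Finset.mem_univ _)).elim

/-- the combinations of the quadratic forms -/
noncomputable def ff [Fintype α] [Fintype κ] (c : κ → α → α → F) (B : ε → κ → F) (k : ε) : FA F α :=
  ∑ j, B k j • quad c j

theorem ff_eq [Fintype α] [Fintype κ] (c : κ → α → α → F) (B : ε → κ → F) (k : ε) :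
    ff c B k = ∑ a, ∑ b, (∑ j, B k j * c j a b) • (X a * X b : FA F α) := by
  unfold ff quad
  simp only [Finset.smul_sum, Finset.sum_smul, smul_smul]
  rw [Finset.sum_comm]
  refine Finset.sum_congr rfl fun a _ => ?_
  rw [Finset.sum_comm]

theorem ff_shape [Fintype α] [Fintype κ] [Fintype ε] (Λ : LD α ε) (c : κ → α → α → F)
    (hc : ∀ j a b, c j b a = -c j a b) (B : ε → κ → F)
    (lead : ∀ k, ∑ j, B k j * c j (Λ.s k) (Λ.t k) ≠ 0)
    (hst : ∀ k, Λ.s k ≠ Λ.t k)
    (van : ∀ k a b, Λ.wt a + Λ.wt b ≤ Λ.we k → ¬ (a = Λ.s k ∧ b = Λ.t k) →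
      ¬ (a = Λ.t k ∧ b = Λ.s k) → ∑ j, B k j * c j a b = 0) :
    Shape Λ (fun k => ∑ j, B k j * c j (Λ.s k) (Λ.t k)) (ff c B) := by
  intro k
  refine ⟨lead k, ?_⟩
  set C : α → α → F := fun a b => ∑ j, B k j * c j a b with hC
  set l : F := C (Λ.s k) (Λ.t k) with hl
  have hanti : C (Λ.t k) (Λ.s k) = -l := by
    rw [hl]
    simp only [hC]
    rw [← Finset.sum_neg_distrib]
    refine Finset.sum_congr rfl fun j _ => ?_
    rw [hc j (Λ.s k) (Λ.t k)]
    ring
  have h1 : ff c B k - l • (X (Λ.s k) * X (Λ.t k) - X (Λ.t k) * X (Λ.s k)) =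
      ∑ a, ∑ b, (C a b - (if a = Λ.s k ∧ b = Λ.t k then l else 0) +
        (if a = Λ.t k ∧ b = Λ.s k then l else 0)) • (X a * X b : FA F α) := by
    rw [ff_eq, smul_sub, ← sum_single (fun a b => (X a * X b : FA F α)) l (Λ.s k) (Λ.t k),
      ← sum_single (fun a b => (X a * X b : FA F α)) l (Λ.t k) (Λ.s k), ← sub_add,
      ← Finset.sum_sub_distrib, ← Finset.sum_add_distrib]
    refine Finset.sum_congr rfl fun a _ => ?_
    rw [← Finset.sum_sub_distrib, ← Finset.sum_add_distrib]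
    refine Finset.sum_congr rfl fun b _ => ?_
    rw [add_smul, sub_smul]
  change ff c B k - l • (X (Λ.s k) * X (Λ.t k) - X (Λ.t k) * X (Λ.s k)) ∈ Pge Λ F (Λ.we k + 1)
  rw [h1]
  refine Submodule.sum_mem _ fun a _ => Submodule.sum_mem _ fun b _ => ?_
  by_cases h2 : a = Λ.s k ∧ b = Λ.t k
  · have h3 : ¬ (a = Λ.t k ∧ b = Λ.s k) := fun h => hst k (h2.1.symm.trans h.1)
    rw [if_pos h2, if_neg h3, h2.1, h2.2, ← hl, sub_self, zero_add, zero_smul]
    exact zero_mem _
  · by_cases h3 : a = Λ.t k ∧ b = Λ.s k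
    · rw [if_neg h2, if_pos h3, h3.1, h3.2, hanti, sub_zero, neg_add_cancel, zero_smul]
      exact zero_mem _
    · rw [if_neg h2, if_neg h3, sub_zero, add_zero]
      by_cases h4 : Λ.wt a + Λ.wt b ≤ Λ.we k
      · have h5 : C a b = 0 := van k a b h4 h2 h3
        rw [h5, zero_smul]
        exact zero_mem _
      · refine Submodule.smul_mem _ _ (Submodule.subset_span ⟨FreeMonoid.of a * FreeMonoid.of b, ?_, ?_⟩)
        · have h5 : wl Λ (FreeMonoid.of a * FreeMonoid.of b) = Λ.wt a + Λ.wt b := by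
            simp [wl, FreeMonoid.toList_mul]
          rw [h5]
          push_cast
          omega
        · rw [Q05aux.wd_mul]
          rfl

theorem ideal_eq [Fintype α] [Fintype κ] [Fintype ε] (Λ : LD α ε) (c : κ → α → α → F)
    (B : ε → κ → F) (B' : κ → ε → F) (hB : ∀ j l, ∑ k, B' j k * B k l = if j = l then 1 else 0)
    (m : ℕ) (K : ℤ) (h : ∀ w : FreeMonoid α, (wl Λ w : ℤ) ≤ K ↔ (len w : ℤ) ≤ m) :
    I (quad c) (m : ℤ) = J Λ (ff c B) K := by
  have h' : ∀ w : FreeMonoid α, (m : ℤ) < len w ↔ K < wl Λ w := by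
    intro w
    have := h w
    constructor
    · intro h1
      by_contra h2
      push Not at h2
      exact absurd (this.1 h2) (by omega)
    · intro h1
      by_contra h2
      push Not at h2
      exact absurd (this.2 h2) (by omega)
  have hq : ∀ j, (quad c j : FA F α) = ∑ k, B' j k • ff c B k := by
    intro j
    unfold ff
    simp only [Finset.smul_sum, smul_smul]
    rw [Finset.sum_comm]
    simp only [← Finset.sum_smul, hB]
    rw [Finset.sum_eq_single j]
    · rw [if_pos rfl, one_smul]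
    · intro b _ hb
      rw [if_neg (fun h => hb h.symm), zero_smul]
    · intro h
      exact (h (Finset.mem_univ _)).elim
  refine le_antisymm (Ideal.span_le.2 ?_) (Ideal.span_le.2 ?_)
  · rintro x (⟨j, w, rfl⟩ | ⟨w, hw, rfl⟩)
    · rw [hq j, Finset.sum_mul]
      refine Submodule.sum_mem _ fun k _ => ?_
      rw [smul_mul_assoc]
      exact Submodule.smul_of_tower_mem _ _ (Ideal.subset_span (Or.inl ⟨k, w, rfl⟩))
    · exact Ideal.subset_span (Or.inr ⟨w, (h' w).1 hw, rfl⟩)
  · rintro x (⟨k, w, rfl⟩ | ⟨w, hw, rfl⟩)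
    · rw [ff, Finset.sum_mul]
      refine Submodule.sum_mem _ fun j _ => ?_
      rw [smul_mul_assoc]
      exact Submodule.smul_of_tower_mem _ _ (Ideal.subset_span (Or.inl ⟨j, w, rfl⟩))
    · exact Ideal.subset_span (Or.inr ⟨w, (h' w).2 hw, rfl⟩)

theorem card_eq [Fintype α] [Fintype κ] [Fintype ε] (Λ : LD α ε) (hΛ : Λ.Ok)
    (c : κ → α → α → F) (B : ε → κ → F)
    (B' : κ → ε → F) (hB : ∀ j l, ∑ k, B' j k * B k l = if j = l then 1 else 0)
    (lead : ∀ k, ∑ j, B k j * c j (Λ.s k) (Λ.t k) ≠ 0)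
    (van : ∀ k a b, Λ.wt a + Λ.wt b ≤ Λ.we k → ¬ (a = Λ.s k ∧ b = Λ.t k) →
      ¬ (a = Λ.t k ∧ b = Λ.s k) → ∑ j, B k j * c j a b = 0) :
    Fintype.card ε = Fintype.card κ := by
  refine le_antisymm ?_ ?_
  · have hli : LinearIndependent F (fun k : ε => (B k : κ → F)) := by
      rw [Fintype.linearIndependent_iff]
      intro μ hμ
      by_contra hne
      push Not at hne
      obtain ⟨k₁, hk₁⟩ := hne
      obtain ⟨l, hl, hmin⟩ := Finset.exists_min_image (Finset.univ.filter fun k => μ k ≠ 0) Λ.we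
        ⟨k₁, by simpa using hk₁⟩
      have hl' : μ l ≠ 0 := by simpa using hl
      have h1 : ∑ k, μ k * ∑ j, B k j * c j (Λ.s l) (Λ.t l) = 0 := by
        have h2 : ∀ j, ∑ k, μ k * B k j = 0 := by
          intro j
          have := congrFun hμ j
          simpa [Finset.sum_apply] using this
        simp only [Finset.mul_sum]
        rw [Finset.sum_comm]
        refine Finset.sum_eq_zero fun j _ => ?_
        have h3 : ∑ k, μ k * (B k j * c j (Λ.s l) (Λ.t l)) =
            (∑ k, μ k * B k j) * c j (Λ.s l) (Λ.t l) := by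
          rw [Finset.sum_mul]
          exact Finset.sum_congr rfl fun k _ => by ring
        rw [h3, h2 j, zero_mul]
      rw [Finset.sum_eq_single l] at h1
      · exact (mul_ne_zero hl' (lead l)) h1
      · intro k _ hk
        by_cases hk0 : μ k = 0
        · rw [hk0, zero_mul]
        · rw [van k _ _ (hmin k (by simpa using hk0)) ?_ ?_, mul_zero]
          · rintro ⟨h2, h3⟩
            exact hk (hΛ.inj l k h2 h3).symm
          · rintro ⟨h2, h3⟩
            exact hΛ.col l k h2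
      · intro h
        exact (h (Finset.mem_univ _)).elim
    have h := hli.fintype_card_le_finrank
    simpa using h
  · have hli : LinearIndependent F (fun j : κ => (fun k => B k j : ε → F)) := by
      rw [Fintype.linearIndependent_iff]
      intro μ hμ l
      have h2 : ∀ k, ∑ j, μ j * B k j = 0 := by
        intro k
        have := congrFun hμ k
        simpa [Finset.sum_apply] using this
      have h3 : ∑ j, μ j * ∑ k, B' l k * B k j = 0 := by
        simp only [Finset.mul_sum]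
        rw [Finset.sum_comm]
        refine Finset.sum_eq_zero fun k _ => ?_
        have h4 : ∑ j, μ j * (B' l k * B k j) = B' l k * ∑ j, μ j * B k j := by
          rw [Finset.mul_sum]
          exact Finset.sum_congr rfl fun j _ => by ring
        rw [h4, h2 k, mul_zero]
      simpa [hB] using h3
    have h := hli.fintype_card_le_finrank
    simpa using h

end G2aux

open G2aux in
theorem rowG2 : RG2 := by
  intro p _ α ε κ _ _ _ s t δ cx cy B hL n
  set Δ : ℕ := ∑ a, δ a with hΔ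
  have hδ : ∀ a, δ a ≤ Δ := fun a => Finset.single_le_sum (fun _ _ => Nat.zero_le _) (Finset.mem_univ a)
  set W : ℕ := (n + 3) * Δ + 1 with hW
  have hW2 : ∀ a, 2 * δ a < W := by
    intro a
    have h1 := hδ a
    have h2 : 3 * Δ ≤ (n + 3) * Δ := Nat.mul_le_mul_right _ (by omega)
    omega
  set Λ : LD α ε := ⟨W, fun a => W + δ a, s, t⟩ with hΛdef
  have hLW : Lead Λ cx cy B := hL W hW2
  have hok := hLW.ok
  obtain ⟨B', hB'⟩ := hLW.inv
  have hshape : Shape Λ (fun k => ∑ j, B k j * qd cx cy j (Λ.s k) (Λ.t k)) (ff (qd cx cy) B) := by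
    refine ff_shape Λ (qd cx cy) ?_ B hLW.lead (fun k => hok.col k k) hLW.van
    intro j a b
    unfold qd
    ring
  have hcard : Fintype.card ε = Fintype.card κ :=
    card_eq Λ hok (qd cx cy) B B' hB' hLW.lead hLW.van
  have hwt : ∀ a, Λ.wt a = W + δ a := fun a => rfl
  have hlo : ∀ a, W ≤ Λ.wt a := fun a => by rw [hwt]; omega
  have hhi : ∀ a, Λ.wt a ≤ W + Δ := fun a => by rw [hwt]; have := hδ a; omega
  have key : ∀ (m : ℕ) (K : ℤ), (m : ℤ) * (W + Δ) ≤ K → K < ((m : ℤ) + 1) * W →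
      hd (quad (qd cx cy)) (m : ℤ) = Hc Λ K := by
    intro m K h1 h2
    rw [← Q05_dim Λ hok _ _ hshape K]
    unfold hd bd
    rw [ideal_eq Λ (qd cx cy) B B' hB' m K (le_iff Λ W Δ hlo hhi m K h1 h2)]
  have hWz : (W : ℤ) = ((n : ℤ) + 3) * Δ + 1 := by rw [hW]; push_cast; ring
  have hn0 : (0 : ℤ) ≤ n := Int.natCast_nonneg _
  have hD0 : (0 : ℤ) ≤ Δ := Int.natCast_nonneg _
  have hnD : (0 : ℤ) ≤ (n : ℤ) * Δ := mul_nonneg hn0 hD0
  have hW1 : (1 : ℤ) ≤ W := by rw [hWz]; nlinarith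
  have hcount := Q04_count Λ hok (((n : ℤ) + 3) * W - 1) (by nlinarith)
  have k2 : hd (quad (qd cx cy)) ((n : ℤ) + 2) = Hc Λ (((n : ℤ) + 3) * W - 1) := by
    have := key (n + 2) (((n : ℤ) + 3) * W - 1) (by push_cast; nlinarith) (by push_cast; nlinarith)
    exact_mod_cast this
  have k1 : ∀ a, Hc Λ (((n : ℤ) + 3) * W - 1 - Λ.wt a) = hd (quad (qd cx cy)) ((n : ℤ) + 1) := by
    intro a
    have ha : (Λ.wt a : ℤ) = W + δ a := by rw [hwt]; push_cast; ring
    have hda : (δ a : ℤ) ≤ Δ := by exact_mod_cast hδ a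
    have hda0 : (0 : ℤ) ≤ δ a := Int.natCast_nonneg _
    have := key (n + 1) (((n : ℤ) + 3) * W - 1 - Λ.wt a) (by rw [ha]; push_cast; nlinarith)
      (by rw [ha]; push_cast; nlinarith)
    exact_mod_cast this.symm
  have k0 : ∀ k, Hc Λ (((n : ℤ) + 3) * W - 1 - Λ.we k) = hd (quad (qd cx cy)) (n : ℤ) := by
    intro k
    have ha : (Λ.we k : ℤ) = 2 * W + δ (Λ.s k) + δ (Λ.t k) := by
      unfold LD.we
      rw [hwt, hwt]
      push_cast
      ring
    have h1 : (δ (Λ.s k) : ℤ) ≤ Δ := by exact_mod_cast hδ _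
    have h2 : (δ (Λ.t k) : ℤ) ≤ Δ := by exact_mod_cast hδ _
    have h3 : (0 : ℤ) ≤ δ (Λ.s k) := Int.natCast_nonneg _
    have h4 : (0 : ℤ) ≤ δ (Λ.t k) := Int.natCast_nonneg _
    exact (key n (((n : ℤ) + 3) * W - 1 - Λ.we k) (by rw [ha]; nlinarith) (by rw [ha]; nlinarith)).symm
  simp only [k1, k0] at hcount
  rw [← k2] at hcount
  simp only [Finset.sum_const, Finset.card_univ, smul_eq_mul] at hcount
  rw [← hcard]
  exact hcount

end Pool.Agent.RGM
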