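import Mathlib
import Pool.Agent.Lib.RGM.Rows

/-!
RGM, row H: the minor from the generic cup rank.
-/

set_option autoImplicit false

namespace Pool.Agent.RGM

open scoped Classical
open Pool.Agent.RGK (H1 KL cupG cupL)

/-- a full choice of columns: rows `v b` (`b : β`) linearly independent in `κ → F` have a square
submatrix with nonzero determinant -/
theorem H_cols {F β κ : Type} [Field F] [Fintype β] [Fintype κ] (v : β → κ → F)
    (h : LinearIndependent F v) : ∃ R : β → κ, (Matrix.of fun i b => v b (R i)).det ≠ 0 := by
  set A : Matrix β κ F := Matrix.of v with hA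
  have hrow : LinearIndependent F A.row := h
  have h1 : A.rank = Fintype.card β := hrow.rank_matrix
  obtain ⟨K', a, ha, hsp, hli⟩ := exists_linearIndependent' F A.col
  have : Finite K' := Finite.of_injective a ha
  let _ : Fintype K' := Fintype.ofFinite K'
  have h2 : Fintype.card K' = Fintype.card β := by
    rw [← finrank_span_eq_card hli, hsp, ← h1, Matrix.rank_eq_finrank_span_cols]
  obtain ⟨e⟩ := Fintype.card_eq.mp h2.symm
  refine ⟨fun i => a (e i), ?_⟩
  have h3 : LinearIndependent F (Matrix.of fun (i b : β) => v b (a (e i))).row := by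
    have h4 := hli.comp e e.injective
    exact h4
  have h5 := Matrix.linearIndependent_rows_iff_isUnit.mp h3
  rw [Matrix.isUnit_iff_isUnit_det] at h5
  exact h5.ne_zero

/-- vectors `V b` spanning a space of dimension at least `card α - 1`: all but one are independent -/
theorem H_rows {F α κ : Type} [Field F] [Fintype α] [Fintype κ] (V : α → κ → F)
    (hpos : 0 < Fintype.card α)
    (h : Fintype.card α ≤ Module.finrank F (Submodule.span F (Set.range V)) + 1) :
    ∃ b₀ : α, LinearIndependent F (fun b : {b // b ≠ b₀} => V b) := by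
  obtain ⟨K', a, ha, hsp, hli⟩ := exists_linearIndependent' F V
  have : Finite K' := Finite.of_injective a ha
  let _ : Fintype K' := Fintype.ofFinite K'
  have h2 : Fintype.card α ≤ Fintype.card K' + 1 := by
    rw [← finrank_span_eq_card hli, hsp]
    exact h
  have h3 : ∃ b₀ : α, ∀ b, b ≠ b₀ → b ∈ Set.range a := by
    by_cases hs : Function.Surjective a
    · obtain ⟨b₀⟩ := Fintype.card_pos_iff.mp hpos
      exact ⟨b₀, fun b _ => hs b⟩
    · rw [Function.Surjective] at hs
      push Not at hs
      obtain ⟨b₀, hb₀⟩ := hs
      refine ⟨b₀, fun b hb => ?_⟩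
      by_contra hb'
      have hinj : Function.Injective (fun x : K' ⊕ Fin 2 => match x with
        | Sum.inl k => a k
        | Sum.inr i => if i = 0 then b₀ else b) := by
        rintro (k | i) (l | j) hkl
        · exact congrArg _ (ha hkl)
        · exfalso
          dsimp only at hkl
          split_ifs at hkl
          · exact hb₀ k hkl
          · exact hb' ⟨k, hkl⟩
        · exfalso
          dsimp only at hkl
          split_ifs at hkl
          · exact hb₀ l hkl.symm
          · exact hb' ⟨l, hkl.symm⟩
        · dsimp only at hkl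
          congr 1
          fin_cases i <;> fin_cases j
          · rfl
          · simp at hkl
            exact absurd hkl.symm hb
          · simp at hkl
            exact absurd hkl hb
          · rfl
      have := Fintype.card_le_of_injective _ hinj
      rw [Fintype.card_sum, Fintype.card_fin] at this
      omega
  obtain ⟨b₀, hb₀⟩ := h3
  refine ⟨b₀, ?_⟩
  choose g hg using hb₀
  have h4 : Function.Injective (fun b : {b // b ≠ b₀} => g b.1 b.2) := by
    intro b b' hbb
    have h5 := congrArg a hbb
    simp only [hg] at h5
    exact Subtype.ext h5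
  have h5 := hli.comp _ h4
  have h6 : (fun b : {b // b ≠ b₀} => V b) = (V ∘ a) ∘ fun b : {b // b ≠ b₀} => g b.1 b.2 := by
    funext b
    simp only [Function.comp_apply, hg]
  rw [h6]
  exact h5

theorem rowH : RH := by
  intro p _ H _ _ κ α _ _ c f hG
  obtain ⟨hpos, F, _, _, m, t, h, hr⟩ := hG
  have hd : Module.finrank (ZMod p) H = Fintype.card α := Module.finrank_eq_card_basis f
  rw [hd] at hpos hr
  set x : α → F := fun a => ∑ i, t i * algebraMap (ZMod p) F (f.repr (h i) a) with hx
  set V : α → κ → F := fun b j => ∑ a, x a * algebraMap (ZMod p) F (c (f a) (f b) j) with hV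
  have hexp : ∀ (u g : H) (j : κ), c u g j =
      ∑ b, ∑ a, f.repr g b * (f.repr u a * c (f a) (f b) j) := by
    intro u g j
    conv_lhs => rw [← f.sum_repr u, ← f.sum_repr g]
    rw [map_sum]
    simp only [map_sum, map_smul, LinearMap.sum_apply, LinearMap.smul_apply, Finset.sum_apply,
      Pi.smul_apply, smul_eq_mul, Finset.mul_sum]
  have hspan : Submodule.span F (Set.range fun (g : H) (j : κ) =>
      ∑ i, t i * algebraMap (ZMod p) F (c (h i) g j)) ≤ Submodule.span F (Set.range V) := by
    rw [Submodule.span_le]
    rintro _ ⟨g, rfl⟩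
    have h1 : (fun j : κ => ∑ i, t i * algebraMap (ZMod p) F (c (h i) g j)) =
        ∑ b, algebraMap (ZMod p) F (f.repr g b) • V b := by
      funext j
      simp only [Finset.sum_apply, Pi.smul_apply, smul_eq_mul, hV, hx]
      have h2 : ∀ i, t i * algebraMap (ZMod p) F (c (h i) g j) =
          ∑ b, ∑ a, algebraMap (ZMod p) F (f.repr g b) * (t i *
            algebraMap (ZMod p) F (f.repr (h i) a) * algebraMap (ZMod p) F (c (f a) (f b) j)) := by
        intro i
        rw [hexp, map_sum, Finset.mul_sum]
        refine Finset.sum_congr rfl fun b _ => ?_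
        rw [map_sum, Finset.mul_sum]
        refine Finset.sum_congr rfl fun a _ => ?_
        rw [map_mul, map_mul]
        ring
      rw [Finset.sum_congr rfl fun i _ => h2 i, Finset.sum_comm]
      refine Finset.sum_congr rfl fun b _ => ?_
      rw [Finset.sum_comm, Finset.mul_sum]
      refine Finset.sum_congr rfl fun a _ => ?_
      rw [Finset.sum_mul, Finset.mul_sum]
    change (fun j : κ => ∑ i, t i * algebraMap (ZMod p) F (c (h i) g j)) ∈ Submodule.span F (Set.range V)
    rw [h1]
    exact Submodule.sum_mem _ fun b _ => Submodule.smul_mem _ _ (Submodule.subset_span ⟨b, rfl⟩)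
  have hr' : Fintype.card α ≤ Module.finrank F (Submodule.span F (Set.range V)) + 1 :=
    hr.trans (Nat.add_le_add_right (Submodule.finrank_mono hspan) 1)
  obtain ⟨b₀, hb₀⟩ := H_rows V hpos hr'
  obtain ⟨R, hR⟩ := H_cols (fun b : {b // b ≠ b₀} => V b) hb₀
  refine ⟨b₀, R, fun h0 => hR ?_⟩
  have h1 := congrArg (MvPolynomial.eval₂Hom (algebraMap (ZMod p) F) x) h0
  rw [RingHom.map_det, map_zero] at h1
  rw [← h1]
  congr 1
  ext i b
  simp only [RingHom.mapMatrix_apply, Matrix.map_apply, Matrix.of_apply, linM, map_sum, map_mul,
    MvPolynomial.eval₂Hom_C, MvPolynomial.eval₂Hom_X', hV]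
  exact Finset.sum_congr rfl fun a _ => mul_comm _ _

end Pool.Agent.RGM
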