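import Pool.Agent.Lib.RGM.Rows

/-!
RGM, row SGN: signs.
-/

set_option autoImplicit false

namespace Pool.Agent.RGM

open scoped Classical
open Pool.Agent.RG.Q (FA wd X)

theorem sgn_quad {F : Type} [Field F] {α κ : Type} [Fintype α] (c : κ → α → α → F) (j : κ) :
    quad (fun j a b => -c j a b) j = -quad c j := by
  simp only [quad, neg_smul, Finset.sum_neg_distrib]

theorem sgn_I {F : Type} [Field F] {α κ : Type} (f g : κ → FA F α) (h : ∀ j, g j = -f j) (n : ℤ) :
    I g n ≤ I f n := by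
  unfold I
  rw [Ideal.span_le]
  rintro x (⟨j, w, rfl⟩ | ⟨w, hw, rfl⟩)
  · rw [h, neg_mul]
    exact neg_mem (Ideal.subset_span (Or.inl ⟨j, w, rfl⟩))
  · exact Ideal.subset_span (Or.inr ⟨w, hw, rfl⟩)

theorem sgn_I_eq {F : Type} [Field F] {α κ : Type} (f g : κ → FA F α) (h : ∀ j, g j = -f j)
    (n : ℤ) : I g n = I f n :=
  le_antisymm (sgn_I f g h n) (sgn_I g f (fun j => by rw [h, neg_neg]) n)

theorem sgn_hd {F : Type} [Field F] {α κ : Type} (f g : κ → FA F α) (h : ∀ j, g j = -f j)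
    (n : ℤ) : hd g n = hd f n := by
  unfold hd
  rw [sgn_I_eq f g h n]

theorem rowSGN : RSGN := by
  intro F _ α κ _ _ c
  refine ⟨?_, ?_⟩
  · intro h n
    have hq : ∀ j, quad (fun j a b => -c j a b) j = -quad c j := sgn_quad c
    rw [sgn_hd _ _ hq, sgn_hd _ _ hq, sgn_hd _ _ hq]
    exact h n
  · rintro ⟨b₀, R, h⟩
    refine ⟨b₀, R, ?_⟩
    have he : linM (fun (i b : {b // b ≠ b₀}) (a : α) => -c (R i) a b) =
        -linM (fun (i b : {b // b ≠ b₀}) (a : α) => c (R i) a b) := by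
      ext i b : 2
      simp only [linM, Matrix.of_apply, Matrix.neg_apply, map_neg, neg_mul, Finset.sum_neg_distrib]
    rw [he, Matrix.det_neg]
    exact mul_ne_zero (pow_ne_zero _ (neg_ne_zero.mpr one_ne_zero)) h

end Pool.Agent.RGM
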