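import Mathlib
import Pool.Agent.Lib.RGM.RowF1
import Pool.Agent.Lib.RGM.RowG1
import Pool.Agent.Lib.RGM.RowG2
import Pool.Agent.Lib.RGM.RowH
import Pool.Agent.Lib.RGM.RowSGN
import Pool.Agent.Lib.RGM.Final

/-!
RGM: assembly.
-/

set_option autoImplicit false

namespace Pool.Agent.RGM

theorem rgrp : RGRP := rowGRP rowF1 rowG1 rowG2 rowH rowSGN

theorem rgrpT : RGRPT := rowGRPT rgrp rowG1 rowG2 rowSGN

end Pool.Agent.RGM
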