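import Mathlib
import Pool.Agent.Lib.RGM.KDefs

/-!
RGM: the conditions on the cup product in the statement over number fields.
-/

set_option autoImplicit false

namespace Pool.Agent.RGM

/-- The cup products `f(x_t) g(y_t) - g(x_t) f(y_t)` at the pairs `(x t, y t)` satisfy the condition on the
generic cup rank `GenC`, and the condition `MildC` or the condition `UVC`. -/
def GenMild (p : ℕ) [Fact p.Prime] {G R : Type} [Group G] [TopologicalSpace G] [IsTopologicalGroup G]
    [Fintype R] (x y : R → G) : Prop :=
  GenC (cupXY (p := p) x y) ∧ (MildC (cupXY (p := p) x y) ∨ UVC (cupXY (p := p) x y))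

end Pool.Agent.RGM
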